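import Pool.Agent.Lib.MP_4fb322_lc_h71.Defs2

set_option autoImplicit false

/-! Row B1 (MP_4fb322_lc, all arities, positions). -/

namespace Pool.MP4fb322AA

open Filter
open Pool.Agent.Lib.MP_4fb322_lc_q (Tm)

section B1

variable {V L L' : Type} {n : L → ℕ} {n' : L' → ℕ} {u : Ultrafilter (V → V)}
  {π : St V n' → St V n} {pt : Partner n n'}

/-- the boxes below, read from the boxes `r'` above (and `q` where there is no partner) -/
def dn (pt : Partner n n') (q : Bx V n) (r' : Bx V n') : Bx V n := fun l =>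
  {y | (∃ (l' : L') (g : Fin (n l) → Fin (n' l')), pt l' = some ⟨l, g⟩ ∧ ∃ y' ∈ r' l', y' ∘ g = y) ∨
    (y ∈ q l ∧ ∀ (l' : L') (g : Fin (n l) → Fin (n' l')), pt l' ≠ some ⟨l, g⟩)}

/-- the boxes above, restricted by the boxes below -/
def upb (pt : Partner n n') (q : Bx V n) (r' : Bx V n') : Bx V n' := fun l' =>
  {y' | y' ∈ r' l' ∧ ∀ (l : L) (g : Fin (n l) → Fin (n' l')), pt l' = some ⟨l, g⟩ → y' ∘ g ∈ q l}

theorem dn_box {q : Bx V n} {r' : Bx V n'} (hq : AllBox u q) (hr : AllBox u r') :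
    AllBox u (dn pt q r') := by
  intro l
  constructor
  · by_cases h : ∃ (l' : L') (g : Fin (n l) → Fin (n' l')), pt l' = some ⟨l, g⟩
    · obtain ⟨l', g, h⟩ := h
      obtain ⟨y', hy'⟩ := (hr l').1
      exact ⟨y' ∘ g, Or.inl ⟨l', g, h, y', hy', rfl⟩⟩
    · push Not at h
      obtain ⟨y, hy⟩ := (hq l).1
      exact ⟨y, Or.inr ⟨hy, h⟩⟩
  · rintro z (⟨l', g, h, y', hy', rfl⟩ | ⟨hz, h⟩)
    · filter_upwards [(hr l').2 y' hy'] with f hf
      exact Or.inl ⟨l', g, h, f ∘ y', hf, rfl⟩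
    · filter_upwards [(hq l).2 z hz] with f hf
      exact Or.inr ⟨hf, h⟩

theorem upb_box {q : Bx V n} {r' : Bx V n'} (hq : AllBox u q) (hr : AllBox u r')
    (hne : ∀ (l' : L') (l : L) (g : Fin (n l) → Fin (n' l')), pt l' = some ⟨l, g⟩ →
      ∃ y' ∈ r' l', y' ∘ g ∈ q l) : AllBox u (upb pt q r') := by
  intro l'
  constructor
  · rcases hp : pt l' with _ | ⟨l, g⟩
    · obtain ⟨y', hy'⟩ := (hr l').1
      refine ⟨y', hy', ?_⟩
      intro l g h
      rw [hp] at h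
      exact absurd h (by simp)
    · obtain ⟨y', hy', hy⟩ := hne l' l g hp
      refine ⟨y', hy', ?_⟩
      intro l₂ g₂ h
      rw [hp] at h
      obtain ⟨rfl, h2⟩ := Sigma.mk.inj (Option.some.inj h)
      obtain rfl := eq_of_heq h2
      exact hy
  · rintro y' ⟨hy', h⟩
    rcases hp : pt l' with _ | ⟨l, g⟩
    · filter_upwards [(hr l').2 y' hy'] with f hf
      refine ⟨hf, ?_⟩
      intro l g h
      rw [hp] at h
      exact absurd h (by simp)
    · filter_upwards [(hr l').2 y' hy', (hq l).2 _ (h l g hp)] with f hf hf2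
      refine ⟨hf, ?_⟩
      intro l₂ g₂ h
      rw [hp] at h
      obtain ⟨rfl, h2⟩ := Sigma.mk.inj (Option.some.inj h)
      obtain rfl := eq_of_heq h2
      exact hf2

/-- the step of PULL: boxes -/
theorem pull_box (hpt : PInj pt) {q : Bx V n} {q' : Bx V n'}
    (hc : ∀ (l' : L') (l : L) (g : Fin (n l) → Fin (n' l')), pt l' = some ⟨l, g⟩ →
      ∀ y' ∈ q' l', y' ∘ g ∈ q l) {r' : Bx V n'} (hr : AllBox u r') (hrq : r' ≤ q') :
    dn pt q r' ≤ q ∧ ∀ q₂ : Bx V n, AllBox u q₂ → q₂ ≤ dn pt q r' → AllBox u (upb pt q₂ r') := by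
  refine ⟨?_, ?_⟩
  · rintro l y (⟨l', g, h, y', hy', rfl⟩ | ⟨hy, -⟩)
    · exact hc l' l g h y' (hrq l' hy')
    · exact hy
  · intro q₂ hq₂ hle
    refine upb_box hq₂ hr ?_
    intro l' l g h
    obtain ⟨y, hy⟩ := (hq₂ l).1
    rcases hle l hy with ⟨l₂, g₂, h₂, y', hy', rfl⟩ | ⟨-, h₂⟩
    · obtain rfl := hpt l' l₂ l g g₂ h h₂
      rw [h] at h₂
      obtain rfl := eq_of_heq (Sigma.mk.inj (Option.some.inj h₂)).2
      exact ⟨y', hy', hy⟩
    · exact absurd h (h₂ l' g)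

/-- PULL -/
theorem F_pull (hpt : PInj pt) {P : List (Instr L)} {P' : List (Instr L')} (hs : Sim π pt P P')
    {q : Bx V n} {q' : Bx V n'} (hq : AllBox u q) (hq' : AllBox u q')
    (hc : ∀ (l' : L') (l : L) (g : Fin (n l) → Fin (n' l')), pt l' = some ⟨l, g⟩ →
      ∀ y' ∈ q' l', y' ∘ g ∈ q l)
    {z' : St V n'} {W : Set (St V n)} (h : F u P (π z') q W) : F u P' z' q' (π ⁻¹' W) := by
  induction hs generalizing z' q q' with
  | nil => exact h
  | @choose l l' g P P' hp hπ hP ih =>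
    intro r' hr hrq
    obtain ⟨h1, h2⟩ := pull_box hpt hc hr hrq
    obtain ⟨q₂, hq₂, hle, hst⟩ := h _ (dn_box hq hr) h1
    refine ⟨upb pt q₂ r', h2 q₂ hq₂ hle, fun l y hy => hy.1, ?_⟩
    intro y' hy'
    have h3 : F u P (upd (π z') l (y' ∘ g)) q₂ W := hst _ (hy'.2 l g hp)
    rw [← hπ] at h3
    exact ih hq₂ (h2 q₂ hq₂ hle) (fun l' l g h y' hy' => hy'.2 l g h) h3
  | @app S S' P P' hπ hP ih =>
    intro r' hr hrq
    obtain ⟨h1, h2⟩ := pull_box hpt hc hr hrq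
    obtain ⟨q₂, hq₂, hle, hst⟩ := h _ (dn_box hq hr) h1
    refine ⟨upb pt q₂ r', h2 q₂ hq₂ hle, fun l y hy => hy.1, ?_⟩
    refine Filter.Eventually.mono hst ?_
    intro f hf
    have h3 : F u P (appS S f (π z')) q₂ W := hf
    rw [← hπ] at h3
    exact ih hq₂ (h2 q₂ hq₂ hle) (fun l' l g h y' hy' => hy'.2 l g h) h3

/-- the step of PUSH: boxes -/
theorem push_box (hpt : PInj pt) {q : Bx V n} {q' : Bx V n'} (hq' : AllBox u q')
    (hc : ∀ (l' : L') (l : L) (g : Fin (n l) → Fin (n' l')), pt l' = some ⟨l, g⟩ →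
      ∀ y ∈ q l, ∃ y' ∈ q' l', y' ∘ g = y) {r : Bx V n} (hr : AllBox u r) (hrq : r ≤ q) :
    AllBox u (upb pt r q') ∧ ∀ q₂ : Bx V n', q₂ ≤ upb pt r q' → dn pt r q₂ ≤ r ∧
      ∀ (l' : L') (l : L) (g : Fin (n l) → Fin (n' l')), pt l' = some ⟨l, g⟩ →
        ∀ y ∈ dn pt r q₂ l, ∃ y' ∈ q₂ l', y' ∘ g = y := by
  refine ⟨upb_box hr hq' ?_, ?_⟩
  · intro l' l g h
    obtain ⟨y, hy⟩ := (hr l).1
    obtain ⟨y', hy', rfl⟩ := hc l' l g h y (hrq l hy)
    exact ⟨y', hy', hy⟩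
  · intro q₂ hle
    refine ⟨?_, ?_⟩
    · rintro l y (⟨l', g, h, y', hy', rfl⟩ | ⟨hy, -⟩)
      · exact (hle l' hy').2 l g h
      · exact hy
    · rintro l' l g h y (⟨l₂, g₂, h₂, y', hy', rfl⟩ | ⟨-, h₂⟩)
      · obtain rfl := hpt l' l₂ l g g₂ h h₂
        rw [h] at h₂
        obtain rfl := eq_of_heq (Sigma.mk.inj (Option.some.inj h₂)).2
        exact ⟨y', hy', rfl⟩
      · exact absurd h (h₂ l' g)

/-- PUSH -/
theorem F_push (hpt : PInj pt) {P : List (Instr L)} {P' : List (Instr L')} (hs : Sim π pt P P')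
    {q : Bx V n} {q' : Bx V n'} (hq : AllBox u q) (hq' : AllBox u q')
    (hc : ∀ (l' : L') (l : L) (g : Fin (n l) → Fin (n' l')), pt l' = some ⟨l, g⟩ →
      ∀ y ∈ q l, ∃ y' ∈ q' l', y' ∘ g = y)
    {z' : St V n'} {W : Set (St V n)} (h : F u P' z' q' (π ⁻¹' W)) : F u P (π z') q W := by
  induction hs generalizing z' q q' with
  | nil => exact h
  | @choose l l' g P P' hp hπ hP ih =>
    intro r hr hrq
    obtain ⟨h1, h2⟩ := push_box hpt hq' hc hr hrq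
    obtain ⟨q₂, hq₂, hle, hst⟩ := h _ h1 (fun l y hy => hy.1)
    obtain ⟨h3, h4⟩ := h2 q₂ hle
    refine ⟨dn pt r q₂, dn_box hr hq₂, h3, ?_⟩
    intro y hy
    obtain ⟨y', hy', rfl⟩ := h4 l' l g hp y hy
    have h5 : F u P' (upd z' l' y') q₂ (π ⁻¹' W) := hst _ hy'
    have h6 := ih (dn_box hr hq₂) hq₂ h4 h5
    rw [hπ] at h6
    exact h6
  | @app S S' P P' hπ hP ih =>
    intro r hr hrq
    obtain ⟨h1, h2⟩ := push_box hpt hq' hc hr hrq
    obtain ⟨q₂, hq₂, hle, hst⟩ := h _ h1 (fun l y hy => hy.1)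
    obtain ⟨h3, h4⟩ := h2 q₂ hle
    refine ⟨dn pt r q₂, dn_box hr hq₂, h3, ?_⟩
    refine Filter.Eventually.mono hst ?_
    intro f hf
    have h5 : F u P' (appS S' f z') q₂ (π ⁻¹' W) := hf
    have h6 := ih (dn_box hr hq₂) hq₂ h4 h5
    rw [hπ] at h6
    exact h6

/-- TRUTH -/
theorem Tr_sim {P : List (Instr L)} {P' : List (Instr L')} (hs : Sim π pt P P')
    {x : ∀ l : L, Ultrafilter (Fin (n l) → V)} {x' : ∀ l' : L', Ultrafilter (Fin (n' l') → V)}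
    (hx : ∀ (l' : L') (l : L) (g : Fin (n l) → Fin (n' l')), pt l' = some ⟨l, g⟩ →
      x l = (x' l').map (fun y' => y' ∘ g))
    {z' : St V n'} {A : Set (St V n)} : Tr u x' P' z' (π ⁻¹' A) ↔ Tr u x P (π z') A := by
  induction hs generalizing z' with
  | nil => exact Iff.rfl
  | @choose l l' g P P' hp hπ hP ih =>
    show (∀ᶠ y in (x' l' : Filter _), Tr u x' P' (upd z' l' y) (π ⁻¹' A)) ↔
      (∀ᶠ y in (x l : Filter _), Tr u x P (upd (π z') l y) A)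
    rw [hx l' l g hp]
    show _ ↔ (∀ᶠ y in (x' l' : Filter _), Tr u x P (upd (π z') l (y ∘ g)) A)
    refine Filter.eventually_congr (Filter.Eventually.of_forall fun y => ?_)
    rw [ih, hπ]
  | @app S S' P P' hπ hP ih =>
    show (∀ᶠ f in (u : Filter (V → V)), Tr u x' P' (appS S' f z') (π ⁻¹' A)) ↔
      (∀ᶠ f in (u : Filter (V → V)), Tr u x P (appS S f (π z')) A)
    refine Filter.eventually_congr (Filter.Eventually.of_forall fun f => ?_)
    rw [ih, hπ]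

end B1

end Pool.MP4fb322AA
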