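import Pool.Agent.Lib.MP_4fb322_lc_h71.Defs2

set_option autoImplicit false

/-! Row B6: LEMMA M (MP_4fb322_lc, all arities, positions). -/

namespace Pool.MP4fb322AA

open Filter
open Pool.Agent.Lib.MP_4fb322_lc_q (Tm)

section Basic

variable {V L : Type} {n : L → ℕ} {u : Ultrafilter (V → V)}
  {x : ∀ l : L, Ultrafilter (Fin (n l) → V)}

theorem Tr.mono {P : List (Instr L)} {z : St V n} {A B : Set (St V n)} (hAB : A ⊆ B)
    (h : Tr u x P z A) : Tr u x P z B := by
  induction P generalizing z with
  | nil => exact hAB h
  | cons i P ih =>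
      cases i with
      | choose l => exact Filter.Eventually.mono h (fun y hy => ih hy)
      | app S => exact Filter.Eventually.mono h (fun y hy => ih hy)

theorem Tr.inter {P : List (Instr L)} {z : St V n} {A B : Set (St V n)}
    (h : Tr u x P z A) (h' : Tr u x P z B) : Tr u x P z (A ∩ B) := by
  induction P generalizing z with
  | nil => exact ⟨h, h'⟩
  | cons i P ih =>
      cases i with
      | choose l =>
          filter_upwards [h, h'] with y hy hy'
          exact ih hy hy'
      | app S =>
          filter_upwards [h, h'] with y hy hy'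
          exact ih hy hy'

theorem Tr.compl_iff {P : List (Instr L)} {z : St V n} {A : Set (St V n)} :
    Tr u x P z Aᶜ ↔ ¬ Tr u x P z A := by
  induction P generalizing z with
  | nil => exact Iff.rfl
  | cons i P ih =>
      cases i with
      | choose l =>
          simp only [Tr]
          rw [← Ultrafilter.eventually_not]
          simp only [ih]
      | app S =>
          simp only [Tr]
          rw [← Ultrafilter.eventually_not]
          simp only [ih]

theorem Tr.univ {P : List (Instr L)} {z : St V n} : Tr u x P z Set.univ := by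
  induction P generalizing z with
  | nil => trivial
  | cons i P ih =>
      cases i with
      | choose l => exact Filter.Eventually.of_forall (fun y => ih)
      | app S => exact Filter.Eventually.of_forall (fun y => ih)

/-- the law of a program as an ultrafilter -/
def trU (u : Ultrafilter (V → V)) (x : ∀ l : L, Ultrafilter (Fin (n l) → V)) (P : List (Instr L))
    (z : St V n) : Ultrafilter (St V n) :=
  Ultrafilter.ofComplNotMemIff
    { sets := {A | Tr u x P z A}
      univ_sets := Tr.univ
      sets_of_superset := fun h hAB => Tr.mono hAB h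
      inter_sets := fun h h' => Tr.inter h h' }
    (fun A => by
      show ¬ Tr u x P z Aᶜ ↔ Tr u x P z A
      rw [Tr.compl_iff, not_not])

theorem mem_trU {P : List (Instr L)} {z : St V n} {A : Set (St V n)} :
    A ∈ trU u x P z ↔ Tr u x P z A := Iff.rfl

theorem Tr.append {P R : List (Instr L)} {z : St V n} {A : Set (St V n)} :
    Tr u x (P ++ R) z A ↔ Tr u x P z {z' | Tr u x R z' A} := by
  induction P generalizing z with
  | nil => exact Iff.rfl
  | cons i P ih =>
      cases i with
      | choose l => simp only [List.cons_append, Tr, ih]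
      | app S => simp only [List.cons_append, Tr, ih]

end Basic

section B6

variable {V Λ : Type} {u : Ultrafilter (V → V)} {T : TFam V} {BB : ∀ m : ℕ, Set (Set (Fin m → V))}
  {sz : Λ → ℕ} {v : ∀ a : Λ, Ultrafilter (Fin (sz a) → V)}

/-- LEMMA M -/
theorem lemmaM (hbox : ∀ m, ∀ b ∈ BB m, IsBox u b) (hgen : GenStep u T BB sz v) {k r : ℕ} {α : Fin k → ℕ}
    {E : Fin r → Λ} (hE : Function.Injective E)
    {x : ∀ l : Fin k ⊕ Fin r, Ultrafilter (Fin (Sum.elim α (fun j => sz (E j)) l) → V)}
    (hx : ∀ j, x (Sum.inr j) = v (E j)) {P' R : List (Instr (Fin k ⊕ Fin r))}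
    (hP' : lv P' ⊆ Set.range Sum.inr) {z : St V (Sum.elim α (fun j => sz (E j)))}
    {q : Bx V (Sum.elim α (fun j => sz (E j)))} {W : Set (St V (Sum.elim α (fun j => sz (E j))))}
    (hW : InW T W) (hq : Fm BB q) (hv : ∀ j : Fin r, q (Sum.inr j) ∈ v (E j))
    (h : F u (P' ++ R) z q W) : ¬ Tr u x P' z {z' | F u R z' q Wᶜ} := by
  induction P' generalizing z q with
  | nil =>
      intro h'
      exact F.not_compl (fun l => hbox _ _ (hq l)) h h'
  | cons i P' ih =>
      intro h'
      obtain ⟨q', hq', hqq, hv', hs⟩ := hgen k r α E hE i (P' ++ R) z q W hW hq hv h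
      have hsub : {z' | F u R z' q Wᶜ} ⊆ {z' | F u R z' q' Wᶜ} := fun z' hz' => hz'.mono hqq subset_rfl
      have hP'' : lv P' ⊆ Set.range Sum.inr := fun l hl => hP' (List.mem_cons_of_mem _ hl)
      cases i with
      | choose l =>
          obtain ⟨j, rfl⟩ := hP' (List.mem_cons_self : Instr.choose l ∈ Instr.choose l :: P')
          have h1 : ∀ᶠ y in (x (Sum.inr j) : Filter _), y ∈ q' (Sum.inr j) := by
            rw [hx j]
            exact hv' j
          have h2 : ∀ᶠ y in (x (Sum.inr j) : Filter _), Tr u x P' (upd z (Sum.inr j) y) {z' | F u R z' q Wᶜ} := h'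
          obtain ⟨y, hy1, hy2⟩ := (h1.and h2).exists
          exact ih hP'' hq' hv' (hs y hy1) (hy2.mono hsub)
      | app S =>
          have h2 : ∀ᶠ g in (u : Filter (V → V)), Tr u x P' (appS S g z) {z' | F u R z' q Wᶜ} := h'
          obtain ⟨g, hg1, hg2⟩ := (Filter.Eventually.and hs h2).exists
          exact ih hP'' hq' hv' hg1 (hg2.mono hsub)

end B6

end Pool.MP4fb322AA
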