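import Pool.Agent.Lib.MP_4fb322_lc_h71.Defs3
import Pool.Agent.Lib.MP_4fb322_lc_h71.B1
import Pool.Agent.Lib.MP_4fb322_lc_h71.B6

set_option autoImplicit false

/-! Row B10 (MP_4fb322_lc, all arities, positions). -/

namespace Pool.MP4fb322AA

open Filter
open Pool.Agent.Lib.MP_4fb322_lc_q (Tm Sub HasEq FinTy Nip Mv)

section B10

variable {V L : Type} {n : L → ℕ} {u : Ultrafilter (V → V)} {x : ∀ l : L, Ultrafilter (Fin (n l) → V)}

private theorem lv_append (P Q : List (Instr L)) : lv (P ++ Q) = lv P ∪ lv Q := by
  ext l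
  simp [lv]

private theorem lv_app (S : Set L) : lv [Instr.app S] = ∅ := by
  ext l
  simp [lv]

theorem lv_prog (t : Tm L) : lv (prog t) = {l | l ∈ t.lv} := by
  induction t with
  | leaf a =>
      ext l
      simp [prog, lv, Tm.lv]
  | node s t ihs iht =>
      rw [prog, lv_append, lv_append, lv_app, ihs, iht, Set.union_empty]
      ext l
      simp [Tm.lv]

private theorem good_append {P Q : List (Instr L)} (hP : Good P) (hQ : Good Q)
    (h : ∀ l ∈ lv P, l ∉ lv Q) : Good (P ++ Q) := by
  induction P with
  | nil => exact hQ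
  | cons i P ih =>
      cases i with
      | choose l =>
          refine ⟨?_, ih hP.2 fun l' hl' => h l' (List.mem_cons_of_mem _ hl')⟩
          rw [show lv (P.append Q) = lv P ∪ lv Q from lv_append P Q]
          rintro (h1 | h1)
          · exact hP.1 h1
          · exact h l List.mem_cons_self h1
      | app S => exact ih hP fun l' hl' => h l' (List.mem_cons_of_mem _ hl')

theorem good_prog {t : Tm L} (h : t.lv.Nodup) : Good (prog t) := by
  induction t with
  | leaf a => exact ⟨by simp [lv], trivial⟩
  | node s t ihs iht =>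
      obtain ⟨h1, h2, h3⟩ := List.nodup_append.1 h
      rw [prog]
      refine good_append (good_append (ihs h1) (iht h2) ?_) trivial ?_
      · intro l hl hl'
        rw [lv_prog] at hl hl'
        exact h3 l hl l hl' rfl
      · intro l _ hl'
        rw [lv_app] at hl'
        exact hl'

/-- an `app` only moves leaves chosen before -/
theorem prog_app {t : Tm L} {P₁ P₂ : List (Instr L)} {S : Set L} (h : prog t = P₁ ++ Instr.app S :: P₂) :
    S ⊆ lv P₁ := by
  induction t generalizing P₁ P₂ with
  | leaf a =>
      rw [prog] at h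
      rcases P₁ with _ | ⟨i, P₁⟩
      · simp at h
      · simp at h
  | node s t ihs iht =>
      rw [prog] at h
      rcases List.append_eq_append_iff.1 h with ⟨a', h1, h2⟩ | ⟨c', h1, h2⟩
      · -- `P₁ = prog s ++ prog t ++ a'`, `[app U] = a' ++ app S :: P₂`
        rcases a' with _ | ⟨i, a'⟩
        · simp only [List.nil_append, List.cons.injEq, Instr.app.injEq] at h2
          rw [h1, List.append_nil, lv_append, lv_prog, lv_prog, ← h2.1]
          intro l hl
          exact hl
        · simp at h2
      · -- `prog s ++ prog t = P₁ ++ c'`, `app S :: P₂ = c' ++ [app U]`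
        rcases c' with _ | ⟨i, c'⟩
        · simp only [List.nil_append, List.cons.injEq, Instr.app.injEq] at h2
          rw [List.append_nil] at h1
          rw [← h1, lv_append, lv_prog, lv_prog, h2.1]
          intro l hl
          exact hl
        · simp only [List.cons_append, List.cons.injEq] at h2
          rw [← h2.1] at h1
          rcases List.append_eq_append_iff.1 h1 with ⟨a'', h3, h4⟩ | ⟨c'', h3, h4⟩
          · have h5 := iht h4
            rw [h3, lv_append]
            exact h5.trans Set.subset_union_right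
          · rcases c'' with _ | ⟨j, c''⟩
            · rw [List.nil_append] at h4
              rw [List.append_nil] at h3
              have h5 := iht (P₁ := []) h4.symm
              intro l hl
              exact absurd (h5 hl) (by simp [lv])
            · simp only [List.cons_append, List.cons.injEq] at h4
              rw [← h4.1] at h3
              exact ihs h3

theorem Dep.mono {A : Set (St V n)} {S S' : Set L} (h : Dep A S) (hS : S ⊆ S') : Dep A S' :=
  fun z z' hz => h z z' fun l hl => hz l (hS hl)

/-- `Tr` depends only on the coordinates which are not chosen -/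
private theorem tr_state_gen {P : List (Instr L)} {z z' : St V n} {A : Set (St V n)} {S : Set L}
    (hA : Dep A S) (hz : ∀ l ∈ S, l ∉ lv P → z l = z' l) : Tr u x P z A ↔ Tr u x P z' A := by
  induction P generalizing z z' with
  | nil => exact hA z z' fun l hl => hz l hl (by simp [lv])
  | cons i P ih =>
      cases i with
      | choose l =>
          refine Filter.eventually_congr (Filter.Eventually.of_forall fun y => ih ?_)
          intro l' hl' hl''
          by_cases h : l' = l
          · subst h
            simp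
          · rw [upd_ne h, upd_ne h]
            refine hz l' hl' ?_
            simp only [lv, Set.mem_ofPred_eq, List.mem_cons, Instr.choose.injEq, not_or] at hl'' ⊢
            exact ⟨h, hl''⟩
      | app T =>
          refine Filter.eventually_congr (Filter.Eventually.of_forall fun y => ih ?_)
          intro l' hl' hl''
          have h1 : z l' = z' l' := by
            refine hz l' hl' ?_
            simp only [lv, Set.mem_ofPred_eq, List.mem_cons, reduceCtorEq, false_or] at hl'' ⊢
            exact hl''
          by_cases h : l' ∈ T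
          · rw [appS_mem h, appS_mem h, h1]
          · rw [appS_notMem h, appS_notMem h, h1]

theorem tr_state {t : Tm L} {z z' : St V n} {A : Set (St V n)} (hA : Dep A {l | l ∈ t.lv}) :
    Tr u x (prog t) z A ↔ Tr u x (prog t) z' A := by
  refine tr_state_gen hA fun l hl hl' => ?_
  rw [lv_prog] at hl'
  exact absurd hl hl'

private theorem tr_congr_gen {P : List (Instr L)} {x' : ∀ l : L, Ultrafilter (Fin (n l) → V)}
    (hx : ∀ l ∈ lv P, x l = x' l) {z : St V n} {A : Set (St V n)} :
    Tr u x P z A ↔ Tr u x' P z A := by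
  induction P generalizing z with
  | nil => exact Iff.rfl
  | cons i P ih =>
      have ih' : ∀ {z : St V n}, Tr u x P z A ↔ Tr u x' P z A :=
        fun {z} => ih fun l hl => hx l (List.mem_cons_of_mem _ hl)
      cases i with
      | choose l =>
          have h1 : x l = x' l := hx l List.mem_cons_self
          simp only [Tr, h1, ih']
      | app T => simp only [Tr, ih']

theorem tr_congr {t : Tm L} {x' : ∀ l : L, Ultrafilter (Fin (n l) → V)} (hx : ∀ l ∈ t.lv, x l = x' l)
    {z : St V n} {A : Set (St V n)} : Tr u x (prog t) z A ↔ Tr u x' (prog t) z A := by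
  refine tr_congr_gen fun l hl => ?_
  rw [lv_prog] at hl
  exact hx l hl

private theorem tr_set {P : List (Instr L)} {z : St V n} {A B : Set (St V n)} (h : A = B) :
    Tr u x P z A ↔ Tr u x P z B := by
  rw [h]

/-- the law of a tree is invariant -/
theorem tr_pos (hu : Idem u) (hx : ∀ l, Pos u (x l)) {t : Tm L} {z : St V n} {A : Set (St V n)}
    (hA : Dep A {l | l ∈ t.lv}) :
    Tr u x (prog t) z A ↔ Tr u x (prog t) z {z' | ∀ᶠ h in (u : Filter (V → V)), (fun l => h ∘ z' l) ∈ A} := by
  cases t with
  | leaf a =>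
      have h1 := hx a {y | upd z a y ∈ A}
      refine h1.trans ?_
      refine Filter.eventually_congr (Filter.Eventually.of_forall fun y => ?_)
      refine Filter.eventually_congr (Filter.Eventually.of_forall fun h => ?_)
      refine hA _ _ fun l hl => ?_
      have hla : l = a := by simpa [Tm.lv] using hl
      subst hla
      simp
  | node s t =>
      rw [prog]
      refine Tr.append.trans (Iff.trans (tr_set ?_) Tr.append.symm)
      ext z'
      change (∀ᶠ h in (u : Filter (V → V)), appS {l | l ∈ s.lv ∨ l ∈ t.lv} h z' ∈ A) ↔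
        ∀ᶠ g in (u : Filter (V → V)), ∀ᶠ h in (u : Filter (V → V)),
          (fun l => h ∘ appS {l | l ∈ s.lv ∨ l ∈ t.lv} g z' l) ∈ A
      have h1 := hu {h | appS {l | l ∈ s.lv ∨ l ∈ t.lv} h z' ∈ A}
      refine h1.trans ?_
      refine Filter.eventually_congr (Filter.Eventually.of_forall fun g => ?_)
      refine Filter.eventually_congr (Filter.Eventually.of_forall fun h => ?_)
      refine hA _ _ fun l hl => ?_
      have hl' : l ∈ {l | l ∈ s.lv ∨ l ∈ t.lv} := List.mem_append.1 hl
      rw [appS_mem hl', appS_mem hl']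
      rfl

/-- the leaves moved by a tree -/
private theorem app_prog {t : Tm L} {S : Set L} (h : Instr.app S ∈ prog t) : S ⊆ {l | l ∈ t.lv} := by
  obtain ⟨P₁, P₂, h1⟩ := List.append_of_mem h
  have h2 := prog_app h1
  refine h2.trans ?_
  rw [← lv_prog, h1, lv_append]
  exact Set.subset_union_left

/-- the coordinates in `S` are not touched -/
private def NT (P : List (Instr L)) (S : Set L) : Prop :=
  (∀ l, Instr.choose l ∈ P → l ∉ S) ∧ ∀ T, Instr.app T ∈ P → ∀ l ∈ T, l ∉ S

private theorem nt_prog {t : Tm L} {S : Set L} (h : ∀ l ∈ t.lv, l ∉ S) : NT (prog t) S := by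
  refine ⟨fun l hl => ?_, fun T hT l hl => h l (app_prog hT hl)⟩
  have h1 : l ∈ lv (prog t) := hl
  rw [lv_prog] at h1
  exact h l h1

private theorem comb_mem {S : Set L} {z y : St V n} {l : L} (h : l ∈ S) : comb S z y l = y l := by
  simp [comb, h]

private theorem comb_notMem {S : Set L} {z y : St V n} {l : L} (h : l ∉ S) :
    comb S z y l = z l := by
  simp [comb, h]

private theorem tr_frame {P : List (Instr L)} {S : Set L} (hP : NT P S) {z w : St V n}
    (hw : ∀ l ∈ S, w l = z l) {B : Set (St V n)} :
    Tr u x P z B ↔ Tr u x P z {z' | comb S z' w ∈ B} := by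
  induction P generalizing z with
  | nil =>
      have h1 : comb S z w = z := by
        funext l
        by_cases h : l ∈ S
        · rw [comb_mem h, hw l h]
        · rw [comb_notMem h]
      change z ∈ B ↔ comb S z w ∈ B
      rw [h1]
  | cons i P ih =>
      have hP' : NT P S :=
        ⟨fun l hl => hP.1 l (List.mem_cons_of_mem _ hl), fun T hT => hP.2 T (List.mem_cons_of_mem _ hT)⟩
      cases i with
      | choose a =>
          refine Filter.eventually_congr (Filter.Eventually.of_forall fun y => ih hP' ?_)
          intro l hl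
          have hla : l ≠ a := by
            rintro rfl
            exact hP.1 l List.mem_cons_self hl
          rw [upd_ne hla, hw l hl]
      | app T =>
          refine Filter.eventually_congr (Filter.Eventually.of_forall fun y => ih hP' ?_)
          intro l hl
          have hlT : l ∉ T := fun h => hP.2 T List.mem_cons_self l h hl
          rw [appS_notMem hlT, hw l hl]

/-- programs which do not touch the relevant coordinates -/
private theorem tr_nt {P : List (Instr L)} {S : Set L} (hP : NT P S) {z : St V n} {B : Set (St V n)}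
    (hB : Dep B S) : Tr u x P z B ↔ z ∈ B := by
  induction P generalizing z with
  | nil => exact Iff.rfl
  | cons i P ih =>
      have hP' : NT P S :=
        ⟨fun l hl => hP.1 l (List.mem_cons_of_mem _ hl), fun T hT => hP.2 T (List.mem_cons_of_mem _ hT)⟩
      cases i with
      | choose a =>
          have h1 : ∀ y, upd z a y ∈ B ↔ z ∈ B := fun y => hB _ _ fun l hl => by
            have hla : l ≠ a := by
              rintro rfl
              exact hP.1 l List.mem_cons_self hl
            rw [upd_ne hla]
          simp only [Tr, ih hP', h1, Filter.eventually_const]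
      | app T =>
          have h1 : ∀ y, appS T y z ∈ B ↔ z ∈ B := fun y => hB _ _ fun l hl => by
            have hlT : l ∉ T := fun h => hP.2 T List.mem_cons_self l h hl
            rw [appS_notMem hlT]
          simp only [Tr, ih hP', h1, Filter.eventually_const]

private theorem tr_const {P : List (Instr L)} {z : St V n} {c : Prop} :
    Tr u x P z {_z' | c} ↔ c := by
  have h : Dep (n := n) (V := V) {_z' : St V n | c} (∅ : Set L) := fun _ _ _ => Iff.rfl
  exact tr_nt ⟨fun l _ => Set.notMem_empty l, fun T _ l _ => Set.notMem_empty l⟩ h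

private theorem sub_lv {s t : Tm L} (h : Sub s t) : ∀ l ∈ s.lv, l ∈ t.lv := by
  induction h with
  | leaf a => exact fun l hl => hl
  | left _ ih => exact fun l hl => List.mem_append_left _ (ih l hl)
  | right _ ih => exact fun l hl => List.mem_append_right _ (ih l hl)
  | node _ _ ih1 ih2 =>
      intro l hl
      rcases List.mem_append.1 hl with h | h
      · exact List.mem_append_left _ (ih1 l h)
      · exact List.mem_append_right _ (ih2 l h)

/-- the last step of a node -/
private theorem app_star {A : Set (St V n)} {S U : Set L} (hA : Dep A S) (hS : S ⊆ U) :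
    {z' : St V n | ∀ᶠ h in (u : Filter (V → V)), appS U h z' ∈ A} =
      {z' | ∀ᶠ h in (u : Filter (V → V)), (fun l => h ∘ z' l) ∈ A} := by
  ext z'
  refine Filter.eventually_congr (Filter.Eventually.of_forall fun h => ?_)
  exact hA _ _ fun l hl => appS_mem (hS hl)

private theorem dep_star {A : Set (St V n)} {S : Set L} (hA : Dep A S) :
    Dep {z' : St V n | ∀ᶠ h in (u : Filter (V → V)), (fun l => h ∘ z' l) ∈ A} S := by
  intro z z' hz
  refine Filter.eventually_congr (Filter.Eventually.of_forall fun h => ?_)
  exact hA _ _ fun l hl => by simp only [hz l hl]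

private theorem tr_node {s t : Tm L} {z : St V n} {A : Set (St V n)} {S : Set L} (hA : Dep A S)
    (hS : S ⊆ {l | l ∈ s.lv ∨ l ∈ t.lv}) : Tr u x (prog (Tm.node s t)) z A ↔
      Tr u x (prog s) z {z₁ | Tr u x (prog t) z₁
        {z' | ∀ᶠ h in (u : Filter (V → V)), (fun l => h ∘ z' l) ∈ A}} := by
  rw [prog, Tr.append, Tr.append]
  refine tr_set ?_
  ext z₁
  refine tr_set ?_
  exact app_star hA hS

/-- the law of an induced tree -/
theorem tr_sub (hu : Idem u) (hx : ∀ l, Pos u (x l)) {s t : Tm L} (h : Sub s t) (hnd : t.lv.Nodup)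
    {z z' : St V n} {A : Set (St V n)} (hA : Dep A {l | l ∈ s.lv}) :
    Tr u x (prog s) z A ↔ Tr u x (prog t) z' A := by
  classical
  induction h generalizing z z' A with
  | leaf a => exact tr_state hA
  | @left s t t' h ih =>
      obtain ⟨h1, h2, h3⟩ := List.nodup_append.1 hnd
      have hst := sub_lv h
      have hA' : Dep A {l | l ∈ t.lv} := hA.mono hst
      rw [tr_node (s := t) (t := t') hA fun l hl => Or.inl (hst l hl)]
      have e1 : {z₁ : St V n | Tr u x (prog t') z₁
          {z' | ∀ᶠ h in (u : Filter (V → V)), (fun l => h ∘ z' l) ∈ A}} =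
          {z' | ∀ᶠ h in (u : Filter (V → V)), (fun l => h ∘ z' l) ∈ A} := by
        ext z₁
        refine tr_nt (S := {l | l ∈ s.lv}) (nt_prog fun l hl hl' => ?_) (dep_star hA)
        exact h3 l (hst l hl') l hl rfl
      rw [e1, ← tr_pos hu hx hA']
      exact ih h1 hA
  | @right s t t' h ih =>
      obtain ⟨h1, h2, h3⟩ := List.nodup_append.1 hnd
      have hst := sub_lv h
      have hA' : Dep A {l | l ∈ t'.lv} := hA.mono hst
      rw [tr_node (s := t) (t := t') hA fun l hl => Or.inr (hst l hl)]
      have e1 : {z₁ : St V n | Tr u x (prog t') z₁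
          {z' | ∀ᶠ h in (u : Filter (V → V)), (fun l => h ∘ z' l) ∈ A}} =
          {_z₁ | Tr u x (prog t') z'
            {z' | ∀ᶠ h in (u : Filter (V → V)), (fun l => h ∘ z' l) ∈ A}} := by
        ext z₁
        exact tr_state (dep_star hA')
      rw [e1, tr_const, ← tr_pos hu hx hA']
      exact ih h2 hA
  | @node s s' t t' h h' ih ih' =>
      obtain ⟨h1, h2, h3⟩ := List.nodup_append.1 hnd
      have hst := sub_lv h
      have hst' := sub_lv h'
      have hA0 : Dep A {l | l ∈ s.lv ∨ l ∈ s'.lv} := hA.mono fun l hl => List.mem_append.1 hl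
      rw [tr_node (s := t) (t := t') hA0 fun l hl => hl.imp (hst l) (hst' l),
        tr_node (s := s) (t := s') hA0 fun l hl => hl]
      set B : Set (St V n) := {z' | ∀ᶠ h in (u : Filter (V → V)), (fun l => h ∘ z' l) ∈ A} with hB
      have hBd : Dep B {l | l ∈ s.lv ∨ l ∈ s'.lv} := dep_star hA0
      have hC : {z₁ : St V n | Tr u x (prog t') z₁ B} = {z₁ | Tr u x (prog s') z₁ B} := by
        ext z₁
        have hBs : Dep {z' : St V n | comb {l | l ∈ s.lv} z' z₁ ∈ B} {l | l ∈ s'.lv} := by
          intro w w' hww
          refine hBd _ _ fun l hl => ?_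
          by_cases hls : l ∈ {l | l ∈ s.lv}
          · rw [comb_mem hls, comb_mem hls]
          · rcases hl with hl | hl
            · exact absurd hl hls
            · rw [comb_notMem hls, comb_notMem hls]
              exact hww l hl
        have nt1 : NT (prog t') {l | l ∈ s.lv} :=
          nt_prog fun l hl hl' => h3 l (hst l hl') l hl rfl
        have nt2 : NT (prog s') {l | l ∈ s.lv} :=
          nt_prog fun l hl hl' => h3 l (hst l hl') l (hst' l hl) rfl
        have e1 := tr_frame (u := u) (x := x) nt1 (z := z₁) (w := z₁) (fun _ _ => rfl) (B := B)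
        have e2 := tr_frame (u := u) (x := x) nt2 (z := z₁) (w := z₁) (fun _ _ => rfl) (B := B)
        exact e1.trans ((ih' h2 (z := z₁) (z' := z₁) hBs).symm.trans e2.symm)
      rw [hC]
      refine ih h1 ?_
      intro w w' hww
      refine tr_state_gen hBd fun l hl hl' => ?_
      rw [lv_prog] at hl'
      rcases hl with hl | hl
      · exact hww l hl
      · exact absurd hl hl'

private theorem sub_leaf {t : Tm L} {l : L} (hl : l ∈ t.lv) : Sub (Tm.leaf l) t := by
  induction t with
  | leaf a =>
      have h : l = a := by simpa [Tm.lv] using hl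
      subst h
      exact Sub.leaf l
  | node s t ihs iht =>
      rcases List.mem_append.1 hl with h | h
      · exact Sub.left (ihs h)
      · exact Sub.right (iht h)

private theorem sub_pair {t : Tm L} {l l' : L} (hl : l ∈ t.lv) (hl' : l' ∈ t.lv) (hne : l ≠ l') :
    Sub (Tm.node (Tm.leaf l) (Tm.leaf l')) t ∨ Sub (Tm.node (Tm.leaf l') (Tm.leaf l)) t := by
  induction t with
  | leaf a =>
      have h : l = a := by simpa [Tm.lv] using hl
      have h' : l' = a := by simpa [Tm.lv] using hl'
      exact absurd (h.trans h'.symm) hne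
  | node s t ihs iht =>
      rcases List.mem_append.1 hl with h | h <;> rcases List.mem_append.1 hl' with h' | h'
      · exact (ihs h h').imp Sub.left Sub.left
      · exact Or.inl (Sub.node (sub_leaf h) (sub_leaf h'))
      · exact Or.inr (Sub.node (sub_leaf h') (sub_leaf h))
      · exact (iht h h').imp Sub.right Sub.right

private theorem ge_ne {I : Type} {ar : I → ℕ} {M : Str ar V} (hEq : HasEq M) (hg : GE M u) {p q : V}
    (hpq : p ≠ q) : ∀ᶠ h in (u : Filter (V → V)), h p ≠ h q := by
  classical
  obtain ⟨i, a, b, hab, hM⟩ := hEq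
  have h1 := hg {p, q} (Set.toFinite _)
  refine h1.mono fun h hh hpq' => hpq ?_
  have h2 := hh i (fun k => if k = a then p else q) (fun k => by
    by_cases hk : k = a
    · simp [hk]
    · simp [hk])
  have h3 : h ∘ (fun k => if k = a then p else q) ∈ M i := by
    rw [hM]
    simp [hab.symm, hpq']
  have h4 := (hM _).1 (h2.1 h3)
  simpa [hab.symm] using h4

private theorem pos_avoid {m : ℕ} {y : Ultrafilter (Fin m → V)} (hy : Pos u y) {a : V}
    (ha : a ∉ Pin u) (j : Fin m) : ∀ᶠ w in (y : Filter (Fin m → V)), w j ≠ a := by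
  by_contra hcon
  rw [Ultrafilter.eventually_not, not_not] at hcon
  have h1 := (hy {w | w j = a}).1 hcon
  obtain ⟨w, hw1, hw2⟩ := (hcon.and h1).exists
  apply ha
  refine Filter.Eventually.mono hw2 fun h hh => ?_
  have h3 : h (w j) = a := hh
  rw [hw1] at h3
  exact h3

/-- the coordinates of a tree are different and outside the pins -/
theorem tr_inj {I : Type} {ar : I → ℕ} {M : Str ar V} (hEq : HasEq M) (hg : GE M u) (hu : Idem u)
    (hx : ∀ l, Pos u (x l))
    (hinj : ∀ l, ∀ᶠ y in (x l : Filter (Fin (n l) → V)), Function.Injective y ∧ ∀ i, y i ∉ Pin u) {t : Tm L}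
    (hnd : t.lv.Nodup) {z : St V n} :
    Tr u x (prog t) z {z' | (∀ l ∈ t.lv, ∀ i, z' l i ∉ Pin u) ∧
      ∀ s s' : Σ l : L, Fin (n l), s.1 ∈ t.lv → s'.1 ∈ t.lv → z' s.1 s.2 = z' s'.1 s'.2 → s = s'} := by
  classical
  have hfin : {s : Σ l : L, Fin (n l) | s.1 ∈ t.lv}.Finite := by
    have h1 : (⋃ l ∈ {l | l ∈ t.lv},
        Set.range (fun i : Fin (n l) => (⟨l, i⟩ : Σ l : L, Fin (n l)))).Finite :=
      Set.Finite.biUnion (List.finite_toSet t.lv) fun l _ => Set.finite_range _
    refine h1.subset ?_
    rintro ⟨l, i⟩ hl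
    exact Set.mem_biUnion (show l ∈ {l | l ∈ t.lv} from hl) ⟨i, rfl⟩
  -- one leaf
  have hleaf : ∀ l ∈ t.lv, ∀ᶠ z' in (trU u x (prog t) z : Filter (St V n)),
      Function.Injective (z' l) ∧ ∀ i, z' l i ∉ Pin u := by
    intro l hl
    have hd : Dep {z' : St V n | Function.Injective (z' l) ∧ ∀ i, z' l i ∉ Pin u}
        {l' | l' ∈ (Tm.leaf l).lv} := by
      intro w w' hww
      have h1 : w l = w' l := hww l (by simp [Tm.lv])
      simp only [Set.mem_ofPred_eq, h1]
    refine (tr_sub hu hx (sub_leaf hl) hnd (z := z) (z' := z) hd).1 ?_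
    refine Filter.Eventually.mono (hinj l) fun y hy => ?_
    change Function.Injective (upd z l y l) ∧ ∀ i, upd z l y l i ∉ Pin u
    rw [upd_self]
    exact hy
  -- two leaves, in this order
  have hpair : ∀ l l' : L, l ≠ l' → Sub (Tm.node (Tm.leaf l) (Tm.leaf l')) t →
      ∀ (i : Fin (n l)) (j : Fin (n l')),
        ∀ᶠ z' in (trU u x (prog t) z : Filter (St V n)), z' l i ≠ z' l' j := by
    intro l l' hne hs i j
    have hd : Dep {z' : St V n | z' l i ≠ z' l' j}
        {l'' | l'' ∈ (Tm.node (Tm.leaf l) (Tm.leaf l')).lv} := by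
      intro w w' hww
      have h1 : w l = w' l := hww l (by simp [Tm.lv])
      have h2 : w l' = w' l' := hww l' (by simp [Tm.lv])
      simp only [Set.mem_ofPred_eq, h1, h2]
    refine (tr_sub hu hx hs hnd (z := z) (z' := z) hd).1 ?_
    rw [tr_node hd fun l'' hl'' => List.mem_append.1 hl'']
    refine Filter.Eventually.mono (hinj l) fun y hy => ?_
    refine Filter.Eventually.mono (pos_avoid (hx l') (hy.2 i) j) fun y' hy' => ?_
    change ∀ᶠ h in (u : Filter (V → V)), (h ∘ upd (upd z l y) l' y' l) i ≠ (h ∘ upd (upd z l y) l' y' l') j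
    rw [upd_ne hne, upd_self, upd_self]
    exact ge_ne hEq hg hy'.symm
  have hall : ∀ᶠ z' in (trU u x (prog t) z : Filter (St V n)),
      (∀ l ∈ {l | l ∈ t.lv}, Function.Injective (z' l) ∧ ∀ i, z' l i ∉ Pin u) ∧
      ∀ s ∈ {s : Σ l : L, Fin (n l) | s.1 ∈ t.lv}, ∀ s' ∈ {s : Σ l : L, Fin (n l) | s.1 ∈ t.lv},
        s.1 ≠ s'.1 → z' s.1 s.2 ≠ z' s'.1 s'.2 := by
    refine Filter.Eventually.and ?_ ?_
    · rw [Filter.eventually_all_finite (List.finite_toSet _)]
      exact hleaf
    · rw [Filter.eventually_all_finite hfin]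
      intro s hs
      rw [Filter.eventually_all_finite hfin]
      intro s' hs'
      by_cases hne : s.1 = s'.1
      · exact Filter.Eventually.of_forall fun _ h => absurd hne h
      · rcases sub_pair hs hs' hne with h | h
        · exact (hpair _ _ hne h s.2 s'.2).mono fun _ hz _ => hz
        · exact (hpair _ _ (Ne.symm hne) h s'.2 s.2).mono fun _ hz _ => hz.symm
  refine Filter.Eventually.mono hall fun z' hz' => ?_
  refine ⟨fun l hl i => (hz'.1 l hl).2 i, ?_⟩
  rintro ⟨l, i⟩ ⟨l', j⟩ hs hs' heq
  by_cases hne : l = l'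
  · subst hne
    exact congrArg (Sigma.mk l) ((hz'.1 l hs).1 heq)
  · exact absurd heq (hz'.2 ⟨l, i⟩ hs ⟨l', j⟩ hs' hne)

private theorem lv_map {M : Type} (f : L → M) (t : Tm L) : (t.map f).lv = t.lv.map f := by
  induction t with
  | leaf a => rfl
  | node s t ihs iht => simp only [Tm.map, Tm.lv, List.map_append, ihs, iht]

private theorem map_map {M N : Type} (f : L → M) (g : M → N) (t : Tm L) :
    (t.map f).map g = t.map (fun a => g (f a)) := by
  induction t with
  | leaf a => rfl
  | node s t ihs iht => simp only [Tm.map, ihs, iht]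

/-- trees with relabelled leaves -/
theorem tr_map {Λ : Type} {sz : Λ → ℕ} {v : ∀ a : Λ, Ultrafilter (Fin (sz a) → V)} (E : L → Λ)
    (hE : Function.Injective E) (t : Tm L) {z : St V sz} {A : Set (St V (fun l => sz (E l)))} :
    Tr u v (prog (t.map E)) z {f | (fun l => f (E l)) ∈ A} ↔
      Tr u (fun l => v (E l)) (prog t) (fun l => z (E l)) A := by
  induction t generalizing z A with
  | leaf a =>
      refine Filter.eventually_congr (Filter.Eventually.of_forall fun y => ?_)
      have h1 : (fun l => upd z (E a) y (E l)) = upd (fun l => z (E l)) a y := by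
        funext l
        by_cases h : l = a
        · subst h
          rw [upd_self, upd_self]
        · rw [upd_ne h, upd_ne fun h' => h (hE h')]
      change (fun l => upd z (E a) y (E l)) ∈ A ↔ upd (fun l => z (E l)) a y ∈ A
      rw [h1]
  | node s t ihs iht =>
      have e1 : prog ((Tm.node s t).map E) = prog (s.map E) ++ prog (t.map E) ++
          [Instr.app {l | l ∈ (s.map E).lv ∨ l ∈ (t.map E).lv}] := rfl
      have e2 : prog (Tm.node s t) = prog s ++ prog t ++ [Instr.app {l | l ∈ s.lv ∨ l ∈ t.lv}] := rfl
      rw [e1, e2, Tr.append, Tr.append, Tr.append, Tr.append, ← ihs]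
      refine tr_set ?_
      ext f₁
      change Tr u v (prog (t.map E)) f₁ _ ↔ Tr u (fun l => v (E l)) (prog t) (fun l => f₁ (E l)) _
      rw [← iht]
      refine tr_set ?_
      ext f₂
      refine Filter.eventually_congr (Filter.Eventually.of_forall fun h => ?_)
      have h1 : (fun l => appS {l | l ∈ (s.map E).lv ∨ l ∈ (t.map E).lv} h f₂ (E l)) =
          appS {l | l ∈ s.lv ∨ l ∈ t.lv} h (fun l => f₂ (E l)) := by
        funext l
        by_cases hl : l ∈ {l | l ∈ s.lv ∨ l ∈ t.lv}
        · have hl' : E l ∈ {l | l ∈ (s.map E).lv ∨ l ∈ (t.map E).lv} := by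
            rcases hl with hl | hl
            · left
              rw [lv_map]
              exact List.mem_map_of_mem hl
            · right
              rw [lv_map]
              exact List.mem_map_of_mem hl
          rw [appS_mem hl, appS_mem hl']
        · have hl' : E l ∉ {l | l ∈ (s.map E).lv ∨ l ∈ (t.map E).lv} := by
            rintro (h' | h')
            · rw [lv_map] at h'
              exact hl (Or.inl ((List.mem_map_of_injective hE).1 h'))
            · rw [lv_map] at h'
              exact hl (Or.inr ((List.mem_map_of_injective hE).1 h'))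
          rw [appS_notMem hl, appS_notMem hl']
      change (fun l => appS {l | l ∈ (s.map E).lv ∨ l ∈ (t.map E).lv} h f₂ (E l)) ∈ A ↔
        appS {l | l ∈ s.lv ∨ l ∈ t.lv} h (fun l => f₂ (E l)) ∈ A
      rw [h1]

private theorem exists_attach {Λ : Type} (y : Tm Λ) (S : Set Λ) (hS : ∀ a ∈ y.lv, a ∈ S) :
    ∃ y' : Tm S, y'.map Subtype.val = y := by
  induction y with
  | leaf a => exact ⟨Tm.leaf ⟨a, hS a (by simp [Tm.lv])⟩, rfl⟩
  | node s t ihs iht =>
      obtain ⟨s', hs'⟩ := ihs fun a ha => hS a (List.mem_append_left _ ha)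
      obtain ⟨t', ht'⟩ := iht fun a ha => hS a (List.mem_append_right _ ha)
      exact ⟨Tm.node s' t', by rw [Tm.map, hs', ht']⟩

/-- every tree without repeated labels is a relabelled tree over some `Fin r` -/
theorem exists_fin_tree {Λ : Type} (y : Tm Λ) (hy : y.lv.Nodup) :
    ∃ (r : ℕ) (E : Fin r → Λ) (t : Tm (Fin r)), Function.Injective E ∧ t.lv.Nodup ∧ (∀ j, j ∈ t.lv) ∧
      t.map E = y := by
  obtain ⟨y', hy'⟩ := exists_attach y {a | a ∈ y.lv} fun a ha => ha
  have hfin : Finite {a | a ∈ y.lv} := List.finite_toSet _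
  obtain ⟨r, ⟨e⟩⟩ := Finite.exists_equiv_fin {a | a ∈ y.lv}
  have hmap : (y'.map e).map (fun j => ((e.symm j : {a | a ∈ y.lv}) : Λ)) = y := by
    rw [map_map]
    simp only [Equiv.symm_apply_apply]
    exact hy'
  have hlv : (y'.map e).lv.map (fun j => ((e.symm j : {a | a ∈ y.lv}) : Λ)) = y.lv := by
    rw [← lv_map, hmap]
  have hinj : Function.Injective fun j => ((e.symm j : {a | a ∈ y.lv}) : Λ) :=
    Subtype.val_injective.comp e.symm.injective
  refine ⟨r, fun j => ((e.symm j : {a | a ∈ y.lv}) : Λ), y'.map e, hinj, ?_, fun j => ?_, hmap⟩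
  · refine List.Nodup.of_map (fun j => ((e.symm j : {a | a ∈ y.lv}) : Λ)) ?_
    rw [hlv]
    exact hy
  · have h1 : ((e.symm j : {a | a ∈ y.lv}) : Λ) ∈
        (y'.map e).lv.map (fun j => ((e.symm j : {a | a ∈ y.lv}) : Λ)) := by
      rw [hlv]
      exact (e.symm j).2
    exact (List.mem_map_of_injective hinj).1 h1

/-- the tree induced on a non empty set of leaves -/
theorem exists_sub {Λ : Type} (y : Tm Λ) (hy : y.lv.Nodup) (S : Set Λ) (hS : ∃ a ∈ y.lv, a ∈ S) :
    ∃ s : Tm Λ, Sub s y ∧ s.lv.Nodup ∧ ∀ a, a ∈ s.lv ↔ a ∈ y.lv ∧ a ∈ S := by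
  induction y with
  | leaf a =>
      refine ⟨Tm.leaf a, Sub.leaf a, hy, fun b => ⟨fun hb => ⟨hb, ?_⟩, fun hb => hb.1⟩⟩
      obtain ⟨c, hc, hcS⟩ := hS
      have h1 : c = a := by simpa [Tm.lv] using hc
      have h2 : b = a := by simpa [Tm.lv] using hb
      rw [h2, ← h1]
      exact hcS
  | node s t ihs iht =>
      obtain ⟨h1, h2, h3⟩ := List.nodup_append.1 hy
      by_cases hs : ∃ a ∈ s.lv, a ∈ S <;> by_cases ht : ∃ a ∈ t.lv, a ∈ S
      · obtain ⟨s', hs1, hs2, hs3⟩ := ihs h1 hs
        obtain ⟨t', ht1, ht2, ht3⟩ := iht h2 ht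
        refine ⟨Tm.node s' t', Sub.node hs1 ht1, List.nodup_append.2 ⟨hs2, ht2, ?_⟩, fun a => ?_⟩
        · intro a ha b hb
          exact h3 a ((hs3 a).1 ha).1 b ((ht3 b).1 hb).1
        · simp only [Tm.lv, List.mem_append, hs3, ht3]
          tauto
      · obtain ⟨s', hs1, hs2, hs3⟩ := ihs h1 hs
        refine ⟨s', Sub.left hs1, hs2, fun a => ?_⟩
        simp only [Tm.lv, List.mem_append, hs3]
        constructor
        · rintro ⟨ha, haS⟩
          exact ⟨Or.inl ha, haS⟩
        · rintro ⟨ha | ha, haS⟩
          · exact ⟨ha, haS⟩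
          · exact absurd ⟨a, ha, haS⟩ ht
      · obtain ⟨t', ht1, ht2, ht3⟩ := iht h2 ht
        refine ⟨t', Sub.right ht1, ht2, fun a => ?_⟩
        simp only [Tm.lv, List.mem_append, ht3]
        constructor
        · rintro ⟨ha, haS⟩
          exact ⟨Or.inr ha, haS⟩
        · rintro ⟨ha | ha, haS⟩
          · exact absurd ⟨a, ha, haS⟩ hs
          · exact ⟨ha, haS⟩
      · obtain ⟨a, ha, haS⟩ := hS
        rcases List.mem_append.1 ha with ha | ha
        · exact absurd ⟨a, ha, haS⟩ hs
        · exact absurd ⟨a, ha, haS⟩ ht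

end B10

end Pool.MP4fb322AA
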