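import Pool.Agent.Lib.MP_4fb322_lc_h71.Defs2

set_option autoImplicit false

/-! Row B2 (MP_4fb322_lc, all arities, positions). -/

namespace Pool.MP4fb322AA

/-- A countable family of finitary operations on a graded type: every countable set is contained in a
countable closed one. -/
private theorem skolem_aux {X : ℕ → Type} {ι : Type} [Countable ι] {A : ι → Type} [∀ i, Finite (A i)]
    (nin : ∀ i, A i → ℕ) (nout : ι → ℕ) (f : ∀ i, (∀ a, X (nin i a)) → X (nout i))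
    (S₀ : ∀ m, Set (X m)) (h₀ : ∀ m, (S₀ m).Countable) :
    ∃ S : ∀ m, Set (X m), (∀ m, (S m).Countable) ∧ (∀ m, S₀ m ⊆ S m) ∧
      ∀ i (x : ∀ a, X (nin i a)), (∀ a, x a ∈ S (nin i a)) → f i x ∈ S (nout i) := by
  classical
  let st : Set (Σ m, X m) → Set (Σ m, X m) := fun T => T ∪ ⋃ i,
    Set.range (fun x : {x : ∀ a, X (nin i a) // ∀ a, (⟨nin i a, x a⟩ : Σ m, X m) ∈ T} =>
      (⟨nout i, f i x.1⟩ : Σ m, X m))
  let T₀ : Set (Σ m, X m) := ⋃ m, (fun x => (⟨m, x⟩ : Σ m, X m)) '' S₀ m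
  let T : ℕ → Set (Σ m, X m) := fun n => Nat.rec (motive := fun _ => Set (Σ m, X m)) T₀
    (fun _ T => st T) n
  have hTs : ∀ n, T (n + 1) = T n ∪ ⋃ i,
    Set.range (fun x : {x : ∀ a, X (nin i a) // ∀ a, (⟨nin i a, x a⟩ : Σ m, X m) ∈ T n} =>
      (⟨nout i, f i x.1⟩ : Σ m, X m)) := fun n => rfl
  have hcount : ∀ n, (T n).Countable := by
    intro n
    induction n with
    | zero => exact Set.countable_iUnion fun m => (h₀ m).image _
    | succ n ih =>
      rw [hTs]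
      refine ih.union (Set.countable_iUnion fun i => ?_)
      have hc : Countable {x // x ∈ T n} := ih.to_subtype
      have hinj : Function.Injective
          (fun x : {x : ∀ a, X (nin i a) // ∀ a, (⟨nin i a, x a⟩ : Σ m, X m) ∈ T n} =>
            (fun a => (⟨⟨nin i a, x.1 a⟩, x.2 a⟩ : {x // x ∈ T n}))) := by
        intro x y hxy
        apply Subtype.ext
        funext a
        have h1 := congrFun hxy a
        have h2 := congrArg Subtype.val h1
        exact eq_of_heq (Sigma.mk.inj h2).2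
      have : Countable {x : ∀ a, X (nin i a) // ∀ a, (⟨nin i a, x a⟩ : Σ m, X m) ∈ T n} :=
        hinj.countable
      exact Set.countable_range _
  have hmono : Monotone T := monotone_nat_of_le_succ (fun n => by
    rw [hTs]; exact Set.subset_union_left)
  refine ⟨fun m => {x | ∃ n, (⟨m, x⟩ : Σ m, X m) ∈ T n}, ?_, ?_, ?_⟩
  · intro m
    have h1 : (⋃ n, T n).Countable := Set.countable_iUnion hcount
    refine (h1.preimage_of_injOn (f := fun x : X m => (⟨m, x⟩ : Σ m, X m)) ?_).mono ?_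
    · intro x _ y _ hxy
      exact eq_of_heq (Sigma.mk.inj hxy).2
    · rintro x ⟨n, hn⟩
      exact Set.mem_iUnion.2 ⟨n, hn⟩
  · intro m x hx
    exact ⟨0, Set.mem_iUnion.2 ⟨m, ⟨x, hx, rfl⟩⟩⟩
  · intro i x hx
    choose g hg using hx
    obtain ⟨N, hN⟩ : ∃ N, ∀ a, g a ≤ N := by
      cases nonempty_fintype (A i)
      exact ⟨Finset.univ.sup g, fun a => Finset.le_sup (f := g) (Finset.mem_univ a)⟩
    refine ⟨N + 1, ?_⟩
    rw [hTs]
    exact Or.inr (Set.mem_iUnion.2 ⟨i, ⟨⟨x, fun a => hmono (hN a) (hg a)⟩, rfl⟩⟩)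

/-- SKOLEM closure -/
theorem skolem {X : ℕ → Type} {ι : Type} [Countable ι] (A : ι → Type) [∀ i, Finite (A i)]
    (nin : ∀ i, A i → ℕ) (nout : ι → ℕ) (f : ∀ i, (∀ a : A i, X (nin i a)) → X (nout i))
    (S₀ : ∀ m, Set (X m)) (hS₀ : ∀ m, (S₀ m).Countable) :
    ∃ S : ∀ m, Set (X m), (∀ m, S₀ m ⊆ S m) ∧ (∀ m, (S m).Countable) ∧
      ∀ (i : ι) (q : ∀ a : A i, X (nin i a)), (∀ a, q a ∈ S (nin i a)) → f i q ∈ S (nout i) := by
  obtain ⟨S, h1, h2, h3⟩ := skolem_aux nin nout f S₀ hS₀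
  exact ⟨S, h2, h1, h3⟩

/-- Skolem closure for relations on a type of conditions: countably many relations between a finite
list of conditions and one condition. -/
theorem skolem_rel {PP : Type} {K : Type} [Countable K]
    (ρ : K → List PP → PP → Prop) (S₀ : Set PP) (hS₀ : S₀.Countable) :
    ∃ BB : Set PP, BB.Countable ∧ S₀ ⊆ BB ∧
      ∀ k, ∀ l : List PP, (∀ x ∈ l, x ∈ BB) → (∃ r, ρ k l r) → ∃ r ∈ BB, ρ k l r := by
  classical
  by_cases hne : Nonempty PP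
  swap
  · refine ⟨∅, Set.countable_empty, ?_, ?_⟩
    · intro x _
      exact absurd ⟨x⟩ hne
    · rintro k l - ⟨r, -⟩
      exact absurd ⟨r⟩ hne
  let f : K → List PP → PP := fun k l =>
    if h : ∃ r, ρ k l r then h.choose else hne.some
  have hf : ∀ k l, (∃ r, ρ k l r) → ρ k l (f k l) := by
    intro k l h
    simp only [f, dif_pos h]
    exact h.choose_spec
  obtain ⟨S, h1, h2, h3⟩ := skolem_aux (X := fun _ => PP) (ι := K × ℕ) (A := fun i => Fin i.2)
    (fun _ _ => 0) (fun _ => 0) (fun i x => f i.1 (List.ofFn x)) (fun _ => S₀) (fun _ => hS₀)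
  refine ⟨S 0, h1 0, h2 0, ?_⟩
  intro k l hl h
  refine ⟨f k l, ?_, hf k l h⟩
  have h4 := h3 (k, l.length) (fun a => l.get a) (fun a => hl _ (List.get_mem l a))
  rwa [List.ofFn_get] at h4

/-- Generic sequence: below `q₀`, inside `BB`, a decreasing sequence meeting countably many sets
`D k` dense in `BB`. -/
theorem generic_seq {PP : Type} [Preorder PP] {K : Type} [Countable K]
    (BB : Set PP) (q₀ : PP) (hq₀ : q₀ ∈ BB) (D : K → Set PP)
    (hD : ∀ k, ∀ q ∈ BB, q ≤ q₀ → ∃ q' ∈ BB, q' ≤ q ∧ q' ∈ D k) :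
    ∃ s : ℕ → PP, s 0 = q₀ ∧ (∀ n, s n ∈ BB) ∧ Antitone s ∧ ∀ k, ∃ n, s n ∈ D k := by
  classical
  rcases isEmpty_or_nonempty K with hK | hK
  · exact ⟨fun _ => q₀, rfl, fun _ => hq₀, fun _ _ _ => le_refl _,
      fun k => (hK.false k).elim⟩
  obtain ⟨e, he⟩ := exists_surjective_nat K
  choose g hg1 hg2 hg3 using hD
  let t : ℕ → {q // q ∈ BB ∧ q ≤ q₀} := fun n =>
    Nat.rec (motive := fun _ => {q // q ∈ BB ∧ q ≤ q₀}) ⟨q₀, hq₀, le_refl _⟩
    (fun m p => ⟨g (e m) p.1 p.2.1 p.2.2, hg1 (e m) p.1 p.2.1 p.2.2,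
      (hg2 (e m) p.1 p.2.1 p.2.2).trans p.2.2⟩) n
  have ht : ∀ n, (t (n + 1)).1 = g (e n) (t n).1 (t n).2.1 (t n).2.2 := fun n => rfl
  refine ⟨fun n => (t n).1, rfl, fun n => (t n).2.1, ?_, ?_⟩
  · refine antitone_nat_of_succ_le (fun n => ?_)
    rw [ht]
    exact hg2 (e n) (t n).1 (t n).2.1 (t n).2.2
  · intro k
    obtain ⟨n, hn⟩ := he k
    refine ⟨n + 1, ?_⟩
    show (t (n + 1)).1 ∈ D k
    rw [ht, ← hn]
    exact hg3 (e n) (t n).1 (t n).2.1 (t n).2.2

end Pool.MP4fb322AA
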