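import Pool.Agent.Lib.MP_4fb322_lc_h71.Defs2
import Pool.Agent.Lib.MP_4fb322_lc_h71.B2

set_option autoImplicit false

/-! Row B3 (MP_4fb322_lc, all arities, positions). -/

namespace Pool.MP4fb322AA

open Filter
open Pool.Agent.Lib.MP_4fb322_lc_q (Tm)

/-- cylinders over tame sets are tame -/
theorem tame_cyl {V L : Type} {n : L → ℕ} (T : TFam V) {W : Set (St V n)} (h : InW T W) : Tame W := by
  classical
  obtain ⟨N, G, W₀, hW₀, rfl⟩ := h
  intro A
  obtain ⟨k, hk⟩ := T.tame N W₀ hW₀ {i | (G i).1 ∈ A}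
  refine ⟨k, ?_⟩
  rintro ⟨z, y, h⟩
  apply hk
  refine ⟨fun j i => z j (G i).1 (G i).2, fun s i => y s (G i).1 (G i).2, ?_⟩
  intro j s
  rw [← h j s]
  show _ ↔ (fun i => comb A (z j) (y s) (G i).1 (G i).2) ∈ W₀
  have : (cmb {i | (G i).1 ∈ A} (fun i => z j (G i).1 (G i).2) (fun i => y s (G i).1 (G i).2)) =
      (fun i => comb A (z j) (y s) (G i).1 (G i).2) := by
    funext i
    by_cases hi : (G i).1 ∈ A
    · simp [cmb, comb, hi]
    · simp [cmb, comb, hi]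
  rw [this]

theorem InW.compl {V L : Type} {n : L → ℕ} {T : TFam V} {W : Set (St V n)} (h : InW T W) : InW T Wᶜ := by
  obtain ⟨N, G, W₀, hW₀, rfl⟩ := h
  exact ⟨N, G, W₀ᶜ, T.compl N W₀ hW₀, rfl⟩

private theorem countable_InW {V L : Type} [Finite L] {n : L → ℕ} (T : TFam V) :
    {W : Set (St V n) | InW T W}.Countable := by
  have h1 : {W : Set (St V n) | InW T W} =
      ⋃ N : ℕ, ⋃ G : (Fin N → Σ l : L, Fin (n l)), (cyl G) '' (T.T N) := by
    ext W
    simp only [Set.mem_iUnion, Set.mem_image]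
    constructor
    · rintro ⟨N, G, W₀, hW₀, h⟩
      exact ⟨N, G, W₀, hW₀, h.symm⟩
    · rintro ⟨N, G, W₀, hW₀, h⟩
      exact ⟨N, G, W₀, hW₀, h.symm⟩
  rw [h1]
  exact Set.countable_iUnion fun N => Set.countable_iUnion fun G => (T.countable N).image _

theorem countable_instr {L : Type} [Finite L] : Countable (Instr L) := by
  let f : Instr L → L ⊕ Set L := fun i => match i with
    | Instr.choose l => Sum.inl l
    | Instr.app S => Sum.inr S
  have hf : Function.Injective f := by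
    intro i j hij
    cases i with
    | choose l =>
      cases j with
      | choose l' => exact congrArg Instr.choose (Sum.inl.inj hij)
      | app S' => exact absurd hij (by simp [f])
    | app S =>
      cases j with
      | choose l' => exact absurd hij (by simp [f])
      | app S' => exact congrArg Instr.app (Sum.inr.inj hij)
  exact hf.countable

/-- A requirement: a relation between finitely many input boxes and finitely many output boxes. -/
structure Req (V : Type) where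
  /-- the inputs -/
  Lin : Type
  /-- the outputs -/
  Lout : Type
  finIn : Finite Lin
  finOut : Finite Lout
  /-- sizes of the inputs -/
  nin : Lin → ℕ
  /-- sizes of the outputs -/
  nout : Lout → ℕ
  /-- the relation -/
  rel : Bx V nin → Bx V nout → Prop

/-- Skolem closure for boxes: a countable family of requirements. -/
theorem skolem_box {V : Type} {u : Ultrafilter (V → V)} {ι : Type} [Countable ι] (R : ι → Req V)
    (S₀ : ∀ m, Set (Set (Fin m → V))) (hS₀ : ∀ m, (S₀ m).Countable)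
    (hbox : ∀ m, ∀ b ∈ S₀ m, IsBox u b) :
    ∃ BB : ∀ m, Set (Set (Fin m → V)), (∀ m, (BB m).Countable) ∧ (∀ m, S₀ m ⊆ BB m) ∧
      (∀ m, ∀ b ∈ BB m, IsBox u b) ∧
      (∀ r (q : Bx V (R r).nin), (∀ l, q l ∈ BB ((R r).nin l)) →
        (∃ q', AllBox u q' ∧ (R r).rel q q') →
        ∃ q', (∀ l, q' l ∈ BB ((R r).nout l)) ∧ (R r).rel q q') := by
  classical
  let g : ∀ r : ι, Bx V (R r).nin → Bx V (R r).nout := fun r q =>
    if h : ∃ q', AllBox u q' ∧ (R r).rel q q' then h.choose else fun _ => ∅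
  have hg : ∀ r q, (∃ q', AllBox u q' ∧ (R r).rel q q') →
      AllBox u (g r q) ∧ (R r).rel q (g r q) := by
    intro r q h
    simp only [g, dif_pos h]
    exact h.choose_spec
  have hf1 : ∀ i : (Σ r : ι, (R r).Lout), Finite (R i.1).Lin := fun i => (R i.1).finIn
  have hf2 : ∀ r, Finite (R r).Lout := fun r => (R r).finOut
  have hf3 : ∀ r, Countable (R r).Lout := fun r => inferInstance
  obtain ⟨S, hS2, hS1, hS3⟩ := skolem (X := fun m => Set (Fin m → V))
    (ι := Σ r : ι, (R r).Lout) (fun i => (R i.1).Lin) (fun i a => (R i.1).nin a)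
    (fun i => (R i.1).nout i.2) (fun i x => g i.1 x i.2) S₀ hS₀
  refine ⟨fun m => {b | b ∈ S m ∧ IsBox u b}, ?_, ?_, ?_, ?_⟩
  · intro m
    exact (hS1 m).mono (fun b hb => hb.1)
  · intro m b hb
    exact ⟨hS2 m hb, hbox m b hb⟩
  · intro m b hb
    exact hb.2
  · intro r q hq h
    obtain ⟨h1, h2⟩ := hg r q h
    exact ⟨g r q, fun l => ⟨hS3 ⟨r, l⟩ q (fun a => (hq a).1), h1 l⟩, h2⟩

theorem IsBox.inter' {V : Type} {u : Ultrafilter (V → V)} {m : ℕ} {b b' : Set (Fin m → V)}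
    (hb : IsBox u b) (hb' : IsBox u b') (h : (b ∩ b').Nonempty) : IsBox u (b ∩ b') := by
  refine ⟨h, fun z hz => ?_⟩
  filter_upwards [hb.2 z hz.1, hb'.2 z hz.2] with g h1 h2
  exact ⟨h1, h2⟩

theorem IsBox.pull {V : Type} {u : Ultrafilter (V → V)} {m m' : ℕ} {b : Set (Fin m → V)}
    (hb : IsBox u b) (g : Fin m → Fin m') (h : {z : Fin m' → V | z ∘ g ∈ b}.Nonempty) :
    IsBox u {z : Fin m' → V | z ∘ g ∈ b} := by
  refine ⟨h, fun z hz => ?_⟩
  exact hb.2 (z ∘ g) hz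

/-- The pull back along an injective map is not empty. -/
theorem IsBox.pull_inj {V : Type} {u : Ultrafilter (V → V)} {m m' : ℕ} {b : Set (Fin m → V)}
    (hb : IsBox u b) {g : Fin m → Fin m'} (hg : Function.Injective g) [Nonempty V] :
    IsBox u {z : Fin m' → V | z ∘ g ∈ b} := by
  classical
  refine hb.pull g ?_
  obtain ⟨y, hy⟩ := hb.1
  refine ⟨fun j => if h : ∃ i, g i = j then y h.choose else Classical.arbitrary V, ?_⟩
  have : (fun j => if h : ∃ i, g i = j then y h.choose else Classical.arbitrary V) ∘ g = y := by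
    funext i
    have h : ∃ i', g i' = g i := ⟨i, rfl⟩
    simp only [Function.comp, dif_pos h]
    exact congrArg y (hg h.choose_spec)
  show _ ∈ b
  rw [this]
  exact hy

theorem IsBox.proj {V : Type} {u : Ultrafilter (V → V)} {m m' : ℕ} {b : Set (Fin m' → V)}
    (hb : IsBox u b) (g : Fin m → Fin m') :
    IsBox u {y : Fin m → V | ∃ z ∈ b, z ∘ g = y} := by
  obtain ⟨z₀, hz₀⟩ := hb.1
  refine ⟨⟨z₀ ∘ g, z₀, hz₀, rfl⟩, ?_⟩
  rintro _ ⟨z, hz, rfl⟩
  filter_upwards [hb.2 z hz] with h hh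
  exact ⟨h ∘ z, hh, rfl⟩

/-- The countable family of boxes: closed under non empty intersections, pull backs, projections, and
(T1), (T2) for countably many contexts `(L c, n c)` and countably many tame sets `WW c` in each of them. -/
theorem exists_BB_ctx {V : Type} [Countable V] {u : Ultrafilter (V → V)} (hu : Idem u) {K : Type}
    [Countable K] (L : K → Type) [∀ c, Finite (L c)] (n : ∀ c, L c → ℕ)
    (WW : ∀ c, Set (Set (St V (n c)))) (hWc : ∀ c, (WW c).Countable)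
    (hWt : ∀ c, ∀ W ∈ WW c, Tame W)
    (S₀ : ∀ m, Set (Set (Fin m → V))) (hS₀ : ∀ m, (S₀ m).Countable)
    (hbox : ∀ m, ∀ b ∈ S₀ m, IsBox u b) :
    ∃ BB : ∀ m, Set (Set (Fin m → V)), (∀ m, (BB m).Countable) ∧ (∀ m, S₀ m ⊆ BB m) ∧
      (∀ m, ∀ b ∈ BB m, IsBox u b) ∧
      (∀ m, ∀ b ∈ BB m, ∀ b' ∈ BB m, (b ∩ b').Nonempty → b ∩ b' ∈ BB m) ∧
      (∀ (m m' : ℕ) (g : Fin m → Fin m'), ∀ b ∈ BB m, {z : Fin m' → V | z ∘ g ∈ b}.Nonempty →
        {z : Fin m' → V | z ∘ g ∈ b} ∈ BB m') ∧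
      (∀ (m m' : ℕ) (g : Fin m → Fin m'), ∀ b ∈ BB m',
        {y : Fin m → V | ∃ z ∈ b, z ∘ g = y} ∈ BB m) ∧
      (∀ (c : K) (i : Instr (L c)) (P : List (Instr (L c))) (z : St V (n c)), ∀ W ∈ WW c,
        ∀ q : Bx V (n c), (∀ l, q l ∈ BB (n c l)) → F u (i :: P) z q W →
        ∃ q' : Bx V (n c), (∀ l, q' l ∈ BB (n c l)) ∧ q' ≤ q ∧
          Step u i z q' (fun z' => F u P z' q' W)) ∧
      (∀ (c : K) (P : List (Instr (L c))) (z : St V (n c)), ∀ W ∈ WW c, Good P →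
        ∀ q : Bx V (n c), (∀ l, q l ∈ BB (n c l)) → ¬ F u P z q W →
        ∃ q' : Bx V (n c), (∀ l, q' l ∈ BB (n c l)) ∧ q' ≤ q ∧ F u P z q' Wᶜ) := by
  classical
  -- the requirements
  let RI : ℕ → Req V := fun m => ⟨Bool, Unit, inferInstance, inferInstance, fun _ => m, fun _ => m,
    fun q q' => q' () = q true ∩ q false⟩
  let RP : (Σ m : ℕ, Σ m' : ℕ, Fin m → Fin m') → Req V := fun x =>
    ⟨Unit, Unit, inferInstance, inferInstance, fun _ => x.1, fun _ => x.2.1,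
      fun q q' => q' () = {z : Fin x.2.1 → V | z ∘ x.2.2 ∈ q ()}⟩
  let RJ : (Σ m : ℕ, Σ m' : ℕ, Fin m → Fin m') → Req V := fun x =>
    ⟨Unit, Unit, inferInstance, inferInstance, fun _ => x.2.1, fun _ => x.1,
      fun q q' => q' () = {y : Fin x.1 → V | ∃ z ∈ q (), z ∘ x.2.2 = y}⟩
  let R1 : (Σ c : K, Instr (L c) × List (Instr (L c)) × St V (n c) × {W // W ∈ WW c}) → Req V :=
    fun x => ⟨L x.1, L x.1, inferInstance, inferInstance, n x.1, n x.1,
      fun q q' => q' ≤ q ∧ Step u x.2.1 x.2.2.2.1 q' (fun z' => F u x.2.2.1 z' q' x.2.2.2.2.1)⟩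
  let R2 : (Σ c : K, List (Instr (L c)) × St V (n c) × {W // W ∈ WW c}) → Req V :=
    fun x => ⟨L x.1, L x.1, inferInstance, inferInstance, n x.1, n x.1,
      fun q q' => q' ≤ q ∧ F u x.2.1 x.2.2.1 q' (x.2.2.2.1)ᶜ⟩
  have hci : ∀ c, Countable (Instr (L c)) := fun c => countable_instr
  have hcw : ∀ c, Countable {W // W ∈ WW c} := fun c => (hWc c).to_subtype
  obtain ⟨BB, h1, h2, h3, h4⟩ := skolem_box (u := u)
    (Sum.elim RI (Sum.elim RP (Sum.elim RJ (Sum.elim R1 R2)))) S₀ hS₀ hbox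
  refine ⟨BB, h1, h2, h3, ?_, ?_, ?_, ?_, ?_⟩
  · intro m b hb b' hb' hne
    obtain ⟨q', h5, h6⟩ := h4 (Sum.inl m) (fun x => cond x b b')
      (by rintro (_ | _); exacts [hb', hb])
      ⟨fun _ => b ∩ b', fun _ => (h3 m b hb).inter' (h3 m b' hb') hne, rfl⟩
    have h7 : q' () = b ∩ b' := h6
    rw [← h7]
    exact h5 ()
  · intro m m' g b hb hne
    obtain ⟨q', h5, h6⟩ := h4 (Sum.inr (Sum.inl ⟨m, m', g⟩)) (fun _ => b) (fun _ => hb)
      ⟨fun _ => {z : Fin m' → V | z ∘ g ∈ b}, fun _ => (h3 m b hb).pull g hne, rfl⟩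
    have h7 : q' () = {z : Fin m' → V | z ∘ g ∈ b} := h6
    rw [← h7]
    exact h5 ()
  · intro m m' g b hb
    obtain ⟨q', h5, h6⟩ := h4 (Sum.inr (Sum.inr (Sum.inl ⟨m, m', g⟩))) (fun _ => b) (fun _ => hb)
      ⟨fun _ => {y : Fin m → V | ∃ z ∈ b, z ∘ g = y}, fun _ => (h3 m' b hb).proj g, rfl⟩
    have h7 : q' () = {y : Fin m → V | ∃ z ∈ b, z ∘ g = y} := h6
    rw [← h7]
    exact h5 ()
  · intro c i P z W hW q hq hF
    obtain ⟨q'', h5, h6, h7⟩ := hF q (fun l => h3 _ _ (hq l)) le_rfl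
    obtain ⟨q', h8, h9⟩ := h4 (Sum.inr (Sum.inr (Sum.inr (Sum.inl ⟨c, i, P, z, W, hW⟩)))) q hq
      ⟨q'', h5, h6, h7⟩
    exact ⟨q', h8, h9.1, h9.2⟩
  · intro c P z W hW hP q hq hF
    obtain ⟨q'', h5, h6, h7⟩ := not_F_of_dec (fun q₁ hq₁ => dec_dense hu (hWt c W hW) hP z hq₁)
      (fun l => h3 _ _ (hq l)) hF
    obtain ⟨q', h8, h9⟩ := h4 (Sum.inr (Sum.inr (Sum.inr (Sum.inr ⟨c, P, z, W, hW⟩)))) q hq
      ⟨q'', h5, h6, h7⟩
    exact ⟨q', h8, h9.1, h9.2⟩

/-- existence of the countable family of boxes -/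
theorem exists_BB {V : Type} [Countable V] [Nonempty V] {u : Ultrafilter (V → V)} (hu : Idem u) (T : TFam V)
    (B₀ : ∀ m : ℕ, Set (Set (Fin m → V))) (hB₀ : ∀ m, (B₀ m).Countable)
    (hbox : ∀ m, ∀ b ∈ B₀ m, IsBox u b) :
    ∃ BB : ∀ m : ℕ, Set (Set (Fin m → V)), (∀ m, B₀ m ⊆ BB m) ∧ IsBB u T BB := by
  let K : Type := (Σ k : ℕ, Fin k → ℕ) ⊕ (Σ k : ℕ, Σ r : ℕ, (Fin k → ℕ) × (Fin r → ℕ))
  let L : K → Type := fun c => match c with
    | Sum.inl x => Fin x.1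
    | Sum.inr y => Fin y.1 ⊕ Fin y.2.1
  let n : ∀ c : K, L c → ℕ := fun c => match c with
    | Sum.inl x => x.2
    | Sum.inr y => Sum.elim y.2.2.1 y.2.2.2
  have hL : ∀ c : K, Finite (L c) := by
    rintro (x | y)
    · exact inferInstanceAs (Finite (Fin x.1))
    · exact inferInstanceAs (Finite (Fin y.1 ⊕ Fin y.2.1))
  obtain ⟨BB, h1, h2, h3, h4, h5, h6, h7, h8⟩ := exists_BB_ctx hu L n
    (fun c => {W | InW T W}) (fun c => countable_InW T) (fun c W hW => tame_cyl T hW) B₀ hB₀ hbox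
  refine ⟨BB, h2, ⟨h3, h1, h4, ?_, ?_, ?_⟩⟩
  · intro m m' b hb g hne
    exact h5 m m' g b hb hne
  · intro k α
    refine ⟨?_, ?_⟩
    · intro i P z q W hW hq hF
      exact h7 (Sum.inl ⟨k, α⟩) i P z W hW q hq hF
    · intro P z q W hW hP hq hF
      exact h8 (Sum.inl ⟨k, α⟩) P z W hW hP q hq hF
  · intro k r α β
    refine ⟨?_, ?_⟩
    · intro i P z q W hW hq hF
      exact h7 (Sum.inr ⟨k, r, α, β⟩) i P z W hW q hq hF
    · intro P z q W hW hP hq hF
      exact h8 (Sum.inr ⟨k, r, α, β⟩) P z W hW hP q hq hF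

/-- LEMMA C inside `BB` -/
theorem lemmaC {V L : Type} {n : L → ℕ} {u : Ultrafilter (V → V)} {T : TFam V}
    {BB : ∀ m : ℕ, Set (Set (Fin m → V))} (hbox : ∀ m, ∀ b ∈ BB m, IsBox u b) (hcl : Closed u T BB n)
    {P : List (Instr L)} (hP : Good P) {W : Set (St V n)} (hW : InW T W) (p : Ultrafilter (St V n))
    {q : Bx V n} (hq : Fm BB q) :
    ∃ q' : Bx V n, Fm BB q' ∧ q' ≤ q ∧
      ((∀ᶠ z in (p : Filter (St V n)), F u P z q' W) ∨ (∀ᶠ z in (p : Filter (St V n)), F u P z q' Wᶜ)) := by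
  obtain ⟨k, hk⟩ := tame_cyl T hW (lv P)
  refine lemmaC_aux (BB := Fm BB) hk (fun q hq l => hbox _ _ (hq l)) ?_ p hq
  intro z q hq W' hW' hF
  refine hcl.2 P z q W' ?_ hP hq hF
  rcases hW' with rfl | rfl
  · exact hW
  · exact hW.compl

end Pool.MP4fb322AA
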