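import Pool.Agent.Lib.MP_4fb322_lc_h71.Defs3
import Pool.Agent.Lib.MP_4fb322_lc_h71.B1
import Pool.Agent.Lib.MP_4fb322_lc_h71.B3
import Pool.Agent.Lib.MP_4fb322_lc_h71.B6
import Pool.Agent.Lib.MP_4fb322_lc_h71.B10

set_option autoImplicit false

/-! Row B11 (MP_4fb322_lc, all arities, positions). -/

namespace Pool.MP4fb322AA

open Filter
open Pool.Agent.Lib.MP_4fb322_lc_q (Tm Sub HasEq FinTy Nip Mv)

namespace B11

theorem lv_liftR {k r : ℕ} (P : List (Instr (Fin r))) :
    lv (P.map (liftR k)) = Sum.inr '' lv P := by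
  induction P with
  | nil =>
    ext l
    simp [lv]
  | cons i P ih =>
    ext l
    have ih' : Instr.choose l ∈ P.map (liftR k) ↔ l ∈ Sum.inr '' lv P := by
      rw [← ih]
      rfl
    show Instr.choose l ∈ (liftR k i) :: P.map (liftR k) ↔ _
    rw [List.mem_cons, ih']
    cases i with
    | choose j =>
      simp only [liftR, Instr.choose.injEq, lv, Set.mem_image, Set.mem_ofPred_eq, List.mem_cons]
      constructor
      · rintro (h | ⟨a, ha, rfl⟩)
        · exact ⟨j, Or.inl rfl, h.symm⟩
        · exact ⟨a, Or.inr ha, rfl⟩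
      · rintro ⟨a, ha | ha, rfl⟩
        · exact Or.inl (by rw [ha])
        · exact Or.inr ⟨a, ha, rfl⟩
    | app S =>
      simp only [liftR, reduceCtorEq, false_or, lv, Set.mem_image, Set.mem_ofPred_eq, List.mem_cons]

theorem good_liftR {k r : ℕ} {P : List (Instr (Fin r))} (h : Good P) : Good (P.map (liftR k)) := by
  induction P with
  | nil => trivial
  | cons i P ih =>
    cases i with
    | choose j =>
      refine ⟨?_, ih h.2⟩
      rw [lv_liftR]
      rintro ⟨j', hj', h'⟩
      obtain rfl := Sum.inr.inj h'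
      exact h.1 hj'
    | app S => exact ih h

/-- truth over `Fin k ⊕ Fin r` and over `Fin r` -/
theorem Tr_liftR {V : Type} {u : Ultrafilter (V → V)} {k r : ℕ} {α : Fin k → ℕ} {β : Fin r → ℕ}
    {x : ∀ l : Fin k ⊕ Fin r, Ultrafilter (Fin (Sum.elim α β l) → V)} {P : List (Instr (Fin r))}
    {z' : St V (Sum.elim α β)} {A : Set (St V β)} :
    Tr u x (P.map (liftR k)) z' {w | (fun j => w (Sum.inr j)) ∈ A} ↔
      Tr u (fun j => x (Sum.inr j)) P (fun j => z' (Sum.inr j)) A := by
  induction P generalizing z' with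
  | nil => exact Iff.rfl
  | cons i P ih =>
    cases i with
    | choose j =>
      show (∀ᶠ y in (x (Sum.inr j) : Filter _), Tr u x (P.map (liftR k)) (upd z' (Sum.inr j) y) _) ↔
        (∀ᶠ y in (x (Sum.inr j) : Filter _), Tr u (fun j => x (Sum.inr j)) P
          (upd (fun j => z' (Sum.inr j)) j y) A)
      have h : ∀ y : Fin (β j) → V, (fun j' => upd z' (Sum.inr j) y (Sum.inr j')) =
          upd (fun j => z' (Sum.inr j)) j y := by
        intro y
        funext j'
        by_cases hj : j' = j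
        · subst hj
          exact (upd_self z' (Sum.inr j') y).trans (upd_self (fun j => z' (Sum.inr j)) j' y).symm
        · have h1 : (Sum.inr j' : Fin k ⊕ Fin r) ≠ Sum.inr j := by simpa using hj
          exact (upd_ne (z := z') h1).trans (upd_ne (z := fun j => z' (Sum.inr j)) hj).symm
      refine Filter.eventually_congr (Filter.Eventually.of_forall fun y => ?_)
      rw [ih]
      exact iff_of_eq (congrArg (fun w => Tr u (fun j => x (Sum.inr j)) P w A) (h y))
    | app S =>
      show (∀ᶠ g in (u : Filter (V → V)), Tr u x (P.map (liftR k)) (appS (Sum.inr '' S) g z') _) ↔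
        (∀ᶠ g in (u : Filter (V → V)), Tr u (fun j => x (Sum.inr j)) P
          (appS S g (fun j => z' (Sum.inr j))) A)
      have h : ∀ g : V → V, (fun j' => appS (Sum.inr '' S) g z' (Sum.inr j')) =
          appS S g (fun j => z' (Sum.inr j)) := by
        intro g
        funext j'
        by_cases hj : j' ∈ S
        · rw [appS_mem hj]
          exact appS_mem (Set.mem_image_of_mem _ hj)
        · rw [appS_notMem hj]
          refine appS_notMem ?_
          rintro ⟨a, ha, h⟩
          obtain rfl := Sum.inr.inj h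
          exact hj ha
      refine Filter.eventually_congr (Filter.Eventually.of_forall fun y => ?_)
      rw [ih]
      exact iff_of_eq (congrArg (fun w => Tr u (fun j => x (Sum.inr j)) P w A) (h y))

/-- extension of a function along an injective map -/
theorem exists_ext {Λ : Type} {r : ℕ} {E : Fin r → Λ} (hE : Function.Injective E) {X : Λ → Type}
    (f : ∀ j, X (E j)) (d : ∀ a, X a) :
    ∃ b : ∀ a, X a, (∀ j, b (E j) = f j) ∧ ∀ a, (∀ j, E j ≠ a) → b a = d a := by
  classical
  refine ⟨fun a => if h : ∃ j, E j = a then h.choose_spec ▸ f h.choose else d a, ?_, ?_⟩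
  · intro j
    have h : ∃ j', E j' = E j := ⟨j, rfl⟩
    have key : ∀ (j' : Fin r) (h' : E j' = E j), (h' ▸ f j' : X (E j)) = f j := by
      intro j' h'
      obtain rfl := hE h'
      rfl
    simp only [dif_pos h]
    exact key _ _
  · intro a ha
    have h : ¬ ∃ j, E j = a := fun ⟨j, hj⟩ => ha j hj
    simp only [dif_neg h]

theorem map_map {L M N : Type} (f : L → M) (g : M → N) (t : Tm L) :
    (t.map f).map g = t.map (fun a => g (f a)) := by
  induction t with
  | leaf a => rfl
  | node s t hs ht =>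
    show Tm.node _ _ = Tm.node _ _
    rw [hs, ht]

theorem lv_map {L M : Type} (f : L → M) (t : Tm L) : (t.map f).lv = t.lv.map f := by
  induction t with
  | leaf a => rfl
  | node s t hs ht =>
    show (s.map f).lv ++ (t.map f).lv = (s.lv ++ t.lv).map f
    rw [hs, ht, List.map_append]

end B11

open B11 in
theorem lc_labels {V : Type} [Nonempty V] {u : Ultrafilter (V → V)} {T : TFam V}
    {BB : ∀ m : ℕ, Set (Set (Fin m → V))} (hBB : IsBB u T BB) {Λ : Type} {sz : Λ → ℕ}
    {v : ∀ a : Λ, Ultrafilter (Fin (sz a) → V)} (hgs : GenStep u T BB sz v)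
    (hgd : GenDec u T BB sz v 0 Fin.elim0 (pure (fun l => l.elim0)))
    (hne : ∀ a, ∃ b ∈ BB (sz a), b ∈ v a)
    {y : Tm Λ} (hy : y.lv.Nodup) {N : ℕ} {G : Fin N → Σ a : Λ, Fin (sz a)} (hG : ∀ i, (G i).1 ∈ y.lv)
    {W₀ : Set (Fin N → V)} (hW₀ : W₀ ∈ T.T N) {z₀ : St V sz} (hTr : Tr u v (prog y) z₀ (cyl G W₀)) :
    ∃ b : ∀ a : Λ, Set (Fin (sz a) → V), (∀ a, b a ∈ BB (sz a) ∧ b a ∈ v a) ∧
      ∀ e : (a : Λ) → Mv sz a, Set.InjOn (fun a => (e a).1) {a | a ∈ y.lv} →
        (∀ a ∈ y.lv, {w | w ∘ (e a).2 ∈ b a} ∈ v (e a).1) → ∀ z₁ : St V sz,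
          Tr u v (prog (y.map fun a => (e a).1)) z₁
            {f | (fun i => f (e (G i).1).1 ((e (G i).1).2 (G i).2)) ∈ W₀} := by
  classical
  obtain ⟨r, E, t, hE, hnd, hall, rfl⟩ := exists_fin_tree y hy
  choose d hd hdv using hne
  have hlv : ∀ a, a ∈ (t.map E).lv ↔ ∃ j, E j = a := by
    intro a
    rw [lv_map, List.mem_map]
    constructor
    · rintro ⟨j, -, h⟩
      exact ⟨j, h⟩
    · rintro ⟨j, h⟩
      exact ⟨j, hall j, h⟩
  have hG' : ∀ i, ∃ s : Σ j : Fin r, Fin (sz (E j)), (⟨E s.1, s.2⟩ : Σ a : Λ, Fin (sz a)) = G i := by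
    intro i
    obtain ⟨j, hj⟩ := (hlv _).1 (hG i)
    generalize G i = gi at hj ⊢
    obtain ⟨a, c⟩ := gi
    simp only at hj
    subst hj
    exact ⟨⟨j, c⟩, rfl⟩
  choose G' hG' using hG'
  obtain rfl : G = fun i => ⟨E (G' i).1, (G' i).2⟩ := funext fun i => (hG' i).symm
  -- truth over `Fin r`
  have h1 : Tr u (fun l => v (E l)) (prog t) (fun l => z₀ (E l)) (cyl G' W₀) :=
    (tr_map E hE t (A := cyl G' W₀)).1 hTr
  -- the context
  let β : Fin r → ℕ := fun j => sz (E j)
  let P : List (Instr (Fin 0 ⊕ Fin r)) := (prog t).map (liftR 0)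
  have hPg : Good P := good_liftR (good_prog hnd)
  have hPl : lv P ⊆ Set.range Sum.inr := by
    rw [show lv P = Sum.inr '' lv (prog t) from lv_liftR _]
    rintro _ ⟨a, -, rfl⟩
    exact ⟨a, rfl⟩
  -- decide
  let q : Bx V (Sum.elim (Fin.elim0 : Fin 0 → ℕ) (fun j => sz (E j))) := fun l => match l with
    | Sum.inl l => l.elim0
    | Sum.inr j => d (E j)
  let W : Set (St V (Sum.elim (Fin.elim0 : Fin 0 → ℕ) (fun j => sz (E j)))) :=
    cyl (fun i => ⟨Sum.inr (G' i).1, (G' i).2⟩) W₀
  have hW : InW T W := ⟨N, _, W₀, hW₀, rfl⟩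
  let z₁' : St V (fun j => sz (E j)) := fun l => z₀ (E l)
  obtain ⟨q', hq', hqq, hqv, hdec⟩ := hgd r E hE z₁' P q W hW hPg
    (by rintro (l | j); exacts [l.elim0, hd _]) (fun j => hdv _)
  let x : ∀ l : Fin 0 ⊕ Fin r, Ultrafilter (Fin (Sum.elim (Fin.elim0 : Fin 0 → ℕ)
    (fun j => sz (E j)) l) → V) := fun l => match l with
    | Sum.inl l => l.elim0
    | Sum.inr j => v (E j)
  have hF : F u P (jn (fun l => l.elim0) z₁') q' W := by
    rcases hdec with h | h
    · exact h
    · exfalso
      have h2 : F u (P ++ []) (jn (fun l => l.elim0) z₁') q' Wᶜ := by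
        rw [List.append_nil]
        exact h
      refine lemmaM hBB.box hgs hE (x := x) (fun j => rfl) hPl hW.compl hq' hqv h2 ?_
      show Tr u x P _ {z' | z' ∈ Wᶜᶜ}
      rw [compl_compl]
      exact (Tr_liftR (A := cyl G' W₀)).2 h1
  obtain ⟨b, hb1, hb2⟩ := exists_ext hE (X := fun a => Set (Fin (sz a) → V))
    (fun j => q' (Sum.inr j)) d
  refine ⟨b, ?_, ?_⟩
  · intro a
    by_cases ha : ∃ j, E j = a
    · obtain ⟨j, rfl⟩ := ha
      rw [hb1]
      exact ⟨hq' (Sum.inr j), hqv j⟩
    · rw [hb2 a (fun j hj => ha ⟨j, hj⟩)]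
      exact ⟨hd a, hdv a⟩
  · intro e he hbe z₁
    let E' : Fin r → Λ := fun j => (e (E j)).1
    have hE' : Function.Injective E' := by
      intro j j' h
      exact hE (he ((hlv _).2 ⟨j, rfl⟩) ((hlv _).2 ⟨j', rfl⟩) h)
    let g : ∀ j, Fin (sz (E j)) → Fin (sz (E' j)) := fun j => (e (E j)).2
    have hbe' : ∀ j, {w : Fin (sz (E' j)) → V | w ∘ g j ∈ q' (Sum.inr j)} ∈ v (E' j) := by
      intro j
      have := hbe (E j) ((hlv _).2 ⟨j, rfl⟩)
      rw [hb1] at this
      exact this
    let q₂ : Bx V (Sum.elim (Fin.elim0 : Fin 0 → ℕ) (fun j => sz (E' j))) := fun l => match l with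
      | Sum.inl l => l.elim0
      | Sum.inr j => {w : Fin (sz (E' j)) → V | w ∘ g j ∈ q' (Sum.inr j)}
    have hq₂ : Fm BB q₂ := by
      rintro (l | j)
      · exact l.elim0
      · exact hBB.pull _ _ _ (hq' (Sum.inr j)) (g j) (Ultrafilter.nonempty_of_mem (hbe' j))
    let π : St V (Sum.elim (Fin.elim0 : Fin 0 → ℕ) (fun j => sz (E' j))) →
        St V (Sum.elim (Fin.elim0 : Fin 0 → ℕ) (fun j => sz (E j))) := fun z' l => match l with
      | Sum.inl l => l.elim0
      | Sum.inr j => z' (Sum.inr j) ∘ g j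
    let pt : Partner (Sum.elim (Fin.elim0 : Fin 0 → ℕ) (fun j => sz (E j)))
        (Sum.elim (Fin.elim0 : Fin 0 → ℕ) (fun j => sz (E' j))) := fun l => match l with
      | Sum.inl l => l.elim0
      | Sum.inr j => some ⟨Sum.inr j, g j⟩
    have hpt : PInj pt := by
      rintro (l₁ | j₁) (l₂ | j₂) l g₁ g₂ h₁ h₂
      · exact l₁.elim0
      · exact l₁.elim0
      · exact l₂.elim0
      · have h3 := congrArg Sigma.fst (Option.some.inj h₁)
        have h4 := congrArg Sigma.fst (Option.some.inj h₂)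
        exact h3.trans h4.symm
    have hsim : ∀ Q : List (Instr (Fin r)), Sim π pt (Q.map (liftR 0)) (Q.map (liftR 0)) := by
      intro Q
      induction Q with
      | nil => exact Sim.nil
      | cons i Q ih =>
        cases i with
        | choose j =>
          refine Sim.choose (l := Sum.inr j) (l' := Sum.inr j) (g := g j) rfl ?_ ih
          intro z' y'
          funext l
          rcases l with l | j'
          · exact l.elim0
          · by_cases hj : j' = j
            · subst hj
              rw [upd_self]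
              show upd z' (Sum.inr j') y' (Sum.inr j') ∘ g j' = _
              rw [upd_self]
              rfl
            · have hne : (Sum.inr j' : Fin 0 ⊕ Fin r) ≠ Sum.inr j := by simpa using hj
              rw [upd_ne hne]
              show upd z' (Sum.inr j) y' (Sum.inr j') ∘ g j' = z' (Sum.inr j') ∘ g j'
              rw [upd_ne hne]
        | app S =>
          refine Sim.app ?_ ih
          intro h z'
          funext l
          rcases l with l | j'
          · exact l.elim0
          · by_cases hj : (Sum.inr j' : Fin 0 ⊕ Fin r) ∈ (Sum.inr '' S : Set (Fin 0 ⊕ Fin r))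
            · rw [appS_mem hj]
              show appS (Sum.inr '' S) h z' (Sum.inr j') ∘ g j' = _
              rw [appS_mem hj]
              rfl
            · rw [appS_notMem hj]
              show appS (Sum.inr '' S) h z' (Sum.inr j') ∘ g j' = _
              rw [appS_notMem hj]
              rfl
    let W₂ : Set (St V (Sum.elim (Fin.elim0 : Fin 0 → ℕ) (fun j => sz (E' j)))) :=
      cyl (fun i => ⟨Sum.inr (G' i).1, g _ (G' i).2⟩) W₀
    have hW₂ : InW T W₂ := ⟨N, _, W₀, hW₀, rfl⟩
    let z₂ : St V (Sum.elim (Fin.elim0 : Fin 0 → ℕ) (fun j => sz (E' j))) := fun l => match l with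
      | Sum.inl l => l.elim0
      | Sum.inr j => z₁ (E' j)
    have hF₂ : F u P z₂ q₂ W₂ := by
      have h3 : F u P (π z₂) q' W := by
        refine hF.congr_state ?_
        intro l hl
        rcases l with l | j
        · exact l.elim0
        · exfalso
          apply hl
          rw [show lv P = Sum.inr '' lv (prog t) from lv_liftR _, lv_prog]
          exact ⟨j, hall j, rfl⟩
      refine F_pull hpt (hsim (prog t)) (fun l => hBB.box _ _ (hq' l)) (fun l => hBB.box _ _ (hq₂ l))
        ?_ h3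
      rintro (l' | j') l g' hg' y' hy'
      · exact l'.elim0
      · obtain ⟨rfl, h5⟩ := Sigma.mk.inj (Option.some.inj hg')
        obtain rfl := eq_of_heq h5
        exact hy'
    let x₂ : ∀ l : Fin 0 ⊕ Fin r, Ultrafilter (Fin (Sum.elim (Fin.elim0 : Fin 0 → ℕ)
      (fun j => sz (E' j)) l) → V) := fun l => match l with
      | Sum.inl l => l.elim0
      | Sum.inr j => v (E' j)
    have h4 : Tr u x₂ P z₂ W₂ := by
      have h5 : F u (P ++ []) z₂ q₂ W₂ := by
        rw [List.append_nil]
        exact hF₂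
      have h6 := lemmaM hBB.box hgs hE' (x := x₂) (fun j => rfl) hPl hW₂ hq₂ hbe' h5
      have h7 : ¬ Tr u x₂ P z₂ W₂ᶜ := h6
      rw [Tr.compl_iff, not_not] at h7
      exact h7
    have h8 : Tr u (fun l => v (E' l)) (prog t) (fun l => z₁ (E' l))
        (cyl (fun i => ⟨(G' i).1, g _ (G' i).2⟩) W₀) :=
      (Tr_liftR (A := cyl (fun i => (⟨(G' i).1, g _ (G' i).2⟩ : Σ j : Fin r, Fin (sz (E' j)))) W₀)).1 h4
    rw [B11.map_map]
    exact (tr_map E' hE' t (A := cyl (fun i => (⟨(G' i).1, g _ (G' i).2⟩ :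
      Σ j : Fin r, Fin (sz (E' j)))) W₀)).2 h8

end Pool.MP4fb322AA
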