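import Pool.Agent.Lib.MP_4fb322_lc_h71.Defs3

set_option autoImplicit false

/-! Row B12 (MP_4fb322_lc, all arities, positions): recognition. -/

namespace Pool.MP4fb322AA

open Filter
open Pool.Agent.Lib.MP_4fb322_lc_q (Tm Sub HasEq FinTy Nip Mv)

theorem uf_iff {α : Type} (w : Ultrafilter α) {p : α → Prop} {c : Prop} :
    (c ↔ ∀ᶠ x in (w : Filter α), p x) → ∀ᶠ x in (w : Filter α), (c ↔ p x) := by
  intro h
  by_cases hc : c
  · filter_upwards [h.1 hc] with x hx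
    exact ⟨fun _ => hx, fun _ => hc⟩
  · have h' : ¬ ∀ᶠ x in (w : Filter α), p x := fun h1 => hc (h.2 h1)
    rw [← Ultrafilter.eventually_not] at h'
    filter_upwards [h'] with x hx
    exact ⟨fun h1 => absurd h1 hc, fun h1 => absurd h1 hx⟩

/-- the map `k` is good for `F` -/
def GoodMap {I : Type} {ar : I → ℕ} {V : Type} (M : Str ar V) {Y : Type} (w : Ultrafilter (Y → V))
    (F : Finset V) (k : V → Y) : Prop :=
  ∀ᶠ g in (w : Filter (Y → V)), ∀ (i : I) (t : Fin (ar i) → V), (∀ j, t j ∈ F) →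
    (g ∘ k ∘ t ∈ M i ↔ t ∈ M i)

theorem exists_good {I : Type} {ar : I → ℕ} {V : Type} {M : Str ar V} {ι : Type} (W : Ultrafilter ι)
    (Y : ι → Type) (w : ∀ i, Ultrafilter (Y i → V))
    (full : ∀ (m : ℕ) (f : Fin m → V), ∀ᶠ i in (W : Filter ι), ∃ e : Fin m → Y i,
      ∀ᶠ g in (w i : Filter (Y i → V)), pl (g ∘ e) M = pl f M) (F : Finset V) :
    ∀ᶠ i in (W : Filter ι), ∃ k : V → Y i, GoodMap M (w i) F k := by
  classical
  -- an injective enumeration of a superset of `F`, nonempty if `V` is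
  obtain ⟨m, f, hf, hF, hm⟩ : ∃ (m : ℕ) (f : Fin m → V), Function.Injective f ∧
      (∀ x ∈ F, ∃ a, f a = x) ∧ (Nonempty V → 0 < m) := by
    rcases isEmpty_or_nonempty V with hV | ⟨⟨v⟩⟩
    · exact ⟨0, Fin.elim0, fun a => a.elim0, fun x => (hV.false x).elim, fun ⟨v⟩ => (hV.false v).elim⟩
    · refine ⟨(insert v F).card, fun a => ((insert v F).equivFin.symm a : V), ?_, ?_, ?_⟩
      · intro a b h
        exact (insert v F).equivFin.symm.injective (Subtype.ext h)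
      · intro x hx
        exact ⟨(insert v F).equivFin ⟨x, Finset.mem_insert_of_mem hx⟩, by simp⟩
      · intro _
        exact Finset.card_pos.2 ⟨v, Finset.mem_insert_self _ _⟩
  filter_upwards [full m f] with i hi
  obtain ⟨e, he⟩ := hi
  obtain ⟨k, hk⟩ : ∃ k : V → Y i, k ∘ f = e := by
    rcases isEmpty_or_nonempty V with hV | hV
    · refine ⟨fun x => (hV.false x).elim, ?_⟩
      funext a
      exact (hV.false (f a)).elim
    · refine ⟨Function.extend f e (fun _ => e ⟨0, hm hV⟩), ?_⟩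
      funext a
      exact hf.extend_apply e _ a
  refine ⟨k, ?_⟩
  unfold GoodMap
  filter_upwards [he] with g hg i' t ht
  have hs : ∀ j, ∃ a, f a = t j := fun j => hF _ (ht j)
  choose s hs using hs
  have h1 : t = f ∘ s := by
    funext j
    exact (hs j).symm
  have h2 : (s ∈ pl (g ∘ e) M i') ↔ (s ∈ pl f M i') := by rw [hg]
  have h3 : g ∘ k ∘ t = (g ∘ e) ∘ s := by
    rw [h1, ← hk]
    rfl
  rw [h3, h1]
  exact h2

theorem recognition {I : Type} {ar : I → ℕ} {V : Type} {M : Str ar V} {u : Ultrafilter (V → V)}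
    (hu : Gen M u) {ι : Type} (W : Ultrafilter ι) (Y : ι → Type) (w : ∀ i, Ultrafilter (Y i → V))
    (hw : ∀ i, PosX u (w i))
    (full : ∀ (m : ℕ) (f : Fin m → V), ∀ᶠ i in (W : Filter ι), ∃ e : Fin m → Y i,
      ∀ᶠ g in (w i : Filter (Y i → V)), pl (g ∘ e) M = pl f M)
    {X : Type} [Finite X] (q : Ultrafilter (X → V)) (hq : PosX u q) {J : Type} [Finite J]
    (Bs : J → Set (X → V)) :
    ∀ᶠ i in (W : Filter ι), ∃ e : X → Y i, ∀ j,
      (Bs j ∈ q ↔ ∀ᶠ g in (w i : Filter (Y i → V)), g ∘ e ∈ Bs j) := by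
  classical
  have hgood := exists_good W Y w full
  let w' : Finset V → ι → Ultrafilter (V → V) := fun F i =>
    if h : ∃ k : V → Y i, GoodMap M (w i) F k then (w i).map (fun g => g ∘ h.choose)
    else pure id
  let 𝒰 : Ultrafilter (Finset V) := Ultrafilter.of atTop
  have h𝒰 : ∀ A : Finset V, ∀ᶠ F in (𝒰 : Filter (Finset V)), A ⊆ F := fun A =>
    Ultrafilter.of_le atTop (Filter.eventually_ge_atTop A)
  let w₀ : Ultrafilter (V → V) := 𝒰.bind (fun F => W.bind (fun i => w' F i))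
  have hw₀ : ∀ A : Set (V → V), A ∈ w₀ ↔
      ∀ᶠ F in (𝒰 : Filter (Finset V)), ∀ᶠ i in (W : Filter ι), A ∈ w' F i := fun A => Iff.rfl
  have hw' : ∀ F, ∀ᶠ i in (W : Filter ι), ∃ k : V → Y i, GoodMap M (w i) F k ∧
      w' F i = (w i).map (fun g => g ∘ k) := by
    intro F
    filter_upwards [hgood F] with i hi
    exact ⟨hi.choose, hi.choose_spec, by simp only [w', hi, dite_true]⟩
  -- `w₀` is a generalised self-embedding
  have hGE : GE M w₀ := by
    intro A hA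
    obtain ⟨A', hA'⟩ := hA.exists_finset_coe
    subst hA'
    change {h : V → V | _} ∈ w₀
    rw [hw₀]
    filter_upwards [h𝒰 A'] with F hF
    filter_upwards [hw' F] with i hi
    obtain ⟨k, hk, hki⟩ := hi
    rw [hki, Ultrafilter.mem_map]
    filter_upwards [hk] with g hg i' t ht
    exact hg i' t (fun j => hF (Finset.mem_coe.1 (ht j)))
  -- `w₀` is invariant
  have hinv : ∀ B : Set (V → V), (∀ᶠ g in (w₀ : Filter (V → V)), ∀ᶠ h in (u : Filter (V → V)),
      h ∘ g ∈ B) ↔ B ∈ w₀ := by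
    intro B
    change ({g : V → V | ∀ᶠ h in (u : Filter (V → V)), h ∘ g ∈ B} ∈ w₀) ↔ B ∈ w₀
    rw [hw₀, hw₀]
    refine Filter.eventually_congr (Filter.Eventually.of_forall fun F => ?_)
    refine Filter.eventually_congr ?_
    filter_upwards [hw' F] with i hi
    obtain ⟨k, hk, hki⟩ := hi
    rw [hki, Ultrafilter.mem_map, Ultrafilter.mem_map]
    exact (hw i ((fun g => g ∘ k) ⁻¹' B)).symm
  obtain ⟨r, _, hr⟩ := hu.mini w₀ hGE
  have key : ∀ j, (Bs j ∈ q) ↔ ∀ᶠ z in (q : Filter (X → V)), ∀ᶠ f in (r : Filter (V → V)),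
      ∀ᶠ F in (𝒰 : Filter (Finset V)), ∀ᶠ i in (W : Filter ι), {g : V → V | g ∘ f ∘ z ∈ Bs j} ∈ w' F i := by
    intro j
    rw [hq (Bs j)]
    refine Filter.eventually_congr (Filter.Eventually.of_forall fun z => ?_)
    change ({h : V → V | h ∘ z ∈ Bs j} ∈ u) ↔ _
    rw [hr]
    refine Filter.eventually_congr (Filter.Eventually.of_forall fun f => ?_)
    exact hinv {g : V → V | g ∘ f ∘ z ∈ Bs j}
  have h1 : ∀ᶠ z in (q : Filter (X → V)), ∀ j, (Bs j ∈ q) ↔ ∀ᶠ f in (r : Filter (V → V)),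
      ∀ᶠ F in (𝒰 : Filter (Finset V)), ∀ᶠ i in (W : Filter ι), {g : V → V | g ∘ f ∘ z ∈ Bs j} ∈ w' F i := by
    rw [Filter.eventually_all]
    exact fun j => uf_iff q (key j)
  obtain ⟨z, hz⟩ := h1.exists
  have h2 : ∀ᶠ f in (r : Filter (V → V)), ∀ j, (Bs j ∈ q) ↔
      ∀ᶠ F in (𝒰 : Filter (Finset V)), ∀ᶠ i in (W : Filter ι), {g : V → V | g ∘ f ∘ z ∈ Bs j} ∈ w' F i := by
    rw [Filter.eventually_all]
    exact fun j => uf_iff r (hz j)
  obtain ⟨f, hf⟩ := h2.exists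
  have h3 : ∀ᶠ F in (𝒰 : Filter (Finset V)), ∀ j, (Bs j ∈ q) ↔
      ∀ᶠ i in (W : Filter ι), {g : V → V | g ∘ f ∘ z ∈ Bs j} ∈ w' F i := by
    rw [Filter.eventually_all]
    exact fun j => uf_iff 𝒰 (hf j)
  obtain ⟨F, hF⟩ := h3.exists
  have h4 : ∀ᶠ i in (W : Filter ι), ∀ j, (Bs j ∈ q) ↔ {g : V → V | g ∘ f ∘ z ∈ Bs j} ∈ w' F i := by
    rw [Filter.eventually_all]
    exact fun j => uf_iff W (hF j)
  filter_upwards [h4, hw' F] with i hi hk
  obtain ⟨k, _, hki⟩ := hk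
  refine ⟨k ∘ f ∘ z, fun j => ?_⟩
  rw [hi j, hki, Ultrafilter.mem_map]
  rfl

end Pool.MP4fb322AA
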