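import Pool.Agent.Lib.MP_4fb322_lc_h71.Defs3

set_option autoImplicit false

/-! Row B13 (MP_4fb322_lc, all arities, positions). -/

namespace Pool.MP4fb322AA

open Filter
open Pool.Agent.Lib.MP_4fb322_lc_q (Tm Sub HasEq FinTy Nip Mv)

/-- no pattern of size `k` -/
private def B13T {V : Type} {N : ℕ} (W : Set (Fin N → V)) : Prop := ∀ A : Set (Fin N), ∃ k : ℕ,
    ¬ ∃ (z : Fin k → Fin N → V) (y : (Fin k → Bool) → Fin N → V),
      ∀ j s, cmb A (z j) (y s) ∈ W ↔ s j = true

private theorem b13_compl {V : Type} {N : ℕ} {W : Set (Fin N → V)} (h : B13T W) : B13T Wᶜ := by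
  intro A
  obtain ⟨k, hk⟩ := h A
  refine ⟨k, fun ⟨z, y, hzy⟩ => hk ⟨z, fun s => y (fun j => !(s j)), fun j s => ?_⟩⟩
  have h1 := hzy j (fun j => !(s j))
  rw [Set.mem_compl_iff] at h1
  constructor
  · intro h2
    by_contra h3
    have h4 : (!(s j)) = true := by simpa using h3
    exact (h1.mpr h4) h2
  · intro h2
    by_contra h3
    have h4 := h1.mp h3
    rw [h2] at h4
    exact absurd h4 (by simp)

private theorem b13_tame {I : Type} {ar : I → ℕ} {V : Type} {M : Str ar V} (hN : Nip M) {N K : ℕ}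
    (c : Fin K → V ⊕ Fin N) (A₀ : Str ar (Fin K)) : B13T (tyS M c A₀) := by
  classical
  intro A
  obtain ⟨m, hm⟩ := hN K A₀ {i | ∀ n, c i = Sum.inr n → n ∉ A}
  refine ⟨m, fun ⟨z, y, hzy⟩ => hm ⟨fun j i => Sum.elim (fun p => p) (z j) (c i),
    fun S i => Sum.elim (fun p => p) (y (fun j => decide (j ∈ S))) (c i), fun j S => ?_⟩⟩
  have h1 := hzy j (fun j => decide (j ∈ S))
  rw [decide_eq_true_iff] at h1
  rw [← h1]
  have h2 : Pool.Agent.Lib.MP_4fb322_lc_q.mrg {i | ∀ n, c i = Sum.inr n → n ∉ A}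
      (fun i => Sum.elim (fun p => p) (z j) (c i))
      (fun i => Sum.elim (fun p => p) (y (fun j => decide (j ∈ S))) (c i)) =
      fun i => Sum.elim (fun p => p) (cmb A (z j) (y (fun j => decide (j ∈ S)))) (c i) := by
    funext i
    unfold Pool.Agent.Lib.MP_4fb322_lc_q.mrg cmb
    cases hc : c i with
    | inl p => simp [hc]
    | inr n =>
        by_cases hn : n ∈ A
        · have h3 : i ∉ {i | ∀ n, c i = Sum.inr n → n ∉ A} := fun h => h n hc hn
          rw [if_neg h3]
          simp [hn, hc]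
        · have h3 : i ∈ {i | ∀ n, c i = Sum.inr n → n ∉ A} := by
            intro n' hn'
            rw [hc] at hn'
            rw [← Sum.inr.inj hn']
            exact hn
          rw [if_pos h3]
          simp [hn, hc]
  show Pool.Agent.Lib.MP_4fb322_lc_q.mrg _ _ _ ∈ {f : Fin K → V | _} ↔ _
  rw [h2]
  exact Iff.rfl

private theorem b13_count {I : Type} {ar : I → ℕ} {V : Type} {M : Str ar V} (hF : FinTy M) {N K : ℕ}
    (c : Fin K → V ⊕ Fin N) : (Set.range fun A : Str ar (Fin K) => tyS M c A).Countable := by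
  have h1 : (Set.range fun f : Fin K → V => pl f M).Finite := hF K
  refine Set.Countable.mono ?_ ((h1.countable.image fun A => tyS M c A).union
    (Set.countable_singleton ∅))
  rintro W ⟨A, rfl⟩
  by_cases hA : A ∈ Set.range fun f : Fin K → V => pl f M
  · exact Or.inl ⟨A, hA, rfl⟩
  · right
    rw [Set.mem_singleton_iff, Set.eq_empty_iff_forall_notMem]
    intro f hf
    exact hA ⟨_, hf⟩

theorem exists_TFam {I : Type} {ar : I → ℕ} {V : Type} [Countable V] {M : Str ar V} (hF : FinTy M)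
    (hN : Nip M) : ∃ T : TFam V, ∀ (N K : ℕ) (c : Fin K → V ⊕ Fin N) (A : Str ar (Fin K)),
      tyS M c A ∈ T.T N := by
  let T₀ : ∀ N : ℕ, Set (Set (Fin N → V)) := fun N =>
    ⋃ (x : Σ K : ℕ, (Fin K → V ⊕ Fin N)), Set.range fun A : Str ar (Fin x.1) => tyS M x.2 A
  have hT₀ : ∀ N, (T₀ N).Countable := fun N =>
    Set.countable_iUnion fun x => b13_count hF x.2
  have hmem : ∀ (N : ℕ) (W : Set (Fin N → V)), W ∈ T₀ N → B13T W := by
    intro N W hW
    rw [Set.mem_iUnion] at hW
    obtain ⟨x, A, rfl⟩ := hW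
    exact b13_tame hN x.2 A
  refine ⟨{ T := fun N => T₀ N ∪ (compl '' T₀ N)
            countable := fun N => (hT₀ N).union ((hT₀ N).image _)
            compl := ?_
            tame := ?_ }, ?_⟩
  · rintro N W (hW | ⟨W', hW', rfl⟩)
    · exact Or.inr ⟨W, hW, rfl⟩
    · rw [compl_compl]
      exact Or.inl hW'
  · rintro N W (hW | ⟨W', hW', rfl⟩)
    · exact hmem N W hW
    · exact b13_compl (hmem N W' hW')
  · intro N K c A
    refine Or.inl ?_
    rw [Set.mem_iUnion]
    exact ⟨⟨K, c⟩, A, rfl⟩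

end Pool.MP4fb322AA
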