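import Pool.Agent.Lib.MP_4fb322_lc_h71.Defs3
import Pool.Agent.Lib.MP_4fb322_lc_h71.B1
import Pool.Agent.Lib.MP_4fb322_lc_h71.B3
import Pool.Agent.Lib.MP_4fb322_lc_h71.B6
import Pool.Agent.Lib.MP_4fb322_lc_h71.B10

set_option autoImplicit false

/-! Row B7 (MP_4fb322_lc, all arities, positions). -/

namespace Pool.MP4fb322AA

open Filter
open Pool.Agent.Lib.MP_4fb322_lc_q (Tm Sub HasEq FinTy Nip Mv)

/-- (3.5): the contradiction rule -/
theorem F_contra {V L : Type} {n : L → ℕ} {u : Ultrafilter (V → V)} (hu : Idem u) {l : L}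
    {R : List (Instr L)} (hl : l ∉ lv R) {z : St V n} {q q' : Bx V n} (hq : AllBox u q) (hq' : AllBox u q')
    {W : Set (St V n)} {y : Ultrafilter (Fin (n l) → V)} (hy : Pos u y) (hql : q l ∈ y) (hqq : q' ≤ q)
    (hF : F u (Instr.choose l :: R) z q W) (h : ∀ᶠ w in (y : Filter _), F u R (upd z l w) q' Wᶜ) : False := by
  classical
  have _ := hq
  have hB : q l ∩ {w | F u R (upd z l w) q' Wᶜ} ∈ y := Filter.inter_mem hql h
  set B : Set (Fin (n l) → V) := q l ∩ {w | F u R (upd z l w) q' Wᶜ} with hBd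
  have hbox : IsBox u (inter u B) := isBox_inter_of_mem hu hy hB
  have h1 : AllBox u (Function.update q' l (inter u B)) := by
    intro l'
    by_cases hll : l' = l
    · subst hll
      simpa using hbox
    · simpa [Function.update_of_ne hll] using hq' l'
  have h2 : Function.update q' l (inter u B) ≤ q := by
    intro l'
    by_cases hll : l' = l
    · subst hll
      simp only [Function.update_self]
      exact (inter_subset B).trans Set.inter_subset_left
    · simpa [Function.update_of_ne hll] using hqq l'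
  have h3 : F u (Instr.choose l :: R) z (Function.update q' l (inter u B)) Wᶜ := by
    apply F.of_step
    intro w hw
    simp only [Function.update_self] at hw
    have h4 : F u R (upd z l w) q' Wᶜ := (inter_subset B hw).2
    refine h4.congr_box hq' (fun l' hl' => ?_)
    have hne : l' ≠ l := by
      rintro rfl
      exact hl hl'
    simp [Function.update_of_ne hne]
  exact F.not_compl h1 (hF.mono h2 subset_rfl) h3

/-! ### the simulations -/

section Sims

variable {V : Type} {k r : ℕ} {α : Fin k → ℕ} {β : Fin r → ℕ}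

/-- the leaf `inl l`, `l ≠ i₀`, stands for `l` -/
private noncomputable def ptL (i₀ : Fin k) : Partner α (Sum.elim α β) := by
  classical
  exact fun l' => match l' with
    | Sum.inl l => if l = i₀ then none else some ⟨l, id⟩
    | Sum.inr _ => none

private theorem ptL_inl (i₀ l : Fin k) (h : l ≠ i₀) :
    (ptL (α := α) (β := β) i₀) (Sum.inl l) = some ⟨l, id⟩ := by
  simp [ptL, h]

private theorem ptL_eq {i₀ : Fin k} {l' : Fin k ⊕ Fin r} {l : Fin k}
    {g : Fin (α l) → Fin (Sum.elim α β l')} (h : (ptL (α := α) (β := β) i₀) l' = some ⟨l, g⟩) :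
    l' = Sum.inl l ∧ HEq g (id : Fin (α l) → Fin (α l)) := by
  rcases l' with m | j
  · by_cases hm : m = i₀
    · simp [ptL, hm] at h
    · rw [ptL_inl i₀ m hm] at h
      simp only [Option.some.injEq, Sigma.mk.injEq] at h
      obtain ⟨rfl, h2⟩ := h
      exact ⟨rfl, h2.symm⟩
  · simp [ptL] at h

private theorem ptL_inj (i₀ : Fin k) : PInj (ptL (α := α) (β := β) i₀) := by
  intro l₁ l₂ l g₁ g₂ h₁ h₂
  rw [(ptL_eq h₁).1, (ptL_eq h₂).1]

private theorem rd_inl {i₀ : Fin k} (g : Fin (α i₀) → Σ j : Fin r, Fin (β j))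
    {z : St V (Sum.elim α β)} {l : Fin k} (h : l ≠ i₀) : rd i₀ g z l = z (Sum.inl l) := by
  show upd _ i₀ _ l = _
  rw [upd_ne h]

private theorem rd_self {i₀ : Fin k} (g : Fin (α i₀) → Σ j : Fin r, Fin (β j))
    {z : St V (Sum.elim α β)} : rd i₀ g z i₀ = fun x => z (Sum.inr (g x).1) (g x).2 := by
  show upd _ i₀ _ i₀ = _
  rw [upd_self]

private theorem sim_sub {i₀ : Fin k} (g : Fin (α i₀) → Σ j : Fin r, Fin (β j))
    (P : List (Instr (Fin k))) (hP : i₀ ∉ lv P) :
    Sim (V := V) (rd i₀ g) (ptL (α := α) (β := β) i₀) P (P.map (subI r i₀)) := by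
  classical
  induction P with
  | nil => exact Sim.nil
  | cons i P ih =>
    have hP' : i₀ ∉ lv P := fun h => hP (List.mem_cons_of_mem _ h)
    cases i with
    | choose l =>
      have hl : l ≠ i₀ := by
        rintro rfl
        exact hP (List.mem_cons_self)
      refine Sim.choose (L := Fin k) (L' := Fin k ⊕ Fin r) (n := α) (n' := Sum.elim α β)
        (l := l) (l' := Sum.inl l) (g := id) (ptL_inl i₀ l hl) ?_ (ih hP')
      intro z' y'
      funext m
      by_cases hm : m = i₀
      · subst hm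
        refine (rd_self g).trans ?_
        refine Eq.trans ?_ (upd_ne (Ne.symm hl)).symm
        refine Eq.trans ?_ (rd_self g).symm
        funext x
        exact congrFun (upd_ne (l' := Sum.inr (g x).1) (l := Sum.inl l) (by simp)) _
      · refine (rd_inl g hm).trans ?_
        by_cases hml : m = l
        · subst hml
          exact (upd_self (n := Sum.elim α β) z' (Sum.inl m) y').trans
            (upd_self (rd i₀ g z') m (y' ∘ id)).symm
        · refine (upd_ne (l' := Sum.inl m) (l := Sum.inl l) (by simpa using hml)).trans ?_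
          exact ((upd_ne hml).trans (rd_inl g hm)).symm
    | app S =>
      refine Sim.app (L := Fin k) (n := α) (n' := Sum.elim α β) ?_ (ih hP')
      intro h z'
      funext m
      by_cases hm : m = i₀
      · subst hm
        refine (rd_self g).trans ?_
        by_cases hS : m ∈ S
        · refine Eq.trans ?_ (appS_mem hS).symm
          refine Eq.trans ?_ (congrArg (fun w => h ∘ w) (rd_self g).symm)
          funext x
          exact congrFun (appS_mem (n := Sum.elim α β) (z := z') (h := h) (l := Sum.inr (g x).1)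
            (show (Sum.inr (g x).1 : Fin k ⊕ Fin r) ∈
              {x | (∃ l ∈ S, x = Sum.inl l) ∨ (m ∈ S ∧ ∃ j, x = Sum.inr j)} from
              Or.inr ⟨hS, _, rfl⟩)) (g x).2
        · refine Eq.trans ?_ (appS_notMem hS).symm
          refine Eq.trans ?_ (rd_self g).symm
          funext x
          refine congrFun (appS_notMem (n := Sum.elim α β) (z := z') (h := h)
            (l := Sum.inr (g x).1) ?_) (g x).2
          rintro (⟨l, _, hl⟩ | ⟨h1, _⟩)
          · exact absurd hl (by simp)
          · exact hS h1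
      · refine (rd_inl g hm).trans ?_
        by_cases hS : m ∈ S
        · refine Eq.trans ?_ (appS_mem hS).symm
          refine Eq.trans ?_ (congrArg (fun w => h ∘ w) (rd_inl g hm).symm)
          exact appS_mem (l := Sum.inl m)
            (show (Sum.inl m : Fin k ⊕ Fin r) ∈
              {x | (∃ l ∈ S, x = Sum.inl l) ∨ (i₀ ∈ S ∧ ∃ j, x = Sum.inr j)} from
              Or.inl ⟨m, hS, rfl⟩)
        · refine Eq.trans ?_ (appS_notMem hS).symm
          refine Eq.trans ?_ (rd_inl g hm).symm
          refine appS_notMem (l := Sum.inl m) ?_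
          rintro (⟨l, h1, hl⟩ | ⟨_, _, hj⟩)
          · exact hS (Sum.inl.inj hl ▸ h1)
          · exact absurd hj (by simp)

/-- the leaf `inr j` stands for `j` -/
private def ptR : Partner β (Sum.elim α β)
  | Sum.inl _ => none
  | Sum.inr j => some ⟨j, id⟩

private theorem sim_lift (P : List (Instr (Fin r))) :
    Sim (V := V) (fun (z : St V (Sum.elim α β)) j => z (Sum.inr j)) (ptR (α := α) (β := β)) P
      (P.map (liftR k)) := by
  classical
  induction P with
  | nil => exact Sim.nil
  | cons i P ih =>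
    cases i with
    | choose j =>
      refine Sim.choose (L := Fin r) (l := j) (l' := Sum.inr j) (g := id) rfl ?_ ih
      intro z' y'
      funext m
      by_cases hm : m = j
      · subst hm
        exact (upd_self z' (Sum.inr m) y').trans
          (upd_self (fun j => z' (Sum.inr j)) m (y' ∘ id)).symm
      · exact (upd_ne (l' := Sum.inr m) (l := Sum.inr j) (by simpa using hm)).trans
          (upd_ne (z := fun j => z' (Sum.inr j)) hm).symm
    | app S =>
      refine Sim.app (L := Fin r) ?_ ih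
      intro h z'
      funext m
      by_cases hS : m ∈ S
      · exact (appS_mem (l := Sum.inr m) (show (Sum.inr m : Fin k ⊕ Fin r) ∈ Sum.inr '' S from
          ⟨m, hS, rfl⟩)).trans (appS_mem (z := fun j => z' (Sum.inr j)) hS).symm
      · refine (appS_notMem (l := Sum.inr m) ?_).trans
          (appS_notMem (z := fun j => z' (Sum.inr j)) hS).symm
        rintro ⟨m', h1, h2⟩
        exact hS (Sum.inr.inj h2 ▸ h1)

/-- the left coordinates do not move -/
private theorem tr_keep {u : Ultrafilter (V → V)}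
    {x : ∀ l : Fin k ⊕ Fin r, Ultrafilter (Fin (Sum.elim α β l) → V)} (P : List (Instr (Fin r)))
    (z : St V (Sum.elim α β)) :
    Tr u x (P.map (liftR k)) z {z' | ∀ l : Fin k, z' (Sum.inl l) = z (Sum.inl l)} := by
  classical
  induction P generalizing z with
  | nil => exact fun l => rfl
  | cons i P ih =>
    cases i with
    | choose j =>
      refine Filter.Eventually.of_forall fun y => ?_
      refine (ih (upd z (Sum.inr j) y)).mono ?_
      intro z' hz' l
      rw [hz' l, upd_ne (by simp)]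
    | app S =>
      refine Filter.Eventually.of_forall fun h => ?_
      refine (ih (appS (Sum.inr '' S) h z)).mono ?_
      intro z' hz' l
      rw [hz' l, appS_notMem]
      rintro ⟨m, _, hm⟩
      exact absurd hm (by simp)

private theorem inW_rd {T : TFam V} {i₀ : Fin k} (g : Fin (α i₀) → Σ j : Fin r, Fin (β j))
    {W : Set (St V α)} (hW : InW T W) :
    InW T (n := Sum.elim α β) (rd i₀ g ⁻¹' W) := by
  classical
  obtain ⟨N, G, W₀, hW₀, rfl⟩ := hW
  let G' : Fin N → Σ l : Fin k ⊕ Fin r, Fin (Sum.elim α β l) := fun i =>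
    if h : (G i).1 = i₀ then ⟨Sum.inr (g (h ▸ (G i).2)).1, (g (h ▸ (G i).2)).2⟩
    else ⟨Sum.inl (G i).1, (G i).2⟩
  refine ⟨N, G', W₀, hW₀, ?_⟩
  ext z
  have h1 : (fun i => rd i₀ g z (G i).1 (G i).2) = fun i => z (G' i).1 (G' i).2 := by
    funext i
    by_cases h : (G i).1 = i₀
    · have h2 : G' i = ⟨Sum.inr (g (h ▸ (G i).2)).1, (g (h ▸ (G i).2)).2⟩ := dif_pos h
      have h3 : z (G' i).1 (G' i).2 = z (Sum.inr (g (h ▸ (G i).2)).1) (g (h ▸ (G i).2)).2 := by
        rw [h2]
      refine Eq.trans ?_ h3.symm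
      clear h2 h3
      clear_value G'
      revert h
      obtain ⟨m, x⟩ := G i
      intro h
      have h' : m = i₀ := h
      subst h'
      exact congrFun (rd_self g) x
    · have h2 : G' i = ⟨Sum.inl (G i).1, (G i).2⟩ := dif_neg h
      have h3 : z (G' i).1 (G' i).2 = z (Sum.inl (G i).1) (G i).2 := by
        rw [h2]
      exact (congrFun (rd_inl g h) _).trans h3.symm
  show (fun i => rd i₀ g z (G i).1 (G i).2) ∈ W₀ ↔ (fun i => z (G' i).1 (G' i).2) ∈ W₀
  rw [h1]

private theorem lv_append' {L : Type} (P R : List (Instr L)) : lv (P ++ R) = lv P ∪ lv R := by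
  ext l
  simp [lv]

private theorem mem_lv_liftR {P : List (Instr (Fin r))} {j : Fin r} :
    (Sum.inr j : Fin k ⊕ Fin r) ∈ lv (P.map (liftR k)) ↔ j ∈ lv P := by
  constructor
  · intro h
    obtain ⟨i, hi, he⟩ := List.mem_map.1 (show Instr.choose (Sum.inr j) ∈ P.map (liftR k) from h)
    cases i with
    | choose l =>
      have h1 : Instr.choose (Sum.inr l : Fin k ⊕ Fin r) = Instr.choose (Sum.inr j) := he
      have h2 := Sum.inr.inj (Instr.choose.inj h1)
      subst h2
      exact hi
    | app S => exact absurd (show Instr.app (Sum.inr '' S : Set (Fin k ⊕ Fin r)) = _ from he) (by simp)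
  · intro h
    exact List.mem_map.2 ⟨Instr.choose j, h, rfl⟩

private theorem inl_notMem_liftR {P : List (Instr (Fin r))} {l : Fin k} :
    (Sum.inl l : Fin k ⊕ Fin r) ∉ lv (P.map (liftR k)) := by
  intro h
  obtain ⟨i, _, he⟩ := List.mem_map.1 (show Instr.choose (Sum.inl l) ∈ P.map (liftR k) from h)
  cases i with
  | choose j => exact absurd (show Instr.choose (Sum.inr j : Fin k ⊕ Fin r) = _ from he) (by simp)
  | app S => exact absurd (show Instr.app (Sum.inr '' S : Set (Fin k ⊕ Fin r)) = _ from he) (by simp)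

private theorem mem_lv_subI {i₀ : Fin k} {P : List (Instr (Fin k))} {l : Fin k} :
    (Sum.inl l : Fin k ⊕ Fin r) ∈ lv (P.map (subI r i₀)) ↔ l ∈ lv P := by
  constructor
  · intro h
    obtain ⟨i, hi, he⟩ := List.mem_map.1 (show Instr.choose (Sum.inl l) ∈ P.map (subI r i₀) from h)
    cases i with
    | choose l' =>
      have h1 : Instr.choose (Sum.inl l' : Fin k ⊕ Fin r) = Instr.choose (Sum.inl l) := he
      have h2 := Sum.inl.inj (Instr.choose.inj h1)
      subst h2
      exact hi
    | app S =>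
      exact absurd (show Instr.app ({x | (∃ l ∈ S, x = Sum.inl l) ∨ (i₀ ∈ S ∧ ∃ j, x = Sum.inr j)} :
        Set (Fin k ⊕ Fin r)) = _ from he) (by simp)
  · intro h
    exact List.mem_map.2 ⟨Instr.choose l, h, rfl⟩

private theorem inr_notMem_subI {i₀ : Fin k} {P : List (Instr (Fin k))} {j : Fin r} :
    (Sum.inr j : Fin k ⊕ Fin r) ∉ lv (P.map (subI r i₀)) := by
  intro h
  obtain ⟨i, _, he⟩ := List.mem_map.1 (show Instr.choose (Sum.inr j) ∈ P.map (subI r i₀) from h)
  cases i with
  | choose l => exact absurd (show Instr.choose (Sum.inl l : Fin k ⊕ Fin r) = _ from he) (by simp)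
  | app S =>
    exact absurd (show Instr.app ({x | (∃ l ∈ S, x = Sum.inl l) ∨ (i₀ ∈ S ∧ ∃ j, x = Sum.inr j)} :
      Set (Fin k ⊕ Fin r)) = _ from he) (by simp)

private theorem good_subI {i₀ : Fin k} {P : List (Instr (Fin k))} (h : Good P) :
    Good (P.map (subI r i₀)) := by
  induction P with
  | nil => exact trivial
  | cons i P ih =>
    cases i with
    | choose l => exact ⟨fun hl => h.1 (mem_lv_subI.1 hl), ih h.2⟩
    | app S => exact ih h

private theorem good_join {i₀ : Fin k} {P : List (Instr (Fin r))} {R : List (Instr (Fin k))}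
    (h : Good P) (hR : Good R) : Good (P.map (liftR k) ++ R.map (subI r i₀)) := by
  induction P with
  | nil => exact good_subI hR
  | cons i P ih =>
    cases i with
    | choose j =>
      refine ⟨?_, ih h.2⟩
      intro hj
      have hj' : (Sum.inr j : Fin k ⊕ Fin r) ∈ lv (P.map (liftR k) ++ R.map (subI r i₀)) := hj
      rw [lv_append'] at hj'
      rcases hj' with hj' | hj'
      · exact h.1 (mem_lv_liftR.1 hj')
      · exact inr_notMem_subI hj'
    | app S => exact ih h

private theorem good_right {L : Type} {P R : List (Instr L)} (h : Good (P ++ R)) : Good R := by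
  induction P with
  | nil => exact h
  | cons i P ih =>
    cases i with
    | choose l => exact ih h.2
    | app S => exact ih h

end Sims

/-- the core of (NS) -/
theorem ns_core {V : Type} {u : Ultrafilter (V → V)} (hu : Idem u) {T : TFam V}
    {BB : ∀ m : ℕ, Set (Set (Fin m → V))} (hBB : IsBB u T BB) {k : ℕ} {α : Fin k → ℕ}
    {P₁ P₂ : List (Instr (Fin k))} {i₀ : Fin k} (hG : Good (P₁ ++ Instr.choose i₀ :: P₂))
    {W : Set (St V α)} (hW : InW T W) {q₀ : Bx V α} (hq₀ : Fm BB q₀) {p : Ultrafilter (St V α)}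
    (h51 : ∀ᶠ z in (p : Filter (St V α)), F u (Instr.choose i₀ :: P₂) z q₀ W)
    {Λ : Type} {sz : Λ → ℕ} {v : ∀ a : Λ, Ultrafilter (Fin (sz a) → V)} (hpos : ∀ a, Pos u (v a))
    (hgs : GenStep u T BB sz v) (hgd : GenDec u T BB sz v k α p)
    {r : ℕ} {E : Fin r → Λ} (hE : Function.Injective E) {st : ∀ j : Fin r, Set (Fin (sz (E j)) → V)}
    (hst : ∀ j, st j ∈ BB (sz (E j))) (hstv : ∀ j, st j ∈ v (E j))
    {t' : Tm (Fin r)} (hnd : t'.lv.Nodup) (hall : ∀ j, j ∈ t'.lv)
    (g : Fin (α i₀) → Σ j : Fin r, Fin (sz (E j))) (z₁ : St V (fun j => sz (E j)))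
    (hTr : Tr u (fun j => v (E j)) (prog t') z₁ {f | (fun x => f (g x).1 (g x).2) ∈ q₀ i₀}) :
    ∃ q : Bx V (Sum.elim α (fun j => sz (E j))), Fm BB q ∧ (∀ l, q (Sum.inl l) ≤ q₀ l) ∧
      (∀ j, q (Sum.inr j) ≤ st j) ∧
      ∀ᶠ z in (p : Filter (St V α)),
        F u ((prog t').map (liftR k) ++ P₂.map (subI r i₀)) (jn z z₁) q (rd i₀ g ⁻¹' W) := by
  classical
  have hbox : ∀ m, ∀ b ∈ BB m, IsBox u b := hBB.box
  -- the position `y` of the image
  let y : Ultrafilter (Fin (α i₀) → V) :=
    (trU u (fun j => v (E j)) (prog t') z₁).map fun f x => f (g x).1 (g x).2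
  have hmemy : ∀ A : Set (Fin (α i₀) → V), A ∈ y ↔
      Tr u (fun j => v (E j)) (prog t') z₁ {f | (fun x => f (g x).1 (g x).2) ∈ A} :=
    fun A => Iff.rfl
  have hy : Pos u y := by
    intro A
    have h1 : Dep (V := V) (n := fun j => sz (E j)) {f | (fun x => f (g x).1 (g x).2) ∈ A}
        {j | j ∈ t'.lv} := by
      intro z z' hz
      have h2 : (fun x => z (g x).1 (g x).2) = fun x => z' (g x).1 (g x).2 := by
        funext x
        rw [hz _ (hall _)]
      show (fun x => z (g x).1 (g x).2) ∈ A ↔ (fun x => z' (g x).1 (g x).2) ∈ A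
      rw [h2]
    rw [hmemy, tr_pos hu (fun j => hpos (E j)) h1]
    exact Iff.rfl
  have hyq : q₀ i₀ ∈ y := (hmemy _).2 hTr
  have hG2 : Good (Instr.choose i₀ :: P₂) := good_right hG
  have hi₀ : i₀ ∉ lv P₂ := hG2.1
  have hGP₂ : Good P₂ := hG2.2
  -- (1): LEMMA C and the sign
  let p1 : Ultrafilter (St V α) := p.bind fun z => y.map (upd z i₀)
  obtain ⟨q1, hq1, hq1q, hs1⟩ := lemmaC hbox (hBB.closed₁ k α) hGP₂ hW p1 hq₀
  have h1 : ∀ᶠ z in (p : Filter (St V α)), ∀ᶠ w in (y : Filter (Fin (α i₀) → V)),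
      F u P₂ (upd z i₀ w) q1 W := by
    rcases hs1 with hs1 | hs1
    · exact hs1
    · exfalso
      have hs2 : ∀ᶠ z in (p : Filter (St V α)), ∀ᶠ w in (y : Filter (Fin (α i₀) → V)),
          F u P₂ (upd z i₀ w) q1 Wᶜ := hs1
      obtain ⟨z, hz1, hz2⟩ := (h51.and hs2).exists
      exact F_contra hu hi₀ (fun l => hbox _ _ (hq₀ l)) (fun l => hbox _ _ (hq1 l)) hy hyq hq1q
        hz1 hz2
  -- (2): decision over `p`
  let q' : Bx V (Sum.elim α (fun j => sz (E j))) := fun l => match l with
    | Sum.inl l => q1 l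
    | Sum.inr j => st j
  have hq' : Fm BB q' := by
    rintro (l | j)
    · exact hq1 l
    · exact hst j
  have hW' : InW T (n := Sum.elim α (fun j => sz (E j))) (rd i₀ g ⁻¹' W) := inW_rd g hW
  have hGood : Good ((prog t').map (liftR k) ++ P₂.map (subI r i₀)) :=
    good_join (good_prog hnd) hGP₂
  obtain ⟨q'', hq'', hqq, hv'', hs⟩ := hgd r E hE z₁ ((prog t').map (liftR k) ++
    P₂.map (subI r i₀)) q' (rd i₀ g ⁻¹' W) hW' hGood hq' hstv
  rcases hs with hs | hs
  · exact ⟨q'', hq'', fun l => (hqq (Sum.inl l)).trans (hq1q l), fun j => hqq (Sum.inr j), hs⟩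
  -- (3): the other sign is impossible
  exfalso
  obtain ⟨z, hz1, hz2⟩ := (h1.and hs).exists
  let x : ∀ l : Fin k ⊕ Fin r, Ultrafilter (Fin (Sum.elim α (fun j => sz (E j)) l) → V) :=
    fun l => match l with
      | Sum.inl l => (pure (z l) : Ultrafilter (Fin (α l) → V))
      | Sum.inr j => v (E j)
  have hP' : lv ((prog t').map (liftR k)) ⊆ Set.range Sum.inr := by
    rintro (l | j) hl
    · exact absurd hl inl_notMem_liftR
    · exact ⟨j, rfl⟩
  have h2 := lemmaM (x := x) hbox hgs hE (fun j => rfl) hP' hW'.compl hq'' hv'' hz2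
  apply h2
  rw [compl_compl]
  have h3 : Tr u x ((prog t').map (liftR k)) (jn z z₁)
      {z' | ∀ l : Fin k, z' (Sum.inl l) = (jn z z₁ : St V (Sum.elim α (fun j => sz (E j)))) (Sum.inl l)} :=
    tr_keep _ _
  have h4 : Tr u x ((prog t').map (liftR k)) (jn z z₁)
      ((fun (z : St V (Sum.elim α (fun j => sz (E j)))) j => z (Sum.inr j)) ⁻¹'
        {f | F u P₂ (upd z i₀ (fun x => f (g x).1 (g x).2)) q1 W}) := by
    refine (Tr_sim (sim_lift (prog t')) (x := fun j => v (E j)) ?_).2 ?_
    · intro l' l g' h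
      rcases l' with l' | j
      · exact absurd (show (none : Option (Σ l : Fin r, (Fin (sz (E l)) → Fin (Sum.elim α
          (fun j => sz (E j)) (Sum.inl l'))))) = some ⟨l, g'⟩ from h) (by simp)
      · have h5 : (some ⟨j, id⟩ : Option (Σ l : Fin r, (Fin (sz (E l)) → Fin (Sum.elim α
          (fun j => sz (E j)) (Sum.inr j))))) = some ⟨l, g'⟩ := h
        simp only [Option.some.injEq, Sigma.mk.injEq] at h5
        obtain ⟨rfl, h6⟩ := h5
        have h7 := eq_of_heq h6
        subst h7
        exact (Ultrafilter.map_id _).symm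
    · exact hz1
  refine (Tr.inter h3 h4).mono ?_
  rintro z' ⟨h5, h6⟩
  have h7 : rd i₀ g z' = upd z i₀ (fun x => z' (Sum.inr (g x).1) (g x).2) := by
    have h8 : (fun l => z' (Sum.inl l) : St V α) = z := by
      funext l
      exact h5 l
    show upd (fun l => z' (Sum.inl l)) i₀ _ = _
    rw [h8]
    rfl
  have h8 : F u P₂ (rd i₀ g z') q1 W := by
    rw [h7]
    exact h6
  have h9 := F_pull (ptL_inj i₀) (sim_sub g P₂ hi₀) (fun l => hbox _ _ (hq1 l))
    (fun l => hbox _ _ (hq' l)) ?_ h8
  · exact h9.mono hqq subset_rfl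
  · intro l' l g' h y' hy'
    obtain ⟨rfl, h10⟩ := ptL_eq h
    have h11 := eq_of_heq h10
    subst h11
    exact hy'


end Pool.MP4fb322AA
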