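import Pool.Agent.Lib.MP_4fb322_lc_h71.Defs3
import Pool.Agent.Lib.MP_4fb322_lc_h71.B1
import Pool.Agent.Lib.MP_4fb322_lc_h71.B10

set_option autoImplicit false

/-! Row B8 (MP_4fb322_lc, all arities, positions). -/

namespace Pool.MP4fb322AA

open Filter
open Pool.Agent.Lib.MP_4fb322_lc_q (Tm Sub HasEq FinTy Nip Mv)

private theorem simAppend {V L L' : Type} {n : L → ℕ} {n' : L' → ℕ} {π : St V n' → St V n} {pt : Partner n n'}
    {P Q : List (Instr L)} {P' Q' : List (Instr L')} (h : Sim π pt P P') (h' : Sim π pt Q Q') :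
    Sim π pt (P ++ Q) (P' ++ Q') := by
  induction h with
  | nil => exact h'
  | choose h hπ _ ih => exact Sim.choose h hπ ih
  | app hπ _ ih => exact Sim.app hπ ih

private theorem lvMap {L L' : Type} (f : L → L') (t : Tm L) : (t.map f).lv = t.lv.map f := by
  induction t with
  | leaf a => rfl
  | node s t hs ht => simp only [Tm.map, Tm.lv, hs, ht, List.map_append]

private theorem lvSubst {L L' : Type} (f : L → Tm L') (t : Tm L) :
    (t.subst f).lv = t.lv.flatMap (fun l => (f l).lv) := by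
  induction t with
  | leaf a => simp only [Tm.subst, Tm.lv, List.flatMap_cons, List.flatMap_nil, List.append_nil]
  | node s t hs ht => simp only [Tm.subst, Tm.lv, hs, ht, List.flatMap_append]

/-! ### change of the set of leaves -/

private theorem simReindex {V L : Type} {n : L → ℕ} {k : ℕ} (e : Fin k ≃ L) (t : Tm L) :
    Sim (V := V) (n := fun j : Fin k => n (e j)) (n' := n) (fun z' j => z' (e j))
      (fun l => some ⟨e.symm l, Fin.cast (congrArg n (e.apply_symm_apply l))⟩)
      (prog (t.map e.symm)) (prog t) := by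
  classical
  induction t with
  | leaf l =>
      refine Sim.choose rfl ?_ Sim.nil
      intro z' y'
      funext j
      by_cases hj : j = e.symm l
      · subst hj
        rw [upd_self]
        have key : ∀ l' (h : l' = l), upd z' l y' l' = y' ∘ Fin.cast (congrArg n h) := by
          intro l' h
          subst h
          rw [upd_self]
          rfl
        exact key _ (e.apply_symm_apply l)
      · rw [upd_ne hj, upd_ne]
        intro h
        exact hj (by rw [← h, e.symm_apply_apply])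
  | node s t hs ht =>
      refine simAppend (simAppend hs ht) (Sim.app ?_ Sim.nil)
      intro h z'
      funext j
      have key : (e j ∈ s.lv ∨ e j ∈ t.lv) ↔ (j ∈ (s.map e.symm).lv ∨ j ∈ (t.map e.symm).lv) := by
        rw [lvMap, lvMap]
        simp only [List.mem_map]
        constructor
        · rintro (h | h)
          · exact Or.inl ⟨_, h, e.symm_apply_apply j⟩
          · exact Or.inr ⟨_, h, e.symm_apply_apply j⟩
        · rintro (⟨a, h, rfl⟩ | ⟨a, h, rfl⟩)
          · exact Or.inl (by rwa [e.apply_symm_apply])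
          · exact Or.inr (by rwa [e.apply_symm_apply])
      by_cases hj : e j ∈ s.lv ∨ e j ∈ t.lv
      · have hj' := key.1 hj
        simp only [appS]
        rw [if_pos (show e j ∈ {l | l ∈ s.lv ∨ l ∈ t.lv} from hj),
          if_pos (show j ∈ {l | l ∈ (s.map e.symm).lv ∨ l ∈ (t.map e.symm).lv} from hj')]
      · have hj' := fun h => hj (key.2 h)
        simp only [appS]
        rw [if_neg (show e j ∉ {l | l ∈ s.lv ∨ l ∈ t.lv} from hj),
          if_neg (show j ∉ {l | l ∈ (s.map e.symm).lv ∨ l ∈ (t.map e.symm).lv} from hj')]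

section

variable {I : Type} {ar : I → ℕ} {V : Type} {M : Str ar V} {u : Ultrafilter (V → V)} {N : ℕ}
  {A : Str ar (Fin N)} {Pn : Fin N → Option V}

private theorem dcpReindex {L : Type} {n : L → ℕ} (D : Dcp u M A Pn L n) {k : ℕ} (e : Fin k ≃ L) :
    Nonempty (Dcp u M A Pn (Fin k) (fun j => n (e j))) := by
  obtain ⟨E, hE⟩ : ∃ E : (Σ j : Fin k, Fin (n (e j))) ≃ (Σ l : L, Fin (n l)),
      ∀ s, E s = ⟨e s.1, s.2⟩ := ⟨Equiv.sigmaCongrLeft (β := fun l => Fin (n l)) e, fun _ => rfl⟩
  have hcp : ∀ i p, Sum.map id E.symm (D.c i) = Sum.inl p ↔ D.c i = Sum.inl p := by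
    intro i p
    cases D.c i <;> simp
  have hcr : ∀ i s, Sum.map id E.symm (D.c i) = Sum.inr s ↔ D.c i = Sum.inr (E s) := by
    intro i s
    cases D.c i with
    | inl p => simp
    | inr q =>
        simp only [Sum.map_inr, Sum.inr.injEq]
        exact E.symm_apply_eq
  have hz : ∃ z' : St V n, True := ⟨fun l => (D.box l).1.choose, trivial⟩
  obtain ⟨z', -⟩ := hz
  refine ⟨⟨D.t.map e.symm, ?_, ?_, fun i => Sum.map id E.symm (D.c i), ?_, ?_, fun j => D.b (e j), fun j => D.box _,
    fun j => D.npin _, ?_⟩⟩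
  · rw [lvMap]
    exact D.nodup.map e.symm.injective
  · intro j
    rw [lvMap]
    exact List.mem_map.2 ⟨e j, D.mem _, e.symm_apply_apply j⟩
  · intro i p
    rw [hcp, D.cpin]
  · intro s
    obtain ⟨i, hi, hu⟩ := D.cbij (E s)
    exact ⟨i, (hcr i s).2 hi, fun i' hi' => hu i' ((hcr i' s).1 hi')⟩
  · intro z₀
    have h1 := D.force z'
    have h2 : (fun z' : St V n => (fun j : Fin k => z' (e j))) ⁻¹'
        {z : St V (fun j : Fin k => n (e j)) | pl (fun i => evc z (Sum.map id E.symm (D.c i))) M = A} =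
        {z : St V n | pl (fun i => evc z (D.c i)) M = A} := by
      ext z
      have : (fun i => evc (fun j : Fin k => z (e j)) (Sum.map id E.symm (D.c i))) = fun i => evc z (D.c i) := by
        funext i
        cases hc : D.c i with
        | inl p => rfl
        | inr s =>
            have h3 : evc (fun j : Fin k => z (e j)) (Sum.inr (E.symm s)) = evc z (Sum.inr (E (E.symm s))) := by
              rw [hE]
              rfl
            rw [E.apply_symm_apply] at h3
            exact h3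
      simp only [Set.mem_preimage, Set.mem_ofPred_eq]
      rw [this]
    rw [← h2] at h1
    have h3 := F_push (q := fun j : Fin k => D.b (e j)) ?_ (simReindex e D.t) (fun j => D.box _) D.box ?_ h1
    · refine h3.congr_state (fun l hl => ?_)
      exfalso
      apply hl
      rw [lv_prog, Set.mem_ofPred_eq, lvMap]
      exact List.mem_map.2 ⟨e l, D.mem _, e.symm_apply_apply l⟩
    · intro l₁ l₂ l g₁ g₂ h₁ h₂
      have e1 := congrArg Sigma.fst (Option.some.inj h₁)
      have e2 := congrArg Sigma.fst (Option.some.inj h₂)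
      exact e.symm.injective (e1.trans e2.symm)
    · intro l' l g h y hy
      have h4 := Option.some.inj h
      obtain ⟨rfl, h5⟩ := Sigma.mk.inj_iff.1 h4
      have h6 := eq_of_heq h5
      subst h6
      have key : ∀ l₁ l₂ (h : l₁ = l₂) (w : Fin (n l₁) → V), w ∈ D.b l₁ →
          ∃ y' ∈ D.b l₂, y' ∘ Fin.cast (congrArg n h) = w := by
        intro l₁ l₂ h w hw
        subst h
        exact ⟨w, hw, rfl⟩
      exact key _ _ (e.apply_symm_apply l') y hy

private theorem dcpCard {k : ℕ} {α : Fin k → ℕ} (D : Dcp u M A Pn (Fin k) α) (hα : ∀ l, 0 < α l) : k ≤ N := by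
  have h : ∀ l : Fin k, ∃ i, D.c i = Sum.inr ⟨l, ⟨0, hα l⟩⟩ := fun l => (D.cbij _).exists
  choose φ hφ using h
  have hinj : Function.Injective φ := by
    intro l l' hl
    have h1 := hφ l
    rw [hl, hφ l'] at h1
    have h2 := congrArg Sigma.fst (Sum.inr.inj h1)
    exact h2.symm
  simpa using Fintype.card_le_of_injective φ hinj

end

/-- almost all `h` preserve the type of a tuple -/
private theorem ge_pull {I : Type} {ar : I → ℕ} {V : Type} {M : Str ar V} {u : Ultrafilter (V → V)}
    (hg : GE M u) {N : ℕ} (f : Fin N → V) : ∀ᶠ h in (u : Filter (V → V)), pl (h ∘ f) M = pl f M := by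
  filter_upwards [hg (Set.range f) (Set.finite_range f)] with h hh
  funext i
  ext t
  exact hh i (f ∘ t) (fun k => ⟨t k, rfl⟩)

private theorem ge_inj {I : Type} {ar : I → ℕ} {V : Type} {M : Str ar V} (hEq : HasEq M)
    {u : Ultrafilter (V → V)} (hg : GE M u) {N : ℕ} {f : Fin N → V} (hf : Function.Injective f) :
    ∀ᶠ h in (u : Filter (V → V)), Function.Injective (h ∘ f) := by
  classical
  obtain ⟨i, a, b, hab, hM⟩ := hEq
  filter_upwards [hg (Set.range f) (Set.finite_range f)] with h hh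
  intro x y hxy
  have h1 := hh i (fun j => if j = a then f x else f y) (fun k => by
    by_cases hk : k = a
    · exact ⟨x, by simp [hk]⟩
    · exact ⟨y, by simp [hk]⟩)
  rw [hM, hM] at h1
  simp only [Function.comp, if_true, if_neg (Ne.symm hab)] at h1
  exact hf (h1.1 hxy)

private theorem exists_one {I : Type} {ar : I → ℕ} {V : Type} {M : Str ar V} (hEq : HasEq M)
    {u : Ultrafilter (V → V)} (hg : GE M u) (hu : Idem u) {N : ℕ} (A : Str ar (Fin N))
    (hA : ∃ f : Fin N → V, Function.Injective f ∧ pl f M = A) :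
    ∃ Pn : Fin N → Option V, (∀ i p, Pn i = some p → p ∈ Pin u) ∧
      ∃ α : Fin 1 → ℕ, Nonempty (Dcp u M A Pn (Fin 1) α) := by
  classical
  obtain ⟨μ, hμ⟩ : ∃ μ : (Fin N → V) → ℕ, μ = fun f => (Finset.univ.filter fun i => f i ∈ Pin u).card := ⟨_, rfl⟩
  have hμN : ∀ f, μ f ≤ N := by
    intro f
    rw [hμ]
    refine (Finset.card_le_univ _).trans ?_
    simp
  -- an embedding with the maximal number of pins
  obtain ⟨f, hf, hfA, hmax⟩ : ∃ f : Fin N → V, Function.Injective f ∧ pl f M = A ∧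
      ∀ g : Fin N → V, Function.Injective g → pl g M = A → μ g ≤ μ f := by
    obtain ⟨f₀, hf₀, hf₀A⟩ := hA
    have hne : (μ '' {f | Function.Injective f ∧ pl f M = A}).Nonempty := ⟨_, f₀, ⟨hf₀, hf₀A⟩, rfl⟩
    have hbd : BddAbove (μ '' {f | Function.Injective f ∧ pl f M = A}) := by
      refine ⟨N, ?_⟩
      rintro _ ⟨f, -, rfl⟩
      exact hμN f
    obtain ⟨f, ⟨hf, hfA⟩, hfm⟩ := Nat.sSup_mem hne hbd
    refine ⟨f, hf, hfA, fun g hg hgA => ?_⟩
    rw [hfm]
    exact le_csSup hbd ⟨g, ⟨hg, hgA⟩, rfl⟩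
  have h1 : ∀ᶠ h in (u : Filter (V → V)), pl (h ∘ f) M = A := by
    filter_upwards [ge_pull hg f] with h hh
    rw [hh, hfA]
  have h2 := ge_inj hEq hg hf
  have h3 : ∀ᶠ h in (u : Filter (V → V)), ∀ i, f i ∈ Pin u → h (f i) = f i := by
    rw [Filter.eventually_all]
    intro i
    by_cases hi : f i ∈ Pin u
    · filter_upwards [show ∀ᶠ h in (u : Filter (V → V)), h (f i) = f i from hi] with h hh _
      exact hh
    · exact Filter.Eventually.of_forall (fun h hh => absurd hh hi)
  have h4 : ∀ᶠ h in (u : Filter (V → V)), ∀ i, f i ∉ Pin u → h (f i) ∉ Pin u := by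
    by_contra hcon
    rw [Filter.not_eventually, Ultrafilter.frequently_iff_eventually] at hcon
    obtain ⟨h, ⟨⟨ha, hb⟩, hc⟩, hd⟩ := (((h1.and h2).and h3).and hcon).exists
    push Not at hd
    obtain ⟨i, hi, hi'⟩ := hd
    have h5 := hmax (h ∘ f) hb ha
    have h6 : μ f < μ (h ∘ f) := by
      rw [hμ]
      apply Finset.card_lt_card
      rw [Finset.ssubset_iff_of_subset]
      · exact ⟨i, by simpa using hi', by simpa using hi⟩
      · intro j hj
        rw [Finset.mem_filter] at hj ⊢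
        refine ⟨Finset.mem_univ _, ?_⟩
        have := hc j hj.2
        simp only [Function.comp]
        rw [this]
        exact hj.2
    omega
  -- the coordinates
  obtain ⟨m, ⟨e⟩⟩ : ∃ m, Nonempty ({i // f i ∉ Pin u} ≃ Fin m) := ⟨_, ⟨Fintype.equivFin _⟩⟩
  obtain ⟨c, hc1, hc2⟩ : ∃ c : Fin N → V ⊕ (Σ l : Fin 1, Fin m), (∀ i, f i ∈ Pin u → c i = Sum.inl (f i)) ∧
      ∀ i (h : f i ∉ Pin u), c i = Sum.inr ⟨0, e ⟨i, h⟩⟩ := by
    refine ⟨fun i => if h : f i ∈ Pin u then Sum.inl (f i) else Sum.inr ⟨0, e ⟨i, h⟩⟩, ?_, ?_⟩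
    · intro i h
      simp [h]
    · intro i h
      simp [h]
  obtain ⟨y₀, hy₀⟩ : ∃ y₀ : Fin m → V, y₀ = fun x => f (e.symm x).1 := ⟨_, rfl⟩
  have hev : ∀ (h : V → V), (∀ i, f i ∈ Pin u → h (f i) = f i) →
      (fun i => evc (L := Fin 1) (n := fun _ => m) (fun _ => h ∘ y₀) (c i)) = h ∘ f := by
    intro h hh
    funext i
    by_cases hi : f i ∈ Pin u
    · rw [hc1 i hi]
      simp only [evc, Function.comp]
      exact (hh i hi).symm
    · rw [hc2 i hi, hy₀]
      simp [evc]
  obtain ⟨B, hB⟩ : ∃ B : Set (Fin m → V), B = {y | (∀ x, y x ∉ Pin u) ∧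
      pl (fun i => evc (L := Fin 1) (n := fun _ => m) (fun _ => y) (c i)) M = A} := ⟨_, rfl⟩
  have hBev : ∀ᶠ h in (u : Filter (V → V)), h ∘ y₀ ∈ B := by
    filter_upwards [h1, h3, h4] with h ha hb hc
    rw [hB]
    refine ⟨fun x => ?_, ?_⟩
    · rw [hy₀]
      exact hc _ (e.symm x).2
    · rw [hev h hb]
      exact ha
  have hB0 : y₀ ∈ B := by
    rw [hB]
    refine ⟨fun x => ?_, ?_⟩
    · rw [hy₀]
      exact (e.symm x).2
    · have := hev id (fun i _ => rfl)
      simp only [Function.id_comp] at this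
      rw [this]
      exact hfA
  have hbox : IsBox u (inter u B) := isBox_inter hu ⟨y₀, hB0, hBev⟩
  refine ⟨fun i => if f i ∈ Pin u then some (f i) else none, ?_, fun _ => m, ⟨⟨Tm.leaf 0, ?_, ?_, c, ?_, ?_,
    fun _ => inter u B, fun _ => hbox, ?_, ?_⟩⟩⟩
  · intro i p hp
    by_cases hi : f i ∈ Pin u
    · simp only [if_pos hi] at hp
      rw [← Option.some.inj hp]
      exact hi
    · simp [if_neg hi] at hp
  · simp [Tm.lv]
  · intro l
    rw [Subsingleton.elim l 0]
    simp [Tm.lv]
  · intro i p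
    by_cases hi : f i ∈ Pin u
    · rw [hc1 i hi]
      simp [if_pos hi]
    · rw [hc2 i hi]
      simp [if_neg hi]
  · rintro ⟨l, x⟩
    have hl : l = 0 := Subsingleton.elim _ _
    subst hl
    refine ⟨(e.symm x).1, ?_, ?_⟩
    · simp only
      rw [hc2 _ (e.symm x).2]
      simp
    · intro i hi
      by_cases hp : f i ∈ Pin u
      · rw [hc1 i hp] at hi
        simp at hi
      · rw [hc2 i hp] at hi
        have h5 : e ⟨i, hp⟩ = x := by simpa using hi
        rw [← h5]
        simp
  · intro l y hy x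
    have := inter_subset B hy
    rw [hB] at this
    exact this.1 x
  · intro z₀
    apply F.of_step
    intro y hy
    have h5 := inter_subset B hy
    rw [hB] at h5
    have h6 : upd (n := fun _ : Fin 1 => m) z₀ 0 y = fun _ => y := by
      funext l
      rw [Subsingleton.elim l 0, upd_self]
    show upd z₀ 0 y ∈ _
    rw [h6]
    exact h5.2

/-- existence of a decomposition with the maximal number of leaves -/
theorem exists_dcp {I : Type} {ar : I → ℕ} {V : Type} [Countable V] {M : Str ar V} (hEq : HasEq M)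
    {u : Ultrafilter (V → V)} (hu : Gen M u) {N : ℕ} (A : Str ar (Fin N))
    (hA : ∃ f : Fin N → V, Function.Injective f ∧ pl f M = A) :
    ∃ Pn : Fin N → Option V, (∀ i p, Pn i = some p → p ∈ Pin u) ∧
      ∃ (k : ℕ) (α : Fin k → ℕ), Nonempty (Dcp u M A Pn (Fin k) α) ∧ ((∀ l, 0 < α l) ∨ k = 1) ∧
        ∀ (L : Type) (_ : Finite L) (n : L → ℕ), (∀ l, 0 < n l) → Nonempty (Dcp u M A Pn L n) →
          Nat.card L ≤ k := by
  classical
  obtain ⟨Pn, hPn, α₁, ⟨D₁⟩⟩ := exists_one hEq hu.emb hu.idem A hA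
  refine ⟨Pn, hPn, ?_⟩
  obtain ⟨SS, hSS⟩ : ∃ SS : Set ℕ, SS = {k | ∃ α : Fin k → ℕ, (∀ l, 0 < α l) ∧
    Nonempty (Dcp u M A Pn (Fin k) α)} := ⟨_, rfl⟩
  have hbd : BddAbove SS := by
    refine ⟨N, ?_⟩
    intro k hk
    rw [hSS] at hk
    obtain ⟨α, hα, ⟨D⟩⟩ := hk
    exact dcpCard D hα
  have hL : ∀ (L : Type) (_ : Finite L) (n : L → ℕ), (∀ l, 0 < n l) → Nonempty (Dcp u M A Pn L n) →
      Nat.card L ∈ SS := by
    intro L hfin n hn ⟨D⟩
    rw [hSS]
    exact ⟨_, fun l => hn _, dcpReindex D (Finite.equivFin L).symm⟩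
  rcases Set.eq_empty_or_nonempty SS with hempty | hne
  · refine ⟨1, α₁, ⟨D₁⟩, Or.inr rfl, ?_⟩
    intro L hfin n hn hD
    have := hL L hfin n hn hD
    rw [hempty] at this
    exact absurd this (Set.notMem_empty _)
  · have hmem := Nat.sSup_mem hne hbd
    obtain ⟨k, hk⟩ : ∃ k, k = sSup SS := ⟨_, rfl⟩
    have hmax : ∀ j ∈ SS, j ≤ k := by
      intro j hj
      rw [hk]
      exact le_csSup hbd hj
    rw [← hk, hSS] at hmem
    obtain ⟨α, hα, hD⟩ := hmem
    exact ⟨k, α, hD, Or.inl hα, fun L hfin n hn hD => hmax _ (hL L hfin n hn hD)⟩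

/-! ### refinement -/

/-- the translation of an instruction under a substitution -/
private def trI {K L : Type} (σ : K → Tm L) : Instr K → List (Instr L)
  | Instr.choose l => prog (σ l)
  | Instr.app S => [Instr.app {x | ∃ l ∈ S, x ∈ (σ l).lv}]

private theorem prog_subst {K L : Type} (σ : K → Tm L) (t : Tm K) : prog (t.subst σ) = (prog t).flatMap (trI σ) := by
  induction t with
  | leaf a => simp [Tm.subst, prog, trI]
  | node s t hs ht =>
      have h1 : {l | l ∈ (s.subst σ).lv ∨ l ∈ (t.subst σ).lv} =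
          {x | ∃ l ∈ {l | l ∈ s.lv ∨ l ∈ t.lv}, x ∈ (σ l).lv} := by
        ext x
        rw [lvSubst, lvSubst]
        simp only [List.mem_flatMap, Set.mem_ofPred_eq]
        constructor
        · rintro (⟨a, h, h'⟩ | ⟨a, h, h'⟩)
          · exact ⟨a, Or.inl h, h'⟩
          · exact ⟨a, Or.inr h, h'⟩
        · rintro ⟨a, h | h, h'⟩
          · exact Or.inl ⟨a, h, h'⟩
          · exact Or.inr ⟨a, h, h'⟩
      simp only [Tm.subst, prog, List.flatMap_append, hs, ht, h1, List.flatMap_cons, List.flatMap_nil, trI,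
        List.append_nil]

private theorem good_split {K : Type} {P₁ P₂ : List (Instr K)} {i₀ : K} (h : Good (P₁ ++ Instr.choose i₀ :: P₂)) :
    i₀ ∉ lv P₁ ∧ i₀ ∉ lv P₂ := by
  induction P₁ with
  | nil => exact ⟨fun h => by simp [lv] at h, h.1⟩
  | cons i P ih =>
      cases i with
      | choose l =>
          obtain ⟨h1, h2⟩ := h
          obtain ⟨h3, h4⟩ := ih h2
          refine ⟨?_, h4⟩
          intro h5
          rcases List.mem_cons.1 h5 with h6 | h6
          · have : i₀ = l := by simpa using h6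
            subst this
            apply h1
            simp [lv]
          · exact h3 h6
      | app S =>
          obtain ⟨h3, h4⟩ := ih h
          refine ⟨?_, h4⟩
          intro h5
          rcases List.mem_cons.1 h5 with h6 | h6
          · simp at h6
          · exact h3 h6

section Refine

variable {V : Type} {k : ℕ} {α : Fin k → ℕ} {r : ℕ} {β : Fin r → ℕ} {i₀ : Fin k}

/-- the new leaves -/
private abbrev NL (r : ℕ) (i₀ : Fin k) : Type := {l : Fin k // l ≠ i₀} ⊕ Fin r

private abbrev nn (α : Fin k → ℕ) (i₀ : Fin k) (m : Fin r → ℕ) : NL r i₀ → ℕ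
  | Sum.inl l => α l.1
  | Sum.inr j => m j

open Classical in
/-- the substitution -/
private noncomputable def sig (i₀ : Fin k) (t' : Tm (Fin r)) (l : Fin k) : Tm (NL r i₀) :=
  if h : l = i₀ then t'.map Sum.inr else Tm.leaf (Sum.inl ⟨l, h⟩)

/-- the projection of states -/
private def prj {m : Fin r → ℕ} (γ : ∀ j, Fin (m j) → Fin (β j)) (z' : St V (Sum.elim α β)) :
    St V (nn α i₀ m)
  | Sum.inl l => z' (Sum.inl l.1)
  | Sum.inr j => fun y => z' (Sum.inr j) (γ j y)

open Classical in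
private noncomputable def ptn (i₀ : Fin k) {m : Fin r → ℕ} (γ : ∀ j, Fin (m j) → Fin (β j)) :
    Partner (nn α i₀ m) (Sum.elim α β)
  | Sum.inl l => if h : l = i₀ then none else some ⟨Sum.inl ⟨l, h⟩, id⟩
  | Sum.inr j => some ⟨Sum.inr j, γ j⟩

private theorem prj_updL {m : Fin r → ℕ} {γ : ∀ j, Fin (m j) → Fin (β j)} {l : Fin k} (hl : l ≠ i₀)
    (z' : St V (Sum.elim α β)) (y' : Fin (α l) → V) :
    prj (i₀ := i₀) γ (upd z' (Sum.inl l) y') = upd (prj (i₀ := i₀) γ z') (Sum.inl ⟨l, hl⟩) (y' ∘ id) := by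
  funext x
  rcases x with x | j
  · by_cases hx : x = ⟨l, hl⟩
    · subst hx
      rw [upd_self]
      simp [prj]
    · rw [upd_ne (fun h => hx (Sum.inl.inj h))]
      have : x.1 ≠ l := fun h => hx (Subtype.ext h)
      simp only [prj]
      rw [upd_ne (fun h => this (Sum.inl.inj h))]
  · refine Eq.trans ?_ (upd_ne (z := prj (i₀ := i₀) γ z') (l := Sum.inl ⟨l, hl⟩) (l' := Sum.inr j) Sum.inr_ne_inl).symm
    have e1 : upd z' (Sum.inl l) y' (Sum.inr j) = z' (Sum.inr j) := upd_ne Sum.inr_ne_inl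
    show (fun y => upd z' (Sum.inl l) y' (Sum.inr j) (γ j y)) = fun y => z' (Sum.inr j) (γ j y)
    rw [e1]

private theorem prj_updR {m : Fin r → ℕ} {γ : ∀ j, Fin (m j) → Fin (β j)} (j : Fin r)
    (z' : St V (Sum.elim α β)) (y' : Fin (β j) → V) :
    prj (i₀ := i₀) γ (upd z' (Sum.inr j) y') = upd (prj (i₀ := i₀) γ z') (Sum.inr j) (y' ∘ γ j) := by
  funext x
  rcases x with x | j'
  · refine Eq.trans ?_ (upd_ne (z := prj (i₀ := i₀) γ z') (l := Sum.inr j) (l' := Sum.inl x) Sum.inl_ne_inr).symm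
    have e1 : upd z' (Sum.inr j) y' (Sum.inl x.1) = z' (Sum.inl x.1) := upd_ne Sum.inl_ne_inr
    show upd z' (Sum.inr j) y' (Sum.inl x.1) = z' (Sum.inl x.1)
    exact e1
  · by_cases hx : j' = j
    · subst hx
      rw [upd_self]
      simp only [prj]
      rw [upd_self]
      rfl
    · rw [upd_ne (fun h => hx (Sum.inr.inj h))]
      simp only [prj]
      rw [upd_ne (fun h => hx (Sum.inr.inj h))]

private theorem prj_app {m : Fin r → ℕ} {γ : ∀ j, Fin (m j) → Fin (β j)} {S' : Set (Fin k ⊕ Fin r)}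
    {S : Set (NL r i₀)} (hl : ∀ l : {l : Fin k // l ≠ i₀}, Sum.inl l.1 ∈ S' ↔ Sum.inl l ∈ S)
    (hr : ∀ j : Fin r, Sum.inr j ∈ S' ↔ Sum.inr j ∈ S) (h : V → V) (z' : St V (Sum.elim α β)) :
    prj (i₀ := i₀) γ (appS S' h z') = appS S h (prj (i₀ := i₀) γ z') := by
  classical
  funext x
  rcases x with x | j
  · by_cases hx : Sum.inl x.1 ∈ S'
    · simp only [prj, appS]
      rw [if_pos hx, if_pos ((hl x).1 hx)]
      rfl
    · simp only [prj, appS]
      rw [if_neg hx, if_neg (fun h => hx ((hl x).2 h))]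
  · by_cases hx : Sum.inr j ∈ S'
    · simp only [prj, appS]
      rw [if_pos hx, if_pos ((hr j).1 hx)]
      rfl
    · simp only [prj, appS]
      rw [if_neg hx, if_neg (fun h => hx ((hr j).2 h))]

private theorem mem_sig {t' : Tm (Fin r)} (hall : ∀ j, j ∈ t'.lv) {l : Fin k} {x : NL r i₀} :
    x ∈ (sig i₀ t' l).lv ↔ (∃ h : l ≠ i₀, x = Sum.inl ⟨l, h⟩) ∨ (l = i₀ ∧ ∃ j, x = Sum.inr j) := by
  unfold sig
  by_cases hl : l = i₀
  · rw [dif_pos hl, lvMap]
    simp only [List.mem_map]
    constructor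
    · rintro ⟨j, -, rfl⟩
      exact Or.inr ⟨hl, j, rfl⟩
    · rintro (⟨h, -⟩ | ⟨-, j, rfl⟩)
      · exact absurd hl h
      · exact ⟨j, hall j, rfl⟩
  · rw [dif_neg hl]
    simp only [Tm.lv, List.mem_singleton]
    constructor
    · rintro rfl
      exact Or.inl ⟨hl, rfl⟩
    · rintro (⟨h, rfl⟩ | ⟨h, -⟩)
      · rfl
      · exact absurd h hl

private theorem simSub {m : Fin r → ℕ} {γ : ∀ j, Fin (m j) → Fin (β j)} {t' : Tm (Fin r)}
    (hall : ∀ j, j ∈ t'.lv) {P : List (Instr (Fin k))} (hP : i₀ ∉ lv P) :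
    Sim (V := V) (prj (i₀ := i₀) γ) (ptn (α := α) i₀ γ) (P.flatMap (trI (sig i₀ t'))) (P.map (subI r i₀)) := by
  classical
  induction P with
  | nil => exact Sim.nil
  | cons i P ih =>
      have ih' := ih (fun h => hP (List.mem_cons_of_mem _ h))
      rw [List.flatMap_cons, List.map_cons]
      cases i with
      | choose l =>
          have hl : l ≠ i₀ := by
            rintro rfl
            exact hP List.mem_cons_self
          have h1 : trI (sig i₀ t') (Instr.choose l) = [Instr.choose (Sum.inl ⟨l, hl⟩)] := by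
            simp only [trI, sig]
            rw [dif_neg hl]
            rfl
          rw [h1]
          have h2 : ptn (α := α) i₀ γ (Sum.inl l) = some ⟨Sum.inl ⟨l, hl⟩, id⟩ := by
            simp only [ptn]
            rw [dif_neg hl]
          exact Sim.choose h2 (fun z' y' => prj_updL hl z' y') ih'
      | app S =>
          refine Sim.app (fun h z' => prj_app ?_ ?_ h z') ih'
          · intro l
            simp only [Set.mem_ofPred_eq, mem_sig hall]
            constructor
            · rintro (⟨l', h1, h2⟩ | ⟨-, j, h2⟩)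
              · have h3 : l.1 = l' := Sum.inl.inj h2
                subst h3
                exact ⟨l.1, h1, Or.inl ⟨l.2, rfl⟩⟩
              · exact nomatch h2
            · rintro ⟨l', h1, ⟨h2, h3⟩ | ⟨-, j, h3⟩⟩
              · have h4 := Sum.inl.inj h3
                left
                exact ⟨l', h1, by rw [h4]⟩
              · exact nomatch h3
          · intro j
            simp only [Set.mem_ofPred_eq, mem_sig hall]
            constructor
            · rintro (⟨l', -, h2⟩ | ⟨h1, -, -⟩)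
              · exact nomatch h2
              · exact ⟨i₀, h1, Or.inr ⟨rfl, j, rfl⟩⟩
            · rintro ⟨l', h1, ⟨h2, h3⟩ | ⟨h2, -⟩⟩
              · exact nomatch h3
              · subst h2
                exact Or.inr ⟨h1, j, rfl⟩

private theorem simR {m : Fin r → ℕ} {γ : ∀ j, Fin (m j) → Fin (β j)} (t' : Tm (Fin r)) :
    Sim (V := V) (prj (i₀ := i₀) γ) (ptn (α := α) i₀ γ) (prog (t'.map Sum.inr)) ((prog t').map (liftR k)) := by
  classical
  induction t' with
  | leaf j => exact Sim.choose rfl (fun z' y' => prj_updR j z' y') Sim.nil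
  | node s t hs ht =>
      simp only [Tm.map, prog, List.map_append, List.map_cons, List.map_nil]
      refine simAppend (simAppend hs ht) (Sim.app (fun h z' => prj_app ?_ ?_ h z') Sim.nil)
      · intro l
        rw [lvMap, lvMap]
        simp only [Set.mem_ofPred_eq, List.mem_map, Set.mem_image]
        constructor
        · rintro ⟨x, -, h⟩
          exact nomatch h
        · rintro (⟨x, -, h⟩ | ⟨x, -, h⟩)
          · exact nomatch h
          · exact nomatch h
      · intro j
        rw [lvMap, lvMap]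
        simp only [Set.mem_ofPred_eq, List.mem_map, Set.mem_image]
        constructor
        · rintro ⟨x, h | h, h'⟩
          · have := Sum.inr.inj h'
            subst this
            exact Or.inl ⟨_, h, rfl⟩
          · have := Sum.inr.inj h'
            subst this
            exact Or.inr ⟨_, h, rfl⟩
        · rintro (⟨x, h, h'⟩ | ⟨x, h, h'⟩)
          · have := Sum.inr.inj h'
            subst this
            exact ⟨_, Or.inl h, rfl⟩
          · have := Sum.inr.inj h'
            subst this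
            exact ⟨_, Or.inr h, rfl⟩

end Refine

/-- a refinement of the leaf `i₀` gives a decomposition -/
theorem dcp_refine {I : Type} {ar : I → ℕ} {V : Type} {M : Str ar V} {u : Ultrafilter (V → V)}
    (hu : Idem u) {N : ℕ} {A : Str ar (Fin N)} {Pn : Fin N → Option V} {k : ℕ} {α : Fin k → ℕ}
    (D : Dcp u M A Pn (Fin k) α) (hα : ∀ l, 0 < α l) {P₁ P₂ : List (Instr (Fin k))} {i₀ : Fin k}
    (hP : prog D.t = P₁ ++ Instr.choose i₀ :: P₂) {r : ℕ} {β : Fin r → ℕ} {t' : Tm (Fin r)}
    (hnd : t'.lv.Nodup) (hall : ∀ j, j ∈ t'.lv) (g : Fin (α i₀) → Σ j : Fin r, Fin (β j))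
    (hg : Function.Injective g) (hgs : ∀ j, ∃ x, (g x).1 = j) {q : Bx V (Sum.elim α β)}
    (hq : AllBox u q) (hql : ∀ l, q (Sum.inl l) ≤ D.b l)
    (hqr : ∀ j, ∀ y ∈ q (Sum.inr j), ∀ x, y x ∉ Pin u) {z₀ : St V α} {z₁ : St V β}
    (hF : F u (P₁.map (liftI r) ++ ((prog t').map (liftR k) ++ P₂.map (subI r i₀))) (jn z₀ z₁) q
      (rd i₀ g ⁻¹' {z | pl (fun i => evc z (D.c i)) M = A})) :
    ∃ (L : Type) (_ : Finite L) (n : L → ℕ), (∀ l, 0 < n l) ∧ Nonempty (Dcp u M A Pn L n) ∧
      Nat.card L + 1 = k + r := by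
  classical
  -- the new sizes
  obtain ⟨m, e, γ, hγ⟩ : ∃ (m : Fin r → ℕ) (e : ∀ j, Fin (m j) ≃ {x : Fin (α i₀) // (g x).1 = j})
      (γ : ∀ j, Fin (m j) → Fin (β j)), ∀ j y, g (e j y).1 = ⟨j, γ j y⟩ := by
    have h : ∀ j : Fin r, ∃ (m : ℕ) (e : Fin m ≃ {x : Fin (α i₀) // (g x).1 = j}) (γ : Fin m → Fin (β j)),
        ∀ y, g (e y).1 = ⟨j, γ y⟩ := by
      intro j
      refine ⟨_, (Fintype.equivFin {x : Fin (α i₀) // (g x).1 = j}).symm, ?_⟩
      have h1 : ∀ y, ∃ b : Fin (β j), g ((Fintype.equivFin {x : Fin (α i₀) // (g x).1 = j}).symm y).1 = ⟨j, b⟩ := by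
        intro y
        have h2 := ((Fintype.equivFin {x : Fin (α i₀) // (g x).1 = j}).symm y).2
        generalize g ((Fintype.equivFin {x : Fin (α i₀) // (g x).1 = j}).symm y).1 = w at h2
        obtain ⟨j', b⟩ := w
        simp only at h2
        subst h2
        exact ⟨b, rfl⟩
      choose γ hγ using h1
      exact ⟨γ, hγ⟩
    choose m e γ hγ using h
    exact ⟨m, e, γ, hγ⟩
  have hi₀P : i₀ ∉ lv P₁ ∧ i₀ ∉ lv P₂ := by
    apply good_split
    rw [← hP]
    exact good_prog D.nodup
  -- the application instructions of `P₁` do not move `i₀`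
  have hP₁ : P₁.map (liftI r) = P₁.map (subI r i₀) := by
    apply List.map_congr_left
    intro i hi
    cases i with
    | choose l => rfl
    | app S =>
        have hS : i₀ ∉ S := by
          intro hiS
          obtain ⟨Q, Q', rfl⟩ := List.append_of_mem hi
          rw [List.append_assoc, List.cons_append] at hP
          have h1 := prog_app hP hiS
          apply hi₀P.1
          exact List.mem_append_left _ h1
        simp only [liftI, subI]
        congr 1
        ext x
        simp only [Set.mem_image, Set.mem_ofPred_eq]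
        constructor
        · rintro ⟨l, h1, rfl⟩
          exact Or.inl ⟨l, h1, rfl⟩
        · rintro (⟨l, h1, rfl⟩ | ⟨h1, -⟩)
          · exact ⟨l, h1, rfl⟩
          · exact absurd h1 hS
  -- the new tree
  have hprog : prog (D.t.subst (sig i₀ t')) =
      P₁.flatMap (trI (sig i₀ t')) ++ (prog (t'.map Sum.inr) ++ P₂.flatMap (trI (sig i₀ t'))) := by
    rw [prog_subst, hP, List.flatMap_append, List.flatMap_cons]
    have h1 : sig i₀ t' i₀ = t'.map Sum.inr := by
      unfold sig
      rw [dif_pos rfl]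
    simp only [trI, h1]
  have hsim : Sim (V := V) (prj (i₀ := i₀) γ) (ptn (α := α) i₀ γ) (prog (D.t.subst (sig i₀ t')))
      (P₁.map (liftI r) ++ ((prog t').map (liftR k) ++ P₂.map (subI r i₀))) := by
    rw [hprog, hP₁]
    exact simAppend (simSub hall hi₀P.1) (simAppend (simR t') (simSub hall hi₀P.2))
  -- the coordinates
  obtain ⟨φ, hφl, hφr⟩ : ∃ φ : (Σ l : Fin k, Fin (α l)) → (Σ l : NL r i₀, Fin (nn α i₀ m l)),
      (∀ (l : Fin k) (h : l ≠ i₀) (x : Fin (α l)), φ ⟨l, x⟩ = ⟨Sum.inl ⟨l, h⟩, x⟩) ∧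
      ∀ x : Fin (α i₀), ∃ (j : Fin r) (y : Fin (m j)), (e j y).1 = x ∧ φ ⟨i₀, x⟩ = ⟨Sum.inr j, y⟩ := by
    have h1 : ∀ s : Σ l : Fin k, Fin (α l), ∃ s' : Σ l : NL r i₀, Fin (nn α i₀ m l),
        (∀ h : s.1 ≠ i₀, s' = ⟨Sum.inl ⟨s.1, h⟩, s.2⟩) ∧
        ∀ x : Fin (α i₀), s = ⟨i₀, x⟩ → ∃ (j : Fin r) (y : Fin (m j)), (e j y).1 = x ∧ s' = ⟨Sum.inr j, y⟩ := by
      rintro ⟨l, x⟩
      by_cases hl : l = i₀
      · subst hl
        refine ⟨⟨Sum.inr (g x).1, (e (g x).1).symm ⟨x, rfl⟩⟩, fun h => absurd rfl h, ?_⟩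
        intro x' hx'
        have h2 : x = x' := by simpa using hx'
        subst h2
        exact ⟨_, _, by simp, rfl⟩
      · refine ⟨⟨Sum.inl ⟨l, hl⟩, x⟩, fun h => rfl, ?_⟩
        intro x' hx'
        exact absurd (congrArg Sigma.fst hx') hl
    choose φ hφ using h1
    exact ⟨φ, fun l h x => (hφ ⟨l, x⟩).1 h, fun x => (hφ ⟨i₀, x⟩).2 x rfl⟩
  have hφinj : Function.Injective φ := by
    rintro ⟨l, x⟩ ⟨l', x'⟩ h
    by_cases hl : l = i₀
    · subst hl
      obtain ⟨j, y, h1, h2⟩ := hφr x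
      by_cases hl' : l' = l
      · subst hl'
        obtain ⟨j', y', h1', h2'⟩ := hφr x'
        rw [h2, h2'] at h
        have h3 : j = j' := Sum.inr.inj (congrArg Sigma.fst h)
        subst h3
        have h4 : y = y' := by simpa using h
        subst h4
        rw [← h1, ← h1']
      · rw [h2, hφl l' hl'] at h
        exact nomatch (congrArg Sigma.fst h)
    · by_cases hl' : l' = i₀
      · subst hl'
        obtain ⟨j, y, h1, h2⟩ := hφr x'
        rw [h2, hφl l hl] at h
        exact nomatch (congrArg Sigma.fst h)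
      · rw [hφl l hl, hφl l' hl'] at h
        have h3 : l = l' := congrArg Subtype.val (Sum.inl.inj (congrArg Sigma.fst h))
        subst h3
        have h4 : x = x' := by simpa using h
        rw [h4]
  have hφsurj : Function.Surjective φ := by
    rintro ⟨l | j, x⟩
    · exact ⟨⟨l.1, x⟩, hφl l.1 l.2 x⟩
    · obtain ⟨j', y', h1, h2⟩ := hφr (e j x).1
      refine ⟨⟨i₀, (e j x).1⟩, ?_⟩
      rw [h2]
      have h3 : g (e j' y').1 = g (e j x).1 := by rw [h1]
      have h4 : j' = j := by
        have := congrArg Sigma.fst h3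
        rw [(e j' y').2, (e j x).2] at this
        exact this
      subst h4
      have h5 : y' = x := (e j').injective (Subtype.ext h1)
      rw [h5]
  have hev : ∀ (z' : St V (Sum.elim α β)) (c : V ⊕ (Σ l : Fin k, Fin (α l))),
      evc (prj (i₀ := i₀) γ z') (Sum.map id φ c) = evc (rd i₀ g z') c := by
    intro z' c
    rcases c with p | ⟨l, x⟩
    · rfl
    · by_cases hl : l = i₀
      · subst hl
        obtain ⟨j, y, h1, h2⟩ := hφr x
        simp only [Sum.map_inr, evc, rd]
        rw [h2, upd_self]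
        simp only [prj]
        have h3 := hγ j y
        rw [h1] at h3
        rw [h3]
      · simp only [Sum.map_inr, evc, rd]
        rw [hφl l hl, upd_ne hl]
        rfl
  have hcp : ∀ i p, Sum.map id φ (D.c i) = Sum.inl p ↔ D.c i = Sum.inl p := by
    intro i p
    cases D.c i <;> simp
  have hcr : ∀ i s, Sum.map id φ (D.c i) = Sum.inr (φ s) ↔ D.c i = Sum.inr s := by
    intro i s
    cases D.c i with
    | inl p => simp
    | inr q =>
        simp only [Sum.map_inr, Sum.inr.injEq]
        exact hφinj.eq_iff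
  -- the boxes
  obtain ⟨b, hbl, hbr⟩ : ∃ b : Bx V (nn α i₀ m), (∀ l, b (Sum.inl l) = q (Sum.inl l.1)) ∧
      ∀ j, b (Sum.inr j) = {y | ∃ y' ∈ q (Sum.inr j), (fun x => y' (γ j x)) = y} :=
    ⟨fun x => match x with
      | Sum.inl l => q (Sum.inl l.1)
      | Sum.inr j => {y | ∃ y' ∈ q (Sum.inr j), (fun x => y' (γ j x)) = y}, fun _ => rfl, fun _ => rfl⟩
  have hbox : AllBox u b := by
    rintro (l | j)
    · rw [hbl]
      exact hq (Sum.inl l.1)
    · rw [hbr]
      obtain ⟨y', hy'⟩ := (hq (Sum.inr j)).1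
      refine ⟨⟨_, y', hy', rfl⟩, ?_⟩
      rintro _ ⟨w, hw, rfl⟩
      filter_upwards [(hq (Sum.inr j)).2 w hw] with h hh
      exact ⟨h ∘ w, hh, rfl⟩
  refine ⟨NL r i₀, inferInstance, nn α i₀ m, ?_, ⟨⟨D.t.subst (sig i₀ t'), ?_, ?_, fun i => Sum.map id φ (D.c i),
    ?_, ?_, b, hbox, ?_, ?_⟩⟩, ?_⟩
  · rintro (l | j)
    · exact hα l.1
    · obtain ⟨x, hx⟩ := hgs j
      exact Fin.pos ((e j).symm ⟨x, hx⟩)
  · rw [lvSubst, List.nodup_flatMap]
    constructor
    · intro l _
      unfold sig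
      by_cases hl : l = i₀
      · rw [dif_pos hl, lvMap]
        exact hnd.map Sum.inr_injective
      · rw [dif_neg hl]
        simp [Tm.lv]
    · refine D.nodup.imp ?_
      intro l l' hll x hx hx'
      rw [mem_sig hall] at hx hx'
      rcases hx with ⟨h1, h2⟩ | ⟨h1, j, h2⟩ <;> rcases hx' with ⟨h1', h2'⟩ | ⟨h1', j', h2'⟩
      · rw [h2] at h2'
        exact hll (congrArg Subtype.val (Sum.inl.inj h2'))
      · rw [h2] at h2'
        exact nomatch h2'
      · rw [h2] at h2'
        exact nomatch h2'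
      · exact hll (h1.trans h1'.symm)
  · intro x
    rw [lvSubst, List.mem_flatMap]
    rcases x with l | j
    · exact ⟨l.1, D.mem _, (mem_sig hall).2 (Or.inl ⟨l.2, rfl⟩)⟩
    · exact ⟨i₀, D.mem _, (mem_sig hall).2 (Or.inr ⟨rfl, j, rfl⟩)⟩
  · intro i p
    rw [hcp, D.cpin]
  · intro s
    obtain ⟨s, rfl⟩ := hφsurj s
    obtain ⟨i, hi, hu'⟩ := D.cbij s
    exact ⟨i, (hcr i s).2 hi, fun i' hi' => hu' i' ((hcr i' s).1 hi')⟩
  · rintro (l | j) y hy x
    · rw [hbl] at hy
      exact D.npin l.1 y (hql l.1 hy) x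
    · rw [hbr] at hy
      obtain ⟨y', hy', rfl⟩ := hy
      exact hqr j y' hy' _
  · intro z
    have h2 : prj (i₀ := i₀) γ ⁻¹' {z : St V (nn α i₀ m) | pl (fun i => evc z (Sum.map id φ (D.c i))) M = A} =
        rd i₀ g ⁻¹' {z | pl (fun i => evc z (D.c i)) M = A} := by
      ext z'
      simp only [Set.mem_preimage, Set.mem_ofPred_eq, hev]
    rw [← h2] at hF
    have h3 := F_push (q := b) ?_ hsim hbox hq ?_ hF
    · refine h3.congr_state (fun l hl => ?_)
      exfalso
      apply hl
      rw [lv_prog, Set.mem_ofPred_eq, lvSubst, List.mem_flatMap]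
      rcases l with l | j
      · exact ⟨l.1, D.mem _, (mem_sig hall).2 (Or.inl ⟨l.2, rfl⟩)⟩
      · exact ⟨i₀, D.mem _, (mem_sig hall).2 (Or.inr ⟨rfl, j, rfl⟩)⟩
    · rintro (l₁ | j₁) (l₂ | j₂) l g₁ g₂ h₁ h₂
      · simp only [ptn] at h₁ h₂
        by_cases hl₁ : l₁ = i₀
        · rw [dif_pos hl₁] at h₁
          exact nomatch h₁
        by_cases hl₂ : l₂ = i₀
        · rw [dif_pos hl₂] at h₂
          exact nomatch h₂
        rw [dif_neg hl₁] at h₁
        rw [dif_neg hl₂] at h₂
        have e1 := congrArg Sigma.fst (Option.some.inj h₁)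
        have e2 := congrArg Sigma.fst (Option.some.inj h₂)
        have e3 : l₁ = l₂ := congrArg Subtype.val (Sum.inl.inj (e1.trans e2.symm))
        rw [e3]
      · simp only [ptn] at h₁ h₂
        by_cases hl₁ : l₁ = i₀
        · rw [dif_pos hl₁] at h₁
          exact nomatch h₁
        rw [dif_neg hl₁] at h₁
        have e1 := congrArg Sigma.fst (Option.some.inj h₁)
        have e2 := congrArg Sigma.fst (Option.some.inj h₂)
        exact nomatch (e1.trans e2.symm)
      · simp only [ptn] at h₁ h₂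
        by_cases hl₂ : l₂ = i₀
        · rw [dif_pos hl₂] at h₂
          exact nomatch h₂
        rw [dif_neg hl₂] at h₂
        have e1 := congrArg Sigma.fst (Option.some.inj h₁)
        have e2 := congrArg Sigma.fst (Option.some.inj h₂)
        exact nomatch (e1.trans e2.symm)
      · have e1 := congrArg Sigma.fst (Option.some.inj h₁)
        have e2 := congrArg Sigma.fst (Option.some.inj h₂)
        have e3 : j₁ = j₂ := Sum.inr.inj (e1.trans e2.symm)
        rw [e3]
    · rintro (l' | j) l g' h y hy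
      · simp only [ptn] at h
        by_cases hl' : l' = i₀
        · rw [dif_pos hl'] at h
          exact nomatch h
        rw [dif_neg hl'] at h
        obtain ⟨rfl, h5⟩ := Sigma.mk.inj_iff.1 (Option.some.inj h)
        have h6 := eq_of_heq h5
        subst h6
        rw [hbl] at hy
        exact ⟨y, hy, rfl⟩
      · obtain ⟨rfl, h5⟩ := Sigma.mk.inj_iff.1 (Option.some.inj h)
        have h6 := eq_of_heq h5
        subst h6
        rw [hbr] at hy
        obtain ⟨y', hy', hyy⟩ := hy
        exact ⟨y', hy', hyy⟩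
  · have h1 : Nat.card (NL r i₀) = Nat.card {l : Fin k // l ≠ i₀} + Nat.card (Fin r) := Nat.card_sum
    have h2 : Nat.card {l : Fin k // l ≠ i₀} + 1 = k := by
      have h3 : Fintype.card {l : Fin k // l ≠ i₀} = k - 1 := by
        rw [Fintype.card_subtype_compl]
        simp
      rw [Nat.card_eq_fintype_card, h3]
      have := i₀.pos
      omega
    rw [h1, Nat.card_fin]
    omega

end Pool.MP4fb322AA
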