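import Pool.Agent.Lib.MP_4fb322_lc_h71.B4
import Pool.Agent.Lib.MP_4fb322_lc_h71.B7
import Pool.Agent.Lib.MP_4fb322_lc_h71.B8

set_option autoImplicit false

/-! Row B14: (NS) over labels (MP_4fb322_lc, all arities, positions). -/

namespace Pool.MP4fb322AA

open Filter
open Pool.Agent.Lib.MP_4fb322_lc_q (Tm Sub HasEq FinTy Nip Mv)

/-- the output of `exists_aux` -/
def IsAux {V : Type} (u : Ultrafilter (V → V)) (T : TFam V) (BB : ∀ m : ℕ, Set (Set (Fin m → V))) {k : ℕ}
    {α : Fin k → ℕ} (P₁ P₂ : List (Instr (Fin k))) (i₀ : Fin k) (b : Bx V α) (W : Set (St V α))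
    (z₀ : St V α) (p : Ultrafilter (St V α)) (q₀ : Bx V α) : Prop :=
  Fm BB q₀ ∧ q₀ ≤ b ∧ (∀ᶠ z in (p : Filter (St V α)), F u (Instr.choose i₀ :: P₂) z q₀ W) ∧
    ∀ (r : ℕ) (β : Fin r → ℕ) (z₁ : St V β) (R : List (Instr (Fin k ⊕ Fin r)))
      (q : Bx V (Sum.elim α β)) (W' : Set (St V (Sum.elim α β))), InW T W' →
      Good (P₁.map (liftI r) ++ R) → Fm BB q →
      (∀ᶠ z in (p : Filter (St V α)), F u R (jn z z₁) q W') →
      ∃ q' : Bx V (Sum.elim α β), Fm BB q' ∧ (∀ x, x ∉ Sum.inl '' lv P₁ → q' x ≤ q x) ∧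
        (∀ l ∈ lv P₁, q' (Sum.inl l) ≤ b l) ∧ F u (P₁.map (liftI r) ++ R) (jn z₀ z₁) q' W'

theorem good_append_iff {L : Type} {P R : List (Instr L)} :
    Good (P ++ R) ↔ Good P ∧ Good R ∧ Disjoint (lv P) (lv R) := by
  induction P with
  | nil =>
      simp [Good, lv, Set.disjoint_iff_forall_ne]
  | cons i P ih =>
      cases i with
      | choose l =>
          have h1 : lv (Instr.choose l :: P) = insert l (lv P) := by
            ext x
            simp [lv]
          have h2 : lv (P ++ R) = lv P ∪ lv R := by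
            ext x
            simp [lv]
          simp only [List.cons_append, Good, ih, h1, h2, Set.mem_union, Set.disjoint_insert_left]
          tauto
      | app S =>
          have h1 : lv (Instr.app S :: P) = lv P := by
            ext x
            simp [lv]
          simp only [List.cons_append, Good, ih, h1]

theorem good_map {L L' : Type} {f : Instr L → Instr L'} {φ : L → L'} (hφ : Function.Injective φ)
    (hc : ∀ l, f (Instr.choose l) = Instr.choose (φ l)) (ha : ∀ S, ∃ S', f (Instr.app S) = Instr.app S')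
    {P : List (Instr L)} (h : Good P) : Good (P.map f) := by
  have hlv : ∀ P : List (Instr L), lv (P.map f) = φ '' lv P := by
    intro P
    induction P with
    | nil => simp [lv]
    | cons i P ih =>
        cases i with
        | choose l =>
            have h1 : ∀ (L : Type) (l : L) (P : List (Instr L)), lv (Instr.choose l :: P) = insert l (lv P) := by
              intro L l P
              ext x
              simp [lv]
            rw [List.map_cons, hc, h1, h1, ih, Set.image_insert_eq]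
        | app S =>
            have h1 : ∀ (L : Type) (S : Set L) (P : List (Instr L)), lv (Instr.app S :: P) = lv P := by
              intro L S P
              ext x
              simp [lv]
            obtain ⟨S', hS'⟩ := ha S
            rw [List.map_cons, hS', h1, h1, ih]
  induction P with
  | nil => trivial
  | cons i P ih =>
      cases i with
      | choose l =>
          rw [List.map_cons, hc]
          refine ⟨?_, ih h.2⟩
          rw [hlv]
          rintro ⟨l', hl', he⟩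
          rw [hφ he] at hl'
          exact h.1 hl'
      | app S =>
          obtain ⟨S', hS'⟩ := ha S
          rw [List.map_cons, hS']
          exact ih h

theorem lv_map {L L' : Type} {f : Instr L → Instr L'} {φ : L → L'}
    (hc : ∀ l, f (Instr.choose l) = Instr.choose (φ l)) (ha : ∀ S, ∃ S', f (Instr.app S) = Instr.app S')
    (P : List (Instr L)) : lv (P.map f) = φ '' lv P := by
  induction P with
  | nil => simp [lv]
  | cons i P ih =>
      cases i with
      | choose l =>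
          have h1 : ∀ (L : Type) (l : L) (P : List (Instr L)), lv (Instr.choose l :: P) = insert l (lv P) := by
            intro L l P
            ext x
            simp [lv]
          rw [List.map_cons, hc, h1, h1, ih, Set.image_insert_eq]
      | app S =>
          have h1 : ∀ (L : Type) (S : Set L) (P : List (Instr L)), lv (Instr.app S :: P) = lv P := by
            intro L S P
            ext x
            simp [lv]
          obtain ⟨S', hS'⟩ := ha S
          rw [List.map_cons, hS', h1, h1, ih]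

/-- (NS) over labels -/
theorem ns_labels {I : Type} {ar : I → ℕ} {V : Type} {M : Str ar V} {u : Ultrafilter (V → V)}
    (hu : Idem u) {T : TFam V} {BB : ∀ m : ℕ, Set (Set (Fin m → V))} (hBB : IsBB u T BB)
    {N : ℕ} {A : Str ar (Fin N)} {Pn : Fin N → Option V} {k : ℕ} {α : Fin k → ℕ}
    (D : Dcp u M A Pn (Fin k) α) (hα : (∀ l, 0 < α l) ∨ k = 1)
    (hmax : ∀ (L : Type) (_ : Finite L) (n : L → ℕ), (∀ l, 0 < n l) → Nonempty (Dcp u M A Pn L n) →
      Nat.card L ≤ k)
    {P₁ P₂ : List (Instr (Fin k))} {i₀ : Fin k} (hP : prog D.t = P₁ ++ Instr.choose i₀ :: P₂)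
    (hW : InW T {z : St V α | pl (fun i => evc z (D.c i)) M = A}) {z₀ : St V α} {p : Ultrafilter (St V α)}
    {q₀ : Bx V α} (haux : IsAux u T BB P₁ P₂ i₀ D.b {z : St V α | pl (fun i => evc z (D.c i)) M = A} z₀ p q₀)
    {Λ : Type} {sz : Λ → ℕ} {v : ∀ a : Λ, Ultrafilter (Fin (sz a) → V)} (hpos : ∀ a, Pos u (v a))
    (hgs : GenStep u T BB sz v) (hgd : GenDec u T BB sz v k α p)
    (hst : ∀ a, ∃ b ∈ BB (sz a), b ∈ v a ∧ ∀ y ∈ b, ∀ x, y x ∉ Pin u)
    {y : Tm Λ} (hy : y.lv.Nodup) {g : Fin (α i₀) → Σ a : Λ, Fin (sz a)} (hg : Function.Injective g)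
    (hgy : ∀ x, (g x).1 ∈ y.lv) {z₂ : St V sz}
    (hTr : Tr u v (prog y) z₂ {f | (fun x => f (g x).1 (g x).2) ∈ q₀ i₀}) :
    ∃ a ∈ y.lv, ∀ x, (g x).1 = a := by
  classical
  by_contra hcon
  push Not at hcon
  have hyne : ∃ a, a ∈ y.lv := by
    cases y with
    | leaf a => exact ⟨a, by simp [Pool.Agent.Lib.MP_4fb322_lc_q.Tm.lv]⟩
    | node s t =>
        have : ∀ t : Tm Λ, ∃ a, a ∈ t.lv := by
          intro t
          induction t with
          | leaf a => exact ⟨a, by simp [Pool.Agent.Lib.MP_4fb322_lc_q.Tm.lv]⟩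
          | node s t hs ht =>
              obtain ⟨a, ha⟩ := hs
              exact ⟨a, by simp [Pool.Agent.Lib.MP_4fb322_lc_q.Tm.lv, ha]⟩
        exact this _
  obtain ⟨a₀, ha₀⟩ := hyne
  obtain ⟨x₀, hx₀⟩ := hcon a₀ ha₀
  have hpos₀ : 0 < α i₀ := lt_of_le_of_lt (Nat.zero_le _) x₀.2
  have hα' : ∀ l, 0 < α l := by
    rcases hα with h | h
    · exact h
    · subst h
      intro l
      rw [Subsingleton.elim l i₀]
      exact hpos₀
  -- the induced tree
  obtain ⟨s, hs, hsn, hsl⟩ := exists_sub y hy {a | ∃ x, (g x).1 = a} ⟨(g x₀).1, hgy x₀, x₀, rfl⟩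
  obtain ⟨r, E, t', hE, ht'n, ht'a, hts⟩ := exists_fin_tree s hsn
  have hlv : ∀ a, a ∈ s.lv ↔ ∃ j, E j = a := by
    intro a
    rw [← hts]
    have : ∀ t : Tm (Fin r), (t.map E).lv = t.lv.map E := by
      intro t
      induction t with
      | leaf a => rfl
      | node s t hs ht =>
          simp [Pool.Agent.Lib.MP_4fb322_lc_q.Tm.lv, Pool.Agent.Lib.MP_4fb322_lc_q.Tm.map, hs, ht]
    rw [this, List.mem_map]
    constructor
    · rintro ⟨j, _, h⟩
      exact ⟨j, h⟩
    · rintro ⟨j, h⟩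
      exact ⟨j, ht'a j, h⟩
  have hgE : ∀ x, ∃ j, E j = (g x).1 := fun x => (hlv _).1 ((hsl _).2 ⟨hgy x, x, rfl⟩)
  have hEg : ∀ j, ∃ x, (g x).1 = E j := fun j => ((hsl _).1 ((hlv _).2 ⟨j, rfl⟩)).2
  choose jj hjj using hgE
  have hcast : ∀ (c : Σ a : Λ, Fin (sz a)) (j : Fin r), E j = c.1 →
      ∃ w : Fin (sz (E j)), (⟨E j, w⟩ : Σ a : Λ, Fin (sz a)) = c := by
    rintro ⟨a, w⟩ j hj
    simp only at hj
    subst hj
    exact ⟨w, rfl⟩
  have hw := fun x => hcast (g x) (jj x) (hjj x)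
  choose ww hww using hw
  let g' : Fin (α i₀) → Σ j : Fin r, Fin (sz (E j)) := fun x => ⟨jj x, ww x⟩
  have hg'inj : Function.Injective g' := by
    intro x x' hxx
    apply hg
    have h1 : (⟨E (g' x).1, (g' x).2⟩ : Σ a : Λ, Fin (sz a)) = ⟨E (g' x').1, (g' x').2⟩ := by rw [hxx]
    rw [← hww x, ← hww x']
    exact h1
  have hg'hit : ∀ j, ∃ x, (g' x).1 = j := by
    intro j
    obtain ⟨x, hx⟩ := hEg j
    refine ⟨x, hE ?_⟩
    show E (jj x) = E j
    rw [hjj x, hx]
  -- truth over `Fin r`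
  have hdep : Dep {f : St V sz | (fun x => f (g x).1 (g x).2) ∈ q₀ i₀} {a | a ∈ s.lv} := by
    intro f f' hff
    have : (fun x => f (g x).1 (g x).2) = (fun x => f' (g x).1 (g x).2) := by
      funext x
      rw [hff (g x).1 ((hsl _).2 ⟨hgy x, x, rfl⟩)]
    simp only [Set.mem_ofPred_eq, this]
  have hTr1 : Tr u v (prog s) z₂ {f | (fun x => f (g x).1 (g x).2) ∈ q₀ i₀} :=
    (tr_sub hu hpos hs hy hdep).2 hTr
  rw [← hts] at hTr1
  have hTr2 : Tr u (fun j => v (E j)) (prog t') (fun j => z₂ (E j))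
      {f | (fun x => f (g' x).1 (g' x).2) ∈ q₀ i₀} := by
    rw [← tr_map E hE t' (z := z₂)]
    convert hTr1 using 2
    ext f
    simp only [Set.mem_ofPred_eq]
    have : (fun x => f (E (g' x).1) (g' x).2) = (fun x => f (g x).1 (g x).2) := by
      funext x
      have h1 : ∀ (c c' : Σ a : Λ, Fin (sz a)), c = c' → f c.1 c.2 = f c'.1 c'.2 := by
        rintro c c' rfl
        rfl
      exact h1 ⟨E (g' x).1, (g' x).2⟩ (g x) (hww x)
    rw [this]
  -- the core
  choose st hst1 hst2 hst3 using hst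
  have hG : Good (P₁ ++ Instr.choose i₀ :: P₂) := by
    rw [← hP]
    exact good_prog D.nodup
  obtain ⟨hq₀, hq₀b, h51, hUP⟩ := haux
  obtain ⟨q, hq, hql, hqr, hF⟩ := ns_core hu hBB hG hW hq₀ h51 hpos hgs hgd hE
    (st := fun j => st (E j)) (fun j => hst1 (E j)) (fun j => hst2 (E j)) ht'n ht'a g'
    (fun j => z₂ (E j)) hTr2
  -- going up
  have hlvr : lv ((prog t').map (liftR k)) = Sum.inr '' lv (prog t') :=
    lv_map (φ := (Sum.inr : Fin r → Fin k ⊕ Fin r)) (fun _ => rfl) (fun S => ⟨_, rfl⟩) _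
  have hlvs : lv (P₂.map (subI r i₀)) = Sum.inl '' lv P₂ :=
    lv_map (φ := (Sum.inl : Fin k → Fin k ⊕ Fin r)) (fun _ => rfl) (fun S => ⟨_, rfl⟩) _
  have hlv1 : lv (P₁.map (liftI r)) = Sum.inl '' lv P₁ :=
    lv_map (φ := (Sum.inl : Fin k → Fin k ⊕ Fin r)) (fun _ => rfl) (fun S => ⟨_, rfl⟩) _
  have hG2 := good_append_iff.1 hG
  have hdisj : Disjoint (lv P₁) (lv P₂) := by
    refine hG2.2.2.mono_right ?_
    intro l hl
    exact List.mem_cons_of_mem _ hl
  have hGood : Good (P₁.map (liftI r) ++ ((prog t').map (liftR k) ++ P₂.map (subI r i₀))) := by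
    rw [good_append_iff, good_append_iff]
    refine ⟨good_map Sum.inl_injective (fun _ => rfl) (fun S => ⟨_, rfl⟩) hG2.1,
      ⟨good_map Sum.inr_injective (fun _ => rfl) (fun S => ⟨_, rfl⟩) (good_prog ht'n),
        good_map Sum.inl_injective (fun _ => rfl) (fun S => ⟨_, rfl⟩) hG2.2.1.2, ?_⟩, ?_⟩
    · rw [hlvr, hlvs, Set.disjoint_left]
      rintro _ ⟨a, _, rfl⟩ ⟨b, _, hb⟩
      exact absurd hb (by simp)
    · have h3 : lv ((prog t').map (liftR k) ++ P₂.map (subI r i₀)) =
          lv ((prog t').map (liftR k)) ∪ lv (P₂.map (subI r i₀)) := by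
        ext x
        simp [lv]
      rw [h3, hlv1, hlvr, hlvs, Set.disjoint_left]
      rintro _ ⟨a, ha, rfl⟩ h
      rcases h with ⟨b, _, hb⟩ | ⟨b, hb, hb'⟩
      · exact absurd hb (by simp)
      · rw [Sum.inl_injective hb'] at hb
        exact Set.disjoint_left.1 hdisj ha hb
  have hW' : InW T (rd i₀ g' ⁻¹' {z : St V α | pl (fun i => evc z (D.c i)) M = A}) := by
    obtain ⟨N', G, W₀, hW₀, hWW⟩ := hW
    have key : ∀ c : Σ l : Fin k, Fin (α l),
        ∃ c' : Σ x : Fin k ⊕ Fin r, Fin (Sum.elim α (fun j => sz (E j)) x),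
          ∀ z : St V (Sum.elim α (fun j => sz (E j))), rd i₀ g' z c.1 c.2 = z c'.1 c'.2 := by
      rintro ⟨l, w⟩
      by_cases h : l = i₀
      · subst h
        refine ⟨⟨Sum.inr (g' w).1, (g' w).2⟩, fun z => ?_⟩
        exact congrFun (upd_self (V := V) (n := α) (fun l => z (Sum.inl l)) l
          (fun x => z (Sum.inr (g' x).1) (g' x).2)) w
      · refine ⟨⟨Sum.inl l, w⟩, fun z => ?_⟩
        exact congrFun (upd_ne (V := V) (n := α) (z := fun l => z (Sum.inl l)) h) w
    choose cc hcc using key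
    refine ⟨N', fun i => cc (G i), W₀, hW₀, ?_⟩
    rw [hWW]
    ext z
    simp only [cyl, Set.mem_preimage, Set.mem_ofPred_eq, hcc]
  obtain ⟨q', hq', hqq, hql', hFF⟩ := hUP r (fun j => sz (E j)) (fun j => z₂ (E j)) _ q _ hW' hGood hq hF
  have hi₀ : ∀ l, q' (Sum.inl l) ≤ D.b l := by
    intro l
    by_cases hl : l ∈ lv P₁
    · exact hql' l hl
    · refine (hqq (Sum.inl l) ?_).trans ((hql l).trans (hq₀b l))
      rintro ⟨l', hl', he⟩
      rw [Sum.inl_injective he] at hl'
      exact hl hl'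
  have hir : ∀ j, q' (Sum.inr j) ≤ st (E j) := by
    intro j
    refine (hqq (Sum.inr j) ?_).trans (hqr j)
    rintro ⟨l', _, he⟩
    exact absurd he (by simp)
  obtain ⟨L, hL, n, hn, hD, hcard⟩ := dcp_refine hu D hα' hP ht'n ht'a g' hg'inj hg'hit
    (fun l => hBB.box _ _ (hq' l)) hi₀ (fun j y hy x => hst3 (E j) y (hir j hy) x) hFF
  have hLk := hmax L hL n hn hD
  have hr : r ≤ 1 := by omega
  -- at most one leaf is hit
  obtain ⟨x₁, hx₁⟩ := hcon (g x₀).1 (hgy x₀)
  apply hx₁
  have : jj x₁ = jj x₀ := by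
    have h1 := (jj x₁).2
    have h2 := (jj x₀).2
    exact Fin.ext (by omega)
  rw [← hjj x₁, ← hjj x₀, this]

end Pool.MP4fb322AA
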