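import Pool.Agent.Lib.MP_4fb322_lc_h71.Defs2
import Pool.Agent.Lib.MP_4fb322_lc_h71.B3

set_option autoImplicit false

/-! Row B4 (MP_4fb322_lc, all arities, positions). -/

namespace Pool.MP4fb322AA

open Filter
open Pool.Agent.Lib.MP_4fb322_lc_q (Tm)

private theorem b4_rs {X ρ : Type} [Countable ρ] (le : X → X → Prop) (hrefl : ∀ x, le x x)
    (D : ρ → X → Prop) (hD : ∀ i x, ∃ y, le y x ∧ D i y) (x₀ : X) :
    ∃ s : ℕ → X, s 0 = x₀ ∧ (∀ m, le (s (m + 1)) (s m)) ∧ ∀ i, ∃ m, D i (s m) := by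
  classical
  rcases isEmpty_or_nonempty ρ with h | h
  · exact ⟨fun _ => x₀, rfl, fun _ => hrefl _, fun i => h.elim i⟩
  · obtain ⟨e, he⟩ := exists_surjective_nat ρ
    choose g hg1 hg2 using hD
    refine ⟨fun m => Nat.rec x₀ (fun m x => g (e m) x) m, rfl, fun m => hg1 _ _, fun i => ?_⟩
    obtain ⟨m, rfl⟩ := he i
    exact ⟨m + 1, hg2 _ _⟩

private theorem b4_univ {V L : Type} {n : L → ℕ} {u : Ultrafilter (V → V)} (P : List (Instr L))
    (z : St V n) (q : Bx V n) : F u P z q Set.univ := by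
  induction P generalizing z with
  | nil => exact Set.mem_univ z
  | cons i P ih =>
      apply F.of_step
      cases i with
      | choose l => exact fun y _ => ih _
      | app S => exact Filter.Eventually.of_forall fun h => ih _

private theorem b4_lv_append {L : Type} (P R : List (Instr L)) : lv (P ++ R) = lv P ∪ lv R := by
  ext l
  simp [lv]

private theorem b4_good {L : Type} {P R : List (Instr L)} (h : Good (P ++ R)) :
    Good R ∧ ∀ l ∈ lv P, l ∉ lv R := by
  induction P with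
  | nil => exact ⟨h, fun l hl => absurd hl (by simp [lv])⟩
  | cons i P ih =>
      cases i with
      | choose l =>
          obtain ⟨h1, h2⟩ := h
          obtain ⟨h3, h4⟩ := ih h2
          refine ⟨h3, fun l' hl' => ?_⟩
          have hl'' : l' = l ∨ l' ∈ lv P := by
            simpa [lv] using hl'
          rcases hl'' with rfl | hl''
          · intro hR
            apply h1
            show l' ∈ lv (P ++ R)
            rw [b4_lv_append]
            exact Or.inr hR
          · exact h4 l' hl''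
      | app S =>
          obtain ⟨h3, h4⟩ := ih h
          refine ⟨h3, fun l' hl' => ?_⟩
          exact h4 l' (by simpa [lv] using hl')

private theorem b4_lv_map {k r : ℕ} (P : List (Instr (Fin k))) :
    lv (P.map (liftI r)) = Sum.inl '' lv P := by
  ext x
  constructor
  · intro hx
    have hx' : Instr.choose x ∈ P.map (liftI r) := hx
    rw [List.mem_map] at hx'
    obtain ⟨i, hi, hix⟩ := hx'
    cases i with
    | choose l =>
        have : Sum.inl l = x := by
          simpa [liftI] using hix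
        exact ⟨l, hi, this⟩
    | app S => simp [liftI] at hix
  · rintro ⟨l, hl, rfl⟩
    show Instr.choose (Sum.inl l) ∈ P.map (liftI r)
    rw [List.mem_map]
    exact ⟨Instr.choose l, hl, rfl⟩

private theorem b4_upd {V : Type} {k r : ℕ} {α : Fin k → ℕ} {β : Fin r → ℕ} (z : St V α)
    (z₁ : St V β) (l : Fin k) (y : Fin (Sum.elim α β (Sum.inl l)) → V) :
    upd (jn z z₁) (Sum.inl l) y = jn (upd z l y) z₁ := by
  funext x
  cases x with
  | inl l' =>
      by_cases h : l' = l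
      · subst h
        exact (upd_self (jn z z₁) (Sum.inl l') y).trans (upd_self (n := α) z l' y).symm
      · exact (upd_ne (z := jn z z₁) (l := Sum.inl l) (l' := Sum.inl l') (y := y)
          (fun hc => h (Sum.inl.inj hc))).trans (upd_ne (n := α) (z := z) (y := y) h).symm
  | inr j =>
      exact upd_ne (z := jn z z₁) (l := Sum.inl l) (l' := Sum.inr j) (y := y) (by simp)

private theorem b4_app {V : Type} {k r : ℕ} {α : Fin k → ℕ} {β : Fin r → ℕ} (z : St V α)
    (z₁ : St V β) (S : Set (Fin k)) (h : V → V) :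
    appS (Sum.inl '' S) h (jn z z₁) = jn (appS S h z) z₁ := by
  funext x
  cases x with
  | inl l' =>
      by_cases hl : l' ∈ S
      · rw [appS_mem (show (Sum.inl l' : Fin k ⊕ Fin r) ∈ Sum.inl '' S from ⟨l', hl, rfl⟩)]
        show h ∘ z l' = appS S h z l'
        rw [appS_mem hl]
      · rw [appS_notMem (show (Sum.inl l' : Fin k ⊕ Fin r) ∉ Sum.inl '' S by simpa using hl)]
        show z l' = appS S h z l'
        rw [appS_notMem hl]
  | inr j =>
      rw [appS_notMem (by simp)]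
      rfl

private theorem b4_down {V : Type} {k r : ℕ} {α : Fin k → ℕ} {β : Fin r → ℕ}
    {u : Ultrafilter (V → V)} {P : List (Instr (Fin k))} {z : St V α} {z₁ : St V β}
    {q : Bx V (Sum.elim α β)} (hq : AllBox u q) {A : Set (St V (Sum.elim α β))}
    (h : F u (P.map (liftI r)) (jn z z₁) q A) :
    F u P z (fun l => q (Sum.inl l)) {z | jn z z₁ ∈ A} := by
  induction P generalizing z q with
  | nil => exact h
  | cons i P ih =>
      intro q₁ hb₁ hq₁
      let q₁' : Bx V (Sum.elim α β) := fun x => match x with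
        | Sum.inl l => q₁ l
        | Sum.inr j => q (Sum.inr j)
      have hb₁' : AllBox u q₁' := by
        intro x
        cases x with
        | inl l => exact hb₁ l
        | inr j => exact hq (Sum.inr j)
      have hq₁' : q₁' ≤ q := by
        intro x
        cases x with
        | inl l => exact hq₁ l
        | inr j => exact le_rfl
      obtain ⟨q₂, hb₂, hq₂, hs⟩ := h q₁' hb₁' hq₁'
      refine ⟨fun l => q₂ (Sum.inl l), fun l => hb₂ _, fun l => hq₂ (Sum.inl l), ?_⟩
      cases i with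
      | choose l =>
          intro y hy
          have h1 : F u (P.map (liftI r)) (jn (upd z l y) z₁) q₂ A :=
            Eq.mp (congrArg (fun w => F u (P.map (liftI r)) w q₂ A) (b4_upd z z₁ l y)) (hs y hy)
          exact ih hb₂ h1
      | app S =>
          refine Filter.Eventually.mono hs (fun g hg => ?_)
          rw [b4_app] at hg
          exact ih hb₂ hg

private theorem b4_instr {L : Type} [Finite L] : Countable (Instr L) := by
  have : Function.Injective (fun i : Instr L => match i with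
      | Instr.choose l => (Sum.inl l : L ⊕ Set L)
      | Instr.app S => Sum.inr S) := by
    intro a b hab
    cases a <;> cases b <;> simp_all
  exact this.countable

private theorem b4_fm {V L : Type} [Finite L] {n : L → ℕ} {BB : ∀ m : ℕ, Set (Set (Fin m → V))}
    (hc : ∀ m, (BB m).Countable) : Countable {q : Bx V n // Fm BB q} := by
  have h1 : ∀ l, Countable (BB (n l)) := fun l => (hc (n l)).to_subtype
  have : Function.Injective (fun q : {q : Bx V n // Fm BB q} =>
      ((fun l => ⟨q.1 l, q.2 l⟩) : ∀ l, BB (n l))) := by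
    intro a b hab
    apply Subtype.ext
    funext l
    exact congrArg Subtype.val (congrFun hab l)
  exact this.countable

private theorem b4_inw {V L : Type} [Finite L] {n : L → ℕ} (T : TFam V) :
    Countable {W : Set (St V n) // InW T W} := by
  have h1 : ∀ N, Countable (T.T N) := fun N => (T.countable N).to_subtype
  have : Function.Surjective (fun x : (Σ N : ℕ, (Fin N → Σ l : L, Fin (n l)) × T.T N) =>
      (⟨cyl x.2.1 x.2.2.1, ⟨x.1, x.2.1, x.2.2.1, x.2.2.2, rfl⟩⟩ : {W : Set (St V n) // InW T W})) := by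
    rintro ⟨W, N, G, W₀, hW₀, rfl⟩
    exact ⟨⟨N, G, ⟨W₀, hW₀⟩⟩, rfl⟩
  exact this.countable

/-- what has to be decided -/
private abbrev B4Req (V : Type) (T : TFam V) (BB : ∀ m : ℕ, Set (Set (Fin m → V))) {k : ℕ}
    (α : Fin k → ℕ) : Type :=
  Σ r : ℕ, Σ β : Fin r → ℕ, St V β × List (Instr (Fin k ⊕ Fin r)) ×
    {q : Bx V (Sum.elim α β) // Fm BB q} × {W' : Set (St V (Sum.elim α β)) // InW T W'}

private theorem b4_req {V : Type} [Countable V] {T : TFam V} {BB : ∀ m : ℕ, Set (Set (Fin m → V))}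
    (hc : ∀ m, (BB m).Countable) {k : ℕ} (α : Fin k → ℕ) : Countable (B4Req V T BB α) := by
  have h1 : ∀ r : ℕ, Countable (Instr (Fin k ⊕ Fin r)) := fun r => b4_instr
  have h2 : ∀ (r : ℕ) (β : Fin r → ℕ), Countable {q : Bx V (Sum.elim α β) // Fm BB q} :=
    fun r β => b4_fm hc
  have h3 : ∀ (r : ℕ) (β : Fin r → ℕ), Countable {W' : Set (St V (Sum.elim α β)) // InW T W'} :=
    fun r β => b4_inw T
  infer_instance

/-- decided at the boxes `b'` -/
private def B4Dec {V : Type} (u : Ultrafilter (V → V)) (T : TFam V)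
    (BB : ∀ m : ℕ, Set (Set (Fin m → V))) {k : ℕ} {α : Fin k → ℕ} (P₁ : List (Instr (Fin k)))
    (z₀ : St V α) (ρ : B4Req V T BB α) (b' : Bx V α) : Prop :=
  Good (P₁.map (liftI ρ.1) ++ ρ.2.2.2.1) →
    ∃ q' : Bx V (Sum.elim α ρ.2.1), Fm BB q' ∧ (∀ x, x ∉ Sum.inl '' lv P₁ → q' x ≤ ρ.2.2.2.2.1.1 x) ∧
      (∀ l ∈ lv P₁, q' (Sum.inl l) = b' l) ∧
      (F u (P₁.map (liftI ρ.1) ++ ρ.2.2.2.1) (jn z₀ ρ.2.2.1) q' ρ.2.2.2.2.2.1 ∨
        F u (P₁.map (liftI ρ.1) ++ ρ.2.2.2.1) (jn z₀ ρ.2.2.1) q' (ρ.2.2.2.2.2.1)ᶜ)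

private theorem b4_step {V : Type} {u : Ultrafilter (V → V)} {T : TFam V}
    {BB : ∀ m : ℕ, Set (Set (Fin m → V))} (hBB : IsBB u T BB) {k : ℕ} {α : Fin k → ℕ}
    (P₁ : List (Instr (Fin k))) (z₀ : St V α) (ρ : B4Req V T BB α) {b' : Bx V α} (hb' : Fm BB b') :
    ∃ b'' : Bx V α, Fm BB b'' ∧ b'' ≤ b' ∧ B4Dec u T BB P₁ z₀ ρ b'' := by
  classical
  obtain ⟨r, β, z₁, R, ⟨q, hq⟩, ⟨W', hW'⟩⟩ := ρ
  by_cases hG : Good (P₁.map (liftI r) ++ R)
  · let qs : Bx V (Sum.elim α β) := fun x => match x with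
      | Sum.inl l => if l ∈ lv P₁ then b' l else q (Sum.inl l)
      | Sum.inr j => q (Sum.inr j)
    have e1 : ∀ l ∈ lv P₁, qs (Sum.inl l) = b' l := fun l hl => if_pos hl
    have e2 : ∀ l, l ∉ lv P₁ → qs (Sum.inl l) = q (Sum.inl l) := fun l hl => if_neg hl
    have hqs : Fm BB qs := by
      intro x
      cases x with
      | inl l =>
          by_cases hl : l ∈ lv P₁
          · rw [e1 l hl]
            exact hb' l
          · rw [e2 l hl]
            exact hq (Sum.inl l)
      | inr j => exact hq (Sum.inr j)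
    have hqs1 : ∀ x, x ∉ Sum.inl '' lv P₁ → qs x ≤ q x := by
      intro x hx
      cases x with
      | inl l =>
          have hl : l ∉ lv P₁ := fun hl => hx ⟨l, hl, rfl⟩
          rw [e2 l hl]
      | inr j => exact le_rfl
    have hmain : ∃ q' : Bx V (Sum.elim α β), Fm BB q' ∧ q' ≤ qs ∧
        (F u (P₁.map (liftI r) ++ R) (jn z₀ z₁) q' W' ∨
          F u (P₁.map (liftI r) ++ R) (jn z₀ z₁) q' W'ᶜ) := by
      by_cases hF : F u (P₁.map (liftI r) ++ R) (jn z₀ z₁) qs W'
      · exact ⟨qs, hqs, le_rfl, Or.inl hF⟩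
      · obtain ⟨q', h1, h2, h3⟩ := (hBB.closed₂ k r α β).2 _ _ _ _ hW' hG hqs hF
        exact ⟨q', h1, h2, Or.inr h3⟩
    obtain ⟨q', h1, h2, h3⟩ := hmain
    let bs : Bx V α := fun l => if l ∈ lv P₁ then q' (Sum.inl l) else b' l
    have e3 : ∀ l ∈ lv P₁, bs l = q' (Sum.inl l) := fun l hl => if_pos hl
    have e4 : ∀ l, l ∉ lv P₁ → bs l = b' l := fun l hl => if_neg hl
    refine ⟨bs, ?_, ?_, fun _ => ⟨q', h1, ?_, ?_, h3⟩⟩
    · intro l
      by_cases hl : l ∈ lv P₁
      · rw [e3 l hl]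
        exact h1 (Sum.inl l)
      · rw [e4 l hl]
        exact hb' l
    · intro l
      by_cases hl : l ∈ lv P₁
      · rw [e3 l hl, ← e1 l hl]
        exact h2 (Sum.inl l)
      · rw [e4 l hl]
    · intro x hx
      exact (h2 x).trans (hqs1 x hx)
    · intro l hl
      exact (e3 l hl).symm
  · exact ⟨b', hb', le_rfl, fun h => absurd h hG⟩

/-- the auxiliary ultrafilter at the leaf `i₀`: (5.1) and (5.2) -/
theorem exists_aux {V : Type} [Countable V] {u : Ultrafilter (V → V)} (hu : Idem u) {T : TFam V}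
    {BB : ∀ m : ℕ, Set (Set (Fin m → V))} (hBB : IsBB u T BB) {k : ℕ} {α : Fin k → ℕ}
    {P₁ P₂ : List (Instr (Fin k))} {i₀ : Fin k} (hG : Good (P₁ ++ Instr.choose i₀ :: P₂)) {b : Bx V α}
    (hb : Fm BB b) {W : Set (St V α)} (hW : InW T W) {z₀ : St V α}
    (hF : F u (P₁ ++ Instr.choose i₀ :: P₂) z₀ b W) :
    ∃ (p : Ultrafilter (St V α)) (q₀ : Bx V α), Fm BB q₀ ∧ q₀ ≤ b ∧
      (∀ᶠ z in (p : Filter (St V α)), F u (Instr.choose i₀ :: P₂) z q₀ W) ∧
      ∀ (r : ℕ) (β : Fin r → ℕ) (z₁ : St V β) (R : List (Instr (Fin k ⊕ Fin r)))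
        (q : Bx V (Sum.elim α β)) (W' : Set (St V (Sum.elim α β))), InW T W' →
        Good (P₁.map (liftI r) ++ R) → Fm BB q →
        (∀ᶠ z in (p : Filter (St V α)), F u R (jn z z₁) q W') →
        ∃ q' : Bx V (Sum.elim α β), Fm BB q' ∧ (∀ x, x ∉ Sum.inl '' lv P₁ → q' x ≤ q x) ∧
          (∀ l ∈ lv P₁, q' (Sum.inl l) ≤ b l) ∧ F u (P₁.map (liftI r) ++ R) (jn z₀ z₁) q' W' := by
  classical
  obtain ⟨hG₂, hdis⟩ := b4_good hG
  have hab : ∀ {L : Type} {n : L → ℕ} {q : Bx V n}, Fm BB q → AllBox u q :=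
    fun {L} {n} {q} hq l => hBB.box _ _ (hq l)
  have := b4_req (V := V) (T := T) (BB := BB) hBB.countable α
  obtain ⟨s, hs0, hsle, hsD⟩ := b4_rs (X := {b' : Bx V α // Fm BB b'}) (ρ := B4Req V T BB α)
    (fun x y => x.1 ≤ y.1) (fun x => le_rfl) (fun ρ x => B4Dec u T BB P₁ z₀ ρ x.1)
    (fun ρ x => by
      obtain ⟨b'', h1, h2, h3⟩ := b4_step hBB P₁ z₀ ρ x.2
      exact ⟨⟨b'', h1⟩, h2, h3⟩) ⟨b, hb⟩
  have hmono : ∀ m j, (s (m + j)).1 ≤ (s m).1 := by
    intro m j
    induction j with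
    | zero => exact le_rfl
    | succ j ih => exact (hsle (m + j)).trans ih
  have hmono' : ∀ {m m'}, m ≤ m' → (s m').1 ≤ (s m).1 := by
    intro m m' h
    obtain ⟨j, rfl⟩ := Nat.exists_eq_add_of_le h
    exact hmono m j
  have hsb : ∀ m, (s m).1 ≤ b := by
    intro m
    have := hmono' (Nat.zero_le m)
    rwa [hs0] at this
  -- the ultrafilter
  let f : Filter (St V α) :=
    { sets := {A | ∃ m, F u P₁ z₀ (s m).1 A}
      univ_sets := ⟨0, b4_univ _ _ _⟩
      sets_of_superset := by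
        rintro A B ⟨m, hm⟩ hAB
        exact ⟨m, hm.mono le_rfl hAB⟩
      inter_sets := by
        rintro A B ⟨m, hm⟩ ⟨m', hm'⟩
        exact ⟨max m m', (hm.mono (hmono' (le_max_left _ _)) subset_rfl).inter
          (hm'.mono (hmono' (le_max_right _ _)) subset_rfl)⟩ }
  have hf : ∀ A : Set (St V α), A ∈ f ↔ ∃ m, F u P₁ z₀ (s m).1 A := fun A => Iff.rfl
  have hne : f.NeBot := by
    refine ⟨fun hbot => ?_⟩
    have h0 : (∅ : Set (St V α)) ∈ f := by
      rw [hbot]
      exact Filter.mem_bot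
    obtain ⟨m, hm⟩ := (hf ∅).mp h0
    exact F.not_empty (hab (s m).2) hm
  obtain ⟨q₀, h1, h2, h3⟩ := lemmaC hBB.box (hBB.closed₁ k α) hG₂ hW (Ultrafilter.of f) hb
  have hpf : ∀ A : Set (St V α), A ∈ f → ∀ᶠ z in ((Ultrafilter.of f : Ultrafilter (St V α)) :
      Filter (St V α)), z ∈ A := fun A hA => Ultrafilter.of_le f hA
  refine ⟨Ultrafilter.of f, q₀, h1, h2, ?_, ?_⟩
  · -- (5.1)
    rcases h3 with h3 | h3
    · exact h3
    · exfalso
      let q₁ : Bx V α := fun l => if l ∈ lv P₁ then b l else q₀ l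
      have e1 : ∀ l ∈ lv P₁, q₁ l = b l := fun l hl => if_pos hl
      have e2 : ∀ l, l ∉ lv P₁ → q₁ l = q₀ l := fun l hl => if_neg hl
      have hq₁ : Fm BB q₁ := by
        intro l
        by_cases hl : l ∈ lv P₁
        · rw [e1 l hl]
          exact hb l
        · rw [e2 l hl]
          exact h1 l
      have hle : q₁ ≤ b := by
        intro l
        by_cases hl : l ∈ lv P₁
        · rw [e1 l hl]
        · rw [e2 l hl]
          exact h2 l
      have h4 : F u (P₁ ++ Instr.choose i₀ :: P₂) z₀ q₁ Wᶜᶜ := by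
        rw [compl_compl]
        exact hF.mono hle subset_rfl
      have h5 := F.split (hab hq₁) h4
      have h6 : F u P₁ z₀ b {z' | ¬ F u (Instr.choose i₀ :: P₂) z' q₀ Wᶜ} := by
        have h7 : F u P₁ z₀ b {z' | ¬ F u (Instr.choose i₀ :: P₂) z' q₁ Wᶜ} :=
          h5.congr_box (hab hq₁) (fun l hl => by rw [e1 l hl])
        refine h7.mono le_rfl ?_
        intro z' hz' hF'
        refine hz' (hF'.congr_box (hab h1) (fun l hl => ?_))
        rw [e2 l (fun hl' => hdis l hl' hl)]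
      have h8 : {z' | ¬ F u (Instr.choose i₀ :: P₂) z' q₀ Wᶜ} ∈ f := by
        rw [hf]
        refine ⟨0, ?_⟩
        rw [hs0]
        exact h6
      obtain ⟨z', hz', hz''⟩ := (h3.and (hpf _ h8)).exists
      exact hz'' hz'
  · -- (5.2)
    intro r β z₁ R q W' hW' hGR hq hev
    obtain ⟨m, hm⟩ := hsD ⟨r, β, z₁, R, ⟨q, hq⟩, ⟨W', hW'⟩⟩
    obtain ⟨q', g1, g2, g3, g4⟩ := hm hGR
    have g2' : ∀ x, x ∉ Sum.inl '' lv P₁ → q' x ≤ q x := g2
    have g5 : ∀ l ∈ lv P₁, q' (Sum.inl l) ≤ b l := by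
      intro l hl
      rw [g3 l hl]
      exact hsb m l
    rcases g4 with g4 | g4
    · exact ⟨q', g1, g2, g5, g4⟩
    · exfalso
      have k1 := F.split (hab g1) g4
      have k2 := b4_down (hab g1) k1
      have k3 : F u P₁ z₀ (s m).1 {z | jn z z₁ ∈ {z' | ¬ F u R z' q' W'}} :=
        k2.congr_box (fun l => hab g1 (Sum.inl l)) (fun l hl => (g3 l hl).ge)
      have k4 : {z | jn z z₁ ∈ {z' | ¬ F u R z' q' W'}} ∈ f := (hf _).mpr ⟨m, k3⟩
      obtain ⟨z', hz', hz''⟩ := (hev.and (hpf _ k4)).exists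
      refine hz'' (hz'.congr_box (hab hq) (fun x hx => g2' x ?_))
      intro hx'
      rw [← b4_lv_map] at hx'
      exact (b4_good hGR).2 x hx' hx

end Pool.MP4fb322AA
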