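import Pool.Agent.Lib.MP_4fb322_lc_h71.Defs2
import Pool.Agent.Lib.MP_4fb322_lc_h71.B3

set_option autoImplicit false

/-! Row B5 (MP_4fb322_lc, all arities, positions): jointly generic positions. -/

namespace Pool.MP4fb322AA

open Filter
open Pool.Agent.Lib.MP_4fb322_lc_q (Tm)

/-- generic decreasing sequences -/
theorem exists_gseq {C : Type} [Preorder C] (ok : C → Prop) {J : Type} [Countable J] (D : J → Set C)
    (hD : ∀ j c, ok c → ∃ c', c' ∈ D j ∧ ok c' ∧ c' ≤ c) (c₀ : C) (h₀ : ok c₀) :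
    ∃ s : ℕ → C, s 0 = c₀ ∧ (∀ n, ok (s n)) ∧ Antitone s ∧ ∀ j, ∃ n, s n ∈ D j := by
  classical
  have : Encodable J := Encodable.ofCountable J
  have hD' : ∀ (n : ℕ) (c : {c // ok c}), ∃ c' : {c // ok c}, c'.1 ≤ c.1 ∧
      ∀ j ∈ Encodable.decode (α := J) n, c'.1 ∈ D j := by
    intro n c
    rcases h : Encodable.decode (α := J) n with _ | j
    · exact ⟨c, le_rfl, fun j hj => by simp at hj⟩
    · obtain ⟨c', h1, h2, h3⟩ := hD j c.1 c.2
      refine ⟨⟨c', h2⟩, h3, fun j' hj' => ?_⟩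
      simp only [Option.mem_def, Option.some.injEq] at hj'
      subst hj'
      exact h1
  choose nx h1 h2 using hD'
  let s : ℕ → {c // ok c} := fun n => Nat.rec ⟨c₀, h₀⟩ (fun n c => nx n c) n
  refine ⟨fun n => (s n).1, rfl, fun n => (s n).2, antitone_nat_of_succ_le (fun n => h1 n (s n)),
    fun j => ⟨Encodable.encode j + 1, ?_⟩⟩
  exact h2 (Encodable.encode j) (s (Encodable.encode j)) j (Encodable.encodek j)

/-- a position containing a decreasing sequence of boxes -/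
theorem exists_pos {V : Type} {u : Ultrafilter (V → V)} (hu : Idem u) {m : ℕ}
    (b : ℕ → Set (Fin m → V)) (hb : ∀ n, IsBox u (b n)) (ha : Antitone b) :
    ∃ v : Ultrafilter (Fin m → V), Pos u v ∧ ∀ n, b n ∈ v := by
  have h1 : ∀ n, ∃ z, z ∈ b n := fun n => (hb n).1
  choose z hz using h1
  let v : Ultrafilter (Fin m → V) := (Filter.hyperfilter ℕ).bind (fun n => law u (z n))
  have hv : ∀ A : Set (Fin m → V), A ∈ v ↔ ∀ᶠ n in (Filter.hyperfilter ℕ : Filter ℕ), A ∈ law u (z n) :=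
    fun A => Iff.rfl
  refine ⟨v, ?_, ?_⟩
  · intro A
    rw [hv]
    have : (∀ᶠ z in (v : Filter _), ∀ᶠ h in (u : Filter (V → V)), h ∘ z ∈ A) ↔
        ∀ᶠ n in (Filter.hyperfilter ℕ : Filter ℕ),
          {y : Fin m → V | ∀ᶠ h in (u : Filter (V → V)), h ∘ y ∈ A} ∈ law u (z n) := Iff.rfl
    rw [this]
    refine Filter.eventually_congr (Filter.Eventually.of_forall fun n => ?_)
    exact law_pos hu (z n) A
  · intro k
    rw [hv]
    have : ∀ᶠ n in (Filter.hyperfilter ℕ : Filter ℕ), k ≤ n := by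
      have : ∀ᶠ n in (Filter.atTop : Filter ℕ), k ≤ n := Filter.eventually_ge_atTop k
      rw [← Nat.cofinite_eq_atTop] at this
      exact Filter.hyperfilter_le_cofinite this
    filter_upwards [this] with n hn
    rw [mem_law]
    filter_upwards [(hb n).2 (z n) (hz n)] with h hh
    exact ha hn hh

/-- extension of a function on the range of an injective `E` -/
theorem exists_ext {Λ : Type} {β : Λ → Type} {r : ℕ} (E : Fin r → Λ) (hE : Function.Injective E)
    (c : ∀ a, β a) (d : ∀ j, β (E j)) :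
    ∃ c' : ∀ a, β a, (∀ j, c' (E j) = d j) ∧ ∀ a, (∀ j, E j ≠ a) → c' a = c a := by
  classical
  refine ⟨fun a => if h : ∃ j, E j = a then cast (congrArg β h.choose_spec) (d h.choose) else c a,
    fun j => ?_, fun a ha => ?_⟩
  · have h : ∃ j', E j' = E j := ⟨j, rfl⟩
    have hj : h.choose = j := hE h.choose_spec
    simp only [h, dite_true]
    have key : ∀ (j' : Fin r) (e : β (E j') = β (E j)), j' = j → cast e (d j') = d j := by
      intro j' e hjj
      subst hjj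
      rfl
    exact key _ _ hj
  · have h : ¬ ∃ j, E j = a := fun ⟨j, hj⟩ => ha j hj
    simp only [h, dite_false]

instance instr_countable {L : Type} [Finite L] : Countable (Instr L) := by
  have : Function.Injective (fun i : Instr L => (match i with
    | Instr.choose l => (Sum.inl l : L ⊕ Set L)
    | Instr.app S => Sum.inr S)) := by
    intro i i' h
    cases i <;> cases i' <;> simp_all
  exact this.countable

theorem fm_countable {V : Type} {u : Ultrafilter (V → V)} {T : TFam V}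
    {BB : ∀ m : ℕ, Set (Set (Fin m → V))} (hBB : IsBB u T BB) {L : Type} [Finite L] (n : L → ℕ) :
    Countable {q : Bx V n // Fm BB q} := by
  have : ∀ l, Countable (BB (n l)) := fun l => (hBB.countable (n l)).to_subtype
  have hinj : Function.Injective (fun (q : {q : Bx V n // Fm BB q}) (l : L) =>
      (⟨q.1 l, q.2 l⟩ : BB (n l))) := by
    intro q q' h
    apply Subtype.ext
    funext l
    have := congrFun h l
    simpa using this
  exact hinj.countable

theorem inW_countable {V : Type} (T : TFam V) {L : Type} [Finite L] (n : L → ℕ) :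
    Countable {W : Set (St V n) // InW T W} := by
  have : ∀ N, Countable (T.T N) := fun N => (T.countable N).to_subtype
  have hs : Function.Surjective (fun (x : Σ N : ℕ, (Fin N → Σ l : L, Fin (n l)) × (T.T N)) =>
      (⟨cyl x.2.1 x.2.2.1, x.1, x.2.1, x.2.2.1, x.2.2.2, rfl⟩ : {W : Set (St V n) // InW T W})) := by
    rintro ⟨W, N, G, W₀, h1, rfl⟩
    exact ⟨⟨N, G, W₀, h1⟩, rfl⟩
  exact hs.countable

/-- the main labels: jointly generic positions -/
theorem exists_main {V : Type} [Countable V] {u : Ultrafilter (V → V)} (hu : Idem u) {T : TFam V}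
    {BB : ∀ m : ℕ, Set (Set (Fin m → V))} (hBB : IsBB u T BB) {Λ : Type} [Countable Λ] (sz : Λ → ℕ)
    (start : ∀ a : Λ, Set (Fin (sz a) → V)) (hstart : ∀ a, start a ∈ BB (sz a)) {ι : Type} [Countable ι]
    (kk : ι → ℕ) (αα : ∀ i, Fin (kk i) → ℕ) (pp : ∀ i, Ultrafilter (St V (αα i))) :
    ∃ v : ∀ a : Λ, Ultrafilter (Fin (sz a) → V), (∀ a, Pos u (v a)) ∧ (∀ a, start a ∈ v a) ∧
      GenStep u T BB sz v ∧ ∀ i, GenDec u T BB sz v (kk i) (αα i) (pp i) := by
  classical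
  -- the data of the two kinds of dense sets
  let J₁ : Type := Σ (k r : ℕ) (α : Fin k → ℕ) (E : {E : Fin r → Λ // Function.Injective E}),
    Instr (Fin k ⊕ Fin r) × List (Instr (Fin k ⊕ Fin r)) × St V (Sum.elim α (fun j => sz (E.1 j))) ×
      {q : Bx V (Sum.elim α (fun j => sz (E.1 j))) // Fm BB q} ×
      {W : Set (St V (Sum.elim α (fun j => sz (E.1 j)))) // InW T W}
  let J₂ : Type := Σ (i : ι) (r : ℕ) (E : {E : Fin r → Λ // Function.Injective E}),
    List (Instr (Fin (kk i) ⊕ Fin r)) × St V (fun j => sz (E.1 j)) ×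
      {q : Bx V (Sum.elim (αα i) (fun j => sz (E.1 j))) // Fm BB q} ×
      {W : Set (St V (Sum.elim (αα i) (fun j => sz (E.1 j)))) // InW T W}
  have c1 : Countable J₁ := by
    have h1 : ∀ (k r : ℕ) (α : Fin k → ℕ) (E : {E : Fin r → Λ // Function.Injective E}),
        Countable {q : Bx V (Sum.elim α (fun j => sz (E.1 j))) // Fm BB q} :=
      fun k r α E => fm_countable hBB _
    have h2 : ∀ (k r : ℕ) (α : Fin k → ℕ) (E : {E : Fin r → Λ // Function.Injective E}),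
        Countable {W : Set (St V (Sum.elim α (fun j => sz (E.1 j)))) // InW T W} :=
      fun k r α E => inW_countable T _
    infer_instance
  have c2 : Countable J₂ := by
    have h1 : ∀ (i : ι) (r : ℕ) (E : {E : Fin r → Λ // Function.Injective E}),
        Countable {q : Bx V (Sum.elim (αα i) (fun j => sz (E.1 j))) // Fm BB q} :=
      fun i r E => fm_countable hBB _
    have h2 : ∀ (i : ι) (r : ℕ) (E : {E : Fin r → Λ // Function.Injective E}),
        Countable {W : Set (St V (Sum.elim (αα i) (fun j => sz (E.1 j)))) // InW T W} :=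
      fun i r E => inW_countable T _
    infer_instance
  -- the conditions
  let C : Type := ∀ a : Λ, Set (Fin (sz a) → V)
  let ok : C → Prop := fun c => ∀ a, c a ∈ BB (sz a)
  let D₁ : J₁ → Set C := fun x =>
    {c | F u (x.2.2.2.2.1 :: x.2.2.2.2.2.1) x.2.2.2.2.2.2.1 x.2.2.2.2.2.2.2.1.1 x.2.2.2.2.2.2.2.2.1 →
      (∃ j, c (x.2.2.2.1.1 j) ∩ x.2.2.2.2.2.2.2.1.1 (Sum.inr j) = ∅) ∨
      ∃ q' : Bx V (Sum.elim x.2.2.1 (fun j => sz (x.2.2.2.1.1 j))), Fm BB q' ∧
        q' ≤ x.2.2.2.2.2.2.2.1.1 ∧ (∀ j, c (x.2.2.2.1.1 j) ⊆ q' (Sum.inr j)) ∧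
        Step u x.2.2.2.2.1 x.2.2.2.2.2.2.1 q'
          (fun z' => F u x.2.2.2.2.2.1 z' q' x.2.2.2.2.2.2.2.2.1)}
  let D₂ : J₂ → Set C := fun x =>
    {c | Good x.2.2.2.1 →
      (∃ j, c (x.2.2.1.1 j) ∩ x.2.2.2.2.2.1.1 (Sum.inr j) = ∅) ∨
      ∃ q' : Bx V (Sum.elim (αα x.1) (fun j => sz (x.2.2.1.1 j))), Fm BB q' ∧
        q' ≤ x.2.2.2.2.2.1.1 ∧ (∀ j, c (x.2.2.1.1 j) ⊆ q' (Sum.inr j)) ∧
        ((∀ᶠ z in (pp x.1 : Filter (St V (αα x.1))), F u x.2.2.2.1 (jn z x.2.2.2.2.1) q'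
            x.2.2.2.2.2.2.1) ∨
          (∀ᶠ z in (pp x.1 : Filter (St V (αα x.1))), F u x.2.2.2.1 (jn z x.2.2.2.2.1) q'
            (x.2.2.2.2.2.2.1)ᶜ))}
  -- refining a condition by a family of boxes
  have refine_c : ∀ (c : C), ok c → ∀ (k r : ℕ) (α : Fin k → ℕ) (E : Fin r → Λ),
      Function.Injective E → ∀ (q : Bx V (Sum.elim α (fun j => sz (E j)))), Fm BB q →
      (¬ ∃ j, c (E j) ∩ q (Sum.inr j) = ∅) →
      ∃ q₁ : Bx V (Sum.elim α (fun j => sz (E j))), Fm BB q₁ ∧ q₁ ≤ q ∧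
        ∀ q' : Bx V (Sum.elim α (fun j => sz (E j))), Fm BB q' → q' ≤ q₁ →
          ∃ c', ok c' ∧ c' ≤ c ∧ ∀ j, c' (E j) ⊆ q' (Sum.inr j) := by
    intro c hc k r α E hE q hq hne
    refine ⟨fun l => match l with
      | Sum.inl l => q (Sum.inl l)
      | Sum.inr j => c (E j) ∩ q (Sum.inr j), ?_, ?_, ?_⟩
    · rintro (l | j)
      · exact hq (Sum.inl l)
      · refine hBB.inter _ _ (hc (E j)) _ (hq (Sum.inr j)) ?_
        rw [Set.nonempty_iff_ne_empty]
        exact fun h => hne ⟨j, h⟩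
    · rintro (l | j)
      · exact le_rfl
      · exact Set.inter_subset_right
    · intro q' hq' hqq
      obtain ⟨c', h1, h2⟩ := exists_ext (β := fun a => Set (Fin (sz a) → V)) E hE c
        (fun j => q' (Sum.inr j))
      refine ⟨c', fun a => ?_, fun a => ?_, fun j => (h1 j).le⟩
      · by_cases ha : ∃ j, E j = a
        · obtain ⟨j, rfl⟩ := ha
          rw [h1 j]
          exact hq' (Sum.inr j)
        · rw [h2 a (fun j hj => ha ⟨j, hj⟩)]
          exact hc a
      · by_cases ha : ∃ j, E j = a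
        · obtain ⟨j, rfl⟩ := ha
          rw [h1 j]
          exact (hqq (Sum.inr j)).trans Set.inter_subset_left
        · rw [h2 a (fun j hj => ha ⟨j, hj⟩)]
  obtain ⟨s, hs0, hsok, hsa, hsD⟩ := exists_gseq (C := C) ok (J := J₁ ⊕ J₂) (Sum.elim D₁ D₂) (by
    rintro (x | x) c hc
    · obtain ⟨k, r, α, ⟨E, hE⟩, i, P, z, ⟨q, hq⟩, ⟨W, hW⟩⟩ := x
      by_cases hF : F u (i :: P) z q W
      swap
      · exact ⟨c, fun h => absurd h hF, hc, le_rfl⟩
      by_cases hne : ∃ j, c (E j) ∩ q (Sum.inr j) = ∅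
      · exact ⟨c, fun _ => Or.inl hne, hc, le_rfl⟩
      · obtain ⟨q₁, h1, h2, h3⟩ := refine_c c hc k r α E hE q hq hne
        obtain ⟨q', h4, h5, h6⟩ := (hBB.closed₂ k r α (fun j => sz (E j))).1 i P z q₁ W hW h1
          (hF.mono h2 subset_rfl)
        obtain ⟨c', h7, h8, h9⟩ := h3 q' h4 h5
        exact ⟨c', fun _ => Or.inr ⟨q', h4, h5.trans h2, h9, h6⟩, h7, h8⟩
    · obtain ⟨i, r, ⟨E, hE⟩, P, z₁, ⟨q, hq⟩, ⟨W, hW⟩⟩ := x
      by_cases hG : Good P
      swap
      · exact ⟨c, fun h => absurd h hG, hc, le_rfl⟩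
      by_cases hne : ∃ j, c (E j) ∩ q (Sum.inr j) = ∅
      · exact ⟨c, fun _ => Or.inl hne, hc, le_rfl⟩
      · obtain ⟨q₁, h1, h2, h3⟩ := refine_c c hc (kk i) r (αα i) E hE q hq hne
        obtain ⟨q', h4, h5, h6⟩ := lemmaC hBB.box (hBB.closed₂ (kk i) r (αα i) (fun j => sz (E j)))
          hG hW ((pp i).map (fun z => jn z z₁)) h1
        obtain ⟨c', h7, h8, h9⟩ := h3 q' h4 h5
        refine ⟨c', fun _ => Or.inr ⟨q', h4, h5.trans h2, h9, ?_⟩, h7, h8⟩
        exact h6) start hstart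
  have hpos : ∀ a, ∃ v : Ultrafilter (Fin (sz a) → V), Pos u v ∧ ∀ n, s n a ∈ v := fun a =>
    exists_pos hu (fun n => s n a) (fun n => hBB.box _ _ (hsok n a)) (fun n m h => hsa h a)
  choose v hv hsv using hpos
  have hcontr : ∀ (n : ℕ) (a : Λ) (b : Set (Fin (sz a) → V)), b ∈ v a → s n a ∩ b ≠ ∅ := by
    intro n a b hb h
    have := Filter.inter_mem (hsv a n) hb
    rw [h] at this
    exact (v a).empty_notMem this
  refine ⟨v, hv, fun a => ?_, ?_, ?_⟩
  · have := hsv a 0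
    rw [hs0] at this
    exact this
  · intro k r α E hE i P z q W hW hq hqv hF
    obtain ⟨n, hn⟩ := hsD (Sum.inl ⟨k, r, α, ⟨E, hE⟩, i, P, z, ⟨q, hq⟩, ⟨W, hW⟩⟩)
    rcases hn hF with ⟨j, hj⟩ | ⟨q', h1, h2, h3, h4⟩
    · exact absurd hj (hcontr n (E j) _ (hqv j))
    · exact ⟨q', h1, h2, fun j => Filter.mem_of_superset (hsv (E j) n) (h3 j), h4⟩
  · intro i r E hE z₁ P q W hW hG hq hqv
    obtain ⟨n, hn⟩ := hsD (Sum.inr ⟨i, r, ⟨E, hE⟩, P, z₁, ⟨q, hq⟩, ⟨W, hW⟩⟩)
    rcases hn hG with ⟨j, hj⟩ | ⟨q', h1, h2, h3, h4⟩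
    · exact absurd hj (hcontr n (E j) _ (hqv j))
    · exact ⟨q', h1, h2, fun j => Filter.mem_of_superset (hsv (E j) n) (h3 j), h4⟩

end Pool.MP4fb322AA
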