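import Pool.Agent.Lib.MP_4fb322_lc_h71.Defs4
import Pool.Agent.Lib.MP_4fb322_lc_h71.B10

set_option autoImplicit false

/-! Row C1 (MP_4fb322_lc, all arities, positions). -/

namespace Pool.MP4fb322AA

open Filter
open Pool.Agent.Lib.MP_4fb322_lc_q (Tm Sub HasEq FinTy Nip Mv Pt pts mvPt SYS FS Real RealI FLe MIN)

variable {I : Type} {ar : I → ℕ} {V : Type} {M : Str ar V} {u : Ultrafilter (V → V)}
  {BB : ∀ m : ℕ, Set (Set (Fin m → V))}

theorem LS.res (Y : LS M u BB) (hu : Idem u) (v₀ : V) {s t : Tm Y.Λ} (h : Sub s t) (hnd : t.lv.Nodup)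
    (i : I) (a : Fin (ar i) → PinT u ⊕ Pt Y.sz) (ha : ∀ j, a j ∈ pts Y.sz s Set.univ) :
    a ∈ Y.S v₀ s i ↔ a ∈ Y.S v₀ t i := by
  refine tr_sub hu Y.pos h hnd ?_
  intro z z' hzz
  have e : (fun j => Y.val z (a j)) = (fun j => Y.val z' (a j)) := by
    funext j
    rcases ha j with ⟨p, -, hp⟩ | ⟨q, hq, hp⟩
    · rw [hp]
      rfl
    · rw [hp]
      change z q.1 q.2 = z' q.1 q.2
      rw [hzz q.1 hq]
  simp only [Set.mem_ofPred_eq]
  rw [e]

theorem LS.refl' (Y : LS M u BB) (a : Y.Λ) {Q : Set (Mv Y.sz a)} (hQ : Q ∈ Y.FF a) :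
    (⟨a, fun x => x⟩ : Mv Y.sz a) ∈ Q := by
  obtain ⟨b, -, hb, hbQ⟩ := hQ
  exact hbQ hb

theorem LS.minj (Y : LS M u BB) (a : Y.Λ) : ∀ᶠ p in Y.FF a, Function.Injective p.2 := by
  obtain ⟨b, hb, hv, hinj⟩ := Y.inj a
  refine ⟨b, hb, hv, ?_⟩
  intro p hp
  have hp' : {w : Fin (Y.sz p.1) → V | w ∘ p.2 ∈ b} ∈ Y.v p.1 := hp
  obtain ⟨w, hw⟩ := (Y.v p.1).nonempty_of_mem hp'
  exact Function.Injective.of_comp (hinj _ hw).1

theorem LS.base (Y : LS M u BB) (v₀ : V) (t : ℕ → Tm Y.Λ) (pn : ℕ → Finset (PinT u)) (a : Y.Λ)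
    {Q : Set (Mv Y.sz a)} (hQ : Q ∈ Y.FF a) : ∃ Q0 ⊆ Q, (Y.sys v₀ t pn).Opn a Q0 := by
  obtain ⟨b, hbB, hbv, hbQ⟩ := hQ
  refine ⟨Y.mvs a b, hbQ, ⟨b, hbB, hbv, subset_rfl⟩, ?_⟩
  intro p hp
  have hp' : {w : Fin (Y.sz p.1) → V | w ∘ p.2 ∈ b} ∈ Y.v p.1 := hp
  exact ⟨{w : Fin (Y.sz p.1) → V | w ∘ p.2 ∈ b},
    Y.pull _ _ b hbB p.2 ((Y.v p.1).nonempty_of_mem hp'), hp', fun r hr => hr⟩

/-- a truth value read off from the type -/
private theorem c1_read {L : Type} {n : L → ℕ} {x : ∀ l : L, Ultrafilter (Fin (n l) → V)}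
    {P : List (Instr L)} {z : St V n} {N : ℕ} {A : Str ar (Fin N)} (g : St V n → Fin N → V)
    (h : Tr u x P z {f | pl (g f) M = A}) (i : I) (κ : Fin (ar i) → Fin N) :
    Tr u x P z {f | (fun j => g f (κ j)) ∈ M i} ↔ κ ∈ A i := by
  constructor
  · intro h2
    have h3 : Tr u x P z ({f | pl (g f) M = A} ∩ {f | (fun j => g f (κ j)) ∈ M i}) := Tr.inter h h2
    obtain ⟨f, hf1, hf2⟩ := (trU u x P z).nonempty_of_mem (mem_trU.mpr h3)
    rw [← hf1]
    exact hf2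
  · intro h2
    refine Tr.mono ?_ h
    intro f hf
    have hf' : pl (g f) M = A := hf
    rw [← hf'] at h2
    exact h2

/-- the finitely many types: one of them is taken by most states -/
private theorem c1_type (hF : FinTy M) {L : Type} {n : L → ℕ}
    {x : ∀ l : L, Ultrafilter (Fin (n l) → V)} {P : List (Instr L)} {z : St V n} {N : ℕ}
    (g : St V n → Fin N → V) : ∃ A : Str ar (Fin N), Tr u x P z {f | pl (g f) M = A} := by
  have hfin := hF N
  have h1 : Set.range (fun f : Fin N → V => Pool.Agent.Lib.MP_4fb322_lc_q.pull f M) ∈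
      (trU u x P z).map (fun f => pl (g f) M) := by
    rw [Ultrafilter.mem_map]
    have : (fun f => pl (g f) M) ⁻¹'
        Set.range (fun f : Fin N → V => Pool.Agent.Lib.MP_4fb322_lc_q.pull f M) = Set.univ := by
      ext f
      simp only [Set.mem_preimage, Set.mem_range, Set.mem_univ, iff_true]
      exact ⟨g f, rfl⟩
    rw [this]
    exact Filter.univ_mem
  obtain ⟨A, -, hA⟩ := Ultrafilter.eq_pure_of_finite_mem hfin h1
  refine ⟨A, ?_⟩
  have h2 : ({A} : Set (Str ar (Fin N))) ∈ (trU u x P z).map (fun f => pl (g f) M) := by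
    rw [hA]
    exact Set.mem_singleton A
  exact mem_trU.mp (Ultrafilter.mem_map.mp h2)

theorem LS.lcAx (Y : LS M u BB) (hF : FinTy M) (v₀ : V) (t : ℕ → Tm Y.Λ) (pn : ℕ → Finset (PinT u))
    (y : Tm Y.Λ) (hy : y.lv.Nodup) (K : Finset (PinT u)) :
    ∃ Q : (l : Y.Λ) → Set (Mv Y.sz l), (∀ l, Q l ∈ Y.FF l) ∧ ∀ e : (l : Y.Λ) → Mv Y.sz l,
      Set.InjOn (fun l => (e l).1) {l | l ∈ y.lv} → (∀ l ∈ y.lv, e l ∈ Q l) →
        (Y.sys v₀ t pn).Agree (K : Set (PinT u)) y (y.map fun l => (e l).1) e := by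
  classical
  -- enumeration of the pins and of the coordinates
  let X : Type := K ⊕ (Σ a : {a : Y.Λ // a ∈ y.lv}, Fin (Y.sz a.1))
  obtain ⟨N, ⟨E⟩⟩ := Finite.exists_equiv_fin X
  let cx : X → V ⊕ (Σ a : Y.Λ, Fin (Y.sz a)) := fun s =>
    match s with
    | Sum.inl p => Sum.inl p.1.1
    | Sum.inr q => Sum.inr ⟨q.1.1, q.2⟩
  let c : Fin N → V ⊕ (Σ a : Y.Λ, Fin (Y.sz a)) := fun i => cx (E.symm i)
  have hc : ∀ i s, c i = Sum.inr s → s.1 ∈ y.lv := by
    intro i s hs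
    rcases hE : E.symm i with p | q
    · simp only [c, cx, hE] at hs
      cases hs
    · simp only [c, cx, hE] at hs
      cases hs
      exact q.1.2
  obtain ⟨A, hA⟩ := c1_type (u := u) (x := Y.v) (P := prog y) (z := fun _ _ => v₀) hF
    (fun f i => evc f (c i))
  obtain ⟨b, hb, hbe⟩ := Y.lc y hy N c hc A _ hA
  refine ⟨fun l => Y.mvs l (b l), fun l => ⟨b l, (hb l).1, (hb l).2, subset_rfl⟩, ?_⟩
  intro e he heQ
  have hB := hbe e he (fun a ha => heQ a ha) (fun _ _ => v₀)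
  intro i a ha
  -- the indices of the points
  have hκ : ∀ j, ∃ k : Fin N, (∀ f : St V Y.sz, evc f (c k) = Y.val f (a j)) ∧
      ∀ f : St V Y.sz, Sum.elim (fun p => p) (fun s => f (e s.1).1 ((e s.1).2 s.2)) (c k) =
        Y.val f (mvPt e (a j)) := by
    intro j
    rcases ha j with ⟨p, hp, hpj⟩ | ⟨q, hq, hqj⟩
    · refine ⟨E (Sum.inl ⟨p, hp⟩), ?_, ?_⟩
      · intro f
        rw [hpj]
        simp only [c, Equiv.symm_apply_apply]
        rfl
      · intro f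
        rw [hpj]
        simp only [c, Equiv.symm_apply_apply]
        rfl
    · refine ⟨E (Sum.inr ⟨⟨q.1, hq⟩, q.2⟩), ?_, ?_⟩
      · intro f
        rw [hqj]
        simp only [c, Equiv.symm_apply_apply]
        rfl
      · intro f
        rw [hqj]
        simp only [c, Equiv.symm_apply_apply]
        rfl
  choose κ hκ1 hκ2 using hκ
  have h1 := c1_read (M := M) (fun (f : St V Y.sz) i => evc f (c i)) hA i κ
  have h2 := c1_read (M := M) (fun (f : St V Y.sz) i =>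
    Sum.elim (fun p => p) (fun s => f (e s.1).1 ((e s.1).2 s.2)) (c i)) hB i κ
  simp only [hκ1] at h1
  simp only [hκ2] at h2
  exact h1.trans h2.symm

end Pool.MP4fb322AA
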