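import Pool.Agent.Lib.MP_4fb322_lc_h71.Defs4
import Pool.Agent.Lib.MP_4fb322_lc_h71.B10
import Pool.Agent.Lib.MP_4fb322_lc_h71.B12

set_option autoImplicit false

/-! Row C2 (MP_4fb322_lc, all arities, positions). -/

namespace Pool.MP4fb322AA

open Filter
open Pool.Agent.Lib.MP_4fb322_lc_q (Tm Sub HasEq FinTy Nip Mv Pt pts mvPt SYS FS Real RealI FLe MIN)

variable {I : Type} {ar : I → ℕ} {V : Type} {M : Str ar V} {u : Ultrafilter (V → V)}
  {BB : ∀ m : ℕ, Set (Set (Fin m → V))}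

namespace C2

/-- the points of the term `y` with the pins `K`, as a type -/
abbrev PtT (Y : LS M u BB) (y : Tm Y.Λ) (K : Finset (PinT u)) : Type :=
  {x : PinT u ⊕ Pt Y.sz // x ∈ pts Y.sz y (K : Set (PinT u))}

theorem finite_pts (Y : LS M u BB) (y : Tm Y.Λ) (K : Finset (PinT u)) : Finite (PtT Y y K) := by
  classical
  have h1 : (⋃ l ∈ {l | l ∈ y.lv},
      Set.range (fun i : Fin (Y.sz l) => (Sum.inr ⟨l, i⟩ : PinT u ⊕ Pt Y.sz))).Finite :=
    Set.Finite.biUnion (List.finite_toSet y.lv) fun l _ => Set.finite_range _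
  have h2 : ((fun p => (Sum.inl p : PinT u ⊕ Pt Y.sz)) '' (K : Set (PinT u))).Finite :=
    K.finite_toSet.image _
  refine (h2.union h1).subset ?_
  rintro x (⟨p, hp, rfl⟩ | ⟨q, hq, rfl⟩)
  · exact Or.inl ⟨p, hp, rfl⟩
  · exact Or.inr (Set.mem_biUnion (show q.1 ∈ {l | l ∈ y.lv} from hq) ⟨q.2, rfl⟩)

/-- the law of the points -/
noncomputable def lw (Y : LS M u BB) (v₀ : V) (y : Tm Y.Λ) (K : Finset (PinT u)) :
    Ultrafilter (PtT Y y K → V) :=
  (trU u Y.v (prog y) (fun _ _ => v₀)).map (fun f x => Y.val f x.1)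

theorem mem_lw {Y : LS M u BB} {v₀ : V} {y : Tm Y.Λ} {K : Finset (PinT u)}
    {A : Set (PtT Y y K → V)} : A ∈ lw Y v₀ y K ↔
      Tr u Y.v (prog y) (fun _ _ => v₀) {f | (fun x : PtT Y y K => Y.val f x.1) ∈ A} := Iff.rfl

theorem dep_pts (Y : LS M u BB) (y : Tm Y.Λ) (K : Finset (PinT u)) (A : Set (PtT Y y K → V)) :
    Dep {f : St V Y.sz | (fun x : PtT Y y K => Y.val f x.1) ∈ A} {l | l ∈ y.lv} := by
  intro z z' h
  have : (fun x : PtT Y y K => Y.val z x.1) = (fun x : PtT Y y K => Y.val z' x.1) := by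
    funext x
    obtain ⟨x, hx | hx⟩ := x
    · obtain ⟨p, hp, rfl⟩ := hx
      rfl
    · obtain ⟨q, hq, rfl⟩ := hx
      show z q.1 q.2 = z' q.1 q.2
      rw [h q.1 hq]
  show (fun x : PtT Y y K => Y.val z x.1) ∈ A ↔ (fun x : PtT Y y K => Y.val z' x.1) ∈ A
  rw [this]

theorem posX_lw (Y : LS M u BB) (hu : Idem u) (v₀ : V) (y : Tm Y.Λ) (K : Finset (PinT u)) :
    PosX u (lw Y v₀ y K) := by
  intro A
  rw [mem_lw, tr_pos hu Y.pos (dep_pts Y y K A)]
  show _ ↔ {z | ∀ᶠ h in (u : Filter (V → V)), h ∘ z ∈ A} ∈ lw Y v₀ y K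
  rw [mem_lw]
  have h1 : ∀ f : St V Y.sz, (∀ᶠ h in (u : Filter (V → V)),
      (fun l => h ∘ f l) ∈ {f : St V Y.sz | (fun x : PtT Y y K => Y.val f x.1) ∈ A}) ↔
      ∀ᶠ h in (u : Filter (V → V)), h ∘ (fun x : PtT Y y K => Y.val f x.1) ∈ A := by
    intro f
    have hK : ∀ᶠ h in (u : Filter (V → V)), ∀ p ∈ K, h p.1 = p.1 := by
      rw [Filter.eventually_all_finset]
      intro p _
      exact p.2
    refine Filter.eventually_congr ?_
    filter_upwards [hK] with h hh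
    have h2 : (fun x : PtT Y y K => Y.val (fun l => h ∘ f l) x.1) =
        h ∘ (fun x : PtT Y y K => Y.val f x.1) := by
      funext x
      obtain ⟨x, hx | hx⟩ := x
      · obtain ⟨p, hp, rfl⟩ := hx
        exact (hh p hp).symm
      · obtain ⟨q, hq, rfl⟩ := hx
        rfl
    show (fun x : PtT Y y K => Y.val (fun l => h ∘ f l) x.1) ∈ A ↔ _
    rw [h2]
  have h2 : {z' : St V Y.sz | ∀ᶠ h in (u : Filter (V → V)),
      (fun l => h ∘ z' l) ∈ {f : St V Y.sz | (fun x : PtT Y y K => Y.val f x.1) ∈ A}} =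
      {f | (fun x : PtT Y y K => Y.val f x.1) ∈
        {z | ∀ᶠ h in (u : Filter (V → V)), h ∘ z ∈ A}} := by
    ext f
    exact h1 f
  rw [h2]

theorem exists_type {X : Type} [Finite X] (hF : FinTy M) (q : Ultrafilter (X → V)) :
    ∃ A : Str ar X, {g : X → V | pl g M = A} ∈ q := by
  classical
  obtain ⟨n, ⟨κ⟩⟩ := Finite.exists_equiv_fin X
  have h1 := hF n
  have h2 : (⋃ A ∈ Set.range (fun f : Fin n → V => pl f M), {g : X → V | pl (g ∘ κ.symm) M = A}) ∈ q := by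
    have : (⋃ A ∈ Set.range (fun f : Fin n → V => pl f M),
        {g : X → V | pl (g ∘ κ.symm) M = A}) = Set.univ := by
      rw [Set.eq_univ_iff_forall]
      intro g
      exact Set.mem_biUnion (x := pl (g ∘ κ.symm) M) ⟨g ∘ κ.symm, rfl⟩ rfl
    rw [this]
    exact Filter.univ_mem
  rw [Ultrafilter.finite_biUnion_mem_iff h1] at h2
  obtain ⟨A, -, hA⟩ := h2
  refine ⟨pl κ A, ?_⟩
  filter_upwards [hA] with g hg
  have h3 : pl g M = pl κ (pl (g ∘ κ.symm) M) := by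
    have h4 : g = (g ∘ κ.symm) ∘ κ := by
      funext x
      simp
    conv_lhs => rw [h4]
    rfl
  show pl g M = pl κ A
  rw [h3]
  exact congrArg (pl κ) hg

theorem mem_type {X : Type} {q : Ultrafilter (X → V)} {A : Str ar X}
    (hA : {g : X → V | pl g M = A} ∈ q) (i : I) (t : Fin (ar i) → X) :
    t ∈ A i ↔ {g : X → V | g ∘ t ∈ M i} ∈ q := by
  constructor
  · intro h
    filter_upwards [hA] with g hg
    have : t ∈ pl g M i := by rw [show pl g M = A from hg]; exact h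
    exact this
  · intro h
    obtain ⟨g, hg1, hg2⟩ := Ultrafilter.nonempty_of_mem (Filter.inter_mem hA h)
    have : t ∈ pl g M i := hg2
    rwa [show pl g M = A from hg1] at this

theorem mem_S {Y : LS M u BB} {v₀ : V} {y : Tm Y.Λ} {K : Finset (PinT u)} {A : Str ar (PtT Y y K)}
    (hA : {g : PtT Y y K → V | pl g M = A} ∈ lw Y v₀ y K) (i : I) (t : Fin (ar i) → PtT Y y K) :
    t ∈ A i ↔ (fun j => (t j).1) ∈ Y.S v₀ y i := by
  rw [mem_type hA, mem_lw]
  rfl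

/-- one leaf -/
theorem tr_leaf (Y : LS M u BB) (hu : Idem u) {y : Tm Y.Λ} (hy : y.lv.Nodup) {a : Y.Λ}
    (ha : a ∈ y.lv) (z₀ : St V Y.sz) (B : Set (Fin (Y.sz a) → V)) :
    Tr u Y.v (prog y) z₀ {f | f a ∈ B} ↔ B ∈ Y.v a := by
  have hsub : ∀ t : Tm Y.Λ, a ∈ t.lv → Sub (Tm.leaf a) t := by
    intro t
    induction t with
    | leaf b =>
      intro h
      obtain rfl : a = b := by simpa [Tm.lv] using h
      exact Sub.leaf a
    | node s t hs ht =>
      intro h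
      rcases List.mem_append.1 h with h | h
      · exact Sub.left (hs h)
      · exact Sub.right (ht h)
  have hdep : Dep {f : St V Y.sz | f a ∈ B} {l | l ∈ (Tm.leaf a).lv} := by
    intro z z' h
    show z a ∈ B ↔ z' a ∈ B
    rw [h a (by simp [Tm.lv])]
  rw [← tr_sub hu Y.pos (hsub y ha) hy (z := z₀) hdep]
  show (∀ᶠ w in (Y.v a : Filter _), upd z₀ a w a ∈ B) ↔ _
  simp only [upd_self]
  rfl

theorem sub_refl {L : Type} (t : Tm L) : Sub t t := by
  induction t with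
  | leaf a => exact Sub.leaf a
  | node s t hs ht => exact Sub.node hs ht

theorem sub_lv {L : Type} {s t : Tm L} (h : Sub s t) : ∀ l ∈ s.lv, l ∈ t.lv := by
  induction h with
  | leaf a => exact fun l hl => hl
  | left h ih => exact fun l hl => List.mem_append_left _ (ih l hl)
  | right h ih => exact fun l hl => List.mem_append_right _ (ih l hl)
  | node h h' ih ih' =>
    intro l hl
    rcases List.mem_append.1 hl with hl | hl
    · exact List.mem_append_left _ (ih l hl)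
    · exact List.mem_append_right _ (ih' l hl)

/-- the structure of an induced term -/
theorem res' (Y : LS M u BB) (hu : Idem u) (v₀ : V) {s t : Tm Y.Λ} (h : Sub s t) (hnd : t.lv.Nodup)
    (i : I) (a : Fin (ar i) → PinT u ⊕ Pt Y.sz) (ha : ∀ j, a j ∈ pts Y.sz s Set.univ) :
    a ∈ Y.S v₀ s i ↔ a ∈ Y.S v₀ t i := by
  refine tr_sub hu Y.pos h hnd ?_
  intro z z' hz
  have : (fun j => Y.val z (a j)) = (fun j => Y.val z' (a j)) := by
    funext j
    rcases ha j with ⟨p, -, hp⟩ | ⟨q, hq, hp⟩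
    · rw [hp]
      rfl
    · rw [hp]
      show z q.1 q.2 = z' q.1 q.2
      rw [hz q.1 hq]
  show (fun j => Y.val z (a j)) ∈ M i ↔ (fun j => Y.val z' (a j)) ∈ M i
  rw [this]

/-- the finite structure of the points -/
theorem fle_iff {B : FS ar} {X : Type} {n : ℕ} (κ : X ≃ Fin n) (A : Str ar X) :
    FLe B ⟨n, pl κ.symm A⟩ ↔ ∃ e : Fin B.1 → X, pl e A = B.2 := by
  constructor
  · rintro ⟨φ, hφ⟩
    exact ⟨κ.symm ∘ φ, hφ⟩
  · rintro ⟨e, he⟩
    refine ⟨κ ∘ e, ?_⟩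
    have h1 : pl (κ.symm ∘ (κ ∘ e)) A = B.2 := by
      have h2 : κ.symm ∘ (κ ∘ e) = e := by
        funext x
        simp
      rw [h2]
      exact he
    exact h1

end C2

open C2 in
theorem LS.recg (Y : LS M u BB) (hEq : HasEq M) (hF : FinTy M) (hu : Gen M u) {a : ℕ → FS ar} {z : FS ar}
    (hMin : MIN M z a) (v₀ : V) (t : ℕ → Tm Y.Λ) (pn : ℕ → Finset (PinT u)) (ta tz : ℕ → Tm Y.Λ)
    (pa : ℕ → Finset (PinT u)) (pz : Finset (PinT u)) (ht : ∀ n, t n = Tm.node (ta n) (tz n))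
    (hnd : ∀ n, (t n).lv.Nodup) (hpa : ∀ n, pa n ⊆ pn n) (hpz : ∀ n, pz ⊆ pn n)
    (hRa : ∀ n, (Y.sys v₀ t pn).Rep (a n) (ta n) (pa n : Set (PinT u)))
    (hRz : ∀ n, (Y.sys v₀ t pn).Rep z (tz n) (pz : Set (PinT u)))
    (ι : Type) (W : Ultrafilter ι) (N : ι → Tm Y.Λ) (pN : ι → Finset (PinT u))
    (hN : ∀ᶠ i in (W : Filter ι), (N i).lv.Nodup)
    (hEmb : ∃ᶠ j in (atTop : Filter ℕ), ∀ᶠ i in (W : Filter ι),
      (Y.sys v₀ t pn).Emb (t j) (pn j : Set (PinT u)) (N i) (pN i : Set (PinT u)))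
    (y : Tm Y.Λ) (hy : y.lv.Nodup) (K : Finset (PinT u)) (Q : (l : Y.Λ) → Set (Mv Y.sz l))
    (hQ : ∀ l, Q l ∈ Y.FF l) :
    ∀ᶠ i in (W : Filter ι), K ⊆ pN i ∧ (Y.sys v₀ t pn).Le Q (K : Set (PinT u)) y (N i) := by
  classical
  have hui := hu.idem
  have hinj : ∀ l, ∀ᶠ w in (Y.v l : Filter (Fin (Y.sz l) → V)),
      Function.Injective w ∧ ∀ i, w i ∉ Pin u := by
    intro l
    obtain ⟨b, -, hb, h⟩ := Y.inj l
    filter_upwards [hb] with w hw
    exact h w hw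
  -- the finite structures of the terms
  have hfin : ∀ i, Finite (PtT Y (N i) (pN i)) := fun i => finite_pts Y _ _
  choose AA hAA using fun i => exists_type hF (lw Y v₀ (N i) (pN i))
  choose n κ using fun i => Finite.exists_equiv_fin (PtT Y (N i) (pN i))
  have κ : ∀ i, PtT Y (N i) (pN i) ≃ Fin (n i) := fun i => (κ i).some
  let N' : ι → FS ar := fun i => ⟨n i, pl (κ i).symm (AA i)⟩
  have hreal : ∀ i, Real M (N' i) := by
    intro i
    obtain ⟨g, hg⟩ := Ultrafilter.nonempty_of_mem (hAA i)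
    refine ⟨g ∘ (κ i).symm, ?_⟩
    show pl (κ i).symm (pl g M) = pl (κ i).symm (AA i)
    rw [show pl g M = AA i from hg]
  -- parts of the main terms embed
  have hpart : ∀ (j : ℕ) (i : ι) (B : FS ar) (s : Tm Y.Λ) (ps : Finset (PinT u)),
      Sub s (t j) → ps ⊆ pn j → (Y.sys v₀ t pn).Rep B s (ps : Set (PinT u)) →
      (Y.sys v₀ t pn).Emb (t j) (pn j : Set (PinT u)) (N i) (pN i : Set (PinT u)) →
      FLe B (N' i) := by
    rintro j i B s ps hs hps ⟨α, hα, hr, hp⟩ ⟨φ, hφ, hφ'⟩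
    have hα1 : ∀ x, α x ∈ pts Y.sz s (ps : Set (PinT u)) := by
      intro x
      have : α x ∈ Set.range α := ⟨x, rfl⟩
      rw [hr] at this
      exact this
    have hα2 : ∀ x, α x ∈ pts Y.sz (t j) (pn j : Set (PinT u)) := by
      intro x
      rcases hα1 x with ⟨p, hp, h⟩ | ⟨q, hq, h⟩
      · exact Or.inl ⟨p, hps hp, h⟩
      · exact Or.inr ⟨q, C2.sub_lv hs _ hq, h⟩
    have hα3 : ∀ x, α x ∈ pts Y.sz s Set.univ := by
      intro x
      rcases hα1 x with ⟨p, hp, h⟩ | ⟨q, hq, h⟩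
      · exact Or.inl ⟨p, trivial, h⟩
      · exact Or.inr ⟨q, hq, h⟩
    refine (fle_iff (κ i) (AA i)).2 ⟨fun x => ⟨φ (α x), hφ (hα2 x)⟩, ?_⟩
    rw [← hp]
    funext i'
    ext c
    show (fun x => (⟨φ (α (c x)), hφ (hα2 (c x))⟩ : PtT Y (N i) (pN i))) ∈ AA i i' ↔
      (fun x => α (c x)) ∈ Y.S v₀ s i'
    refine (mem_S (hAA i) i' _).trans (Iff.trans ?_
      (res' Y hui v₀ hs (hnd j) i' (fun x => α (c x)) (fun x => hα3 (c x))).symm)
    exact (hφ' i' (fun x => α (c x)) (fun x => hα2 (c x))).symm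
  have hta : ∀ j, Sub (ta j) (t j) := fun j => by
    rw [ht]
    exact Sub.left (C2.sub_refl _)
  have htz : ∀ j, Sub (tz j) (t j) := fun j => by
    rw [ht]
    exact Sub.right (C2.sub_refl _)
  have hz : ∀ᶠ i in (W : Filter ι), FLe z (N' i) := by
    obtain ⟨j, hj⟩ := hEmb.exists
    filter_upwards [hj] with i hi
    exact hpart j i z (tz j) pz (htz j) (hpz j) (hRz j) hi
  have ha : ∃ᶠ j in (atTop : Filter ℕ), ∀ᶠ i in (W : Filter ι), FLe (a j) (N' i) := by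
    refine hEmb.mono fun j hj => ?_
    filter_upwards [hj] with i hi
    exact hpart j i (a j) (ta j) (pa j) (hta j) (hpa j) (hRa j) hi
  have hfull := hMin ι W N' hreal hz ha
  have full : ∀ (m : ℕ) (f : Fin m → V), ∀ᶠ i in (W : Filter ι), ∃ e : Fin m → PtT Y (N i) (pN i),
      ∀ᶠ g in (lw Y v₀ (N i) (pN i) : Filter (PtT Y (N i) (pN i) → V)),
        pl (g ∘ e) M = pl f M := by
    intro m f
    filter_upwards [hfull ⟨m, pl f M⟩ ⟨f, rfl⟩] with i hi
    obtain ⟨e, he⟩ := (fle_iff (κ i) (AA i)).1 hi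
    refine ⟨e, ?_⟩
    filter_upwards [hAA i] with g hg
    show pl e (pl g M) = pl f M
    rw [show pl g M = AA i from hg]
    exact he
  -- the boxes
  have hQ' : ∀ l, ∃ b ∈ BB (Y.sz l), b ∈ Y.v l ∧ Y.mvs l b ⊆ Q l := fun l => hQ l
  choose b hb hbv hbQ using hQ'
  choose w hw hwv hns using Y.ns
  -- the sets
  have hfy : Finite (PtT Y y K) := finite_pts Y _ _
  obtain ⟨A, hA⟩ := exists_type hF (lw Y v₀ y K)
  let pp : {p // p ∈ K} → PtT Y y K := fun p => ⟨Sum.inl p.1, Or.inl ⟨p.1, p.2, rfl⟩⟩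
  let pc : ∀ l : {l // l ∈ y.lv}, Fin (Y.sz l.1) → PtT Y y K :=
    fun l c => ⟨Sum.inr ⟨l.1, c⟩, Or.inr ⟨⟨l.1, c⟩, l.2, rfl⟩⟩
  let J : Type := Option ({p // p ∈ K} ⊕ {l // l ∈ y.lv})
  have hfl : Finite {l // l ∈ y.lv} := (List.finite_toSet y.lv).to_subtype
  let Bs : J → Set (PtT Y y K → V) := fun j => match j with
    | none => {g | pl g M = A ∧ Function.Injective g ∧
        ∀ (l : {l // l ∈ y.lv}) (c : Fin (Y.sz l.1)), g (pc l c) ∉ Pin u}
    | some (Sum.inl p) => {g | g (pp p) = p.1.1}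
    | some (Sum.inr l) => {g | (fun c => g (pc l c)) ∈ b l.1 ∩ w l.1}
  have hBs : ∀ j, Bs j ∈ lw Y v₀ y K := by
    rintro (_ | (p | l))
    · have h1 := tr_inj (z := fun _ _ => v₀) hEq hu.emb hui Y.pos hinj hy
      have h2 : {g : PtT Y y K → V | Function.Injective g ∧
          ∀ (l : {l // l ∈ y.lv}) (c : Fin (Y.sz l.1)), g (pc l c) ∉ Pin u} ∈ lw Y v₀ y K := by
        rw [mem_lw]
        refine h1.mono ?_
        rintro f ⟨hf1, hf2⟩
        refine ⟨?_, fun l c => hf1 l.1 l.2 c⟩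
        rintro ⟨x, hx⟩ ⟨x', hx'⟩ hxx
        apply Subtype.ext
        show x = x'
        have hxx' : Y.val f x = Y.val f x' := hxx
        rcases hx with ⟨p, hp, rfl⟩ | ⟨q, hq, rfl⟩
        · rcases hx' with ⟨p', hp', rfl⟩ | ⟨q', hq', rfl⟩
          · exact congrArg Sum.inl (Subtype.ext hxx')
          · exfalso
            have h3 : p.1 = f q'.1 q'.2 := hxx'
            exact hf1 q'.1 hq' q'.2 (h3 ▸ p.2)
        · rcases hx' with ⟨p', hp', rfl⟩ | ⟨q', hq', rfl⟩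
          · exfalso
            have h3 : f q.1 q.2 = p'.1 := hxx'
            exact hf1 q.1 hq q.2 (h3.symm ▸ p'.2)
          · exact congrArg Sum.inr (hf2 q q' hq hq' hxx')
      filter_upwards [hA, h2] with g hg1 hg2
      exact ⟨hg1, hg2⟩
    · show {g : PtT Y y K → V | g (pp p) = p.1.1} ∈ lw Y v₀ y K
      rw [mem_lw]
      refine Tr.mono (A := Set.univ) ?_ Tr.univ
      intro f _
      rfl
    · show {g : PtT Y y K → V | (fun c => g (pc l c)) ∈ b l.1 ∩ w l.1} ∈ lw Y v₀ y K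
      rw [mem_lw]
      exact (tr_leaf Y hui hy l.2 (fun _ _ => v₀) (b l.1 ∩ w l.1)).2
        (Filter.inter_mem (hbv l.1) (hwv l.1))
  have hrec := recognition hu W (fun i => PtT Y (N i) (pN i)) (fun i => lw Y v₀ (N i) (pN i))
    (fun i => posX_lw Y hui v₀ (N i) (pN i)) full (lw Y v₀ y K) (posX_lw Y hui v₀ y K) Bs
  filter_upwards [hrec, hN] with i hi hNi
  obtain ⟨e, he⟩ := hi
  have he0 : ∀ j, ∀ᶠ g in (lw Y v₀ (N i) (pN i) : Filter (PtT Y (N i) (pN i) → V)),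
      g ∘ e ∈ Bs j := fun j => (he j).1 (hBs j)
  have hnone := he0 none
  have hinjN := tr_inj (z := fun _ _ => v₀) hEq hu.emb hui Y.pos hinj hNi
  -- points outside the pins
  have hN' : ∀ᶠ g in (lw Y v₀ (N i) (pN i) : Filter (PtT Y (N i) (pN i) → V)),
      ∀ x : PtT Y (N i) (pN i), ∀ q, x.1 = Sum.inr q → g x ∉ Pin u := by
    show {g : PtT Y (N i) (pN i) → V | ∀ x : PtT Y (N i) (pN i), ∀ q, x.1 = Sum.inr q →
      g x ∉ Pin u} ∈ lw Y v₀ (N i) (pN i)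
    rw [mem_lw]
    refine hinjN.mono ?_
    rintro f ⟨hf1, -⟩ ⟨x, hx⟩ q hq
    have hq' : x = Sum.inr q := hq
    subst hq'
    rcases hx with ⟨p, hp, h⟩ | ⟨q', hq', h⟩
    · exact absurd h (by simp)
    · obtain rfl := Sum.inr.inj h
      exact hf1 q.1 hq' q.2
  have hNp : ∀ᶠ g in (lw Y v₀ (N i) (pN i) : Filter (PtT Y (N i) (pN i) → V)),
      ∀ x : PtT Y (N i) (pN i), ∀ p, x.1 = Sum.inl p → g x = p.1 := by
    show {g : PtT Y (N i) (pN i) → V | ∀ x : PtT Y (N i) (pN i), ∀ p, x.1 = Sum.inl p →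
      g x = p.1} ∈ lw Y v₀ (N i) (pN i)
    rw [mem_lw]
    refine Tr.mono (A := Set.univ) ?_ Tr.univ
    rintro f - ⟨x, hx⟩ p hp
    have hp' : x = Sum.inl p := hp
    subst hp'
    rfl
  -- pins
  have hpin : ∀ p : {p // p ∈ K}, (e (pp p)).1 = Sum.inl p.1 := by
    intro p
    obtain ⟨g, hg1, hg2, hg3⟩ := ((he0 (some (Sum.inl p))).and (hN'.and hNp)).exists
    have h1 : g (e (pp p)) = p.1.1 := hg1
    rcases h2 : (e (pp p)).1 with p' | q
    · have h3 := hg3 (e (pp p)) p' h2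
      rw [h1] at h3
      exact congrArg Sum.inl (Subtype.ext h3.symm)
    · exfalso
      have h3 := hg2 (e (pp p)) q h2
      rw [h1] at h3
      exact h3 p.1.2
  have hKp : K ⊆ pN i := by
    intro p hp
    have h1 := hpin ⟨p, hp⟩
    rcases (e (pp ⟨p, hp⟩)).2 with ⟨p', hp', h⟩ | ⟨q, hq, h⟩
    · rw [h1] at h
      obtain rfl := Sum.inl.inj h
      exact hp'
    · rw [h1] at h
      exact absurd h (by simp)
  refine ⟨hKp, ?_⟩
  -- points
  have hpt : ∀ (l : {l // l ∈ y.lv}) (c : Fin (Y.sz l.1)), ∃ q : Pt Y.sz, q.1 ∈ (N i).lv ∧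
      (e (pc l c)).1 = Sum.inr q := by
    intro l c
    rcases (e (pc l c)).2 with ⟨p, hp, h⟩ | ⟨q, hq, h⟩
    · exfalso
      obtain ⟨g, hg1, hg2⟩ := (hnone.and hNp).exists
      have h2 : g (e (pc l c)) ∉ Pin u := hg1.2.2 l c
      rw [hg2 _ p h] at h2
      exact h2 p.2
    · exact ⟨q, hq, h⟩
  choose gg hgg1 hgg2 using hpt
  have heinj : Function.Injective e := by
    obtain ⟨g, hg1⟩ := hnone.exists
    exact Function.Injective.of_comp hg1.2.1
  have hgginj : ∀ l, Function.Injective (gg l) := by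
    intro l c c' h
    have h1 : e (pc l c) = e (pc l c') := by
      apply Subtype.ext
      rw [hgg2, hgg2, h]
    have h2 := congrArg Subtype.val (heinj h1)
    have h3 : (Sum.inr ⟨l.1, c⟩ : PinT u ⊕ Pt Y.sz) = Sum.inr ⟨l.1, c'⟩ := h2
    exact eq_of_heq (Sigma.mk.inj (Sum.inr.inj h3)).2
  -- leaves go into one leaf
  have hbox : ∀ l : {l // l ∈ y.lv}, Tr u Y.v (prog (N i)) (fun _ _ => v₀)
      {f | (fun c => f (gg l c).1 (gg l c).2) ∈ b l.1 ∩ w l.1} := by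
    intro l
    have h1 : {g : PtT Y (N i) (pN i) → V | g ∘ e ∈ Bs (some (Sum.inr l))} ∈
        lw Y v₀ (N i) (pN i) := he0 (some (Sum.inr l))
    rw [mem_lw] at h1
    refine h1.mono ?_
    intro f hf
    have hf' : (fun c => Y.val f (e (pc l c)).1) ∈ b l.1 ∩ w l.1 := hf
    have h2 : (fun c => Y.val f (e (pc l c)).1) = (fun c => f (gg l c).1 (gg l c).2) := by
      funext c
      rw [hgg2]
      rfl
    rw [h2] at hf'
    exact hf'
  have hone : ∀ l : {l // l ∈ y.lv}, ∃ m : Mv Y.sz l.1, m.1 ∈ (N i).lv ∧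
      ∀ c, gg l c = ⟨m.1, m.2 c⟩ := by
    intro l
    obtain ⟨a', ha', h⟩ := hns l.1 (N i) hNi (gg l) (hgginj l) (hgg1 l) (fun _ _ => v₀)
      ((hbox l).mono fun f hf => hf.2)
    have h' : ∀ c, ∃ d : Fin (Y.sz a'), gg l c = ⟨a', d⟩ := by
      intro c
      have h1 := h c
      generalize gg l c = q at h1 ⊢
      obtain ⟨q1, q2⟩ := q
      have h1' : q1 = a' := h1
      subst h1'
      exact ⟨q2, rfl⟩
    choose d hd using h'
    exact ⟨⟨a', d⟩, ha', hd⟩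
  choose m hm1 hm2 using hone
  let E : (l : Y.Λ) → Mv Y.sz l := fun l => if h : l ∈ y.lv then m ⟨l, h⟩ else ⟨l, fun x => x⟩
  have hE : ∀ (l : Y.Λ) (h : l ∈ y.lv), E l = m ⟨l, h⟩ := fun l h => dif_pos h
  have hval : ∀ x : PtT Y y K, mvPt E x.1 = (e x).1 := by
    rintro ⟨x, hx⟩
    rcases id hx with ⟨p, hp, rfl⟩ | ⟨q, hq, rfl⟩
    · show Sum.inl p = _
      exact (hpin ⟨p, hp⟩).symm
    · show (Sum.inr ⟨(E q.1).1, (E q.1).2 q.2⟩ : PinT u ⊕ Pt Y.sz) = _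
      have h1 := hgg2 ⟨q.1, hq⟩ q.2
      have h2 := hm2 ⟨q.1, hq⟩ q.2
      rw [h2] at h1
      have h3 : e ⟨Sum.inr q, hx⟩ = e (pc ⟨q.1, hq⟩ q.2) := rfl
      rw [h3, h1, hE q.1 hq]
  refine ⟨E, ?_, ?_, ?_, ?_⟩
  · intro l hl
    rw [hE l hl]
    refine hbQ l ?_
    show {w' : Fin (Y.sz (m ⟨l, hl⟩).1) → V | w' ∘ (m ⟨l, hl⟩).2 ∈ b l} ∈ Y.v (m ⟨l, hl⟩).1
    rw [← tr_leaf Y hui hNi (hm1 ⟨l, hl⟩) (fun _ _ => v₀)]
    refine (hbox ⟨l, hl⟩).mono ?_
    intro f hf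
    have h1 : (fun c => f (gg ⟨l, hl⟩ c).1 (gg ⟨l, hl⟩ c).2) = f (m ⟨l, hl⟩).1 ∘ (m ⟨l, hl⟩).2 := by
      funext c
      rw [hm2]
      rfl
    have h2 := hf.1
    rw [h1] at h2
    exact h2
  · intro l hl
    rw [hE l hl]
    exact hm1 ⟨l, hl⟩
  · intro x hx x' hx' h
    have h1 := hval ⟨x, hx⟩
    have h2 := hval ⟨x', hx'⟩
    have h3 : e ⟨x, hx⟩ = e ⟨x', hx'⟩ := by
      apply Subtype.ext
      rw [← h1, ← h2]
      exact h
    exact congrArg Subtype.val (heinj h3)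
  · intro i' c hc
    have hA' : ∀ᶠ g in (lw Y v₀ (N i) (pN i) : Filter (PtT Y (N i) (pN i) → V)),
        pl (g ∘ e) M = A := hnone.mono fun g hg => hg.1
    let c' : Fin (ar i') → PtT Y y K := fun j => ⟨c j, hc j⟩
    have h1 : c ∈ Y.S v₀ y i' ↔ c' ∈ A i' := (mem_S hA i' c').symm
    have h2 : c' ∈ A i' ↔ {g : PtT Y (N i) (pN i) → V | g ∘ (e ∘ c') ∈ M i'} ∈
        lw Y v₀ (N i) (pN i) := by
      constructor
      · intro h
        filter_upwards [hA'] with g hg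
        have : c' ∈ pl (g ∘ e) M i' := by rw [hg]; exact h
        exact this
      · intro h
        obtain ⟨g, hg1, hg2⟩ := (hA'.and h).exists
        have : c' ∈ pl (g ∘ e) M i' := hg2
        rwa [hg1] at this
    have h3 : {g : PtT Y (N i) (pN i) → V | g ∘ (e ∘ c') ∈ M i'} ∈ lw Y v₀ (N i) (pN i) ↔
        (fun j => (e (c' j)).1) ∈ Y.S v₀ (N i) i' := by
      rw [mem_lw]
      rfl
    have h4 : (fun j => mvPt E (c j)) = (fun j => (e (c' j)).1) := by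
      funext j
      exact hval (c' j)
    have h5 : (fun j => mvPt E (c j)) ∈ Y.S v₀ (N i) i' ↔
        (fun j => (e (c' j)).1) ∈ Y.S v₀ (N i) i' :=
      iff_of_eq (congrArg (fun a => a ∈ Y.S v₀ (N i) i') h4)
    exact (h1.trans (h2.trans h3)).trans h5.symm

end Pool.MP4fb322AA
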