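import Pool.Agent.Lib.MP_4fb322_lc_h71.Defs4
import Pool.Agent.Lib.MP_4fb322_lc_h71.B5
import Pool.Agent.Lib.MP_4fb322_lc_h71.B11
import Pool.Agent.Lib.MP_4fb322_lc_h71.B13
import Pool.Agent.Lib.MP_4fb322_lc_h71.B14

set_option autoImplicit false

/-! Row C3: construction of the label system (MP_4fb322_lc, all arities, positions). -/

namespace Pool.MP4fb322AA

open Filter
open Pool.Agent.Lib.MP_4fb322_lc_q (Tm Sub HasEq FinTy Nip Mv Pt pts mvPt SYS FS Real RealI FLe MIN)

namespace C3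

theorem sub_leaf {L : Type} {t : Tm L} {i : L} (h : i ∈ t.lv) : Sub (Tm.leaf i) t := by
  induction t with
  | leaf a =>
      have : i = a := by simpa [Pool.Agent.Lib.MP_4fb322_lc_q.Tm.lv] using h
      subst this
      exact Sub.leaf _
  | node s t hs ht =>
      have : i ∈ s.lv ∨ i ∈ t.lv := by simpa [Pool.Agent.Lib.MP_4fb322_lc_q.Tm.lv] using h
      rcases this with h | h
      · exact Sub.left (hs h)
      · exact Sub.right (ht h)

theorem exists_names {S V : Type} {K : ℕ} (c : Fin K → V ⊕ S) :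
    ∃ (N : ℕ) (G : Fin N → S) (c' : Fin K → V ⊕ Fin N), (∀ i, ∃ k, c k = Sum.inr (G i)) ∧
      ∀ i, c i = Sum.map id G (c' i) := by
  by_cases h : ∃ i s, c i = Sum.inr s
  · obtain ⟨i₀, s₀, h₀⟩ := h
    refine ⟨K, fun i => Sum.elim (fun _ => s₀) id (c i),
      fun i => Sum.elim Sum.inl (fun _ => Sum.inr i) (c i), ?_, ?_⟩
    · intro i
      rcases hc : c i with p | s
      · exact ⟨i₀, by simp [h₀, hc]⟩
      · exact ⟨i, by simp [hc]⟩
    · intro i
      rcases hc : c i with p | s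
      · simp [hc]
      · simp [hc]
  · have h' : ∀ i, ∃ p, c i = Sum.inl p := by
      intro i
      rcases hc : c i with p | s
      · exact ⟨p, rfl⟩
      · exact absurd ⟨i, s, hc⟩ h
    choose p hp using h'
    exact ⟨0, Fin.elim0, fun i => Sum.inl (p i), fun i => i.elim0, fun i => by simp [hp]⟩

section

variable {I : Type} {ar : I → ℕ} {V : Type} {M : Str ar V}

theorem cyl_ty {L : Type} {n : L → ℕ} {K N : ℕ} {c : Fin K → V ⊕ (Σ l : L, Fin (n l))}
    {G : Fin N → Σ l : L, Fin (n l)} {c' : Fin K → V ⊕ Fin N} (hc : ∀ i, c i = Sum.map id G (c' i))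
    (A : Str ar (Fin K)) :
    {z : St V n | pl (fun i => evc z (c i)) M = A} = cyl G (tyS M c' A) := by
  ext z
  have h : (fun i => evc z (c i)) =
      fun i => Sum.elim (fun p => p) (fun j => z (G j).1 (G j).2) (c' i) := by
    funext i
    rw [hc]
    rcases c' i with p | j
    · rfl
    · rfl
  show pl (fun i => evc z (c i)) M = A ↔
    pl (fun i => Sum.elim (fun p => p) (fun j => z (G j).1 (G j).2) (c' i)) M = A
  rw [h]

theorem inW_ty {T : TFam V} (hT : ∀ (N K : ℕ) (c : Fin K → V ⊕ Fin N) (A : Str ar (Fin K)), tyS M c A ∈ T.T N)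
    {L : Type} {n : L → ℕ} {K : ℕ} (c : Fin K → V ⊕ (Σ l : L, Fin (n l))) (A : Str ar (Fin K)) :
    InW T {z : St V n | pl (fun i => evc z (c i)) M = A} := by
  obtain ⟨N, G, c', -, hc⟩ := exists_names c
  exact ⟨N, G, tyS M c' A, hT _ _ _ _, cyl_ty hc A⟩

theorem inj_of_pl (hEq : HasEq M) {N : ℕ} {A : Str ar (Fin N)} {f₀ : Fin N → V}
    (hf₀ : Function.Injective f₀) (h₀ : pl f₀ M = A) {f : Fin N → V} (h : pl f M = A) :
    Function.Injective f := by
  classical
  obtain ⟨i, a, b, hab, hi⟩ := hEq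
  intro x x' hx
  let t : Fin (ar i) → Fin N := fun y => if y = a then x else x'
  have ha : t a = x := by simp [t]
  have hb : t b = x' := by simp [t, hab.symm]
  have h1 : t ∈ A i ↔ f x = f x' := by
    rw [← h]
    show f ∘ t ∈ M i ↔ _
    rw [hi, Function.comp_apply, Function.comp_apply, ha, hb]
  have h2 : t ∈ A i ↔ f₀ x = f₀ x' := by
    rw [← h₀]
    show f₀ ∘ t ∈ M i ↔ _
    rw [hi, Function.comp_apply, Function.comp_apply, ha, hb]
  exact hf₀ (h2.1 (h1.2 hx))

theorem isBox_inj (hEq : HasEq M) {u : Ultrafilter (V → V)} (hu : GE M u) {m : ℕ}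
    (hne : ({y : Fin m → V | Function.Injective y}).Nonempty) :
    IsBox u {y : Fin m → V | Function.Injective y} := by
  classical
  obtain ⟨i, a, b, hab, hi⟩ := hEq
  refine ⟨hne, ?_⟩
  intro y hy
  filter_upwards [hu (Set.range y) (Set.finite_range y)] with h hh
  intro x x' hx
  let t : Fin (ar i) → V := fun z => if z = a then y x else y x'
  have ha : t a = y x := by simp [t]
  have hb : t b = y x' := by simp [t, hab.symm]
  have h1 := hh i t (by
    intro z
    by_cases hz : z = a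
    · exact ⟨x, by simp [t, hz]⟩
    · exact ⟨x', by simp [t, hz]⟩)
  rw [hi, hi, Function.comp_apply, Function.comp_apply, ha, hb] at h1
  exact hy (h1.1 hx)

end

/-- forcing gives truth at labels -/
theorem truth {V Λ : Type} {u : Ultrafilter (V → V)} {T : TFam V} {BB : ∀ m : ℕ, Set (Set (Fin m → V))}
    (hBB : IsBB u T BB) {sz : Λ → ℕ} {v : ∀ a : Λ, Ultrafilter (Fin (sz a) → V)}
    (hgs : GenStep u T BB sz v) {r : ℕ} {E : Fin r → Λ} (hE : Function.Injective E) {t : Tm (Fin r)}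
    {b : Bx V (fun j => sz (E j))} (hb : Fm BB b) (hbv : ∀ j, b j ∈ v (E j))
    {W : Set (St V (fun j => sz (E j)))} (hW : InW T W) {z₀ : St V (fun j => sz (E j))}
    (hF : F u (prog t) z₀ b W) : Tr u (fun j => v (E j)) (prog t) z₀ W := by
  let β : Fin r → ℕ := fun j => sz (E j)
  let P : List (Instr (Fin 0 ⊕ Fin r)) := (prog t).map (liftR 0)
  have hPl : lv P ⊆ Set.range Sum.inr := by
    rw [show lv P = Sum.inr '' lv (prog t) from B11.lv_liftR _]
    rintro _ ⟨a, -, rfl⟩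
    exact ⟨a, rfl⟩
  let q : Bx V (Sum.elim (Fin.elim0 : Fin 0 → ℕ) (fun j => sz (E j))) := fun l => match l with
    | Sum.inl l => l.elim0
    | Sum.inr j => b j
  have hq : Fm BB q := by
    rintro (l | j)
    · exact l.elim0
    · exact hb j
  let x : ∀ l : Fin 0 ⊕ Fin r, Ultrafilter (Fin (Sum.elim (Fin.elim0 : Fin 0 → ℕ)
    (fun j => sz (E j)) l) → V) := fun l => match l with
    | Sum.inl l => l.elim0
    | Sum.inr j => v (E j)
  let π : St V (Sum.elim (Fin.elim0 : Fin 0 → ℕ) (fun j => sz (E j))) → St V (fun j => sz (E j)) :=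
    fun z' j => z' (Sum.inr j)
  let pt : Partner (fun j => sz (E j)) (Sum.elim (Fin.elim0 : Fin 0 → ℕ) (fun j => sz (E j))) :=
    fun l => match l with
      | Sum.inl l => l.elim0
      | Sum.inr j => some ⟨j, fun i => i⟩
  have hpt : PInj pt := by
    rintro (l₁ | j₁) (l₂ | j₂) l g₁ g₂ h₁ h₂
    · exact l₁.elim0
    · exact l₁.elim0
    · exact l₂.elim0
    · have h3 : j₁ = l := congrArg Sigma.fst (Option.some.inj h₁)
      have h4 : j₂ = l := congrArg Sigma.fst (Option.some.inj h₂)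
      rw [h3, h4]
  have hsim : ∀ Q : List (Instr (Fin r)), Sim π pt Q (Q.map (liftR 0)) := by
    intro Q
    induction Q with
    | nil => exact Sim.nil
    | cons i Q ih =>
      cases i with
      | choose j =>
        refine Sim.choose (l := j) (l' := Sum.inr j) (g := fun i => i) rfl ?_ ih
        intro z' y'
        funext j'
        by_cases hj : j' = j
        · subst hj
          exact (upd_self z' (Sum.inr j') y').trans (upd_self (π z') j' y').symm
        · have hne : (Sum.inr j' : Fin 0 ⊕ Fin r) ≠ Sum.inr j := by simpa using hj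
          exact (upd_ne (z := z') hne).trans (upd_ne (z := π z') hj).symm
      | app S =>
        refine Sim.app ?_ ih
        intro h z'
        funext j'
        show appS (Sum.inr '' S) h z' (Sum.inr j') = appS S h (π z') j'
        by_cases hj : j' ∈ S
        · rw [appS_mem hj]
          exact appS_mem (Set.mem_image_of_mem _ hj)
        · rw [appS_notMem hj]
          refine appS_notMem ?_
          rintro ⟨a, ha, h⟩
          obtain rfl := Sum.inr.inj h
          exact hj ha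
  let z' : St V (Sum.elim (Fin.elim0 : Fin 0 → ℕ) (fun j => sz (E j))) := jn (fun l => l.elim0) z₀
  have hF' : F u P z' q (π ⁻¹' W) := by
    have h3 : F u (prog t) (π z') b W := hF
    refine F_pull hpt (hsim (prog t)) (fun l => hBB.box _ _ (hb l)) (fun l => hBB.box _ _ (hq l)) ?_ h3
    rintro (l' | j') l g' hg' y' hy'
    · exact l'.elim0
    · obtain ⟨rfl, h5⟩ := Sigma.mk.inj (Option.some.inj hg')
      obtain rfl := eq_of_heq h5
      exact hy'
  have hW' : InW T (π ⁻¹' W) := by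
    obtain ⟨N, G, W₀, hW₀, rfl⟩ := hW
    exact ⟨N, fun i => ⟨Sum.inr (G i).1, (G i).2⟩, W₀, hW₀, rfl⟩
  have h4 : Tr u x P z' (π ⁻¹' W) := by
    have h5 : F u (P ++ []) z' q (π ⁻¹' W) := by
      rw [List.append_nil]
      exact hF'
    have h6 := lemmaM hBB.box hgs hE (x := x) (fun j => rfl) hPl hW' hq (fun j => hbv j) h5
    have h7 : ¬ Tr u x P z' (π ⁻¹' W)ᶜ := h6
    rw [Tr.compl_iff, not_not] at h7
    exact h7
  exact (B11.Tr_liftR (A := W)).1 h4

theorem core {I : Type} {ar : I → ℕ} {V : Type} [Countable V] [Nonempty V] {M : Str ar V}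
    (hEq : HasEq M) {u : Ultrafilter (V → V)} (hu : Gen M u) {T : TFam V}
    (hT : ∀ (N K : ℕ) (c : Fin K → V ⊕ Fin N) (A : Str ar (Fin K)), tyS M c A ∈ T.T N)
    {BB : ∀ m : ℕ, Set (Set (Fin m → V))} (hBB : IsBB u T BB)
    (hinj : ∀ m, ({y : Fin m → V | Function.Injective y}).Nonempty →
      {y : Fin m → V | Function.Injective y} ∈ BB m)
    (str : ℕ → FS ar) (hreal : ∀ o, RealI M (str o)) (Pn : ∀ o, Fin (str o).1 → Option V)
    (k : ℕ → ℕ) (α : ∀ o, Fin (k o) → ℕ) (D : ∀ o, Dcp u M (str o).2 (Pn o) (Fin (k o)) (α o))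
    (hα : ∀ o, (∀ l, 0 < α o l) ∨ k o = 1)
    (hmax : ∀ o, ∀ (L : Type) (_ : Finite L) (n : L → ℕ), (∀ l, 0 < n l) →
      Nonempty (Dcp u M (str o).2 (Pn o) L n) → Nat.card L ≤ k o)
    (hDb : ∀ o, Fm BB (D o).b) :
    ∃ (Y : LS M u BB) (τ : ℕ → ℕ → Tm Y.Λ),
      (∀ o c, (τ o c).lv.Nodup) ∧
      (∀ o c o' c', (o, c) ≠ (o', c') → ∀ l ∈ (τ o c).lv, l ∉ (τ o' c').lv) ∧
      ∀ o c, ∃ κ : Fin (str o).1 → V ⊕ (Σ a : Y.Λ, Fin (Y.sz a)),
        (∀ i p, κ i = Sum.inl p ↔ Pn o i = some p) ∧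
        (∀ s : Σ a : Y.Λ, Fin (Y.sz a), s.1 ∈ (τ o c).lv → ∃! i, κ i = Sum.inr s) ∧
        (∀ i s, κ i = Sum.inr s → s.1 ∈ (τ o c).lv) ∧ Function.Injective κ ∧
        ∀ z₀ : St V Y.sz, Tr u Y.v (prog (τ o c)) z₀ {f | pl (fun i => evc f (κ i)) M = (str o).2} := by
  classical
  have hpr : ∀ s : (Σ o, Fin (k o)), ∃ P₁ P₂, prog (D s.1).t = P₁ ++ Instr.choose s.2 :: P₂ := by
    rintro ⟨o, i⟩
    have h : i ∈ lv (prog (D o).t) := by
      rw [lv_prog]
      exact (D o).mem i
    exact List.append_of_mem h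
  choose P₁ P₂ hP using hpr
  let Wd : ∀ o, Set (St V (α o)) := fun o => {z | pl (fun i => evc z ((D o).c i)) M = (str o).2}
  have hWd : ∀ o, InW T (Wd o) := fun o => inW_ty hT _ _
  have hax : ∀ s : (Σ o, Fin (k o)), ∃ (p : Ultrafilter (St V (α s.1))) (q₀ : Bx V (α s.1)),
      IsAux u T BB (P₁ s) (P₂ s) s.2 (D s.1).b (Wd s.1) (fun _ _ => Classical.arbitrary V) p q₀ := by
    intro s
    have hF := (D s.1).force (fun _ _ => Classical.arbitrary V)
    have hG := good_prog (D s.1).nodup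
    rw [hP s] at hF hG
    exact exists_aux hu.idem hBB hG (hDb s.1) (hWd s.1) hF
  choose p q₀ haux using hax
  let Λ : Type := Σ s : (Σ o, Fin (k o)),
    ({b : Set (Fin (α s.1 s.2) → V) // b ∈ BB (α s.1 s.2) ∧ b ⊆ q₀ s s.2} × ℕ)
  have : Countable Λ := by
    have : ∀ s : (Σ o, Fin (k o)),
        Countable {b : Set (Fin (α s.1 s.2) → V) // b ∈ BB (α s.1 s.2) ∧ b ⊆ q₀ s s.2} := fun s =>
      ((hBB.countable _).mono (fun b hb => hb.1)).to_subtype
    infer_instance
  let sz : Λ → ℕ := fun a => α a.1.1 a.1.2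
  let st : ∀ a : Λ, Set (Fin (sz a) → V) := fun a => a.2.1.1
  have hst : ∀ a, st a ∈ BB (sz a) := fun a => a.2.1.2.1
  have hstq : ∀ a : Λ, st a ⊆ q₀ a.1 a.1.2 := fun a => a.2.1.2.2
  have hqb : ∀ s : (Σ o, Fin (k o)), q₀ s ≤ (D s.1).b := fun s => (haux s).2.1
  let kk : Option (Σ o, Fin (k o)) → ℕ := fun i => match i with
    | none => 0
    | some s => k s.1
  let αα : ∀ i : Option (Σ o, Fin (k o)), Fin (kk i) → ℕ := fun i => match i with
    | none => Fin.elim0
    | some s => α s.1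
  let pp : ∀ i : Option (Σ o, Fin (k o)), Ultrafilter (St V (αα i)) := fun i => match i with
    | none => pure (fun l => l.elim0)
    | some s => p s
  obtain ⟨v, hpos, hstv, hgs, hgd⟩ := exists_main hu.idem hBB sz st hst kk αα pp
  have hgd0 : GenDec u T BB sz v 0 Fin.elim0 (pure (fun l => l.elim0)) := hgd none
  have hgds : ∀ s : (Σ o, Fin (k o)), GenDec u T BB sz v (k s.1) (α s.1) (p s) := fun s => hgd (some s)
  -- truth
  have htr : ∀ o (x : ∀ j : Fin (k o),
      ({b : Set (Fin (α o j) → V) // b ∈ BB (α o j) ∧ b ⊆ q₀ ⟨o, j⟩ j} × ℕ))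
      (z₁ : St V (fun j => sz (⟨⟨o, j⟩, x j⟩ : Λ))),
      Tr u (fun j => v (⟨⟨o, j⟩, x j⟩ : Λ)) (prog (D o).t) z₁ (Wd o) := by
    intro o x z₁
    refine truth hBB hgs (E := fun j => (⟨⟨o, j⟩, x j⟩ : Λ)) ?_ (b := (D o).b) (hDb o) ?_ (hWd o)
      ((D o).force z₁)
    · intro j j' h
      have h1 : (⟨o, j⟩ : (Σ o, Fin (k o))) = ⟨o, j'⟩ := congrArg Sigma.fst h
      simpa using h1
    · intro j
      exact Filter.mem_of_superset (hstv ⟨⟨o, j⟩, x j⟩)
        ((hstq ⟨⟨o, j⟩, x j⟩).trans (hqb ⟨o, j⟩ j))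
  have hWinj : ∀ o (f : St V (α o)), f ∈ Wd o → Function.Injective (fun i => evc f ((D o).c i)) := by
    intro o f hf
    obtain ⟨f₀, hf₀, h₀⟩ := hreal o
    exact inj_of_pl hEq hf₀ h₀ hf
  let dx : ∀ o (j : Fin (k o)),
      ({b : Set (Fin (α o j) → V) // b ∈ BB (α o j) ∧ b ⊆ q₀ ⟨o, j⟩ j} × ℕ) := fun o j =>
    (⟨q₀ ⟨o, j⟩ j, (haux ⟨o, j⟩).1 j, subset_rfl⟩, 0)
  have hvinj : ∀ a : Λ, {y : Fin (sz a) → V | Function.Injective y} ∈ v a := by
    rintro ⟨⟨o, i⟩, xa⟩
    have h1 := htr o (Function.update (dx o) i xa) (fun _ _ => Classical.arbitrary V)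
    have h2 : Tr u (fun j => v (⟨⟨o, j⟩, Function.update (dx o) i xa j⟩ : Λ)) (prog (D o).t)
        (fun _ _ => Classical.arbitrary V) {f : St V (α o) | Function.Injective (f i)} := by
      refine Tr.mono ?_ h1
      intro f hf x x' hx
      obtain ⟨i₁, hi₁, -⟩ := (D o).cbij ⟨i, x⟩
      obtain ⟨i₂, hi₂, -⟩ := (D o).cbij ⟨i, x'⟩
      have h3 : i₁ = i₂ := by
        apply hWinj o f hf
        show evc f ((D o).c i₁) = evc f ((D o).c i₂)
        rw [hi₁, hi₂]
        exact hx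
      rw [h3, hi₂] at hi₁
      have h4 := Sum.inr.inj hi₁
      simpa using h4.symm
    have h3 := (tr_sub hu.idem (x := fun j => v (⟨⟨o, j⟩, Function.update (dx o) i xa j⟩ : Λ))
      (fun j => hpos _) (sub_leaf ((D o).mem i)) (D o).nodup
      (z := fun _ _ => Classical.arbitrary V) (z' := fun _ _ => Classical.arbitrary V)
      (A := {f : St V (α o) | Function.Injective (f i)}) (by
        intro z z' hz
        have : z i = z' i := hz i (by simp [Pool.Agent.Lib.MP_4fb322_lc_q.Tm.lv])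
        show Function.Injective (z i) ↔ Function.Injective (z' i)
        rw [this])).2 h2
    have h4 : ∀ᶠ y in (v (⟨⟨o, i⟩, Function.update (dx o) i xa i⟩ : Λ) : Filter (Fin (α o i) → V)),
        Function.Injective y := by
      refine Filter.Eventually.mono h3 ?_
      intro y hy
      have hy' : Function.Injective (upd (n := α o) (fun _ _ => Classical.arbitrary V) i y i) := hy
      rw [upd_self] at hy'
      exact hy'
    rw [Function.update_self] at h4
    exact h4
  let Y : LS M u BB :=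
    { Λ := Λ
      sz := sz
      v := v
      pos := hpos
      inj := by
        intro a
        have hne : ({y : Fin (sz a) → V | Function.Injective y}).Nonempty :=
          (v a).nonempty_of_mem (hvinj a)
        refine ⟨st a ∩ {y | Function.Injective y}, hBB.inter _ _ (hst a) _ (hinj _ hne)
          ((v a).nonempty_of_mem (Filter.inter_mem (hstv a) (hvinj a))),
          Filter.inter_mem (hstv a) (hvinj a), ?_⟩
        rintro y ⟨hy1, hy2⟩
        exact ⟨hy2, fun i => (D a.1.1).npin a.1.2 y (hqb a.1 a.1.2 (hstq a hy1)) i⟩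
      inter := hBB.inter
      pull := hBB.pull
      lc := by
        intro y hy K c hc A z₀ hTr
        obtain ⟨N, G, c', hG, hcG⟩ := exists_names c
        rw [cyl_ty hcG A] at hTr
        obtain ⟨b, hb, hb2⟩ := lc_labels hBB hgs hgd0 (fun a => ⟨st a, hst a, hstv a⟩) hy (G := G)
          (by
            intro i
            obtain ⟨j, hj⟩ := hG i
            exact hc j _ hj) (hT N K c' A) hTr
        refine ⟨b, hb, ?_⟩
        intro e he hbe z₁
        refine Tr.mono ?_ (hb2 e he hbe z₁)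
        intro f hf
        have hf' : pl (fun i => Sum.elim (fun p => p)
          (fun j => f (e (G j).1).1 ((e (G j).1).2 (G j).2)) (c' i)) M = A := hf
        have h : (fun i => Sum.elim (fun p => p) (fun s : (Σ a : Λ, Fin (sz a)) =>
            f (e s.1).1 ((e s.1).2 s.2)) (c i)) = fun i => Sum.elim (fun p => p)
            (fun j => f (e (G j).1).1 ((e (G j).1).2 (G j).2)) (c' i) := by
          funext i
          rw [hcG]
          rcases c' i with p | j
          · rfl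
          · rfl
        show pl (fun i => Sum.elim (fun p => p) (fun s : (Σ a : Λ, Fin (sz a)) =>
            f (e s.1).1 ((e s.1).2 s.2)) (c i)) M = A
        rw [h]
        exact hf'
      ns := by
        intro a
        refine ⟨q₀ a.1 a.1.2, (haux a.1).1 _, Filter.mem_of_superset (hstv a) (hstq a), ?_⟩
        intro y hy g hg hgy z₂ hTr
        exact ns_labels hu.idem hBB (D a.1.1) (hα _) (hmax _) (hP a.1) (hWd _) (haux a.1) hpos hgs
          (hgds a.1) (fun a => ⟨st a, hst a, hstv a, fun y hy i =>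
            (D a.1.1).npin a.1.2 y (hqb a.1 a.1.2 (hstq a hy)) i⟩) hy hg hgy hTr }
  -- the main labels
  let E : ∀ (o c : ℕ), Fin (k o) → Λ := fun o c i =>
    ⟨⟨o, i⟩, (⟨q₀ ⟨o, i⟩ i, (haux ⟨o, i⟩).1 i, subset_rfl⟩, c)⟩
  have hE : ∀ o c, Function.Injective (E o c) := by
    intro o c i i' h
    have h1 : (⟨o, i⟩ : (Σ o, Fin (k o))) = ⟨o, i'⟩ := congrArg Sigma.fst h
    simpa using h1
  refine ⟨Y, fun o c => (D o).t.map (E o c), ?_, ?_, ?_⟩
  · intro o c
    rw [B11.lv_map]
    exact (D o).nodup.map (hE o c)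
  · intro o c o' c' hne l hl hl'
    rw [B11.lv_map, List.mem_map] at hl hl'
    obtain ⟨i, -, rfl⟩ := hl
    obtain ⟨i', -, h⟩ := hl'
    have h1 : o' = o := congrArg (fun a : Λ => a.1.1) h
    have h2 : c' = c := congrArg (fun a : Λ => a.2.2) h
    exact hne (by rw [h1, h2])
  · intro o c
    let κ : Fin (str o).1 → V ⊕ (Σ a : Λ, Fin (sz a)) := fun i =>
      Sum.map id (fun s : (Σ l : Fin (k o), Fin (α o l)) => (⟨E o c s.1, s.2⟩ : Σ a : Λ, Fin (sz a)))
        ((D o).c i)
    have hsinj : Function.Injective (fun s : (Σ l : Fin (k o), Fin (α o l)) =>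
        (⟨E o c s.1, s.2⟩ : Σ a : Λ, Fin (sz a))) := by
      rintro ⟨l, x⟩ ⟨l', x'⟩ h
      have h1 : E o c l = E o c l' := congrArg Sigma.fst h
      have h2 := hE o c h1
      subst h2
      have h3 : x = x' := eq_of_heq (Sigma.mk.inj h).2
      rw [h3]
    have hκ1 : ∀ i p, κ i = Sum.inl p ↔ Pn o i = some p := by
      intro i p
      rw [← (D o).cpin i p]
      show Sum.map id _ ((D o).c i) = Sum.inl p ↔ _
      rcases (D o).c i with q | s
      · simp
      · simp
    have hκ2 : ∀ i (s : Σ l : Fin (k o), Fin (α o l)), κ i = Sum.inr (⟨E o c s.1, s.2⟩ : Σ a : Λ, Fin (sz a)) ↔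
        (D o).c i = Sum.inr s := by
      intro i s
      show Sum.map id _ ((D o).c i) = _ ↔ _
      rcases (D o).c i with q | s'
      · simp
      · simp only [Sum.map_inr, Sum.inr.injEq]
        exact hsinj.eq_iff
    have hκ3 : ∀ i s, κ i = Sum.inr s → ∃ s' : (Σ l : Fin (k o), Fin (α o l)),
        s = ⟨E o c s'.1, s'.2⟩ := by
      intro i s h
      have h' : Sum.map id (fun s : (Σ l : Fin (k o), Fin (α o l)) =>
        (⟨E o c s.1, s.2⟩ : Σ a : Λ, Fin (sz a))) ((D o).c i) = Sum.inr s := h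
      rcases hc : (D o).c i with q | s'
      · rw [hc] at h'
        simp at h'
      · rw [hc] at h'
        exact ⟨s', (Sum.inr.inj h').symm⟩
    have hTr : ∀ z₀ : St V sz, Tr u v (prog ((D o).t.map (E o c))) z₀
        {f | pl (fun i => evc f (κ i)) M = (str o).2} := by
      intro z₀
      have h1 := htr o (fun j => (E o c j).2) (fun l => z₀ (E o c l))
      have h2 := (tr_map (u := u) (v := v) (E o c) (hE o c) (D o).t (z := z₀) (A := Wd o)).2 h1
      refine Tr.mono ?_ h2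
      intro f hf
      have hf' : pl (fun i => evc (n := α o) (fun l => f (E o c l)) ((D o).c i)) M = (str o).2 := hf
      have h : (fun i => evc f (κ i)) =
          fun i => evc (n := α o) (fun l => f (E o c l)) ((D o).c i) := by
        funext i
        show evc f (Sum.map id _ ((D o).c i)) = _
        rcases (D o).c i with q | s
        · rfl
        · rfl
      show pl (fun i => evc f (κ i)) M = (str o).2
      rw [h]
      exact hf'
    refine ⟨κ, hκ1, ?_, ?_, ?_, hTr⟩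
    · rintro ⟨a, x⟩ hs
      have hs' : a ∈ ((D o).t.map (E o c)).lv := hs
      rw [B11.lv_map, List.mem_map] at hs'
      obtain ⟨l, -, rfl⟩ := hs'
      obtain ⟨i, hi, hi2⟩ := (D o).cbij ⟨l, x⟩
      exact ⟨i, (hκ2 i ⟨l, x⟩).2 hi, fun i' hi' => hi2 i' ((hκ2 i' ⟨l, x⟩).1 hi')⟩
    · intro i s h
      obtain ⟨s', rfl⟩ := hκ3 i s h
      show E o c s'.1 ∈ ((D o).t.map (E o c)).lv
      rw [B11.lv_map, List.mem_map]
      exact ⟨s'.1, (D o).mem _, rfl⟩
    · intro i i' h
      obtain ⟨f, hf⟩ : ∃ f : St V sz, pl (fun i => evc f (κ i)) M = (str o).2 := by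
        by_contra hcon
        push Not at hcon
        have h1 := hTr (fun _ _ => Classical.arbitrary V)
        have h2 : {f : St V sz | pl (fun i => evc f (κ i)) M = (str o).2} = (Set.univ)ᶜ := by
          ext f
          simpa using hcon f
        rw [h2, Tr.compl_iff] at h1
        exact h1 Tr.univ
      obtain ⟨f₀, hf₀, h₀⟩ := hreal o
      apply inj_of_pl hEq hf₀ h₀ hf
      show evc f (κ i) = evc f (κ i')
      rw [h]

end C3

open C3 in
theorem exists_LS {I : Type} {ar : I → ℕ} {V : Type} [Countable V] [Nonempty V] {M : Str ar V}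
    (hEq : HasEq M) (hF : FinTy M) (hN : Nip M) {u : Ultrafilter (V → V)} (hu : Gen M u) (str : ℕ → FS ar)
    (hreal : ∀ o, RealI M (str o)) :
    ∃ (BB : ∀ m : ℕ, Set (Set (Fin m → V))) (Y : LS M u BB) (τ : ℕ → ℕ → Tm Y.Λ)
      (Pn : ∀ o, Fin (str o).1 → Option V),
      (∀ o i p, Pn o i = some p → p ∈ Pin u) ∧ (∀ o c, (τ o c).lv.Nodup) ∧
      (∀ o c o' c', (o, c) ≠ (o', c') → ∀ l ∈ (τ o c).lv, l ∉ (τ o' c').lv) ∧
      ∀ o c, ∃ κ : Fin (str o).1 → V ⊕ (Σ a : Y.Λ, Fin (Y.sz a)),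
        (∀ i p, κ i = Sum.inl p ↔ Pn o i = some p) ∧
        (∀ s : Σ a : Y.Λ, Fin (Y.sz a), s.1 ∈ (τ o c).lv → ∃! i, κ i = Sum.inr s) ∧
        (∀ i s, κ i = Sum.inr s → s.1 ∈ (τ o c).lv) ∧ Function.Injective κ ∧
        ∀ z₀ : St V Y.sz, Tr u Y.v (prog (τ o c)) z₀ {f | pl (fun i => evc f (κ i)) M = (str o).2} := by
  classical
  obtain ⟨T, hT⟩ := exists_TFam hF hN
  have hdc : ∀ o, ∃ Pn : Fin (str o).1 → Option V, (∀ i p, Pn i = some p → p ∈ Pin u) ∧
      ∃ (k : ℕ) (α : Fin k → ℕ), Nonempty (Dcp u M (str o).2 Pn (Fin k) α) ∧ ((∀ l, 0 < α l) ∨ k = 1) ∧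
        ∀ (L : Type) (_ : Finite L) (n : L → ℕ), (∀ l, 0 < n l) → Nonempty (Dcp u M (str o).2 Pn L n) →
          Nat.card L ≤ k := fun o => exists_dcp hEq hu (str o).2 (hreal o)
  choose Pn hPn k α hD hα hmax using hdc
  have D : ∀ o, Dcp u M (str o).2 (Pn o) (Fin (k o)) (α o) := fun o => (hD o).some
  let B₀ : ∀ m : ℕ, Set (Set (Fin m → V)) := fun m =>
    {b | ∃ (o : ℕ) (l : Fin (k o)) (h : α o l = m), b = h ▸ (D o).b l} ∪
      {b | b = {y : Fin m → V | Function.Injective y} ∧ b.Nonempty}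
  have hB₀ : ∀ m, (B₀ m).Countable := by
    intro m
    refine Set.Countable.union ?_ ?_
    · refine (Set.countable_range (fun s : {s : (Σ o, Fin (k o)) // α s.1 s.2 = m} =>
        (s.2 ▸ (D s.1.1).b s.1.2 : Set (Fin m → V)))).mono ?_
      rintro b ⟨o, l, h, rfl⟩
      exact ⟨⟨⟨o, l⟩, h⟩, rfl⟩
    · exact (Set.countable_singleton {y : Fin m → V | Function.Injective y}).mono
        (fun b hb => hb.1)
  have hbox : ∀ m, ∀ b ∈ B₀ m, IsBox u b := by
    rintro m b (⟨o, l, rfl, rfl⟩ | ⟨rfl, h⟩)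
    · exact (D o).box l
    · exact isBox_inj hEq hu.emb h
  obtain ⟨BB, hsub, hBB⟩ := exists_BB hu.idem T B₀ hB₀ hbox
  obtain ⟨Y, τ, h1, h2, h3⟩ := core hEq hu hT hBB (fun m h => hsub m (Or.inr ⟨rfl, h⟩)) str hreal Pn k α D
    hα hmax (fun o l => hsub _ (Or.inl ⟨o, l, rfl, rfl⟩))
  exact ⟨BB, Y, τ, Pn, hPn, h1, h2, h3⟩

end Pool.MP4fb322AA
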