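import Pool.Agent.Lib.MP_4fb322_lc_h71.Defs4
import Pool.Agent.Lib.MP_4fb322_lc_h71.C1
import Pool.Agent.Lib.MP_4fb322_lc_h71.C2
import Pool.Agent.Lib.MP_4fb322_lc_h71.C3
import Pool.Agent.Lib.MP_4fb322_lc_h71.B9
import Pool.Agent.Lib.MP_4fb322_lc_q.Iface

set_option autoImplicit false

/-! Row C4 (MP_4fb322_lc, all arities, positions). -/

namespace Pool.MP4fb322AA

open Filter
open Pool.Agent.Lib.MP_4fb322_lc_q (Tm Sub HasEq FinTy Nip Mv Pt pts mvPt SYS FS Real RealI FLe MIN)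

variable {I : Type} {ar : I → ℕ} {V : Type} {M : Str ar V} {u : Ultrafilter (V → V)}
  {BB : ∀ m : ℕ, Set (Set (Fin m → V))}

/-- a truth value read off from the type -/
private theorem c4_read {L : Type} {n : L → ℕ} {x : ∀ l : L, Ultrafilter (Fin (n l) → V)}
    {P : List (Instr L)} {z : St V n} {N : ℕ} {A : Str ar (Fin N)} (g : St V n → Fin N → V)
    (h : Tr u x P z {f | pl (g f) M = A}) (i : I) (κ : Fin (ar i) → Fin N) :
    Tr u x P z {f | (fun j => g f (κ j)) ∈ M i} ↔ κ ∈ A i := by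
  constructor
  · intro h2
    have h3 : Tr u x P z ({f | pl (g f) M = A} ∩ {f | (fun j => g f (κ j)) ∈ M i}) := Tr.inter h h2
    obtain ⟨f, hf1, hf2⟩ := (trU u x P z).nonempty_of_mem (mem_trU.mpr h3)
    rw [← hf1]
    exact hf2
  · intro h2
    refine Tr.mono ?_ h
    intro f hf
    have hf' : pl (g f) M = A := hf
    rw [← hf'] at h2
    exact h2

/-- the pins of a placement -/
private def c4pins (u : Ultrafilter (V → V)) {N : ℕ} (Pn : Fin N → Option V) : Set (PinT u) :=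
  (fun p : PinT u => some p.1) ⁻¹' Set.range Pn

private theorem c4pins_fin {N : ℕ} (Pn : Fin N → Option V) : (c4pins u Pn).Finite := by
  refine Set.Finite.preimage ?_ (Set.finite_range Pn)
  intro p _ q _ h
  exact Subtype.ext (Option.some.inj h)

/-- a placement of the points gives a representation -/
private theorem c4_rep (Y : LS M u BB) (v₀ : V) (t : ℕ → Tm Y.Λ) (pn : ℕ → Finset (PinT u))
    (A : FS ar) (Pn : Fin A.1 → Option V) (hP : ∀ i p, Pn i = some p → p ∈ Pin u) (y : Tm Y.Λ)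
    (κ : Fin A.1 → V ⊕ (Σ a : Y.Λ, Fin (Y.sz a)))
    (h1 : ∀ i p, κ i = Sum.inl p ↔ Pn i = some p)
    (h2 : ∀ s : Σ a : Y.Λ, Fin (Y.sz a), s.1 ∈ y.lv → ∃! i, κ i = Sum.inr s)
    (h3 : ∀ i s, κ i = Sum.inr s → s.1 ∈ y.lv) (h4 : Function.Injective κ)
    (h5 : ∀ z₀ : St V Y.sz, Tr u Y.v (prog y) z₀ {f | pl (fun i => evc f (κ i)) M = A.2})
    (K : Finset (PinT u)) (hK : ∀ p, p ∈ K ↔ p ∈ c4pins u Pn) :
    (Y.sys v₀ t pn).Rep A y (K : Set (PinT u)) := by
  have hα : ∀ i, ∃ x : PinT u ⊕ Pt Y.sz, Sum.map Subtype.val id x = κ i := by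
    intro i
    rcases hi : κ i with p | s
    · exact ⟨Sum.inl ⟨p, hP i p ((h1 i p).mp hi)⟩, rfl⟩
    · exact ⟨Sum.inr s, rfl⟩
  choose α hα using hα
  have hval : ∀ (f : St V Y.sz) i, Y.val f (α i) = evc f (κ i) := by
    intro f i
    rw [← hα i]
    rcases α i with p | s <;> rfl
  refine ⟨α, ?_, ?_, ?_⟩
  · intro i j hij
    apply h4
    rw [← hα i, ← hα j, hij]
  · ext x
    constructor
    · rintro ⟨i, rfl⟩
      have hi := hα i
      rcases hx : α i with p | s
      · refine Or.inl ⟨p, ?_, rfl⟩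
        rw [hx] at hi
        exact (hK p).mpr ⟨i, (h1 i p.1).mp hi.symm⟩
      · refine Or.inr ⟨s, ?_, rfl⟩
        rw [hx] at hi
        exact h3 i s hi.symm
    · rintro (⟨p, hp, rfl⟩ | ⟨s, hs, rfl⟩)
      · obtain ⟨i, hi⟩ := (hK p).mp hp
        have hi' := (h1 i p.1).mpr hi
        refine ⟨i, ?_⟩
        have h := hα i
        rw [hi'] at h
        rcases hx : α i with p' | s'
        · rw [hx] at h
          have h6 : p'.1 = p.1 := Sum.inl.inj h
          exact congrArg Sum.inl (Subtype.ext h6)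
        · rw [hx] at h
          cases h
      · obtain ⟨i, hi, -⟩ := h2 s hs
        refine ⟨i, ?_⟩
        have h := hα i
        have hi' : κ i = Sum.inr s := hi
        rw [hi'] at h
        rcases hx : α i with p' | s'
        · rw [hx] at h
          cases h
        · rw [hx] at h
          have h6 : s' = s := Sum.inr.inj h
          exact congrArg Sum.inr h6
  · funext i
    ext κ'
    have h := c4_read (M := M) (fun (f : St V Y.sz) i => evc f (κ i)) (h5 (fun _ _ => v₀)) i κ'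
    rw [← h]
    change Tr u Y.v (prog y) (fun _ _ => v₀) {f | (fun j => Y.val f (α (κ' j))) ∈ M i} ↔ _
    simp only [hval]

/-- THEOREM B (for a non empty `V`). -/
theorem thmB_core {I : Type} {ar : I → ℕ} {V : Type} [Countable V] [Nonempty V] (M : Str ar V)
    (hEq : HasEq M) (hF : FinTy M) (hN : Nip M) (a : ℕ → FS ar) (z : FS ar) (ha : ∀ j, RealI M (a j))
    (hz : RealI M z) (hMin : MIN M z a) :
    ∃ (Y : SYS ar) (ta : ℕ → ℕ → Tm Y.L) (tz : ℕ → Tm Y.L) (pa : ℕ → Finset Y.P) (pz : Finset Y.P),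
      Y.Ax ∧ (∀ n, Y.t n = Tm.node (ta n 0) (tz n)) ∧ (∀ n p, p ∈ Y.pn n ↔ p ∈ pa n ∨ p ∈ pz) ∧
        (∀ n c, (ta n c).lv.Nodup) ∧
        (∀ n c c', c ≠ c' → ∀ l ∈ (ta n c).lv, l ∉ (ta n c').lv) ∧
        (∀ n c, Y.Rep (a n) (ta n c) (pa n : Set Y.P)) ∧
        (∀ n, Y.Rep z (tz n) (pz : Set Y.P)) := by
  classical
  obtain ⟨u, hu⟩ := exists_gen M
  obtain ⟨v₀⟩ := (inferInstance : Nonempty V)
  let str : ℕ → FS ar := fun o => Nat.casesOn o z a
  have hreal : ∀ o, RealI M (str o) := by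
    intro o
    cases o with
    | zero => exact hz
    | succ n => exact ha n
  obtain ⟨BB, Y, τ, Pn, hPn, hnd, hdisj, hκ⟩ := exists_LS hEq hF hN hu str hreal
  let pK : ℕ → Finset (PinT u) := fun o => (c4pins_fin (u := u) (Pn o)).toFinset
  have hpK : ∀ o p, p ∈ pK o ↔ p ∈ c4pins u (Pn o) := fun o p => Set.Finite.mem_toFinset _
  let t : ℕ → Tm Y.Λ := fun n => Tm.node (τ (n + 1) 0) (τ 0 n)
  let pn : ℕ → Finset (PinT u) := fun n => pK (n + 1) ∪ pK 0
  have hrep : ∀ o c, (Y.sys v₀ t pn).Rep (str o) (τ o c) (pK o : Set (PinT u)) := by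
    intro o c
    obtain ⟨κ, h1, h2, h3, h4, h5⟩ := hκ o c
    exact c4_rep Y v₀ t pn (str o) (Pn o) (hPn o) (τ o c) κ h1 h2 h3 h4 h5 (pK o) (hpK o)
  have hpn : ∀ n (p : PinT u), p ∈ pn n ↔ p ∈ pK (n + 1) ∨ p ∈ pK 0 := fun n p => Finset.mem_union
  have htnd : ∀ n, (t n).lv.Nodup := by
    intro n
    change ((τ (n + 1) 0).lv ++ (τ 0 n).lv).Nodup
    rw [List.nodup_append']
    refine ⟨hnd _ _, hnd _ _, ?_⟩
    intro l hl hl'
    exact hdisj (n + 1) 0 0 n (by simp) l hl hl'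
  have htdisj : ∀ j k, j ≠ k → ∀ l ∈ (t j).lv, l ∉ (t k).lv := by
    intro j k hjk l hl hl'
    have hl1 : l ∈ (τ (j + 1) 0).lv ++ (τ 0 j).lv := hl
    have hl2 : l ∈ (τ (k + 1) 0).lv ++ (τ 0 k).lv := hl'
    rw [List.mem_append] at hl1 hl2
    rcases hl1 with h | h <;> rcases hl2 with h' | h'
    · exact hdisj (j + 1) 0 (k + 1) 0 (by simpa using hjk) l h h'
    · exact hdisj (j + 1) 0 0 k (by simp) l h h'
    · exact hdisj 0 j (k + 1) 0 (by simp) l h h'
    · exact hdisj 0 j 0 k (by simpa using hjk) l h h'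
  refine ⟨Y.sys v₀ t pn, fun n c => τ (n + 1) c, fun n => τ 0 n, fun n => pK (n + 1), pK 0, ?_,
    fun n => rfl, hpn, fun n c => hnd _ _, ?_, fun n c => hrep (n + 1) c,
    fun n => hrep 0 n⟩
  · exact {
      res := fun s t h hnd i a ha => Y.res hu.idem v₀ h hnd i a ha
      refl := fun l Q hQ => Y.refl' l hQ
      inj := fun l => Y.minj l
      base := fun l Q hQ => Y.base v₀ t pn l hQ
      lc := fun y hy K => Y.lcAx hF v₀ t pn y hy K
      nodup := htnd
      disj := htdisj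
      recg := fun ι W N pN hN hEmb y hy K Q hQ =>
        Y.recg hEq hF hu hMin v₀ t pn (fun n => τ (n + 1) 0) (fun n => τ 0 n) (fun n => pK (n + 1))
          (pK 0) (fun n => rfl) htnd (fun n => Finset.subset_union_left)
          (fun n => Finset.subset_union_right) (fun n => hrep (n + 1) 0) (fun n => hrep 0 n) ι W N pN
          hN hEmb y hy K Q hQ }
  · intro n c c' hcc l hl
    exact hdisj (n + 1) c (n + 1) c' (by simpa using hcc) l hl

/-- THEOREM B. -/
theorem thmB : Pool.Agent.Lib.MP_4fb322_lc_q.ThmB := by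
  intro I ar V _ _ M hEq hF hN a z ha hz hMin
  exact thmB_core M hEq hF hN a z ha hz hMin

end Pool.MP4fb322AA
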