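import Pool.Agent.Lib.MP_4fb322_lc_h71.Force

set_option autoImplicit false

/-!
Transfer of patterns, decisions (MP_4fb322_lc, all arities).
-/

namespace Pool.MP4fb322AA

variable {V : Type} {L : Type} {n : L → ℕ} {u : Ultrafilter (V → V)}

/-- Combine two states: the leaves in `T` are taken from `y`. -/
noncomputable def comb (T : Set L) (z y : St V n) : St V n := by
  classical
  exact fun l => if l ∈ T then y l else z l

/-- `W` has no pattern of size `k` for the partition (`Tᶜ`, `T`). -/
def NoPat (T : Set L) (W : Set (St V n)) (k : ℕ) : Prop :=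
  ¬ ∃ (z : Fin k → St V n) (y : (Fin k → Bool) → St V n),
    ∀ j s, comb T (z j) (y s) ∈ W ↔ s j = true

/-- `W` is tame. -/
def Tame (W : Set (St V n)) : Prop := ∀ T : Set L, ∃ k, NoPat T W k

theorem step_finite {J : Type} [Finite J] {i : Instr L} {P : List (Instr L)} {z : J → St V n} {q : Bx V n}
    {W : J → Set (St V n)} (hb : AllBox u q) (h : ∀ j, F u (i :: P) (z j) q (W j)) :
    ∃ q', AllBox u q' ∧ q' ≤ q ∧ ∀ j, Step u i (z j) q' (fun z' => F u P z' q' (W j)) := by
  classical
  cases nonempty_fintype J
  suffices H : ∀ S : Finset J, ∃ q', AllBox u q' ∧ q' ≤ q ∧ ∀ j ∈ S, Step u i (z j) q'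
      (fun z' => F u P z' q' (W j)) by
    obtain ⟨q', h1, h2, h3⟩ := H Finset.univ
    exact ⟨q', h1, h2, fun j => h3 j (Finset.mem_univ j)⟩
  intro S
  induction S using Finset.induction_on with
  | empty => exact ⟨q, hb, le_rfl, fun j hj => absurd hj (Finset.notMem_empty j)⟩
  | insert a S _ ih =>
      obtain ⟨q₁, hb₁, hq₁, hs₁⟩ := ih
      obtain ⟨q₂, hb₂, hq₂, hs₂⟩ := h a q₁ hb₁ hq₁
      refine ⟨q₂, hb₂, hq₂.trans hq₁, fun j hj => ?_⟩
      rcases Finset.mem_insert.1 hj with rfl | hj
      · exact hs₂
      · exact (hs₁ j hj).mono hq₂ (fun z' hz' => hz'.mono hq₂ subset_rfl)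

/-- TRANSFER of patterns. -/
theorem transfer {J S : Type} [Finite J] [Finite S] {T : Set L} {P : List (Instr L)}
    (hP : lv P ⊆ T) {z : J → St V n} {y : S → St V n} {q : S → Bx V n} (hq : ∀ s, AllBox u (q s))
    {ε : J → S → Set (St V n)} (h : ∀ j s, F u P (comb T (z j) (y s)) (q s) (ε j s)) :
    ∃ (z' : J → St V n) (y' : S → St V n), ∀ j s, comb T (z' j) (y' s) ∈ ε j s := by
  classical
  induction P generalizing z y q with
  | nil => exact ⟨z, y, h⟩
  | cons i P ih =>
      have hP' : lv P ⊆ T := fun l hl => hP (List.mem_cons_of_mem _ hl)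
      have h1 : ∀ s, ∃ q', AllBox u q' ∧ q' ≤ q s ∧ ∀ j, Step u i (comb T (z j) (y s)) q'
          (fun z' => F u P z' q' (ε j s)) := fun s => step_finite (hq s) (fun j => h j s)
      choose q' hb' hq' hs' using h1
      cases i with
      | choose l =>
          have hl : l ∈ T := hP (List.mem_cons_self)
          have h2 : ∀ s, ∃ w, w ∈ q' s l := fun s => (hb' s l).1
          choose w hw using h2
          refine ih hP' (z := z) (y := fun s => upd (y s) l (w s)) (q := q') hb' ?_
          intro j s
          have := hs' s j (w s) (hw s)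
          convert this using 1
          funext l'
          by_cases hll : l' = l
          · subst hll
            simp [comb, hl]
          · simp [comb, upd_ne hll]
      | app A =>
          have h2 : ∀ᶠ g in (u : Filter (V → V)), ∀ j s, F u P (appS A g (comb T (z j) (y s))) (q' s) (ε j s) := by
            rw [Filter.eventually_all]
            intro j
            rw [Filter.eventually_all]
            intro s
            exact hs' s j
          obtain ⟨g, hg⟩ := h2.exists
          refine ih hP' (z := fun j => appS A g (z j)) (y := fun s => appS A g (y s)) (q := q') hb' ?_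
          intro j s
          convert hg j s using 1
          funext l'
          by_cases hA : l' ∈ A <;> by_cases hT : l' ∈ T <;> simp [comb, appS, hA, hT]

/-- Idempotency of `u`. -/
def Idem (u : Ultrafilter (V → V)) : Prop :=
  ∀ A : Set (V → V), A ∈ u ↔ ∀ᶠ f in (u : Filter (V → V)), ∀ᶠ g in (u : Filter (V → V)), g ∘ f ∈ A

/-- The interior. -/
def inter (u : Ultrafilter (V → V)) {m : ℕ} (A : Set (Fin m → V)) : Set (Fin m → V) :=
  {z | z ∈ A ∧ ∀ᶠ h in (u : Filter (V → V)), h ∘ z ∈ A}

theorem inter_subset {m : ℕ} (A : Set (Fin m → V)) : inter u A ⊆ A := fun _ h => h.1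

/-- An ultrafilter on `Fin m → V` is a position if it is `u`-invariant. -/
def Pos (u : Ultrafilter (V → V)) {m : ℕ} (p : Ultrafilter (Fin m → V)) : Prop :=
  ∀ A : Set (Fin m → V), A ∈ p ↔ ∀ᶠ z in (p : Filter _), ∀ᶠ h in (u : Filter (V → V)), h ∘ z ∈ A

theorem Pos.inter_mem {m : ℕ} {p : Ultrafilter (Fin m → V)} (hp : Pos u p) {A : Set (Fin m → V)}
    (hA : A ∈ p) : inter u A ∈ p := by
  filter_upwards [hA, (hp A).1 hA] with z h1 h2
  exact ⟨h1, h2⟩

/-- The law of `h ∘ z`. -/
noncomputable def law (u : Ultrafilter (V → V)) {m : ℕ} (z : Fin m → V) : Ultrafilter (Fin m → V) :=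
  u.map (fun h => h ∘ z)

theorem mem_law {m : ℕ} {z : Fin m → V} {A : Set (Fin m → V)} :
    A ∈ law u z ↔ ∀ᶠ h in (u : Filter (V → V)), h ∘ z ∈ A := Iff.rfl

theorem law_pos (hu : Idem u) {m : ℕ} (z : Fin m → V) : Pos u (law u z) := by
  intro A
  rw [mem_law]
  have := hu {h | h ∘ z ∈ A}
  simp only [Set.mem_ofPred_eq] at this
  rw [show (∀ᶠ h in (u : Filter (V → V)), h ∘ z ∈ A) ↔ {h : V → V | h ∘ z ∈ A} ∈ u from Iff.rfl, this]
  rfl

theorem isBox_inter (hu : Idem u) {m : ℕ} {A : Set (Fin m → V)} (hA : (inter u A).Nonempty) :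
    IsBox u (inter u A) := by
  refine ⟨hA, fun z hz => ?_⟩
  exact (law_pos hu z).inter_mem hz.2

theorem isBox_inter_of_mem (hu : Idem u) {m : ℕ} {p : Ultrafilter (Fin m → V)} (hp : Pos u p)
    {A : Set (Fin m → V)} (hA : A ∈ p) : IsBox u (inter u A) := by
  refine isBox_inter hu ?_
  exact p.nonempty_of_mem (hp.inter_mem hA)

/-- Being decided. -/
def Dec (u : Ultrafilter (V → V)) (P : List (Instr L)) (z : St V n) (q : Bx V n) (W : Set (St V n)) : Prop :=
  F u P z q W ∨ F u P z q Wᶜ

/-- LEMMA C (one step): if everything is densely decided below `q`, then for every ultrafilter on the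
parameters some smaller family of boxes decides. -/
theorem lemmaC_aux {BB : Bx V n → Prop} {P : List (Instr L)} {W : Set (St V n)} {k : ℕ} (hk : NoPat (lv P) W k)
    (hbb : ∀ q, BB q → AllBox u q)
    (hdec : ∀ (z : St V n) (q : Bx V n), BB q → ∀ W', W' = W ∨ W' = Wᶜ → ¬ F u P z q W' →
      ∃ q', BB q' ∧ q' ≤ q ∧ F u P z q' W'ᶜ)
    (p : Ultrafilter (St V n)) {q : Bx V n} (hq : BB q) :
    ∃ q', BB q' ∧ q' ≤ q ∧ ((∀ᶠ z in (p : Filter _), F u P z q' W) ∨ (∀ᶠ z in (p : Filter _), F u P z q' Wᶜ)) := by
  classical
  by_contra hcon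
  push Not at hcon
  have key : ∀ q', BB q' → q' ≤ q → ∀ᶠ z in (p : Filter _),
      ∀ b : Bool, ∃ q'', BB q'' ∧ q'' ≤ q' ∧ F u P z q'' (cond b W Wᶜ) := by
    intro q' hb' hq'
    obtain ⟨h1, h2⟩ := hcon q' hb' hq'
    filter_upwards [h1, h2] with z hz1 hz2 b
    cases b with
    | false =>
        obtain ⟨q'', h3, h4, h5⟩ := hdec z q' hb' W (Or.inl rfl) hz1
        exact ⟨q'', h3, h4, by simpa using h5⟩
    | true =>
        obtain ⟨q'', h3, h4, h5⟩ := hdec z q' hb' Wᶜ (Or.inr rfl) hz2
        exact ⟨q'', h3, h4, by simpa using h5⟩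
  have pat : ∀ m : ℕ, ∃ (z : Fin m → St V n) (Q : (Fin m → Bool) → Bx V n), (∀ s, BB (Q s)) ∧ (∀ s, Q s ≤ q) ∧
      ∀ j s, F u P (z j) (Q s) (cond (s j) W Wᶜ) := by
    intro m
    induction m with
    | zero => exact ⟨Fin.elim0, fun _ => q, fun _ => hq, fun _ => le_rfl, fun j => j.elim0⟩
    | succ m ih =>
        obtain ⟨z, Q, hQ, hQq, hF⟩ := ih
        have h1 : ∀ᶠ w in (p : Filter _), ∀ s : Fin m → Bool, ∀ b : Bool, ∃ q'', BB q'' ∧ q'' ≤ Q s ∧
            F u P w q'' (cond b W Wᶜ) := by
          rw [Filter.eventually_all]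
          intro s
          exact key (Q s) (hQ s) (hQq s)
        obtain ⟨w, hw⟩ := h1.exists
        choose R hR hRQ hRF using hw
        refine ⟨Fin.cons w z, fun s => R (Fin.tail s) (s 0), fun s => hR _ _, fun s => (hRQ _ _).trans (hQq _), ?_⟩
        intro j s
        refine Fin.cases ?_ (fun j => ?_) j
        · simpa using hRF (Fin.tail s) (s 0)
        · have := (hF j (Fin.tail s)).mono (hRQ (Fin.tail s) (s 0)) subset_rfl
          simpa [Fin.tail] using this
  obtain ⟨z, Q, hQ, _, hF⟩ := pat k
  apply hk
  have hT : ∀ j s, F u P (comb (lv P) (z j) ((fun _ => fun l => (z j) l) s)) (Q s) (cond (s j) W Wᶜ) := by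
    intro j s
    refine (hF j s).congr_state (fun l hl => ?_)
    simp [comb, hl]
  rcases k with _ | k
  · -- no parameters: take any states
    obtain ⟨z', hz'⟩ := Filter.Eventually.exists (key q hq le_rfl)
    exact ⟨Fin.elim0, fun _ => z', fun j => j.elim0⟩
  · have hT' : ∀ j s, F u P (comb (lv P) (z j) (z 0)) (Q s) (cond (s j) W Wᶜ) := by
      intro j s
      refine (hF j s).congr_state (fun l hl => ?_)
      simp [comb, hl]
    obtain ⟨z', y', h'⟩ := transfer (T := lv P) (J := Fin (k + 1)) (S := Fin (k + 1) → Bool) subset_rfl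
      (z := z) (y := fun _ => z 0) (q := Q) (fun s => hbb _ (hQ s)) (ε := fun j s => cond (s j) W Wᶜ) hT'
    refine ⟨z', y', fun j s => ?_⟩
    have := h' j s
    cases hs : s j with
    | false => simpa [hs] using this
    | true => simpa [hs] using this

/-- From density of decisions: if `W` is not forced, the complement is forced below. -/
theorem not_F_of_dec {P : List (Instr L)} {z : St V n} {W : Set (St V n)}
    (hdec : ∀ q : Bx V n, AllBox u q → ∃ q', AllBox u q' ∧ q' ≤ q ∧ Dec u P z q' W)
    {q : Bx V n} (hq : AllBox u q) (h : ¬ F u P z q W) : ∃ q', AllBox u q' ∧ q' ≤ q ∧ F u P z q' Wᶜ := by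
  by_contra hcon
  push Not at hcon
  apply h
  refine F.dense hq (fun q' hb' hq' => ?_)
  obtain ⟨q'', hb'', hq'', hd⟩ := hdec q' hb'
  rcases hd with hd | hd
  · exact ⟨q'', hb'', hq'', hd⟩
  · exact absurd hd (hcon q'' hb'' (hq''.trans hq'))

theorem Tame.compl {W : Set (St V n)} (h : Tame W) : Tame Wᶜ := by
  intro T
  obtain ⟨k, hk⟩ := h T
  refine ⟨k, fun ⟨z, y, hzy⟩ => hk ⟨z, fun s => y (fun j => !(s j)), fun j s => ?_⟩⟩
  have := hzy j (fun j => !(s j))
  simp only [Set.mem_compl_iff, Bool.not_eq_eq_eq_not, Bool.not_true] at this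
  constructor
  · intro h1
    by_contra h2
    exact (this.2 (by simpa using h2)) h1
  · intro h1
    by_contra h2
    have := this.1 h2
    rw [h1] at this
    exact absurd this (by simp)

/-- DEC: everything is densely decided. -/
theorem dec_dense (hu : Idem u) {W : Set (St V n)} (hW : Tame W) {P : List (Instr L)} (hP : Good P)
    (z : St V n) {q : Bx V n} (hq : AllBox u q) : ∃ q', AllBox u q' ∧ q' ≤ q ∧ Dec u P z q' W := by
  classical
  induction P generalizing z q with
  | nil =>
      refine ⟨q, hq, le_rfl, ?_⟩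
      by_cases h : z ∈ W
      · exact Or.inl h
      · exact Or.inr h
  | cons i P ih =>
      have hP' : Good P := by
        cases i with
        | choose l => exact hP.2
        | app S => exact hP
      have ih' : ∀ (z : St V n) (q : Bx V n), AllBox u q → ∀ W', W' = W ∨ W' = Wᶜ → ¬ F u P z q W' →
          ∃ q', AllBox u q' ∧ q' ≤ q ∧ F u P z q' W'ᶜ := by
        intro z q hq W' hW' h
        refine not_F_of_dec (fun q₁ hq₁ => ?_) hq h
        obtain ⟨q', h1, h2, h3⟩ := ih hP' z hq₁
        refine ⟨q', h1, h2, ?_⟩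
        rcases hW' with rfl | rfl
        · exact h3
        · unfold Dec
          rw [compl_compl]
          exact h3.symm
      obtain ⟨k, hk⟩ := hW (lv P)
      cases i with
      | app S =>
          obtain ⟨q', hb', hq', h⟩ := lemmaC_aux (BB := AllBox u) hk (fun _ h => h) ih'
            (u.map (fun h => appS S h z)) hq
          refine ⟨q', hb', hq', ?_⟩
          rcases h with h | h
          · exact Or.inl (F.of_step h)
          · exact Or.inr (F.of_step h)
      | choose l =>
          obtain ⟨z₀, hz₀⟩ := (hq l).1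
          have hp₀ : Pos u (law u z₀) := law_pos hu z₀
          have hql : q l ∈ law u z₀ := (hq l).2 z₀ hz₀
          obtain ⟨q', hb', hq', h⟩ := lemmaC_aux (BB := AllBox u) hk (fun _ h => h) ih'
            ((law u z₀).map (fun y => upd z l y)) hq
          have main : ∀ W' : Set (St V n), (∀ᶠ z' in (((law u z₀).map (fun y => upd z l y) :
              Ultrafilter _) : Filter _), F u P z' q' W') →
              ∃ q'', AllBox u q'' ∧ q'' ≤ q ∧ F u (Instr.choose l :: P) z q'' W' := by
            intro W' hW'
            have hB : {y | F u P (upd z l y) q' W'} ∈ law u z₀ := hW'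
            have hB' := Filter.inter_mem hql hB
            set B := q l ∩ {y | F u P (upd z l y) q' W'} with hBdef
            refine ⟨Function.update q' l (inter u B), ?_, ?_, ?_⟩
            · intro l'
              by_cases hll : l' = l
              · subst hll
                simpa using isBox_inter_of_mem hu hp₀ hB'
              · simpa [Function.update_of_ne hll] using hb' l'
            · intro l'
              by_cases hll : l' = l
              · subst hll
                simp only [Function.update_self]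
                exact (inter_subset B).trans Set.inter_subset_left
              · simpa [Function.update_of_ne hll] using hq' l'
            · apply F.of_step
              intro y hy
              simp only [Function.update_self] at hy
              have h1 : F u P (upd z l y) q' W' := (inter_subset B hy).2
              refine h1.congr_box hb' (fun l' hl' => ?_)
              have hne : l' ≠ l := by
                rintro rfl
                exact hP.1 hl'
              simp [Function.update_of_ne hne]
          rcases h with h | h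
          · obtain ⟨q'', h1, h2, h3⟩ := main W h
            exact ⟨q'', h1, h2, Or.inl h3⟩
          · obtain ⟨q'', h1, h2, h3⟩ := main Wᶜ h
            exact ⟨q'', h1, h2, Or.inr h3⟩

end Pool.MP4fb322AA
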