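import Pool.Agent.Lib.MP_4fb322_lc_h71.Decide
import Pool.Agent.Lib.MP_4fb322_lc_q.Base

set_option autoImplicit false

/-!
Definitions for the rows B1 - B12 (positions), MP_4fb322_lc, all arities.
-/

namespace Pool.MP4fb322AA

open Filter
open Pool.Agent.Lib.MP_4fb322_lc_q (Tm)

/-! ### B1: simulations -/

section Sim

variable {V L L' : Type} {n : L → ℕ} {n' : L' → ℕ}

/-- `pt l' = some ⟨l, g⟩`: the leaf `l'` stands for the leaf `l`, whose coordinates are read through `g`. -/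
abbrev Partner (n : L → ℕ) (n' : L' → ℕ) : Type :=
  ∀ l' : L', Option (Σ l : L, (Fin (n l) → Fin (n' l')))

/-- the programs `P` (below) and `P'` (above) correspond to each other under `π` -/
inductive Sim (π : St V n' → St V n) (pt : Partner n n') : List (Instr L) → List (Instr L') → Prop
  | nil : Sim π pt [] []
  | choose {l : L} {l' : L'} {g : Fin (n l) → Fin (n' l')} {P : List (Instr L)} {P' : List (Instr L')}
      (h : pt l' = some ⟨l, g⟩)
      (hπ : ∀ (z' : St V n') (y' : Fin (n' l') → V), π (upd z' l' y') = upd (π z') l (y' ∘ g))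
      (hP : Sim π pt P P') : Sim π pt (Instr.choose l :: P) (Instr.choose l' :: P')
  | app {S : Set L} {S' : Set L'} {P : List (Instr L)} {P' : List (Instr L')}
      (hπ : ∀ (h : V → V) (z' : St V n'), π (appS S' h z') = appS S h (π z'))
      (hP : Sim π pt P P') : Sim π pt (Instr.app S :: P) (Instr.app S' :: P')

/-- different leaves stand for different leaves -/
def PInj (pt : Partner n n') : Prop :=
  ∀ (l₁' l₂' : L') (l : L) (g₁ : Fin (n l) → Fin (n' l₁')) (g₂ : Fin (n l) → Fin (n' l₂')),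
    pt l₁' = some ⟨l, g₁⟩ → pt l₂' = some ⟨l, g₂⟩ → l₁' = l₂'

end Sim

/-! ### B3: the countable family of boxes -/

/-- sets of states looking at finitely many coordinates -/
def cyl {V L : Type} {n : L → ℕ} {N : ℕ} (G : Fin N → Σ l : L, Fin (n l)) (W₀ : Set (Fin N → V)) :
    Set (St V n) := {z | (fun i => z (G i).1 (G i).2) ∈ W₀}

open Classical in
/-- `y` on `A`, `z` elsewhere -/
noncomputable def cmb {V : Type} {N : ℕ} (A : Set (Fin N)) (z y : Fin N → V) : Fin N → V :=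
  fun i => if i ∈ A then y i else z i

/-- a countable family of tame sets, closed under complements -/
structure TFam (V : Type) where
  T : ∀ N : ℕ, Set (Set (Fin N → V))
  countable : ∀ N, (T N).Countable
  compl : ∀ N, ∀ W ∈ T N, Wᶜ ∈ T N
  tame : ∀ N, ∀ W ∈ T N, ∀ A : Set (Fin N), ∃ k : ℕ,
    ¬ ∃ (z : Fin k → Fin N → V) (y : (Fin k → Bool) → Fin N → V), ∀ j s, cmb A (z j) (y s) ∈ W ↔ s j = true

/-- the sets of states in the family -/
def InW {V L : Type} {n : L → ℕ} (T : TFam V) (W : Set (St V n)) : Prop :=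
  ∃ (N : ℕ) (G : Fin N → Σ l : L, Fin (n l)) (W₀ : Set (Fin N → V)), W₀ ∈ T.T N ∧ W = cyl G W₀

/-- all boxes of `q` are in the family `BB` -/
def Fm {V L : Type} {n : L → ℕ} (BB : ∀ m : ℕ, Set (Set (Fin m → V))) (q : Bx V n) : Prop :=
  ∀ l, q l ∈ BB (n l)

/-- closure under the witnesses of forcing, for one context -/
def Closed {V L : Type} (u : Ultrafilter (V → V)) (T : TFam V) (BB : ∀ m : ℕ, Set (Set (Fin m → V)))
    (n : L → ℕ) : Prop :=
  (∀ (i : Instr L) (P : List (Instr L)) (z : St V n) (q : Bx V n) (W : Set (St V n)), InW T W → Fm BB q →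
    F u (i :: P) z q W → ∃ q' : Bx V n, Fm BB q' ∧ q' ≤ q ∧ Step u i z q' (fun z' => F u P z' q' W)) ∧
  (∀ (P : List (Instr L)) (z : St V n) (q : Bx V n) (W : Set (St V n)), InW T W → Good P → Fm BB q →
    ¬ F u P z q W → ∃ q' : Bx V n, Fm BB q' ∧ q' ≤ q ∧ F u P z q' Wᶜ)

/-- the countable families of boxes that we use -/
structure IsBB {V : Type} (u : Ultrafilter (V → V)) (T : TFam V) (BB : ∀ m : ℕ, Set (Set (Fin m → V))) :
    Prop where
  box : ∀ m, ∀ b ∈ BB m, IsBox u b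
  countable : ∀ m, (BB m).Countable
  inter : ∀ m, ∀ b ∈ BB m, ∀ b' ∈ BB m, (b ∩ b').Nonempty → b ∩ b' ∈ BB m
  pull : ∀ m m', ∀ b ∈ BB m, ∀ g : Fin m → Fin m', ({y : Fin m' → V | y ∘ g ∈ b}).Nonempty →
    {y : Fin m' → V | y ∘ g ∈ b} ∈ BB m'
  closed₁ : ∀ (k : ℕ) (α : Fin k → ℕ), Closed u T BB α
  closed₂ : ∀ (k r : ℕ) (α : Fin k → ℕ) (β : Fin r → ℕ), Closed u T BB (Sum.elim α β)

/-! ### B4, B5: contexts `Fin k ⊕ Fin r` -/

/-- join of two states -/
def jn {V : Type} {k r : ℕ} {α : Fin k → ℕ} {β : Fin r → ℕ} (z : St V α) (z₁ : St V β) :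
    St V (Sum.elim α β)
  | Sum.inl l => z l
  | Sum.inr j => z₁ j

/-- an instruction over `Fin k`, seen over `Fin k ⊕ Fin r` -/
def liftI {k : ℕ} (r : ℕ) : Instr (Fin k) → Instr (Fin k ⊕ Fin r)
  | Instr.choose l => Instr.choose (Sum.inl l)
  | Instr.app S => Instr.app (Sum.inl '' S)

/-- genericity of the positions `v` of the labels: forcing steps -/
def GenStep {V Λ : Type} (u : Ultrafilter (V → V)) (T : TFam V) (BB : ∀ m : ℕ, Set (Set (Fin m → V)))
    (sz : Λ → ℕ) (v : ∀ a : Λ, Ultrafilter (Fin (sz a) → V)) : Prop :=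
  ∀ (k r : ℕ) (α : Fin k → ℕ) (E : Fin r → Λ), Function.Injective E →
    ∀ (i : Instr (Fin k ⊕ Fin r)) (P : List (Instr (Fin k ⊕ Fin r)))
      (z : St V (Sum.elim α (fun j => sz (E j)))) (q : Bx V (Sum.elim α (fun j => sz (E j))))
      (W : Set (St V (Sum.elim α (fun j => sz (E j))))), InW T W → Fm BB q →
      (∀ j : Fin r, q (Sum.inr j) ∈ v (E j)) → F u (i :: P) z q W →
      ∃ q' : Bx V (Sum.elim α (fun j => sz (E j))), Fm BB q' ∧ q' ≤ q ∧
        (∀ j : Fin r, q' (Sum.inr j) ∈ v (E j)) ∧ Step u i z q' (fun z' => F u P z' q' W)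

/-- genericity of the positions `v` over the ultrafilter `p` on the states of `Fin k`: decisions -/
def GenDec {V Λ : Type} (u : Ultrafilter (V → V)) (T : TFam V) (BB : ∀ m : ℕ, Set (Set (Fin m → V)))
    (sz : Λ → ℕ) (v : ∀ a : Λ, Ultrafilter (Fin (sz a) → V)) (k : ℕ) (α : Fin k → ℕ)
    (p : Ultrafilter (St V α)) : Prop :=
  ∀ (r : ℕ) (E : Fin r → Λ), Function.Injective E →
    ∀ (z₁ : St V (fun j => sz (E j))) (P : List (Instr (Fin k ⊕ Fin r)))
      (q : Bx V (Sum.elim α (fun j => sz (E j)))) (W : Set (St V (Sum.elim α (fun j => sz (E j))))),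
      InW T W → Good P → Fm BB q → (∀ j : Fin r, q (Sum.inr j) ∈ v (E j)) →
      ∃ q' : Bx V (Sum.elim α (fun j => sz (E j))), Fm BB q' ∧ q' ≤ q ∧
        (∀ j : Fin r, q' (Sum.inr j) ∈ v (E j)) ∧
        ((∀ᶠ z in (p : Filter (St V α)), F u P (jn z z₁) q' W) ∨
          (∀ᶠ z in (p : Filter (St V α)), F u P (jn z z₁) q' Wᶜ))

/-! ### Programs of trees -/

/-- the program of a tree -/
def prog {L : Type} : Tm L → List (Instr L)
  | Tm.leaf l => [Instr.choose l]
  | Tm.node s t => prog s ++ prog t ++ [Instr.app {l | l ∈ s.lv ∨ l ∈ t.lv}]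

/-- the pins -/
def Pin {V : Type} (u : Ultrafilter (V → V)) : Set V := {x | ∀ᶠ h in (u : Filter (V → V)), h x = x}

end Pool.MP4fb322AA
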