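import Pool.Agent.Lib.MP_4fb322_lc_h71.Defs2

set_option autoImplicit false

/-!
Definitions for the rows B7 - B15 (positions), MP_4fb322_lc, all arities.
-/

namespace Pool.MP4fb322AA

open Filter
open Pool.Agent.Lib.MP_4fb322_lc_q (Tm Sub HasEq FinTy Nip Mv)

/-- structures (of the interface); `St` is used here for states -/
abbrev Str {I : Type} (ar : I → ℕ) (V : Type) : Type := Pool.Agent.Lib.MP_4fb322_lc_q.St ar V

/-- pull back of structures (of the interface) -/
abbrev pl {I : Type} {ar : I → ℕ} {X V : Type} (f : X → V) (M : Str ar V) : Str ar X :=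
  Pool.Agent.Lib.MP_4fb322_lc_q.pull f M

/-! ### generalised self-embeddings -/

/-- generalised self-embedding of `M` -/
def GE {I : Type} {ar : I → ℕ} {V : Type} (M : Str ar V) (u : Ultrafilter (V → V)) : Prop :=
  ∀ A : Set V, A.Finite → ∀ᶠ h in (u : Filter (V → V)),
    ∀ (i : I) (t : Fin (ar i) → V), (∀ k, t k ∈ A) → (h ∘ t ∈ M i ↔ t ∈ M i)

/-- an idempotent of a minimal left ideal -/
structure Gen {I : Type} {ar : I → ℕ} {V : Type} (M : Str ar V) (u : Ultrafilter (V → V)) : Prop where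
  emb : GE M u
  idem : Idem u
  mini : ∀ w : Ultrafilter (V → V), GE M w → ∃ q : Ultrafilter (V → V), GE M q ∧
    ∀ A : Set (V → V), A ∈ u ↔ ∀ᶠ f in (q : Filter (V → V)), ∀ᶠ g in (w : Filter (V → V)),
      ∀ᶠ h in (u : Filter (V → V)), h ∘ g ∘ f ∈ A

/-- invariance for arbitrary index sets of coordinates -/
def PosX {V X : Type} (u : Ultrafilter (V → V)) (p : Ultrafilter (X → V)) : Prop :=
  ∀ A : Set (X → V), A ∈ p ↔ ∀ᶠ z in (p : Filter (X → V)), ∀ᶠ h in (u : Filter (V → V)), h ∘ z ∈ A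

/-! ### coordinates -/

/-- the value of a pin or of a coordinate -/
def evc {V L : Type} {n : L → ℕ} (z : St V n) : V ⊕ (Σ l : L, Fin (n l)) → V
  | Sum.inl p => p
  | Sum.inr s => z s.1 s.2

/-- `A` depends only on the coordinates of the leaves in `S` -/
def Dep {V L : Type} {n : L → ℕ} (A : Set (St V n)) (S : Set L) : Prop :=
  ∀ z z' : St V n, (∀ l ∈ S, z l = z' l) → (z ∈ A ↔ z' ∈ A)

/-! ### decompositions -/

/-- a decomposition of the finite structure `A`; the points `i` with `Pn i = some p` are placed on the pins -/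
structure Dcp {I : Type} {ar : I → ℕ} {V : Type} (u : Ultrafilter (V → V)) (M : Str ar V) {N : ℕ}
    (A : Str ar (Fin N)) (Pn : Fin N → Option V) (L : Type) (n : L → ℕ) where
  t : Tm L
  nodup : t.lv.Nodup
  mem : ∀ l, l ∈ t.lv
  c : Fin N → V ⊕ (Σ l : L, Fin (n l))
  cpin : ∀ i p, c i = Sum.inl p ↔ Pn i = some p
  cbij : ∀ s : Σ l : L, Fin (n l), ∃! i, c i = Sum.inr s
  b : Bx V n
  box : AllBox u b
  npin : ∀ l, ∀ y ∈ b l, ∀ x, y x ∉ Pin u
  force : ∀ z₀, F u (prog t) z₀ b {z | pl (fun i => evc z (c i)) M = A}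

/-! ### NS -/

/-- an instruction over `Fin k`, in which the leaf `i₀` is replaced by the leaves `inr j` -/
def subI {k : ℕ} (r : ℕ) (i₀ : Fin k) : Instr (Fin k) → Instr (Fin k ⊕ Fin r)
  | Instr.choose l => Instr.choose (Sum.inl l)
  | Instr.app S => Instr.app {x | (∃ l ∈ S, x = Sum.inl l) ∨ (i₀ ∈ S ∧ ∃ j, x = Sum.inr j)}

/-- an instruction over `Fin r`, seen over `Fin k ⊕ Fin r` -/
def liftR (k : ℕ) {r : ℕ} : Instr (Fin r) → Instr (Fin k ⊕ Fin r)
  | Instr.choose j => Instr.choose (Sum.inr j)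
  | Instr.app S => Instr.app (Sum.inr '' S)

/-- reading: the leaf `i₀` is read from the leaves `inr j` through `g` -/
noncomputable def rd {V : Type} {k r : ℕ} {α : Fin k → ℕ} {β : Fin r → ℕ} (i₀ : Fin k)
    (g : Fin (α i₀) → Σ j : Fin r, Fin (β j)) (z : St V (Sum.elim α β)) : St V α :=
  upd (fun l => z (Sum.inl l)) i₀ (fun x => z (Sum.inr (g x).1) (g x).2)

/-! ### the tame family of a structure -/

/-- the set of maps whose type is `A`; `c` names pins and coordinates -/
def tyS {I : Type} {ar : I → ℕ} {V : Type} (M : Str ar V) {N K : ℕ} (c : Fin K → V ⊕ Fin N)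
    (A : Str ar (Fin K)) : Set (Fin N → V) :=
  {f | pl (fun i => Sum.elim (fun p => p) f (c i)) M = A}

end Pool.MP4fb322AA
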