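import Pool.Agent.Lib.MP_4fb322_lc_h71.Defs3
import Pool.Agent.Lib.MP_4fb322_lc_h71.B6

set_option autoImplicit false

/-!
Label systems and the interface `SYS` (positions), MP_4fb322_lc, all arities.
-/

namespace Pool.MP4fb322AA

open Filter
open Pool.Agent.Lib.MP_4fb322_lc_q (Tm Sub HasEq FinTy Nip Mv Pt pts mvPt SYS FS Real RealI FLe MIN)

/-- the pins as a type -/
abbrev PinT {V : Type} (u : Ultrafilter (V → V)) : Type := {x : V // x ∈ Pin u}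

/-- A label system: labels with positions satisfying (LC) and (NS). -/
structure LS {I : Type} {ar : I → ℕ} {V : Type} (M : Str ar V) (u : Ultrafilter (V → V))
    (BB : ∀ m : ℕ, Set (Set (Fin m → V))) where
  Λ : Type
  sz : Λ → ℕ
  v : ∀ a : Λ, Ultrafilter (Fin (sz a) → V)
  pos : ∀ a, Pos u (v a)
  inj : ∀ a, ∃ b ∈ BB (sz a), b ∈ v a ∧ ∀ y ∈ b, Function.Injective y ∧ ∀ i, y i ∉ Pin u
  inter : ∀ m, ∀ b ∈ BB m, ∀ b' ∈ BB m, (b ∩ b').Nonempty → b ∩ b' ∈ BB m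
  pull : ∀ m m', ∀ b ∈ BB m, ∀ g : Fin m → Fin m', ({y : Fin m' → V | y ∘ g ∈ b}).Nonempty →
    {y : Fin m' → V | y ∘ g ∈ b} ∈ BB m'
  lc : ∀ y : Tm Λ, y.lv.Nodup → ∀ (K : ℕ) (c : Fin K → V ⊕ (Σ a : Λ, Fin (sz a))),
    (∀ i s, c i = Sum.inr s → s.1 ∈ y.lv) → ∀ (A : Str ar (Fin K)) (z₀ : St V sz),
    Tr u v (prog y) z₀ {f | pl (fun i => evc f (c i)) M = A} →
    ∃ b : ∀ a : Λ, Set (Fin (sz a) → V), (∀ a, b a ∈ BB (sz a) ∧ b a ∈ v a) ∧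
      ∀ e : (a : Λ) → Mv sz a, Set.InjOn (fun a => (e a).1) {a | a ∈ y.lv} →
        (∀ a ∈ y.lv, {w | w ∘ (e a).2 ∈ b a} ∈ v (e a).1) → ∀ z₁ : St V sz,
          Tr u v (prog (y.map fun a => (e a).1)) z₁
            {f | pl (fun i => Sum.elim (fun p => p) (fun s => f (e s.1).1 ((e s.1).2 s.2)) (c i)) M = A}
  ns : ∀ a, ∃ w ∈ BB (sz a), w ∈ v a ∧ ∀ y : Tm Λ, y.lv.Nodup → ∀ g : Fin (sz a) → Σ a : Λ, Fin (sz a),
    Function.Injective g → (∀ x, (g x).1 ∈ y.lv) → ∀ z₂ : St V sz,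
    Tr u v (prog y) z₂ {f | (fun x => f (g x).1 (g x).2) ∈ w} → ∃ a' ∈ y.lv, ∀ x, (g x).1 = a'

namespace LS

variable {I : Type} {ar : I → ℕ} {V : Type} {M : Str ar V} {u : Ultrafilter (V → V)}
  {BB : ∀ m : ℕ, Set (Set (Fin m → V))} (Y : LS M u BB)

/-- the value of a point -/
def val (f : St V Y.sz) : PinT u ⊕ Pt Y.sz → V
  | Sum.inl p => p.1
  | Sum.inr s => f s.1 s.2

/-- the structure of a term -/
def S (v₀ : V) (y : Tm Y.Λ) : Str ar (PinT u ⊕ Pt Y.sz) :=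
  fun i => {t | Tr u Y.v (prog y) (fun _ _ => v₀) {f | (fun j => Y.val f (t j)) ∈ M i}}

/-- the fine moves given by the box `b` -/
def mvs (a : Y.Λ) (b : Set (Fin (Y.sz a) → V)) : Set (Mv Y.sz a) :=
  {m | {w : Fin (Y.sz m.1) → V | w ∘ m.2 ∈ b} ∈ Y.v m.1}

/-- the filter of fine moves -/
def FF (a : Y.Λ) : Filter (Mv Y.sz a) where
  sets := {Q | ∃ b ∈ BB (Y.sz a), b ∈ Y.v a ∧ Y.mvs a b ⊆ Q}
  univ_sets := by
    obtain ⟨b, hb, hv, _⟩ := Y.inj a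
    exact ⟨b, hb, hv, Set.subset_univ _⟩
  sets_of_superset := by
    rintro Q Q' ⟨b, hb, hv, hQ⟩ hQQ
    exact ⟨b, hb, hv, hQ.trans hQQ⟩
  inter_sets := by
    rintro Q Q' ⟨b, hb, hv, hQ⟩ ⟨b', hb', hv', hQ'⟩
    refine ⟨b ∩ b', Y.inter _ b hb b' hb' ((Y.v a).nonempty_of_mem (Filter.inter_mem hv hv')),
      Filter.inter_mem hv hv', ?_⟩
    intro m hm
    have hm' : {w : Fin (Y.sz m.1) → V | w ∘ m.2 ∈ b ∩ b'} ∈ Y.v m.1 := hm
    exact ⟨hQ (Filter.mem_of_superset hm' fun w hw => hw.1),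
      hQ' (Filter.mem_of_superset hm' fun w hw => hw.2)⟩

/-- the system -/
def sys (v₀ : V) (t : ℕ → Tm Y.Λ) (pn : ℕ → Finset (PinT u)) : SYS ar where
  L := Y.Λ
  P := PinT u
  sz := Y.sz
  S := Y.S v₀
  FF := Y.FF
  t := t
  pn := pn

end LS

end Pool.MP4fb322AA
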