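import Mathlib

set_option autoImplicit false

/-!
Forcing with invariant boxes (MP_4fb322_lc, all arities): programs, the relation `F`, transfer of patterns,
decisions.  Everything is about a type `V`, an ultrafilter `u` on `V → V` and sets of states.
-/

namespace Pool.MP4fb322AA

/-- Instructions over a type of leaves. -/
inductive Instr (L : Type) where
  | choose : L → Instr L
  | app : Set L → Instr L

section Defs

variable {V : Type} {L : Type}

/-- A state: the values of the coordinates of all leaves. -/
abbrev St (V : Type) {L : Type} (n : L → ℕ) : Type := ∀ l : L, Fin (n l) → V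

/-- Give the leaf `l` the coordinates `y`. -/
noncomputable def upd {n : L → ℕ} (z : St V n) (l : L) (y : Fin (n l) → V) : St V n := by
  classical
  exact Function.update z l y

/-- Apply `h` to the coordinates of the leaves in `S`. -/
noncomputable def appS {n : L → ℕ} (S : Set L) (h : V → V) (z : St V n) : St V n := by
  classical
  exact fun l => if l ∈ S then h ∘ z l else z l

/-- An invariant set (box): non empty and, for each of its points `z`, almost all `h ∘ z` are in it. -/
def IsBox (u : Ultrafilter (V → V)) {m : ℕ} (b : Set (Fin m → V)) : Prop :=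
  b.Nonempty ∧ ∀ z ∈ b, ∀ᶠ h in (u : Filter (V → V)), h ∘ z ∈ b

/-- A family of boxes. -/
abbrev Bx (V : Type) {L : Type} (n : L → ℕ) : Type := ∀ l : L, Set (Fin (n l) → V)

def AllBox (u : Ultrafilter (V → V)) {n : L → ℕ} (q : Bx V n) : Prop := ∀ l, IsBox u (q l)

/-- The quantifier of one instruction. -/
def Step (u : Ultrafilter (V → V)) {n : L → ℕ} (i : Instr L) (z : St V n) (q : Bx V n)
    (φ : St V n → Prop) : Prop :=
  match i with
  | Instr.choose l => ∀ y ∈ q l, φ (upd z l y)
  | Instr.app S => ∀ᶠ h in (u : Filter (V → V)), φ (appS S h z)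

/-- The forcing relation. -/
def F (u : Ultrafilter (V → V)) {n : L → ℕ} : List (Instr L) → St V n → Bx V n → Set (St V n) → Prop
  | [], z, _, W => z ∈ W
  | i :: P, z, q, W => ∀ q' : Bx V n, AllBox u q' → q' ≤ q → ∃ q'' : Bx V n, AllBox u q'' ∧ q'' ≤ q' ∧
      Step u i z q'' (fun z' => F u P z' q'' W)

/-- The leaves chosen by a program. -/
def lv (P : List (Instr L)) : Set L := {l | Instr.choose l ∈ P}

/-- No leaf is chosen twice. -/
def Good : List (Instr L) → Prop
  | [] => True
  | (Instr.choose l) :: P => l ∉ lv P ∧ Good P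
  | (Instr.app _) :: P => Good P

/-- Truth at positions. -/
def Tr (u : Ultrafilter (V → V)) {n : L → ℕ} (x : ∀ l : L, Ultrafilter (Fin (n l) → V)) :
    List (Instr L) → St V n → Set (St V n) → Prop
  | [], z, A => z ∈ A
  | (Instr.choose l) :: P, z, A => ∀ᶠ y in (x l : Filter _), Tr u x P (upd z l y) A
  | (Instr.app S) :: P, z, A => ∀ᶠ h in (u : Filter (V → V)), Tr u x P (appS S h z) A

end Defs

section Basic

variable {V : Type} {L : Type} {n : L → ℕ} {u : Ultrafilter (V → V)}

@[simp] theorem upd_self (z : St V n) (l : L) (y : Fin (n l) → V) : upd z l y l = y := by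
  simp [upd]

theorem upd_ne {z : St V n} {l l' : L} {y : Fin (n l) → V} (h : l' ≠ l) : upd z l y l' = z l' := by
  classical
  exact Function.update_of_ne h _ _

theorem appS_mem {S : Set L} {h : V → V} {z : St V n} {l : L} (hl : l ∈ S) : appS S h z l = h ∘ z l := by
  simp [appS, hl]

theorem appS_notMem {S : Set L} {h : V → V} {z : St V n} {l : L} (hl : l ∉ S) : appS S h z l = z l := by
  simp [appS, hl]

theorem Step.mono {i : Instr L} {z : St V n} {q q' : Bx V n} {φ ψ : St V n → Prop} (hq : q' ≤ q)
    (hφ : ∀ z', φ z' → ψ z') (h : Step u i z q φ) : Step u i z q' ψ := by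
  cases i with
  | choose l => exact fun y hy => hφ _ (h y (hq l hy))
  | app S => exact Filter.Eventually.mono h (fun _ hh => hφ _ hh)

theorem Step.and {i : Instr L} {z : St V n} {q : Bx V n} {φ ψ : St V n → Prop}
    (h : Step u i z q φ) (h' : Step u i z q ψ) : Step u i z q (fun z' => φ z' ∧ ψ z') := by
  cases i with
  | choose l => exact fun y hy => ⟨h y hy, h' y hy⟩
  | app S => exact Filter.Eventually.and h h'

theorem Step.exists {i : Instr L} {z : St V n} {q : Bx V n} {φ : St V n → Prop} (hq : AllBox u q)
    (h : Step u i z q φ) : ∃ z', φ z' := by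
  cases i with
  | choose l =>
      obtain ⟨y, hy⟩ := (hq l).1
      exact ⟨_, h y hy⟩
  | app S =>
      obtain ⟨g, hg⟩ := Filter.Eventually.exists h
      exact ⟨_, hg⟩

theorem F_cons {i : Instr L} {P : List (Instr L)} {z : St V n} {q : Bx V n} {W : Set (St V n)} :
    F u (i :: P) z q W ↔ ∀ q' : Bx V n, AllBox u q' → q' ≤ q → ∃ q'' : Bx V n, AllBox u q'' ∧ q'' ≤ q' ∧
      Step u i z q'' (fun z' => F u P z' q'' W) := Iff.rfl

theorem F.mono {P : List (Instr L)} {z : St V n} {q q' : Bx V n} {W W' : Set (St V n)} (hq : q' ≤ q)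
    (hW : W ⊆ W') (h : F u P z q W) : F u P z q' W' := by
  induction P generalizing z q q' with
  | nil => exact hW h
  | cons i P ih =>
      intro q₁ hb₁ hq₁
      obtain ⟨q₂, hb₂, hq₂, hs⟩ := h q₁ hb₁ (hq₁.trans hq)
      exact ⟨q₂, hb₂, hq₂, hs.mono le_rfl (fun z' hz' => ih le_rfl hz')⟩

theorem F.of_step {i : Instr L} {P : List (Instr L)} {z : St V n} {q : Bx V n} {W : Set (St V n)}
    (h : Step u i z q (fun z' => F u P z' q W)) : F u (i :: P) z q W := by
  intro q₁ hb₁ hq₁
  exact ⟨q₁, hb₁, le_rfl, h.mono hq₁ (fun z' hz' => hz'.mono hq₁ subset_rfl)⟩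

theorem F.inter {P : List (Instr L)} {z : St V n} {q : Bx V n} {W W' : Set (St V n)}
    (h : F u P z q W) (h' : F u P z q W') : F u P z q (W ∩ W') := by
  induction P generalizing z q with
  | nil => exact ⟨h, h'⟩
  | cons i P ih =>
      intro q₁ hb₁ hq₁
      obtain ⟨q₂, hb₂, hq₂, hs⟩ := h q₁ hb₁ hq₁
      obtain ⟨q₃, hb₃, hq₃, hs'⟩ := h' q₂ hb₂ (hq₂.trans hq₁)
      refine ⟨q₃, hb₃, hq₃.trans hq₂, ?_⟩
      exact ((hs.mono hq₃ (fun z' hz' => hz'.mono hq₃ subset_rfl)).and hs').mono le_rfl
        (fun z' hz' => ih hz'.1 hz'.2)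

theorem F.not_empty {P : List (Instr L)} {z : St V n} {q : Bx V n} (hq : AllBox u q) :
    ¬ F u P z q ∅ := by
  induction P generalizing z q with
  | nil => exact fun h => h
  | cons i P ih =>
      intro h
      obtain ⟨q₂, hb₂, hq₂, hs⟩ := h q hq le_rfl
      obtain ⟨z', hz'⟩ := hs.exists hb₂
      exact ih hb₂ hz'

theorem F.not_compl {P : List (Instr L)} {z : St V n} {q : Bx V n} {W : Set (St V n)} (hq : AllBox u q)
    (h : F u P z q W) : ¬ F u P z q Wᶜ := by
  intro h'
  have := h.inter h'
  rw [Set.inter_compl_self] at this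
  exact F.not_empty hq this

/-- Density: if `F` holds densely below `q` it holds at `q`. -/
theorem F.dense {P : List (Instr L)} {z : St V n} {q : Bx V n} {W : Set (St V n)} (hq : AllBox u q)
    (h : ∀ q', AllBox u q' → q' ≤ q → ∃ q'', AllBox u q'' ∧ q'' ≤ q' ∧ F u P z q'' W) : F u P z q W := by
  cases P with
  | nil =>
      obtain ⟨q'', _, _, h''⟩ := h q hq le_rfl
      exact h''
  | cons i P =>
      intro q₁ hb₁ hq₁
      obtain ⟨q₂, hb₂, hq₂, h₂⟩ := h q₁ hb₁ hq₁
      obtain ⟨q₃, hb₃, hq₃, h₃⟩ := h₂ q₂ hb₂ le_rfl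
      exact ⟨q₃, hb₃, hq₃.trans hq₂, h₃⟩

/-- `F` depends only on the coordinates not chosen by the program. -/
theorem F.congr_state {P : List (Instr L)} {z z' : St V n} {q : Bx V n} {W : Set (St V n)}
    (hz : ∀ l, l ∉ lv P → z l = z' l) (h : F u P z q W) : F u P z' q W := by
  classical
  induction P generalizing z z' q with
  | nil =>
      have : z = z' := funext fun l => hz l (by simp [lv])
      subst this
      exact h
  | cons i P ih =>
      intro q₁ hb₁ hq₁
      obtain ⟨q₂, hb₂, hq₂, hs⟩ := h q₁ hb₁ hq₁
      refine ⟨q₂, hb₂, hq₂, ?_⟩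
      cases i with
      | choose l =>
          intro y hy
          refine ih ?_ (hs y hy)
          intro l' hl'
          by_cases hll : l' = l
          · subst hll
            simp
          · simp only [upd_ne hll]
            exact hz l' (by
              simp only [lv, Set.mem_ofPred_eq, List.mem_cons, Instr.choose.injEq, not_or] at hl' ⊢
              exact ⟨hll, hl'⟩)
      | app S =>
          refine Filter.Eventually.mono hs (fun g hg => ih ?_ hg)
          intro l' hl'
          have := hz l' (by
              simp only [lv, Set.mem_ofPred_eq, List.mem_cons, reduceCtorEq, false_or] at hl' ⊢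
              exact hl')
          simp only [appS, this]

/-- `F` depends only on the boxes of the leaves chosen by the program. -/
theorem F.congr_box {P : List (Instr L)} {z : St V n} {q q' : Bx V n} {W : Set (St V n)}
    (hb : AllBox u q)
    (hq : ∀ l, l ∈ lv P → q' l ≤ q l) (h : F u P z q W) : F u P z q' W := by
  classical
  induction P generalizing z q q' with
  | nil => exact h
  | cons i P ih =>
      intro q₁ hb₁ hq₁
      let r : Bx V n := fun l => if l ∈ lv (i :: P) then q₁ l else q l
      have hr : AllBox u r := by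
        intro l
        by_cases hl : l ∈ lv (i :: P)
        · simpa only [r, if_pos hl] using hb₁ l
        · simpa only [r, if_neg hl] using hb l
      have hrq : r ≤ q := by
        intro l
        by_cases hl : l ∈ lv (i :: P)
        · simpa only [r, if_pos hl] using (hq₁ l).trans (hq l hl)
        · simp only [r, if_neg hl]
          exact le_rfl
      obtain ⟨q₂, hb₂, hq₂, hs⟩ := h r hr hrq
      let s : Bx V n := fun l => if l ∈ lv (i :: P) then q₂ l else q₁ l
      have hsb : AllBox u s := by
        intro l
        by_cases hl : l ∈ lv (i :: P)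
        · simpa only [s, if_pos hl] using hb₂ l
        · simpa only [s, if_neg hl] using hb₁ l
      have hsq : s ≤ q₁ := by
        intro l
        by_cases hl : l ∈ lv (i :: P)
        · have := hq₂ l
          simp only [r, if_pos hl] at this
          simpa only [s, if_pos hl] using this
        · simp only [s, if_neg hl]
          exact le_rfl
      refine ⟨s, hsb, hsq, ?_⟩
      have hsub : ∀ l, l ∈ lv P → s l ≤ q₂ l := by
        intro l hl
        have hl' : l ∈ lv (i :: P) := List.mem_cons_of_mem _ hl
        simp only [s, if_pos hl']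
        exact le_rfl
      cases i with
      | choose l =>
          intro y hy
          have hl' : l ∈ lv (Instr.choose l :: P) := List.mem_cons_self
          have hy' : y ∈ q₂ l := by simpa only [s, if_pos hl'] using hy
          exact ih hb₂ hsub (hs y hy')
      | app S =>
          exact Filter.Eventually.mono hs (fun g hg => ih hb₂ hsub hg)

/-- LEMMA N. -/
theorem F.split {P R : List (Instr L)} {z : St V n} {q : Bx V n} {W : Set (St V n)}
    (hq : AllBox u q)
    (h : F u (P ++ R) z q Wᶜ) : F u P z q {z' | ¬ F u R z' q W} := by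
  induction P generalizing z q with
  | nil =>
      intro h'
      exact F.not_compl hq h' h
  | cons i P ih =>
      intro q₁ hb₁ hq₁
      obtain ⟨q₂, hb₂, hq₂, hs⟩ := h q₁ hb₁ hq₁
      refine ⟨q₂, hb₂, hq₂, hs.mono le_rfl (fun z' hz' => ?_)⟩
      refine (ih hb₂ hz').mono le_rfl ?_
      intro z'' hz'' hF
      exact hz'' (hF.mono (hq₂.trans hq₁) subset_rfl)

end Basic

end Pool.MP4fb322AA
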